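import Pool.Agent.W_fb73a4_t7.Defs

/-!
[T7] OA: existence of an oriented map. (helper20)
Choose a cycle `x_i` for every face `i` (`FaceSys.face_cycle`). Let `σ i u v` say that `u → v` is a dart
of `x_i`. For an edge `e = uv` with the two faces `i`, `j` put `b e = 1 + σ i u v + σ j u v` (as elements
of `ZMod 2`; symmetric, 1 iff the two orientations agree on `e`), `b e = 0` for non-edges. At every
vertex `v`: the sum of the `b (vu)` is `dgr v + #(faces at v) = 0` (`FaceSys.faces_at`), because every
face at `v` leaves `v` exactly once. So `b` is in the cycle space, `b = ∑ i ∈ S, F i`; reverse the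
orientation of the faces of `S`: now every dart is in exactly one oriented face.
-/

set_option autoImplicit false

namespace Pool.Agent.W_fb73a4_t7

open Finset MvPolynomial
open scoped Classical
open Pool.Agent.W_fb73a4_h20

variable {V : Type} [Fintype V] {G : SimpleGraph V} {ι : Type} [Fintype ι] {F : ι → EV V}

/-- `u → v` is a dart of the closed sequence `x` -/
def Dart {V : Type} {n : ℕ} (x : ZMod n → V) (u v : V) : Prop := ∃ j, x j = u ∧ x (j + 1) = v

theorem cvec_dart {n : ℕ} (x : ZMod n → V) (u v : V) :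
    cvec x s(u, v) ≠ 0 ↔ Dart x u v ∨ Dart x v u := by
  have h1 : cvec x s(u, v) ≠ 0 ↔ ∃ j, s(x j, x (j + 1)) = s(u, v) := by
    show (if ∃ j, s(x j, x (j + 1)) = s(u, v) then (1 : ZMod 2) else 0) ≠ 0 ↔ _
    by_cases h : ∃ j, s(x j, x (j + 1)) = s(u, v)
    · rw [if_pos h]
      exact ⟨fun _ => h, fun _ => one_ne_zero⟩
    · rw [if_neg h]
      exact ⟨fun h' => absurd rfl h', fun h' => absurd h' h⟩
  rw [h1]
  constructor
  · rintro ⟨j, hj⟩
    rw [Sym2.eq_iff] at hj
    rcases hj with ⟨h2, h3⟩ | ⟨h2, h3⟩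
    · exact Or.inl ⟨j, h2, h3⟩
    · exact Or.inr ⟨j, h2, h3⟩
  · rintro (⟨j, rfl, rfl⟩ | ⟨j, rfl, rfl⟩)
    · exact ⟨j, rfl⟩
    · exact ⟨j, Sym2.eq_swap⟩

theorem dart_anti {n : ℕ} {x : ZMod n → V} (hx : IsCycSeq G x) {u v : V} (h : Dart x u v) :
    ¬ Dart x v u := by
  rintro ⟨j', h3, h4⟩
  obtain ⟨j, h1, h2⟩ := h
  have h5 : j' = j + 1 := hx.inj (h3.trans h2.symm)
  apply cyc_nbrs_ne hx j'
  rw [h4, ← h1, h5, add_sub_cancel_right]

theorem dart_adj {n : ℕ} {x : ZMod n → V} (hx : IsCycSeq G x) {u v : V} (h : Dart x u v) :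
    G.Adj u v := by
  obtain ⟨j, rfl, rfl⟩ := h
  exact hx.adj j

/-- the reversed cycle -/
theorem rev_cyc {n : ℕ} {x : ZMod n → V} (hx : IsCycSeq G x) : IsCycSeq G (fun j => x (-j)) := by
  refine ⟨hx.three, fun a b h => neg_injective (hx.inj h), fun j => ?_⟩
  have h := (hx.adj (-(j + 1))).symm
  have h1 : -(j + 1) + 1 = -j := by ring
  rw [h1] at h
  exact h

theorem rev_dart {n : ℕ} (x : ZMod n → V) (u v : V) :
    Dart (fun j => x (-j)) u v ↔ Dart x v u := by
  constructor
  · rintro ⟨j, h1, h2⟩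
    refine ⟨-(j + 1), h2, ?_⟩
    have h3 : -(j + 1) + 1 = -j := by ring
    rw [h3]
    exact h1
  · rintro ⟨j, h1, h2⟩
    refine ⟨-(j + 1), ?_, ?_⟩
    · show x (-(-(j + 1))) = u
      rw [neg_neg]
      exact h2
    · show x (-(-(j + 1) + 1)) = v
      have h3 : -(-(j + 1) + 1) = j := by ring
      rw [h3]
      exact h1

theorem cvec_congr {n m : ℕ} (x : ZMod n → V) (y : ZMod m → V)
    (h : ∀ u v, (Dart x u v ∨ Dart x v u) ↔ (Dart y u v ∨ Dart y v u)) : cvec x = cvec y := by
  have h2 : ∀ a b : ZMod 2, (a ≠ 0 ↔ b ≠ 0) → a = b := by decide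
  funext e
  induction e using Sym2.ind with
  | _ u v => exact h2 _ _ (by rw [cvec_dart, cvec_dart]; exact h u v)

/-- orientations of the faces such that every dart is in exactly one of them -/
theorem exists_orient (fs : FaceSys G ι F) (sep : SepFree G) :
    ∃ (n : ι → ℕ) (y : ∀ i, ZMod (n i) → V), (∀ i, IsCycSeq G (y i)) ∧ (∀ i, F i = cvec (y i)) ∧
      ∀ u v, G.Adj u v → ∃ i, Dart (y i) u v ∧ ∀ i', Dart (y i') u v → i' = i := by
  choose n x hx hF using fs.face_cycle sep
  have hFD : ∀ i u v, F i s(u, v) ≠ 0 ↔ Dart (x i) u v ∨ Dart (x i) v u := by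
    intro i u v
    rw [hF i]
    exact cvec_dart _ _ _
  obtain ⟨c, hc⟩ : ∃ c : V → V → ZMod 2, ∀ u v, c u v = ∑ i, if Dart (x i) u v then 1 else 0 :=
    ⟨_, fun _ _ => rfl⟩
  have h2 : ∀ a : ZMod 2, a + a = 0 := by decide
  have h3 : ∀ a b : ZMod 2, a + b = 0 → a = b := by decide
  have hcs : ∀ u v, G.Adj u v → c u v = c v u := by
    intro u v huv
    apply h3
    rw [hc, hc, ← Finset.sum_add_distrib]
    have h4 : ∀ i, ((if Dart (x i) u v then 1 else 0) + (if Dart (x i) v u then 1 else 0) : ZMod 2)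
        = if F i s(u, v) ≠ 0 then 1 else 0 := by
      intro i
      have h5 := hFD i u v
      have h6 : Dart (x i) u v → ¬ Dart (x i) v u := dart_anti (hx i)
      by_cases h7 : Dart (x i) u v
      · rw [if_pos h7, if_neg (h6 h7), if_pos (h5.2 (Or.inl h7)), add_zero]
      · by_cases h8 : Dart (x i) v u
        · rw [if_neg h7, if_pos h8, if_pos (h5.2 (Or.inr h8)), zero_add]
        · rw [if_neg h7, if_neg h8, if_neg (fun h => (h5.1 h).elim h7 h8), zero_add]
    rw [Finset.sum_congr rfl fun i _ => h4 i, Finset.sum_boole, fs.two s(u, v) huv]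
    rfl
  obtain ⟨b, hb⟩ : ∃ b : EV V, ∀ u v, b s(u, v) = if G.Adj u v then 1 + c u v else 0 := by
    refine ⟨Sym2.lift ⟨fun u v => if G.Adj u v then 1 + c u v else 0, ?_⟩, fun _ _ => rfl⟩
    intro u v
    show (if G.Adj u v then 1 + c u v else 0) = if G.Adj v u then 1 + c v u else 0
    by_cases h : G.Adj u v
    · rw [if_pos h, if_pos h.symm, hcs u v h]
    · rw [if_neg h, if_neg fun h' => h h'.symm]
  have hbc : IsCyc G b := by
    refine ⟨fun e he => ?_, fun v => ?_⟩
    · induction e using Sym2.ind with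
      | _ u v =>
        rw [hb, if_neg]
        exact he
    · have h4 : ∀ u, b s(v, u) = (if G.Adj v u then 1 else 0) + c v u := by
        intro u
        rw [hb]
        by_cases h : G.Adj v u
        · rw [if_pos h, if_pos h]
        · rw [if_neg h, if_neg h, zero_add, hc]
          symm
          refine Finset.sum_eq_zero fun i _ => if_neg fun hd => h (dart_adj (hx i) hd)
      have h5 : dg b v = ∑ u, b s(v, u) := rfl
      have h6 : ∑ u, (if G.Adj v u then 1 else 0 : ZMod 2) = (dgr G v : ZMod 2) := by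
        rw [Finset.sum_boole]
        congr 1
        unfold dgr
        rw [← Set.ncard_coe_finset]
        congr 1
        ext u
        simp
      have h7 : ∑ u, c v u = (dgr G v : ZMod 2) := by
        rw [Finset.sum_congr rfl fun u _ => hc v u, Finset.sum_comm]
        have h8 : ∀ i, ∑ u, (if Dart (x i) v u then 1 else 0 : ZMod 2) =
            if On (F i) v then 1 else 0 := by
          intro i
          by_cases h9 : On (F i) v
          · rw [if_pos h9]
            have h10 : On (cvec (x i)) v := by rw [← hF i]; exact h9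
            obtain ⟨j, hj⟩ := (cvec_on (hx i) v).1 h10
            rw [Finset.sum_eq_single (x i (j + 1)) (fun u _ hu => if_neg ?_)
              (fun h => absurd (Finset.mem_univ _) h)]
            · exact if_pos ⟨j, hj, rfl⟩
            · rintro ⟨j', h11, h12⟩
              have h13 : j' = j := (hx i).inj (h11.trans hj.symm)
              rw [h13] at h12
              exact hu h12.symm
          · rw [if_neg h9]
            refine Finset.sum_eq_zero fun u _ => if_neg fun hd => h9 ?_
            exact ⟨u, (hFD i v u).2 (Or.inl hd)⟩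
        rw [Finset.sum_congr rfl fun i _ => h8 i, Finset.sum_boole, fs.faces_at sep v]
      rw [h5, Finset.sum_congr rfl fun u _ => h4 u, Finset.sum_add_distrib, h6, h7]
      exact h2 _
  obtain ⟨S, hS⟩ := fs.gen b hbc
  obtain ⟨y, hy⟩ : ∃ y : ∀ i, ZMod (n i) → V,
      ∀ i, y i = if i ∈ S then fun j => x i (-j) else x i := ⟨_, fun _ => rfl⟩
  have hyD : ∀ i u v, Dart (y i) u v ↔ if i ∈ S then Dart (x i) v u else Dart (x i) u v := by
    intro i u v
    rw [hy i]
    by_cases hi : i ∈ S
    · rw [if_pos hi, if_pos hi]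
      exact rev_dart _ _ _
    · rw [if_neg hi, if_neg hi]
  refine ⟨n, y, fun i => ?_, fun i => ?_, ?_⟩
  · rw [hy i]
    by_cases hi : i ∈ S
    · rw [if_pos hi]
      exact rev_cyc (hx i)
    · rw [if_neg hi]
      exact hx i
  · rw [hF i]
    refine cvec_congr _ _ fun u v => ?_
    rw [hyD, hyD]
    by_cases hi : i ∈ S
    · rw [if_pos hi, if_pos hi]
      exact or_comm
    · rw [if_neg hi, if_neg hi]
  · intro u v huv
    have hD := fun i => hyD i u v
    obtain ⟨i, j, hij, hi, hj, hall⟩ := fs.exists_two (e := s(u, v)) huv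
    have h4 := fs.sum_ne_zero S hij hi hj
    rw [← hS, hb, if_pos huv, hc] at h4
    have h5 : (∑ k, if Dart (x k) u v then 1 else 0 : ZMod 2) =
        (if Dart (x i) u v then 1 else 0) + (if Dart (x j) u v then 1 else 0) := by
      refine Fintype.sum_eq_add i j hij fun k hk => if_neg fun hd => ?_
      rcases hall k ((hFD k u v).2 (Or.inl hd)) with h | h
      · exact hk.1 h
      · exact hk.2 h
    rw [h5] at h4
    have h6 := (hFD i u v).1 hi
    have h7 := (hFD j u v).1 hj
    have h8 : Dart (x i) u v → ¬ Dart (x i) v u := dart_anti (hx i)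
    have h9 : Dart (x j) u v → ¬ Dart (x j) v u := dart_anti (hx j)
    have hall' : ∀ k, Dart (y k) u v → k = i ∨ k = j := by
      intro k hk
      refine hall k ((hFD k u v).2 ?_)
      rw [hD] at hk
      by_cases hkS : k ∈ S
      · rw [if_pos hkS] at hk
        exact Or.inr hk
      · rw [if_neg hkS] at hk
        exact Or.inl hk
    have e1 : (1 : ZMod 2) + (1 + 1) ≠ 0 := by decide
    have e2 : ¬ (1 : ZMod 2) + (1 + 0) ≠ 0 := by decide
    have e3 : ¬ (1 : ZMod 2) + (0 + 1) ≠ 0 := by decide
    have e4 : (1 : ZMod 2) + (0 + 0) ≠ 0 := by decide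
    have key : (Dart (y i) u v ∧ ¬ Dart (y j) u v) ∨ (¬ Dart (y i) u v ∧ Dart (y j) u v) := by
      rw [hD i, hD j]
      by_cases hiS : i ∈ S <;> by_cases hjS : j ∈ S <;> by_cases hdi : Dart (x i) u v <;>
        by_cases hdj : Dart (x j) u v <;>
        simp only [hiS, hjS, hdi, hdj, if_true, if_false, not_true, not_false_iff, and_true,
          and_false, or_false, false_or, true_and, false_and, iff_true, iff_false, true_or,
          not_not] at h4 h6 h7 h8 h9 e1 e2 e3 e4 ⊢ <;> tauto
    rcases key with ⟨hk1, hk2⟩ | ⟨hk1, hk2⟩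
    · refine ⟨i, hk1, fun k hk => ?_⟩
      rcases hall' k hk with h | h
      · exact h
      · subst h
        exact absurd hk hk2
    · refine ⟨j, hk2, fun k hk => ?_⟩
      rcases hall' k hk with h | h
      · subst h
        exact absurd hk hk1
      · exact h

theorem exists_OM (fs : FaceSys G ι F) (sep : SepFree G)
    (_hoff : ∀ i, ∃ e ∈ G.edgeSet, F i e = 0) (he : ∃ e, e ∈ G.edgeSet) : Nonempty (OM G F) := by
  obtain ⟨n, y, hy, hF, hor⟩ := exists_orient fs sep
  obtain ⟨i0⟩ : Nonempty ι := by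
    obtain ⟨e, he⟩ := he
    obtain ⟨i, -⟩ := fs.exists_two he
    exact ⟨i⟩
  have huniq : ∀ {u v i i'}, Dart (y i) u v → Dart (y i') u v → i = i' := by
    intro u v i i' h h'
    obtain ⟨k, -, hk⟩ := hor u v (dart_adj (hy i) h)
    rw [hk i h, hk i' h']
  have key : ∀ u v, ∃ (i : ι) (w : V), G.Adj u v →
      ∃ j, y i j = u ∧ y i (j + 1) = v ∧ y i (j + 2) = w := by
    intro u v
    by_cases h : G.Adj u v
    · obtain ⟨i, ⟨j, h1, h2⟩, -⟩ := hor u v h
      exact ⟨i, y i (j + 2), fun _ => ⟨j, h1, h2, rfl⟩⟩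
    · exact ⟨i0, u, fun h' => absurd h' h⟩
  choose lf s hls using key
  have hlf : ∀ i j, lf (y i j) (y i (j + 1)) = i := by
    intro i j
    obtain ⟨j', h1, h2, -⟩ := hls (y i j) (y i (j + 1)) ((hy i).adj j)
    exact huniq ⟨j', h1, h2⟩ ⟨j, rfl, rfl⟩
  have hs : ∀ i j, s (y i j) (y i (j + 1)) = y i (j + 2) := by
    intro i j
    obtain ⟨j', h1, h2, h3⟩ := hls (y i j) (y i (j + 1)) ((hy i).adj j)
    have h4 := hlf i j
    rw [← h3]
    clear h3
    generalize lf (y i j) (y i (j + 1)) = i' at j' h1 h2 h4 ⊢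
    subst h4
    rw [(hy i').inj h1]
  have hex : ∀ u v, G.Adj u v → ∃ i j, u = y i j ∧ v = y i (j + 1) := by
    intro u v h
    obtain ⟨j, h1, h2, -⟩ := hls u v h
    exact ⟨lf u v, j, h1.symm, h2.symm⟩
  have e1 : ∀ i (j : ZMod (n i)), j + 1 + 1 = j + 2 := fun i j => by ring
  have hlf2 : ∀ i j, lf (y i (j + 1)) (y i (j + 2)) = i := by
    intro i j
    have := hlf i (j + 1)
    rw [e1] at this
    exact this
  have hcorner : ∀ u u' v, G.Adj u v → G.Adj u' v → lf u v = lf u' v → u = u' := by
    intro u u' v h h' hl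
    obtain ⟨i, j, rfl, rfl⟩ := hex u v h
    obtain ⟨i', j', h1, h2⟩ := hex u' _ h'
    have h3 := hlf i' j'
    rw [← h1, ← h2] at h3
    rw [hlf, h3] at hl
    subst hl
    have h4 := (hy i).inj h2
    have h5 : j = j' := add_right_cancel h4
    rw [h1, h5]
  have hadj : ∀ u v, G.Adj u v → G.Adj v (s u v) := by
    intro u v h
    obtain ⟨i, j, rfl, rfl⟩ := hex u v h
    rw [hs, ← e1]
    exact (hy i).adj (j + 1)
  have hlfs : ∀ u v, G.Adj u v → lf v (s u v) = lf u v := by
    intro u v h
    obtain ⟨i, j, rfl, rfl⟩ := hex u v h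
    rw [hs, hlf, hlf2]
  have hinj : ∀ u u' v, G.Adj u v → G.Adj u' v → s u v = s u' v → u = u' := by
    intro u u' v h h' hl
    refine hcorner u u' v h h' ?_
    rw [← hlfs u v h, ← hlfs u' v h', hl]
  have hon : ∀ u v, G.Adj u v → F (lf u v) s(u, v) ≠ 0 := by
    intro u v h
    obtain ⟨i, j, rfl, rfl⟩ := hex u v h
    rw [hlf, hF i, cvec_edge (hy i)]
    exact one_ne_zero
  have hother : ∀ u v, G.Adj u v → lf u v ≠ lf v u := by
    intro u v h hl
    have h5 : Dart (y (lf u v)) u v := by
      obtain ⟨j, h1, h2, -⟩ := hls u v h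
      exact ⟨j, h1, h2⟩
    have h6 : Dart (y (lf v u)) v u := by
      obtain ⟨j, h1, h2, -⟩ := hls v u h.symm
      exact ⟨j, h1, h2⟩
    rw [← hl] at h6
    exact dart_anti (hy _) h5 h6
  refine ⟨⟨s, lf, hadj, ?_, hlfs, hon, hother, hinj, hcorner, ?_, ?_⟩⟩
  · intro u v h
    obtain ⟨i, j, rfl, rfl⟩ := hex u v h
    rw [hs]
    have := cyc_nbrs_ne (hy i) (j + 1)
    rw [e1, add_sub_cancel_right] at this
    exact this
  · intro u v h
    obtain ⟨i, j, rfl, rfl⟩ := hex u v h
    refine ⟨n i, fun k => y i (j + k), ⟨(hy i).three, fun a b h => add_left_cancel ((hy i).inj h),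
      fun k => ?_⟩, ?_, ?_, rfl, fun k => ?_⟩
    · show G.Adj (y i (j + k)) (y i (j + (k + 1)))
      rw [← add_assoc]
      exact (hy i).adj (j + k)
    · rw [hlf, hF i]
      refine cvec_congr _ _ fun u v => ?_
      have hsh : ∀ u v, Dart (y i) u v ↔ Dart (fun k => y i (j + k)) u v := by
        intro u v
        constructor
        · rintro ⟨k, h1, h2⟩
          refine ⟨k - j, ?_, ?_⟩
          · show y i (j + (k - j)) = u
            rw [add_sub_cancel]
            exact h1
          · show y i (j + (k - j + 1)) = v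
            rw [← add_assoc, add_sub_cancel]
            exact h2
        · rintro ⟨k, h1, h2⟩
          refine ⟨j + k, h1, ?_⟩
          rw [add_assoc]
          exact h2
      rw [hsh, hsh]
    · show y i (j + 0) = y i j
      rw [add_zero]
    · show y i (j + (k + 2)) = s (y i (j + k)) (y i (j + (k + 1)))
      have := hs i (j + k)
      rw [add_assoc, add_assoc] at this
      exact this.symm
  · intro u u' v hu hu'
    have hN : ∀ k, G.Adj ((fun a => s a v)^[k] u) v := by
      intro k
      induction k with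
      | zero => exact hu
      | succ k ih =>
        rw [Function.iterate_succ_apply']
        exact (hadj _ _ ih).symm
    obtain ⟨A, hA⟩ : ∃ A : Finset V, ∀ a, a ∈ A ↔ ∃ k, (fun a => s a v)^[k] u = a :=
      ⟨univ.filter fun a => ∃ k, (fun a => s a v)^[k] u = a, fun a => by simp⟩
    have hAN : ∀ a ∈ A, G.Adj a v := by
      intro a ha
      obtain ⟨k, rfl⟩ := (hA a).1 ha
      exact hN k
    have himg : A.image (fun a => s a v) = A := by
      refine Finset.eq_of_subset_of_card_le ?_ ?_
      · intro w hw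
        obtain ⟨a, ha, rfl⟩ := Finset.mem_image.1 hw
        obtain ⟨k, hk⟩ := (hA a).1 ha
        refine (hA _).2 ⟨k + 1, ?_⟩
        rw [Function.iterate_succ_apply', hk]
      · rw [Finset.card_image_of_injOn]
        intro a ha a' ha' h
        exact hinj a a' v (hAN a ha) (hAN a' ha') h
    obtain ⟨S, hS⟩ : ∃ S : Finset ι, S = A.image fun a => lf a v := ⟨_, rfl⟩
    have hSA : ∀ a, G.Adj a v → (lf a v ∈ S ↔ a ∈ A) := by
      intro a ha
      rw [hS, Finset.mem_image]
      constructor
      · rintro ⟨a', ha', h⟩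
        rw [← hcorner a' a v (hAN a' ha') ha h]
        exact ha'
      · intro h
        exact ⟨a, h, rfl⟩
    have hk : ∀ w, (∑ i ∈ S, F i) s(v, w) = 0 := by
      intro w
      by_cases hvw : G.Adj v w
      · by_contra hne
        have hw := hon v w hvw
        have hw' := hon w v hvw.symm
        rw [Sym2.eq_swap] at hw'
        have h1 := (fs.sum_ne_zero S (hother v w hvw) hw hw').1 hne
        obtain ⟨a, hav, haw⟩ : ∃ a, G.Adj a v ∧ s a v = w := by
          obtain ⟨i, j, h2, h3⟩ := hex v w hvw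
          refine ⟨y i (j - 1), ?_, ?_⟩
          · have := (hy i).adj (j - 1)
            rw [sub_add_cancel] at this
            rw [h2]
            exact this
          · have := hs i (j - 1)
            rw [sub_add_cancel] at this
            rw [h2, h3, this]
            congr 1
            ring
        have h2 : lf v w = lf a v := by rw [← haw]; exact hlfs a v hav
        have h3 : a ∈ A ↔ w ∈ A := by
          constructor
          · intro h
            rw [← himg, Finset.mem_image]
            exact ⟨a, h, haw⟩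
          · intro h
            rw [← himg, Finset.mem_image] at h
            obtain ⟨a', ha', h4⟩ := h
            rw [← hinj a' a v (hAN a' ha') hav (h4.trans haw.symm)]
            exact ha'
        rw [h2, hSA a hav, hSA w hvw.symm, h3] at h1
        tauto
      · rw [Finset.sum_apply]
        exact Finset.sum_eq_zero fun i _ => (fs.cyc i).1 _ hvw
    rcases fs.all_or_none sep S v hk with h | h
    · have h1 := h (lf u' v) ⟨u', by rw [Sym2.eq_swap]; exact hon u' v hu'⟩
      rw [hSA u' hu', hA] at h1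
      exact h1
    · exfalso
      refine h (lf u v) ⟨u, by rw [Sym2.eq_swap]; exact hon u v hu⟩ ?_
      rw [hSA u hu, hA]
      exact ⟨0, rfl⟩

end Pool.Agent.W_fb73a4_t7
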