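import Pool.Agent.W_fb73a4_t7.DE
import Pool.Agent.W_fb73a4_t7.OA

/-!
[T7] DF: if all reductions hold there is no minimal counterexample.
-/

set_option autoImplicit false

namespace Pool.Agent.W_fb73a4_t7

open Finset MvPolynomial
open scoped Classical
open Pool.Agent.W_fb73a4_h20

variable {V : Type} [Fintype V] {G : SimpleGraph V} {ι : Type} [Fintype ι] {F : ι → EV V}
  {i0 : ι} {m : ℕ} {x : ZMod m → V} {C : Finset V}

theorem no_env (E : Env G ι F i0 m x C) (hgood : ∀ M : OM G F, Good M C) : False := by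
  obtain ⟨M⟩ := exists_OM E.fs E.sep E.off ⟨s(x 0, x (0 + 1)), E.hx.adj 0⟩
  obtain ⟨M', h⟩ := M.exists_rev
  exact E.discharge M fun u v ha h0 h3 => E.face_ineq M h (hgood M) (hgood M') ha h0 h3

end Pool.Agent.W_fb73a4_t7
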