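import Pool.Agent.W_fb73a4_t7.EA

/-!
[T7] EH: no vertex strictly inside a short cycle
-/

set_option autoImplicit false

namespace Pool.Agent.W_fb73a4_t7

open Finset MvPolynomial
open scoped Classical
open Pool.Agent.W_fb73a4_h20
open Pool.Agent.W_fb73a4_h57 (P3 I3 kill)

variable {V : Type} [Fintype V] {G : SimpleGraph V}
variable {n m : ℕ} {x : ZMod m → V} {C : Finset V}

/-- all faces at a vertex off the cycle are on the same side -/
private theorem eh_all {ι : Type} [Fintype ι] {Fc : ι → EV V} (fs : FaceSys G ι Fc)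
    (sep : SepFree G) {r : ℕ} {y : ZMod r → V} (hy : IsCycSeq G y) {S : Finset ι}
    (hsum : cvec y = ∑ i ∈ S, Fc i)
    {u : V} (hu : u ∉ Set.range y) {i : ι} (hi : i ∈ S) (hon : On (Fc i) u) :
    ∀ j, On (Fc j) u → j ∈ S := by
  rcases fs.all_or_none sep S u (by
    intro w
    rw [← hsum]
    by_contra hne
    exact hu ((cvec_on hy u).1 ⟨w, hne⟩)) with h | h
  · exact h
  · exact absurd hi (h i hon)

/-- edges from the inside go to the inside or to the cycle -/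
private theorem eh_edge {ι : Type} [Fintype ι] {Fc : ι → EV V} (fs : FaceSys G ι Fc)
    (sep : SepFree G) {r : ℕ} {y : ZMod r → V} (hy : IsCycSeq G y) {S : Finset ι}
    (hsum : cvec y = ∑ i ∈ S, Fc i)
    {u : V} (hu : u ∉ Set.range y ∧ ∃ i ∈ S, On (Fc i) u) {w : V} (huw : G.Adj u w) :
    (w ∉ Set.range y ∧ ∃ i ∈ S, On (Fc i) w) ∨ w ∈ Set.range y := by
  obtain ⟨hu1, i, hi, hon⟩ := hu
  by_cases hw : w ∈ Set.range y
  · exact Or.inr hw
  · obtain ⟨a, -, -, ha, -, -⟩ := fs.exists_two (e := s(u, w)) huw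
    have haS := eh_all fs sep hy hsum hu1 hi hon a ⟨w, ha⟩
    exact Or.inl ⟨hw, a, haS, u, by rw [Sym2.eq_swap]; exact ha⟩

/-- Suppose `u` is on `F i`, `i ∈ S`, `u` not on `y`. `T` = edges with both faces in `S` which are not
inside the vertex set `Y` of `y`. `G1 = sub G Tᶜ` contains `x` (the edges of `x` have the face `i0`) and
has fewer edges (an edge of `F i` at `u` is in `T`). `G2 = sub G (T ∪ edges of y ∪ edges inside Y)` has
fewer edges: otherwise all edges of `x` are edges of `y` (an edge of `x` is not in `T`, if it is inside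
`Y` with one face in `S`... use only `T ∪ edges of y ∪ (edges with both faces in S)`), and then
`cvec x = cvec y` (`sub_cycle`), `range x = range y`, against `∃ j, y j ∉ C`.
`nz_glue` with `S := eo G1 C`, `T`, `W` = vertices of `G1`: a vertex of an edge of `T` which is not in
`Y` has all its edges in `T` (`FaceSys.all_or_none`), so it is not in `W` and not in `C`; the vertices
of `Y` are in `W`: `kill (W ∪ C)` on `T` is `kill Y`, and `T = eo G2 Y`: induction. -/
theorem Cex.short (c : Cex G n m x C) {ι : Type} [Fintype ι] {F : ι → EV V} (fs : FaceSys G ι F)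
    (sep : SepFree G) {i0 : ι} (h0 : F i0 = cvec x) (k : ℕ) (y : ZMod k → V) (hk : k ≤ 11)
    (hy : IsCycSeq G y) (hj : ∃ j, y j ∉ C) (S : Finset ι) (hS : i0 ∉ S)
    (hsum : cvec y = ∑ i ∈ S, F i) (u : V) (hu : u ∉ Set.range y) (i : ι) (hi : i ∈ S) :
    ¬ On (F i) u := by
  intro hon
  have hadj : ∀ (i : ι) (a b : V), F i s(a, b) ≠ 0 → G.Adj a b := by
    intro i a b hab
    by_contra hn
    exact hab ((fs.cyc i).1 _ hn)
  obtain ⟨D, hD⟩ : ∃ D : Set V, D = {u | u ∉ Set.range y ∧ ∃ i ∈ S, On (F i) u} := ⟨_, rfl⟩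
  have mD : ∀ u, u ∈ D ↔ (u ∉ Set.range y ∧ ∃ i ∈ S, On (F i) u) := by
    intro u; rw [hD]; exact Iff.rfl
  have huD : u ∈ D := (mD u).2 ⟨hu, i, hi, hon⟩
  have hDx : ∀ v ∈ Set.range x, v ∉ D := by
    intro v hv hvD
    obtain ⟨hr', j, hj', hon'⟩ := (mD v).1 hvD
    refine hS (eh_all fs sep hy hsum hr' hj' hon' i0 ?_)
    rw [h0]
    exact (cvec_on c.hx v).2 hv
  have hDC : ∀ v ∈ C, v ∉ D := fun v hv => hDx v ((c.hC v).1 hv)
  have hDy : ∀ v ∈ Set.range y, v ∉ D := fun v hv hvD => ((mD v).1 hvD).1 hv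
  have hb : ∀ u ∈ D, ∀ w, G.Adj u w → w ∈ D ∨ w ∈ Set.range y := by
    intro u hu w huw
    rcases eh_edge fs sep hy hsum ((mD u).1 hu) huw with hh | hh
    · exact Or.inl ((mD w).2 hh)
    · exact Or.inr hh
  obtain ⟨v, hv⟩ := hon
  -- the first graph
  obtain ⟨E1, hE1⟩ : ∃ E1 : Set (Sym2 V), E1 = {e | ∀ d ∈ e, d ∉ D} := ⟨_, rfl⟩
  have m1 : ∀ e, e ∈ E1 ↔ ∀ d ∈ e, d ∉ D := by
    intro e; rw [hE1]; exact Iff.rfl
  have hlt1 := ncard_sub_lt (G := G) E1 ⟨s(u, v), hadj _ _ _ hv, fun hh =>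
    (m1 _).1 hh u (by simp) huD⟩
  have nz1 : NZ (sub G E1) C := by
    refine (c.ih (sub G E1) (c.cls.mono (sub_le E1)) (by have := c.hn; omega)).1 m x C c.hm
      ⟨c.hx.three, c.hx.inj, fun j => ⟨c.hx.adj j, (m1 _).2 ?_⟩⟩ c.hC
    intro d hd
    rw [Sym2.mem_iff] at hd
    rcases hd with rfl | rfl
    · exact hDx _ ⟨_, rfl⟩
    · exact hDx _ ⟨_, rfl⟩
  -- the second graph
  obtain ⟨E2, hE2⟩ : ∃ E2 : Set (Sym2 V), E2 = {e | cvec y e ≠ 0 ∨ ∃ d ∈ D, d ∈ e} := ⟨_, rfl⟩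
  have mE : ∀ e, e ∈ E2 ↔ (cvec y e ≠ 0 ∨ ∃ d ∈ D, d ∈ e) := by
    intro e; rw [hE2]; exact Iff.rfl
  have hmiss : ∃ e ∈ G.edgeSet, e ∉ E2 := by
    by_contra hn
    push Not at hn
    have hsub : ∀ e, cvec x e ≠ 0 → cvec y e ≠ 0 := by
      intro e he
      rw [cvec] at he
      by_cases hex : ∃ j, s(x j, x (j + 1)) = e
      · obtain ⟨j, rfl⟩ := hex
        rcases (mE _).1 (hn s(x j, x (j + 1)) (c.hx.adj j)) with h2 | ⟨d, hd, hd'⟩
        · exact h2
        · exfalso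
          rw [Sym2.mem_iff] at hd'
          rcases hd' with rfl | rfl
          · exact hDx _ ⟨_, rfl⟩ hd
          · exact hDx _ ⟨_, rfl⟩ hd
      · rw [if_neg hex] at he
        exact absurd rfl he
    have heq := sub_cycle hy (cvec_isCyc c.hx) (cvec_ne_zero c.hx) hsub
    obtain ⟨j, hj⟩ := hj
    apply hj
    rw [c.hC, ← cvec_on c.hx, heq, cvec_on hy]
    exact ⟨j, rfl⟩
  have hlt2 := ncard_sub_lt (G := G) E2 hmiss
  obtain ⟨Y, hY⟩ : ∃ Y : Finset V, Y = univ.filter (fun v => v ∈ Set.range y) := ⟨_, rfl⟩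
  have mY : ∀ v, v ∈ Y ↔ v ∈ Set.range y := by
    intro v; rw [hY, mem_filter]; simp
  have nz2 : NZ (sub G E2) Y := by
    refine (c.ih (sub G E2) (c.cls.mono (sub_le E2)) (by have := c.hn; omega)).1 k y Y hk
      ⟨hy.three, hy.inj, fun j => ⟨hy.adj j, (mE _).2 (Or.inl ?_)⟩⟩ mY
    rw [cvec_edge hy]; exact one_ne_zero
  -- the edges
  have hcy : ∀ e, cvec y e ≠ 0 → ∀ w ∈ e, w ∈ Set.range y := by
    intro e
    induction e using Sym2.ind with
    | _ a b =>
      intro he w hw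
      rw [Sym2.mem_iff] at hw
      rcases hw with rfl | rfl
      · exact (cvec_on hy _).1 ⟨b, he⟩
      · exact (cvec_on hy _).1 ⟨a, by rw [Sym2.eq_swap]; exact he⟩
  have hT : (eo G C).filter (fun e => ¬ e ∈ E1) = eo (sub G E2) Y := by
    rw [eo_sub]
    ext e
    simp only [mem_filter, eo, mem_univ, true_and]
    constructor
    · rintro ⟨⟨he, -⟩, h1⟩
      rw [m1] at h1
      push Not at h1
      obtain ⟨d, hd, hdD⟩ := h1
      refine ⟨⟨he, fun h => ?_⟩, (mE e).2 (Or.inr ⟨d, hdD, hd⟩)⟩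
      exact hDy d ((mY d).1 (h d hd)) hdD
    · rintro ⟨⟨he, h2⟩, h3⟩
      rcases (mE e).1 h3 with h4 | ⟨d, hd, hde⟩
      · exact absurd (fun w hw => (mY w).2 (hcy e h4 w hw)) h2
      · refine ⟨⟨he, fun h => hDC d (h d hde) hd⟩, fun h => (m1 e).1 h d hde hd⟩
  have hTv : ∀ e ∈ eo (sub G E2) Y, ∀ w ∈ e, w ∈ D ∪ Set.range y := by
    intro e he
    rw [← hT, mem_filter, eo, mem_filter] at he
    obtain ⟨⟨-, he, -⟩, h1⟩ := he
    rw [m1] at h1
    push Not at h1
    obtain ⟨d, hd, hdD⟩ := h1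
    obtain ⟨w', rfl⟩ := Sym2.mem_iff_exists.1 hd
    intro w hw
    rw [Sym2.mem_iff] at hw
    rcases hw with rfl | rfl
    · exact Or.inl hdD
    · exact hb d hdD w he
  obtain ⟨W, hW⟩ : ∃ W : Finset V, W = univ.filter (fun v => v ∉ D) := ⟨_, rfl⟩
  have mW : ∀ v, v ∈ W ↔ v ∉ D := by
    intro v; rw [hW, mem_filter]; simp
  have hkill : kill (W ∪ C) (∏ e ∈ eo (sub G E2) Y, lin e : P3 V) =
      kill Y (∏ e ∈ eo (sub G E2) Y, lin e) := by
    refine kill_congr _ _ (D ∪ Set.range y) (prod_lin_supported _ _ hTv) ?_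
    intro w hw
    rw [mem_union, mW, mY]
    constructor
    · intro h
      rcases hw with hw | hw
      · rcases h with h | h
        · exact absurd hw h
        · exact absurd hw (hDC w h)
      · exact hw
    · intro h
      exact Or.inl (hDy w h)
  refine nz_glue C W ((eo G C).filter (fun e => e ∈ E1)) (eo (sub G E2) Y) ?_ ?_ ?_ ?_ ?_ c.zero
  · rw [← hT]
    exact disjoint_filter_filter_not _ _ _
  · rw [← hT]
    exact (filter_union_filter_not_eq _ _).symm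
  · intro e he w hw
    rw [mem_filter] at he
    exact (mW w).2 ((m1 e).1 he.2 w hw)
  · rw [← eo_sub]
    exact nz1
  · rw [hkill]
    exact nz2

end Pool.Agent.W_fb73a4_t7
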