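import Pool.Agent.W_fb73a4_t7.EA

/-!
[T7] EO: the outer face
-/

set_option autoImplicit false

namespace Pool.Agent.W_fb73a4_t7

open Finset MvPolynomial
open scoped Classical
open Pool.Agent.W_fb73a4_h20
open Pool.Agent.W_fb73a4_h57 (P3 I3 kill)

variable {V : Type} [Fintype V] {G : SimpleGraph V}
variable {n m : ℕ} {x : ZMod m → V} {C : Finset V}

/-- all faces at a vertex off the cycle are on the same side -/
private theorem eo_side_all {ι : Type} [Fintype ι] {Fc : ι → EV V} (fs : FaceSys G ι Fc)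
    (sep : SepFree G) {r : ℕ} {y : ZMod r → V} (hy : IsCycSeq G y) {S : Finset ι}
    (hsum : cvec y = ∑ i ∈ S, Fc i) {u : V} (hu : u ∉ Set.range y) {i : ι} (hi : i ∈ S)
    (hon : On (Fc i) u) : ∀ j, On (Fc j) u → j ∈ S := by
  rcases fs.all_or_none sep S u (by
    intro w
    rw [← hsum]
    by_contra hne
    exact hu ((cvec_on hy u).1 ⟨w, hne⟩)) with h | h
  · exact h
  · exact absurd hi (h i hon)

/-- edges from the inside go to the inside or to the cycle -/
private theorem eo_side_edge {ι : Type} [Fintype ι] {Fc : ι → EV V} (fs : FaceSys G ι Fc)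
    (sep : SepFree G) {r : ℕ} {y : ZMod r → V} (hy : IsCycSeq G y) {S : Finset ι}
    (hsum : cvec y = ∑ i ∈ S, Fc i) {u : V} (hu : u ∉ Set.range y ∧ ∃ i ∈ S, On (Fc i) u) {w : V}
    (huw : G.Adj u w) : (w ∉ Set.range y ∧ ∃ i ∈ S, On (Fc i) w) ∨ w ∈ Set.range y := by
  obtain ⟨hu1, i, hi, hon⟩ := hu
  by_cases hw : w ∈ Set.range y
  · exact Or.inr hw
  · obtain ⟨a, -, -, ha, -, -⟩ := fs.exists_two (e := s(u, w)) huw
    have haS := eo_side_all fs sep hy hsum hu1 hi hon a ⟨w, ha⟩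
    exact Or.inl ⟨hw, a, haS, u, by rw [Sym2.eq_swap]; exact ha⟩

/-- the induction hypothesis for a proper subgraph which contains the cycle -/
private theorem eo_ih (c : Cex G n m x C) (E1 : Set (Sym2 V)) (h : ∃ e ∈ G.edgeSet, e ∉ E1)
    (hE : ∀ j, s(x j, x (j + 1)) ∈ E1) : NZ (sub G E1) C := by
  have h1 := ncard_sub_lt E1 h
  have h2 := c.hn
  exact (c.ih (sub G E1) (c.cls.mono (sub_le E1)) (by omega)).1 m x C c.hm
    ⟨c.hx.three, c.hx.inj, fun j => ⟨c.hx.adj j, hE j⟩⟩ c.hC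

/-- Let `cvec x = ∑ i ∈ S, F i`. `E1` = edges off `x` with a face in `S` (then both faces are in `S`).
If there are edges in `E1` and edges off `x` not in `E1`: `nz_glue` with these two parts of `eo G C`
(no chord: all edges off `x` are in `eo G C`): no vertex outside `C` is on both parts
(`FaceSys.all_or_none`), both parts are not zero by induction (`sub G (E1 ∪ edges of x)`).
So one part is empty, say `E1`: every `F i`, `i ∈ S`, has its edges in `x`, so `F i = cvec x`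
(`sub_cycle`); if the other part is empty take the complement of `S` (`FaceSys.sum_compl`). -/
theorem Cex.outer (c : Cex G n m x C) {ι : Type} [Fintype ι] {F : ι → EV V} (fs : FaceSys G ι F)
    (sep : SepFree G) : ∃ i0, F i0 = cvec x := by
  obtain ⟨S, hS⟩ := fs.gen _ (cvec_isCyc c.hx)
  have hSc : cvec x = ∑ i ∈ Sᶜ, F i := by rw [fs.sum_compl]; exact hS
  have hadj : ∀ (i : ι) (a b : V), F i s(a, b) ≠ 0 → G.Adj a b := by
    intro i a b hab
    by_contra hn
    exact hab ((fs.cyc i).1 _ hn)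
  -- one side without vertices off the cycle gives a face
  have hside : ∀ S : Finset ι, cvec x = ∑ i ∈ S, F i →
      (∀ u, ¬ (u ∉ Set.range x ∧ ∃ i ∈ S, On (F i) u)) → ∃ i0, F i0 = cvec x := by
    intro S hS hD
    have hne : S.Nonempty := by
      rw [Finset.nonempty_iff_ne_empty]
      rintro rfl
      exact cvec_ne_zero c.hx (by rw [hS]; simp)
    obtain ⟨i, hi⟩ := hne
    refine ⟨i, sub_cycle c.hx (fs.cyc i) (fs.ne i) ?_⟩
    intro e
    induction e using Sym2.ind with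
    | _ a b =>
      intro he
      have ha : a ∈ Set.range x := by
        by_contra hn
        exact hD a ⟨hn, i, hi, b, he⟩
      have hb : b ∈ Set.range x := by
        by_contra hn
        exact hD b ⟨hn, i, hi, a, by rw [Sym2.eq_swap]; exact he⟩
      exact c.chord a b ((c.hC a).2 ha) ((c.hC b).2 hb) (hadj i a b he)
  by_cases h1 : ∀ u, ¬ (u ∉ Set.range x ∧ ∃ i ∈ S, On (F i) u)
  · exact hside S hS h1
  by_cases h2 : ∀ u, ¬ (u ∉ Set.range x ∧ ∃ i ∈ Sᶜ, On (F i) u)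
  · exact hside Sᶜ hSc h2
  exfalso
  push Not at h1 h2
  obtain ⟨u1, hu1, i1, hi1, v1, hv1⟩ := h1
  obtain ⟨u2, hu2, i2, hi2, v2, hv2⟩ := h2
  obtain ⟨D, hD⟩ : ∃ D : Finset V, ∀ u, u ∈ D ↔ (u ∉ Set.range x ∧ ∃ i ∈ S, On (F i) u) :=
    ⟨univ.filter fun u => u ∉ Set.range x ∧ ∃ i ∈ S, On (F i) u, fun u => by
      rw [Finset.mem_filter]
      exact ⟨fun h => h.2, fun h => ⟨Finset.mem_univ _, h⟩⟩⟩
  have hu1D : u1 ∈ D := (hD u1).2 ⟨hu1, i1, hi1, v1, hv1⟩
  have hu2D : u2 ∉ D := by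
    intro hu
    obtain ⟨hr, i, hi, hon⟩ := (hD u2).1 hu
    have := eo_side_all fs sep c.hx hS hr hi hon i2 ⟨v2, hv2⟩
    exact (Finset.mem_compl.1 hi2) this
  have hb : ∀ u ∈ D, ∀ w, G.Adj u w → w ∈ D ∨ w ∈ Set.range x := by
    intro u hu w huw
    rcases eo_side_edge fs sep c.hx hS ((hD u).1 hu) huw with hh | hh
    · exact Or.inl ((hD w).2 hh)
    · exact Or.inr hh
  have hxD : ∀ j, x j ∉ D := fun j hj => ((hD _).1 hj).1 ⟨j, rfl⟩
  -- the edges at `D`
  obtain ⟨E1, hE1⟩ : ∃ E1 : Set (Sym2 V), ∀ e, e ∈ E1 ↔ ∃ v ∈ e, v ∈ D :=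
    ⟨{e | ∃ v ∈ e, v ∈ D}, fun e => Iff.rfl⟩
  obtain ⟨E2, hE2⟩ : ∃ E2 : Set (Sym2 V), ∀ e, e ∈ E2 ↔ e ∈ E1 ∨ ∃ j, s(x j, x (j + 1)) = e :=
    ⟨{e | e ∈ E1 ∨ ∃ j, s(x j, x (j + 1)) = e}, fun e => Iff.rfl⟩
  obtain ⟨E3, hE3⟩ : ∃ E3 : Set (Sym2 V), ∀ e, e ∈ E3 ↔ e ∉ E1 :=
    ⟨{e | e ∉ E1}, fun e => Iff.rfl⟩
  have hxE1 : ∀ j, s(x j, x (j + 1)) ∉ E1 := by
    intro j hj
    obtain ⟨v, hv, hvD⟩ := (hE1 _).1 hj
    rw [Sym2.mem_iff] at hv
    rcases hv with rfl | rfl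
    · exact hxD _ hvD
    · exact hxD _ hvD
  have hxC : ∀ j, x j ∈ C := fun j => (c.hC _).2 ⟨j, rfl⟩
  have n1 : NZ (sub G E2) C := by
    refine eo_ih c E2 ⟨s(u2, v2), hadj _ _ _ hv2, fun hh => ?_⟩ fun j => (hE2 _).2 (Or.inr ⟨j, rfl⟩)
    rcases (hE2 _).1 hh with h3 | ⟨j, h3⟩
    · obtain ⟨v, hv, hvD⟩ := (hE1 _).1 h3
      rw [Sym2.mem_iff] at hv
      rcases hv with rfl | rfl
      · exact hu2D hvD
      · rcases hb _ hvD u2 (hadj _ _ _ hv2).symm with h4 | h4
        · exact hu2D h4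
        · exact hu2 h4
    · have h4 : u2 ∈ s(x j, x (j + 1)) := by
        rw [h3]
        exact Sym2.mem_mk_left u2 v2
      rw [Sym2.mem_iff] at h4
      rcases h4 with h4 | h4
      · exact hu2 ⟨j, h4.symm⟩
      · exact hu2 ⟨j + 1, h4.symm⟩
  have n2 : NZ (sub G E3) C :=
    eo_ih c E3 ⟨s(u1, v1), hadj _ _ _ hv1, fun hh => (hE3 _).1 hh ((hE1 _).2
      ⟨u1, Sym2.mem_mk_left u1 v1, hu1D⟩)⟩ fun j => (hE3 _).2 (hxE1 j)
  have e1 : eo (sub G E2) C = (eo G C).filter (fun e => e ∈ E1) := by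
    rw [eo_sub]
    refine Finset.filter_congr fun e he => ?_
    rw [hE2]
    refine ⟨fun h => ?_, Or.inl⟩
    rcases h with h | ⟨j, h⟩
    · exact h
    · exfalso
      have h3 := (Finset.mem_filter.1 he).2.2
      apply h3
      intro v hv
      rw [← h, Sym2.mem_iff] at hv
      rcases hv with rfl | rfl
      · exact hxC _
      · exact hxC _
  have e2 : eo (sub G E3) C = (eo G C).filter (fun e => e ∉ E1) := by
    rw [eo_sub]
    exact Finset.filter_congr fun e _ => hE3 e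
  unfold NZ QQ at n1 n2
  rw [e1] at n1
  rw [e2] at n2
  have hnz : NZ G C := by
    refine nz_glue C (D ∪ C) _ _ (Finset.disjoint_filter_filter_not (eo G C) (eo G C)
      (fun e => e ∈ E1)) (Finset.filter_union_filter_not_eq (fun e => e ∈ E1) (eo G C)).symm ?_ n1 ?_
    · intro e he v hv
      obtain ⟨h3, h4⟩ := Finset.mem_filter.1 he
      obtain ⟨w, hw, hwD⟩ := (hE1 _).1 h4
      have h5 : e ∈ G.edgeSet := (Finset.mem_filter.1 h3).2.1
      rw [Finset.mem_union]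
      by_cases hvw : v = w
      · rw [hvw]
        exact Or.inl hwD
      · have h6 : e = s(w, v) := ((Sym2.mem_and_mem_iff (Ne.symm hvw)).1 ⟨hw, hv⟩)
        rw [h6] at h5
        rcases hb w hwD v h5 with h7 | h7
        · exact Or.inl h7
        · exact Or.inr ((c.hC v).2 h7)
    · have h3 : (∏ e ∈ (eo G C).filter (fun e => e ∉ E1), lin e : P3 V) ∈
          supported (ZMod 3) {v | v ∉ D} := by
        refine prod_lin_supported _ _ fun e he v hv hvD => ?_
        exact (Finset.mem_filter.1 he).2 ((hE1 e).2 ⟨v, hv, hvD⟩)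
      rw [kill_congr (D ∪ C ∪ C) C {v | v ∉ D} h3 (fun v hv => by
        rw [Finset.mem_union, Finset.mem_union]
        exact ⟨fun h => h.elim (fun h => h.elim (fun h => absurd h hv) id) id, Or.inr⟩)]
      exact n2
  exact hnz c.zero

end Pool.Agent.W_fb73a4_t7
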