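import Pool.Agent.W_fb73a4_t7.ES
import Pool.Agent.W_fb73a4_t7.EO
import Pool.Agent.W_fb73a4_t7.EH

/-!
[T7] EB: the minimal counterexample, assembly
-/

set_option autoImplicit false

namespace Pool.Agent.W_fb73a4_t7

open Finset MvPolynomial
open scoped Classical
open Pool.Agent.W_fb73a4_h20
open Pool.Agent.W_fb73a4_h57 (P3 I3 kill)

variable {V : Type} [Fintype V] {G : SimpleGraph V}
variable {n m : ℕ} {x : ZMod m → V} {C : Finset V}

/-- everything together -/
theorem Cex.env (c : Cex G n m x C) :
    ∃ (ι : Type) (_ : Fintype ι) (F : ι → EV V) (i0 : ι), Env G ι F i0 m x C := by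
  have h2 : ∃ e ∈ G.edgeSet, ∃ e' ∈ G.edgeSet, e ≠ e' := by
    obtain ⟨v, hv, w, hw⟩ := c.inner
    refine ⟨s(x 0, x (0 + 1)), c.hx.adj 0, s(v, w), hw, fun h => hv ?_⟩
    have h1 : v ∈ s(x 0, x (0 + 1)) := by
      rw [h]
      exact Sym2.mem_mk_left v w
    rw [Sym2.mem_iff] at h1
    rw [c.hC]
    rcases h1 with h1 | h1
    · exact ⟨0, h1.symm⟩
    · exact ⟨0 + 1, h1.symm⟩
  obtain ⟨ι, hι, F, fs⟩ := exists_faceSys c.sep h2 c.cls.pl
  obtain ⟨i0, hi0⟩ := c.outer fs c.sep
  refine ⟨ι, hι, F, i0, ?_⟩
  exact
    { cls := c.cls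
      sep := c.sep
      fs := fs
      hx := c.hx
      hm := c.hm
      hC := c.hC
      outer := hi0
      chord := fun u v hu hv h => by rw [hi0]; exact c.chord u v hu hv h
      deg3 := c.deg3
      inner := c.inner
      short := fun k y hk hy hj S hS hsum u hu i hi =>
        c.short fs c.sep hi0 k y hk hy hj S hS hsum u hu i hi
      zero := c.zero
      red := fun G' hG' hx' hlt =>
        (c.ih G' hG' (by have := c.hn; omega)).1 m x C c.hm ⟨c.hx.three, c.hx.inj, hx'⟩ c.hC }

/-- induction on `n`. Second part: if `G` has no triangle use `nz_tri_free`; otherwise let `K` be a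
triangle of `G`: `NZ G K` by the first part and `nz_glue` with `S` = the three edges (`nz_tri`),
`T = eo G K`, `W = K`. -/
theorem thm_all (h : ∀ (G : SimpleGraph V) (ι : Type) (_ : Fintype ι) (F : ι → EV V) (i0 : ι) (m : ℕ)
    (x : ZMod m → V) (C : Finset V), Env G ι F i0 m x C → False) (n : ℕ) : Thm (V := V) n := by
  induction n with
  | zero =>
    intro G hG hn
    have h0 : G.edgeSet = ∅ := by
      rw [← Set.ncard_eq_zero (Set.toFinite _)]
      omega
    refine ⟨fun m x C _ hx _ => ?_, nz_of_empty _ ?_⟩
    · have h1 : s(x 0, x (0 + 1)) ∈ G.edgeSet := hx.adj 0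
      rw [h0] at h1
      exact absurd h1 (Set.notMem_empty _)
    · rw [Finset.eq_empty_iff_forall_notMem]
      intro e he
      rw [eo, Finset.mem_filter, h0] at he
      exact he.2.1
  | succ n ih =>
    intro G hG hn
    have h1 : ∀ (m : ℕ) (x : ZMod m → V) (C : Finset V), m ≤ 11 → IsCycSeq G x →
        (∀ v, v ∈ C ↔ v ∈ Set.range x) → NZ G C := by
      intro m x C hm hx hC h0
      have c : Cex G n m x C :=
        { ih := ih, cls := hG, hn := hn, hx := hx, hm := hm, hC := hC, zero := h0 }
      obtain ⟨ι, hι, F, i0, E⟩ := c.env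
      exact h G ι hι F i0 m x C E
    refine ⟨h1, ?_⟩
    by_cases h3 : ∀ a b c, G.Adj a b → G.Adj b c → G.Adj a c → False
    · exact nz_tri_free hG h3
    push Not at h3
    obtain ⟨a, b, c, hab, hbc, hac, -⟩ := h3
    obtain ⟨x, hx⟩ : ∃ x : ZMod 3 → V, x = fun j => if j = 0 then a else if j = 1 then b else c :=
      ⟨_, rfl⟩
    have x0 : x 0 = a := by rw [hx]; exact if_pos rfl
    have x1 : x 1 = b := by
      rw [hx]
      have h10 : (1 : ZMod 3) ≠ 0 := by decide
      simp [h10]
    have x2 : x 2 = c := by
      rw [hx]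
      have h20 : (2 : ZMod 3) ≠ 0 := by decide
      have h21 : (2 : ZMod 3) ≠ 1 := by decide
      simp [h20, h21]
    have hj : ∀ j : ZMod 3, j = 0 ∨ j = 1 ∨ j = 2 := by decide
    have hcyc : IsCycSeq G x := by
      refine ⟨le_refl 3, ?_, ?_⟩
      · intro i j hij
        rcases hj i with rfl | rfl | rfl <;> rcases hj j with rfl | rfl | rfl <;>
          simp only [x0, x1, x2] at hij <;>
          first
            | rfl
            | exact absurd hij hab.ne
            | exact absurd hij.symm hab.ne
            | exact absurd hij hbc.ne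
            | exact absurd hij.symm hbc.ne
            | exact absurd hij hac.ne
            | exact absurd hij.symm hac.ne
      · intro j
        rcases hj j with rfl | rfl | rfl
        · rw [x0, show (0 : ZMod 3) + 1 = 1 by decide, x1]
          exact hab
        · rw [x1, show (1 : ZMod 3) + 1 = 2 by decide, x2]
          exact hbc
        · rw [x2, show (2 : ZMod 3) + 1 = 0 by decide, x0]
          exact hac.symm
    have hK : ∀ v, v ∈ ({a, b, c} : Finset V) ↔ v ∈ Set.range x := by
      intro v
      rw [Finset.mem_insert, Finset.mem_insert, Finset.mem_singleton]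
      constructor
      · rintro (rfl | rfl | rfl)
        · exact ⟨0, x0⟩
        · exact ⟨1, x1⟩
        · exact ⟨2, x2⟩
      · rintro ⟨j, rfl⟩
        rcases hj j with rfl | rfl | rfl
        · exact Or.inl x0
        · exact Or.inr (Or.inl x1)
        · exact Or.inr (Or.inr x2)
    have hNZ := h1 3 x {a, b, c} (by norm_num) hcyc hK
    obtain ⟨S, hS⟩ : ∃ S : Finset (Sym2 V), S = {s(a, b), s(b, c), s(a, c)} := ⟨_, rfl⟩
    have mS : ∀ e, e ∈ S ↔ e = s(a, b) ∨ e = s(b, c) ∨ e = s(a, c) := by
      intro e
      rw [hS, Finset.mem_insert, Finset.mem_insert, Finset.mem_singleton]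
    have hSin : ∀ e ∈ S, ∀ v ∈ e, v ∈ ({a, b, c} : Finset V) := by
      intro e he v hv
      rw [mS] at he
      rw [Finset.mem_insert, Finset.mem_insert, Finset.mem_singleton]
      rcases he with rfl | rfl | rfl <;> rw [Sym2.mem_iff] at hv <;> tauto
    have hSG : ∀ e ∈ S, e ∈ G.edgeSet := by
      intro e he
      rw [mS] at he
      rcases he with rfl | rfl | rfl
      · exact hab
      · exact hbc
      · exact hac
    have hin : ∀ e ∈ G.edgeSet, (∀ v ∈ e, v ∈ ({a, b, c} : Finset V)) → e ∈ S := by
      intro e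
      induction e using Sym2.ind with
      | _ p q =>
        intro he hv
        have hp := hv p (Sym2.mem_mk_left p q)
        have hq := hv q (Sym2.mem_mk_right p q)
        have hpq : p ≠ q := G.ne_of_adj he
        rw [Finset.mem_insert, Finset.mem_insert, Finset.mem_singleton] at hp hq
        rw [mS]
        rcases hp with rfl | rfl | rfl <;> rcases hq with rfl | rfl | rfl <;>
          first
            | exact absurd rfl hpq
            | exact Or.inl rfl
            | exact Or.inr (Or.inl rfl)
            | exact Or.inr (Or.inr rfl)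
            | exact Or.inl Sym2.eq_swap
            | exact Or.inr (Or.inl Sym2.eq_swap)
            | exact Or.inr (Or.inr Sym2.eq_swap)
    refine nz_glue ∅ {a, b, c} S (eo G {a, b, c}) ?_ ?_ hSin ?_ ?_
    · rw [Finset.disjoint_left]
      intro e he he'
      rw [eo, Finset.mem_filter] at he'
      exact he'.2.2 (hSin e he)
    · ext e
      rw [Finset.mem_union, eo, eo, Finset.mem_filter, Finset.mem_filter]
      constructor
      · rintro ⟨-, he, -⟩
        by_cases hv : ∀ v ∈ e, v ∈ ({a, b, c} : Finset V)
        · exact Or.inl (hin e he hv)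
        · exact Or.inr ⟨Finset.mem_univ _, he, hv⟩
      · have hne : ∀ e : Sym2 V, ¬ ∀ v ∈ e, v ∈ (∅ : Finset V) := by
          intro e
          induction e using Sym2.ind with
          | _ p q =>
            intro hh
            exact absurd (hh p (Sym2.mem_mk_left p q)) (Finset.notMem_empty _)
        rintro (he | ⟨-, he, -⟩)
        · exact ⟨Finset.mem_univ _, hSG e he, hne e⟩
        · exact ⟨Finset.mem_univ _, he, hne e⟩
    · rw [kill_empty]
      exact nz_tri hab.ne hbc.ne hac.ne S mS
    · rw [Finset.union_empty]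
      exact hNZ

end Pool.Agent.W_fb73a4_t7
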