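import Pool.Agent.W_fb73a4_h20.MB
import Pool.Agent.W_fb73a4_h57.KDefs

/-!
[T7] Definitions for: planar graphs without cycles of length 4, 5, 6 in which no 7-cycle has an edge in
a triangle have a graph polynomial which is not zero modulo 3 and modulo the cubes of the variables
(so they are 3-choosable). Paper proof: table proofs, row 531 (and helper8: 7-cycles not adjacent to
triangles may be allowed). Interface: helper20, helper51, helper57.
-/

set_option autoImplicit false

namespace Pool.Agent.W_fb73a4_t7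

open Finset MvPolynomial
open scoped Classical
open Pool.Agent.W_fb73a4_h20
open Pool.Agent.W_fb73a4_h57 (P3 I3 kill)

/-- the class: MacLane-planar, no cycles of length 4, 5, 6, no 7-cycle has an edge in a triangle -/
structure C7 {V : Type} [Fintype V] (G : SimpleGraph V) : Prop where
  pl : MacLane G
  no : ∀ (n : ℕ) (x : ZMod n → V), IsCycSeq G x → n = 3 ∨ 7 ≤ n
  no73 : ∀ (x : ZMod 7 → V), IsCycSeq G x → ∀ j t, G.Adj (x j) t → G.Adj (x (j + 1)) t → False

/-- the linear form of an edge (the sign is chosen arbitrarily) -/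
noncomputable def lin {V : Type} (e : Sym2 V) : P3 V := X (Quot.out e).1 - X (Quot.out e).2

/-- the edges of `G` which are not inside `C` -/
noncomputable def eo {V : Type} [Fintype V] (G : SimpleGraph V) (C : Finset V) : Finset (Sym2 V) :=
  univ.filter fun e => e ∈ G.edgeSet ∧ ¬ ∀ v ∈ e, v ∈ C

/-- the relative graph polynomial: product over the edges not inside `C`, with the variables of `C`
set to zero -/
noncomputable def QQ {V : Type} [Fintype V] (G : SimpleGraph V) (C : Finset V) : P3 V :=
  kill C (∏ e ∈ eo G C, lin e)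

/-- the relative graph polynomial is not zero modulo the cubes -/
def NZ {V : Type} [Fintype V] (G : SimpleGraph V) (C : Finset V) : Prop := QQ G C ∉ I3 V

/-- the theorem about graphs with at most `n` edges: extension from a cycle of length at most 11 and
the graph polynomial itself -/
def Thm {V : Type} [Fintype V] (n : ℕ) : Prop :=
  ∀ G : SimpleGraph V, C7 G → G.edgeSet.ncard ≤ n →
    (∀ (m : ℕ) (x : ZMod m → V) (C : Finset V), m ≤ 11 → IsCycSeq G x →
      (∀ v, v ∈ C ↔ v ∈ Set.range x) → NZ G C) ∧ NZ G ∅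

/-- the situation in a minimal counterexample: `x` is the outer cycle, `C` its vertex set, `i0` the
outer face -/
structure Env {V : Type} [Fintype V] (G : SimpleGraph V) (ι : Type) [Fintype ι] (F : ι → EV V)
    (i0 : ι) (m : ℕ) (x : ZMod m → V) (C : Finset V) : Prop where
  cls : C7 G
  sep : SepFree G
  fs : FaceSys G ι F
  hx : IsCycSeq G x
  hm : m ≤ 11
  hC : ∀ v, v ∈ C ↔ v ∈ Set.range x
  outer : F i0 = cvec x
  /-- no chord of the outer cycle -/
  chord : ∀ u v, u ∈ C → v ∈ C → G.Adj u v → F i0 s(u, v) ≠ 0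
  deg3 : ∀ v, v ∉ C → (∃ w, G.Adj v w) → 3 ≤ dgr G v
  /-- there is an inner vertex -/
  inner : ∃ v, v ∉ C ∧ ∃ w, G.Adj v w
  /-- no vertex strictly inside a cycle of length at most 11 other than `x` -/
  short : ∀ (n : ℕ) (y : ZMod n → V), n ≤ 11 → IsCycSeq G y → (∃ j, y j ∉ C) →
    ∀ S : Finset ι, i0 ∉ S → cvec y = ∑ i ∈ S, F i →
      ∀ u, u ∉ Set.range y → ∀ i ∈ S, ¬ On (F i) u
  zero : QQ G C ∈ I3 V
  red : ∀ G' : SimpleGraph V, C7 G' → (∀ j, G'.Adj (x j) (x (j + 1))) →
    G'.edgeSet.ncard < G.edgeSet.ncard → NZ G' C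

/-- number of edges of a face -/
noncomputable def len {V : Type} [Fintype V] (z : EV V) : ℕ := (univ.filter (fun e => z e ≠ 0)).card

/-- an oriented map: `s u v` is the vertex after `v` on the face on the left of the dart `u → v`,
`lf u v` is this face -/
structure OM {V : Type} [Fintype V] (G : SimpleGraph V) {ι : Type} (F : ι → EV V) where
  s : V → V → V
  lf : V → V → ι
  adj : ∀ u v, G.Adj u v → G.Adj v (s u v)
  ne : ∀ u v, G.Adj u v → s u v ≠ u
  lf_s : ∀ u v, G.Adj u v → lf v (s u v) = lf u v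
  on : ∀ u v, G.Adj u v → F (lf u v) s(u, v) ≠ 0
  other : ∀ u v, G.Adj u v → lf u v ≠ lf v u
  inj : ∀ u u' v, G.Adj u v → G.Adj u' v → s u v = s u' v → u = u'
  corner : ∀ u u' v, G.Adj u v → G.Adj u' v → lf u v = lf u' v → u = u'
  face : ∀ u v, G.Adj u v → ∃ (n : ℕ) (x : ZMod n → V), IsCycSeq G x ∧ F (lf u v) = cvec x ∧
    x 0 = u ∧ x 1 = v ∧ ∀ j, x (j + 2) = s (x j) (x (j + 1))
  rot : ∀ u u' v, G.Adj u v → G.Adj u' v → ∃ k, (fun a => s a v)^[k] u = u'

section

variable {V : Type} [Fintype V] {G : SimpleGraph V} {ι : Type} {F : ι → EV V}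

/-- the walk along the face on the left of `u → v`: `u, v, s u v, ...` -/
def OM.fw (M : OM G F) (u v : V) : ℕ → V
  | 0 => u
  | 1 => v
  | k + 2 => M.s (M.fw u v k) (M.fw u v (k + 1))

/-- length of the face on the left of `u → v` -/
noncomputable def OM.fl (M : OM G F) (u v : V) : ℕ := len (F (M.lf u v))

/-- letters: types of the vertices of a face, the face on the left being read.
`T1`: inner 3-vertex, triangle at the edge to the previous vertex; `T2`: triangle at the edge to the
next vertex; `Z`: inner 3-vertex without a triangle at the two edges; `V`: inner 4-vertex with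
triangles at both edges; `Y`: inner 4-vertex, the opposite corner is a triangle; `A`: anything -/
inductive Lt
  | T1 | T2 | Z | V | Y | A
  deriving DecidableEq

/-- the letter `ℓ` holds at the corner `p, y, n` (with `n = s p y`) -/
def OM.holds (M : OM G F) (C : Finset V) (p y n : V) : Lt → Prop
  | .T1 => y ∉ C ∧ dgr G y = 3 ∧ M.fl y p = 3
  | .T2 => y ∉ C ∧ dgr G y = 3 ∧ M.fl n y = 3
  | .Z => y ∉ C ∧ dgr G y = 3 ∧ M.fl y p ≠ 3 ∧ M.fl n y ≠ 3
  | .V => y ∉ C ∧ dgr G y = 4 ∧ M.fl y p = 3 ∧ M.fl n y = 3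
  | .Y => y ∉ C ∧ dgr G y = 4 ∧ M.fl y p ≠ 3 ∧ M.fl n y ≠ 3 ∧ M.fl (M.s n y) y = 3
  | .A => True

/-- the face on the left of `u → v` has length `w.length`, its `k`-th letter (at the vertex
`fw u v (k + 1)`) is `w[k]` -/
def OM.Word (M : OM G F) (C : Finset V) (u v : V) (w : List Lt) : Prop :=
  G.Adj u v ∧ M.fl u v = w.length ∧
    ∀ k < w.length, M.holds C (M.fw u v k) (M.fw u v (k + 1)) (M.fw u v (k + 2)) (w.getD k .A)

end

/-- a plane configuration: the vertices of `D` are `0, ..., nD - 1`, all other numbers are outer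
neighbours. `rot` gives the neighbours of the vertices of `D` in cyclic order (`rot_{k+1} = s rot_k i`),
`tri` says which corners `rot_k, i, rot_{k+1}` are triangles, `long` is a list of `(i, k, L)`: the face
at the corner `k` of `i` has length at least `L` -/
structure Conf where
  nD : ℕ
  rot : List (List ℕ)
  tri : List (List Bool)
  long : List (ℕ × ℕ × ℕ)

/-- `k`-th neighbour of `i`, `k` modulo the degree -/
def Conf.nb (D : Conf) (i k : ℕ) : ℕ := (D.rot.getD i []).getD (k % (D.rot.getD i []).length) 0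

/-- the configuration `D` occurs in the oriented map, its vertices are the `φ i` -/
structure Occ {V : Type} [Fintype V] {G : SimpleGraph V} {ι : Type} {F : ι → EV V} (M : OM G F)
    (C : Finset V) (φ : ℕ → V) (D : Conf) : Prop where
  out : ∀ i < D.nD, φ i ∉ C
  deg : ∀ i < D.nD, dgr G (φ i) = (D.rot.getD i []).length
  adj : ∀ i < D.nD, ∀ k, G.Adj (φ (D.nb i k)) (φ i)
  rot : ∀ i < D.nD, ∀ k, M.s (φ (D.nb i k)) (φ i) = φ (D.nb i (k + 1))
  tri : ∀ i < D.nD, ∀ k < (D.rot.getD i []).length,
    ((D.tri.getD i []).getD k false = true ↔ M.fl (φ (D.nb i k)) (φ i) = 3)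
  long : ∀ t ∈ D.long, t.2.2 ≤ M.fl (φ (D.nb t.1 t.2.1)) (φ t.1)

end Pool.Agent.W_fb73a4_t7
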