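import Pool.Agent.W_fb73a4_h20.MD

/-!
MacLane planarity is closed under minors (helper92, for [T7] of MP_fb73a4_co).

`maclane_minor`: `f : V → Option W` has connected fibres over `some a` (in `G`), and every edge `a b`
of `H` is witnessed by an edge of `G` between the fibres of `a` and `b`. Then `H` is MacLane-planar.
Proof: choose one witness `g e` for every edge `e` of `H`, keep only the edges inside the fibres and
the witnesses; `z ↦ z ∘ g` maps the cycle space of this subgraph onto the cycle space of `H`.
-/

set_option autoImplicit false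

namespace Pool.Agent.W_fb73a4_t7

open Finset
open Pool.Agent.W_fb73a4_h20
open scoped Classical

section

variable {V W U : Type}

theorem zmod2_add_self (a : ZMod 2) : a + a = 0 := by
  revert a
  decide

/-- the sum of a function over the two ends of an unordered pair -/
noncomputable def ow (w : V → ZMod 2) : Sym2 V → ZMod 2 :=
  Sym2.lift ⟨fun x y => w x + w y, fun _ _ => add_comm _ _⟩

theorem ow_mk (w : V → ZMod 2) (x y : V) : ow w s(x, y) = w x + w y := rfl

theorem ow_map (f : V → U) (w : U → ZMod 2) (e : Sym2 V) :
    ow w (Sym2.map f e) = ow (fun v => w (f v)) e := by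
  induction e using Sym2.ind with
  | _ x y => rfl

variable [Fintype V] [Fintype W]

theorem dg_eq_sum (z : EV V) (v : V) : dg z v = ∑ e : Sym2 V, if v ∈ e then z e else 0 := by
  rw [← Finset.sum_filter]
  unfold dg
  refine Finset.sum_bij (fun u _ => s(v, u)) ?_ ?_ ?_ ?_
  · intro u _
    rw [Finset.mem_filter]
    exact ⟨Finset.mem_univ _, Sym2.mem_mk_left v u⟩
  · intro u _ u' _ h
    exact Sym2.congr_right.1 h
  · intro e he
    rw [Finset.mem_filter] at he
    obtain ⟨u, hu⟩ := he.2
    exact ⟨u, Finset.mem_univ _, hu.symm⟩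
  · intro u _
    rfl

/-- double counting -/
theorem sum_dg (z : EV V) (hz : ∀ v, z s(v, v) = 0) (w : V → ZMod 2) :
    ∑ v, w v * dg z v = ∑ e : Sym2 V, z e * ow w e := by
  have h1 : ∀ v, w v * dg z v = ∑ e : Sym2 V, w v * (if v ∈ e then z e else 0) := by
    intro v
    rw [dg_eq_sum, Finset.mul_sum]
  rw [Finset.sum_congr rfl fun v _ => h1 v, Finset.sum_comm]
  refine Finset.sum_congr rfl fun e _ => ?_
  induction e using Sym2.ind with
  | _ x y =>
    rw [ow_mk]
    by_cases hxy : x = y
    · subst hxy
      rw [hz, zero_mul]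
      refine Finset.sum_eq_zero fun v _ => ?_
      rw [ite_self, mul_zero]
    · rw [← Finset.sum_subset (Finset.subset_univ {x, y}), Finset.sum_pair hxy,
        if_pos (Sym2.mem_mk_left x y), if_pos (Sym2.mem_mk_right x y)]
      · ring
      · intro v _ hv
        rw [Finset.mem_insert, Finset.mem_singleton] at hv
        rw [if_neg (by rw [Sym2.mem_iff]; exact hv), mul_zero]

/-- the vector of a walk: inside the relation `R`, with boundary `u + v` -/
theorem walk_vec (R : V → V → Prop) (hR : ∀ p q, R p q → p ≠ q) (u v : V)
    (h : Relation.ReflTransGen R u v) :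
    ∃ y : EV V, (∀ e, y e ≠ 0 → ∃ p q, e = s(p, q) ∧ R p q) ∧
      ∀ x, dg y x = (if x = u then 1 else 0) + (if x = v then 1 else 0) := by
  induction h with
  | refl =>
    refine ⟨0, fun e he => absurd rfl he, fun x => ?_⟩
    rw [zmod2_add_self, dg_zero]
  | @tail b c _ hbc ih =>
    obtain ⟨y, hy1, hy2⟩ := ih
    refine ⟨y + fun e => if e = s(b, c) then 1 else 0, fun e he => ?_, fun x => ?_⟩
    · by_cases h1 : e = s(b, c)
      · exact ⟨b, c, h1, hbc⟩
      · apply hy1 e
        intro h2
        apply he
        rw [Pi.add_apply, h2, if_neg h1, add_zero]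
    · rw [dg_add, hy2]
      have hbc' : b ≠ c := hR b c hbc
      have h1 : dg (fun e : Sym2 V => if e = s(b, c) then (1 : ZMod 2) else 0) x =
          (if x = b then 1 else 0) + (if x = c then 1 else 0) := by
        rw [dg_eq_sum, Finset.sum_eq_single s(b, c)]
        · rw [if_pos rfl]
          by_cases hb : x = b
          · subst hb
            rw [if_pos (Sym2.mem_mk_left x c), if_pos rfl, if_neg hbc', add_zero]
          · by_cases hc : x = c
            · subst hc
              rw [if_pos (Sym2.mem_mk_right b x), if_neg hb, if_pos rfl, zero_add]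
            · rw [if_neg hb, if_neg hc, add_zero, if_neg]
              rw [Sym2.mem_iff]
              tauto
        · intro e _ he
          rw [if_neg he, ite_self]
        · intro he
          exact absurd (Finset.mem_univ _) he
      rw [h1]
      have h2 : ∀ a b c : ZMod 2, a + b + (b + c) = a + c := by decide
      exact h2 _ _ _

end

section

variable {V W : Type} [Fintype V] [Fintype W]

/-- the push-forward along the choice `g` of an edge of `G` for every edge of `H` -/
noncomputable def psh (H : SimpleGraph W) (g : Sym2 W → Sym2 V) (z : EV V) : EV W :=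
  fun e => if e ∈ H.edgeSet then z (g e) else 0

omit [Fintype V] [Fintype W] in
theorem psh_sum (H : SimpleGraph W) (g : Sym2 W → Sym2 V) {ι : Type} (S : Finset ι)
    (B : ι → EV V) : psh H g (∑ i ∈ S, B i) = ∑ i ∈ S, psh H g (B i) := by
  funext e
  rw [Finset.sum_apply]
  unfold psh
  by_cases h : e ∈ H.edgeSet
  · rw [if_pos h, Finset.sum_apply]
    refine Finset.sum_congr rfl fun i _ => ?_
    rw [if_pos h]
  · rw [if_neg h]
    refine (Finset.sum_eq_zero fun i _ => ?_).symm
    rw [if_neg h]

/-- the key count: the sum of the degrees of `z` over the fibre of `a` is the degree of the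
push-forward at `a` -/
theorem psh_dg (H : SimpleGraph W) (f : V → Option W) (g : Sym2 W → Sym2 V)
    (hg : ∀ e ∈ H.edgeSet, Sym2.map f (g e) = Sym2.map some e)
    (z : EV V) (hd : ∀ v, z s(v, v) = 0)
    (hz : ∀ e, z e ≠ 0 → (∃ x y, e = s(x, y) ∧ f x = f y) ∨ ∃ e' ∈ H.edgeSet, g e' = e) (a : W) :
    dg (psh H g z) a = ∑ v, (if f v = some a then 1 else 0) * dg z v := by
  have hinj : ∀ e ∈ H.edgeSet, ∀ e' ∈ H.edgeSet, g e = g e' → e = e' := by
    intro e he e' he' h
    have h1 := hg e he
    rw [h, hg e' he'] at h1
    exact (Sym2.map.injective (Option.some_injective W) h1).symm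
  have hd' : ∀ b, psh H g z s(b, b) = 0 := by
    intro b
    unfold psh
    rw [if_neg]
    intro h
    exact H.loopless.irrefl b h
  have h1 : dg (psh H g z) a = ∑ b, (if b = a then (1 : ZMod 2) else 0) * dg (psh H g z) b := by
    rw [Finset.sum_eq_single a, if_pos rfl, one_mul]
    · intro b _ hb
      rw [if_neg hb, zero_mul]
    · intro h
      exact absurd (Finset.mem_univ _) h
  rw [h1, sum_dg _ hd', sum_dg _ hd]
  have h2 : ∀ e ∈ H.edgeSet, ow (fun v => if f v = some a then (1 : ZMod 2) else 0) (g e) =
      ow (fun b => if b = a then (1 : ZMod 2) else 0) e := by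
    intro e he
    have h3 := ow_map f (fun o => if o = some a then (1 : ZMod 2) else 0) (g e)
    rw [← h3, hg e he, ow_map]
    congr 1
    funext b
    by_cases hb : b = a
    · rw [if_pos hb, if_pos (by rw [hb])]
    · rw [if_neg hb, if_neg fun h => hb (Option.some_injective W h)]
  have h3 : ∑ e : Sym2 V, z e * ow (fun v => if f v = some a then (1 : ZMod 2) else 0) e =
      ∑ e ∈ (univ.filter (fun e => e ∈ H.edgeSet)).image g,
        z e * ow (fun v => if f v = some a then (1 : ZMod 2) else 0) e := by
    symm
    refine Finset.sum_subset (Finset.subset_univ _) ?_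
    intro e _ he
    by_cases hz0 : z e = 0
    · rw [hz0, zero_mul]
    · rcases hz e hz0 with ⟨x, y, h4, h5⟩ | ⟨e', he', h4⟩
      · rw [h4, ow_mk, h5, zmod2_add_self, mul_zero]
      · exfalso
        apply he
        rw [Finset.mem_image]
        exact ⟨e', Finset.mem_filter.2 ⟨Finset.mem_univ _, he'⟩, h4⟩
  rw [h3, Finset.sum_image]
  · rw [Finset.sum_filter]
    refine Finset.sum_congr rfl fun e _ => ?_
    unfold psh
    by_cases he : e ∈ H.edgeSet
    · rw [if_pos he, if_pos he, h2 e he]
    · rw [if_neg he, if_neg he, zero_mul]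
  · intro e he e' he' h
    have h4 : e ∈ univ.filter (fun e => e ∈ H.edgeSet) := he
    have h5 : e' ∈ univ.filter (fun e => e ∈ H.edgeSet) := he'
    exact hinj e (Finset.mem_filter.1 h4).2 e' (Finset.mem_filter.1 h5).2 h

/-- a graph without edges is MacLane-planar -/
theorem maclane_of_no_edge {H : SimpleGraph W} (h : ∀ a b, ¬ H.Adj a b) : MacLane H := by
  refine ⟨0, fun i => i.elim0, fun i => i.elim0, fun e => ?_, fun z hz => ⟨∅, ?_⟩⟩
  · exact (Finset.card_le_univ _).trans (by simp)
  · rw [Finset.sum_empty]
    funext e
    apply hz.1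
    induction e using Sym2.ind with
    | _ a b => exact h a b

/-- MINORS: MacLane planarity is closed under taking minors -/
theorem maclane_minor {G : SimpleGraph V} {H : SimpleGraph W} (hG : MacLane G) (f : V → Option W)
    (hconn : ∀ u v a, f u = some a → f v = some a →
      Relation.ReflTransGen (fun p q => G.Adj p q ∧ f p = some a ∧ f q = some a) u v)
    (hH : ∀ a b, H.Adj a b → ∃ u v, f u = some a ∧ f v = some b ∧ G.Adj u v) : MacLane H := by
  by_cases hne : Nonempty (Sym2 V)
  swap
  · apply maclane_of_no_edge
    intro a b hab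
    obtain ⟨u, v, -⟩ := hH a b hab
    exact hne ⟨s(u, v)⟩
  obtain ⟨e₀⟩ := hne
  -- choice of the witnesses
  have hch : ∀ e : Sym2 W, ∃ e' : Sym2 V, e ∈ H.edgeSet →
      e' ∈ G.edgeSet ∧ Sym2.map f e' = Sym2.map some e := by
    intro e
    by_cases he : e ∈ H.edgeSet
    · induction e using Sym2.ind with
      | _ a b =>
        obtain ⟨u, v, hu, hv, huv⟩ := hH a b he
        exact ⟨s(u, v), fun _ => ⟨huv, by rw [Sym2.map_mk, Sym2.map_mk, hu, hv]⟩⟩
    · exact ⟨e₀, fun h => absurd h he⟩
  choose g hg using hch
  have hinj : ∀ e ∈ H.edgeSet, ∀ e' ∈ H.edgeSet, g e = g e' → e = e' := by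
    intro e he e' he' h
    have h1 := (hg e he).2
    rw [h, (hg e' he').2] at h1
    exact (Sym2.map.injective (Option.some_injective W) h1).symm
  -- an edge of `H` joins different fibres
  have hdiff : ∀ e ∈ H.edgeSet, ∀ x y, g e = s(x, y) → f x ≠ f y := by
    intro e he x y h hxy
    have h1 := (hg e he).2
    rw [h] at h1
    induction e using Sym2.ind with
    | _ a b =>
      have hab : a ≠ b := SimpleGraph.Adj.ne he
      rw [Sym2.map_mk, Sym2.map_mk, hxy] at h1
      apply hab
      rcases Sym2.eq_iff.1 h1 with ⟨h2, h3⟩ | ⟨h2, h3⟩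
      · exact Option.some_injective W (h2.symm.trans h3)
      · exact Option.some_injective W (h3.symm.trans h2)
  -- the subgraph: edges inside the fibres and witnesses
  let G' : SimpleGraph V :=
    { Adj := fun u v => G.Adj u v ∧
        ((∃ a, f u = some a ∧ f v = some a) ∨ ∃ e ∈ H.edgeSet, g e = s(u, v))
      symm := ⟨by
        rintro u v ⟨h1, h2⟩
        refine ⟨h1.symm, ?_⟩
        rcases h2 with ⟨a, h3, h4⟩ | ⟨e, h3, h4⟩
        · exact Or.inl ⟨a, h4, h3⟩
        · exact Or.inr ⟨e, h3, h4.trans Sym2.eq_swap⟩⟩
      loopless := ⟨fun v h => G.loopless.irrefl v h.1⟩ }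
  have hG' : MacLane G' := maclane_mono hG fun u v h => h.1
  -- cycles of `G'`
  have hd : ∀ z, IsCyc G' z → ∀ v, z s(v, v) = 0 := by
    intro z hz v
    apply hz.1
    intro h
    exact G'.loopless.irrefl v h
  have hz : ∀ z : EV V, (∀ e, e ∉ G'.edgeSet → z e = 0) → ∀ e, z e ≠ 0 →
      (∃ x y, e = s(x, y) ∧ f x = f y) ∨ ∃ e' ∈ H.edgeSet, g e' = e := by
    intro z hz e he
    by_cases h1 : e ∈ G'.edgeSet
    · induction e using Sym2.ind with
      | _ x y =>
        rcases h1.2 with ⟨a, h3, h4⟩ | ⟨e', h3, h4⟩
        · exact Or.inl ⟨x, y, rfl, h3.trans h4.symm⟩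
        · exact Or.inr ⟨e', h3, h4⟩
    · exact absurd (hz e h1) he
  have hpush : ∀ z, IsCyc G' z → IsCyc H (psh H g z) := by
    intro z hzc
    refine ⟨fun e he => if_neg he, fun a => ?_⟩
    rw [psh_dg H f g (fun e he => (hg e he).2) z (hd z hzc) (hz z hzc.1) a]
    refine Finset.sum_eq_zero fun v _ => ?_
    rw [hzc.2, mul_zero]
  obtain ⟨n, B, hB, hcard, hgen⟩ := hG'
  refine ⟨n, fun i => psh H g (B i), fun i => hpush _ (hB i), fun e => ?_, fun z' hz' => ?_⟩
  · by_cases he : e ∈ H.edgeSet
    · have h1 : (univ.filter fun i => psh H g (B i) e ≠ 0) = univ.filter fun i => B i (g e) ≠ 0 := by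
        apply Finset.filter_congr
        intro i _
        unfold psh
        rw [if_pos he]
      rw [h1]
      exact hcard _
    · have h1 : (univ.filter fun i => psh H g (B i) e ≠ 0) = ∅ := by
        apply Finset.filter_eq_empty_iff.2
        intro i _
        unfold psh
        rw [if_neg he]
        exact fun h => h rfl
      rw [h1]
      simp
  -- lifting a cycle of `H`
  · suffices h : ∃ z, IsCyc G' z ∧ psh H g z = z' by
      obtain ⟨z, hz1, hz2⟩ := h
      obtain ⟨S, hS⟩ := hgen z hz1
      exact ⟨S, by rw [← hz2, hS, psh_sum]⟩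
    -- the witnesses of `z'`
    let z0 : EV V := fun e => if ∃ e' ∈ H.edgeSet, g e' = e ∧ z' e' ≠ 0 then 1 else 0
    have hz0 : psh H g z0 = z' := by
      funext e
      unfold psh
      by_cases he : e ∈ H.edgeSet
      · rw [if_pos he]
        by_cases h1 : z' e = 0
        · rw [h1]
          refine if_neg ?_
          rintro ⟨e', h2, h3, h4⟩
          rw [hinj e' h2 e he h3] at h4
          exact h4 h1
        · rw [ev_one h1]
          exact if_pos ⟨e, he, rfl, h1⟩
      · rw [if_neg he, hz'.1 e he]
    have hz0' : ∀ e, e ∉ G'.edgeSet → z0 e = 0 := by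
      intro e he
      refine if_neg ?_
      rintro ⟨e', h2, h3, h4⟩
      apply he
      induction e using Sym2.ind with
      | _ x y =>
        refine ⟨?_, Or.inr ⟨e', h2, h3⟩⟩
        have h5 := (hg e' h2).1
        rw [h3] at h5
        exact h5
    -- paths to the roots of the fibres
    have hroot : ∃ r : V → V, (∀ v a, f v = some a → f (r v) = some a) ∧
        ∀ v v' a, f v = some a → f v' = some a → r v = r v' := by
      refine ⟨fun v => if h : ∃ u, f u = f v then h.choose else v, ?_, ?_⟩
      · intro v a h1
        have h : ∃ u, f u = f v := ⟨v, rfl⟩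
        dsimp only
        rw [dif_pos h, h.choose_spec, h1]
      · intro v v' a h1 h2
        have h : f v = f v' := h1.trans h2.symm
        simp only [h]
        have h3 : ∃ u, f u = f v' := ⟨v', rfl⟩
        rw [dif_pos h3, dif_pos h3]
    obtain ⟨r, hr1, hr2⟩ := hroot
    have hy : ∀ v, ∃ y : EV V, (∀ e, y e ≠ 0 → ∃ p q, e = s(p, q) ∧ G'.Adj p q ∧ f p = f q) ∧
        ∀ a, f v = some a → ∀ x, dg y x = (if x = v then 1 else 0) + (if x = r v then 1 else 0) := by
      intro v
      by_cases hv : ∃ a, f v = some a
      · obtain ⟨a, ha⟩ := hv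
        obtain ⟨y, hy1, hy2⟩ := walk_vec _ (fun p q h => h.1.ne) v (r v)
          (hconn v (r v) a ha (hr1 v a ha))
        refine ⟨y, fun e he => ?_, fun _ _ => hy2⟩
        obtain ⟨p, q, h1, h2, h3, h4⟩ := hy1 e he
        exact ⟨p, q, h1, ⟨h2, Or.inl ⟨a, h3, h4⟩⟩, h3.trans h4.symm⟩
      · refine ⟨0, fun e he => absurd rfl he, fun a ha => absurd ⟨a, ha⟩ hv⟩
    choose y hy1 hy2 using hy
    -- the sums over the fibres vanish
    have hfib : ∀ a, ∑ v, (if f v = some a then 1 else 0) * dg z0 v = 0 := by
      intro a
      have hz0d : ∀ v, z0 s(v, v) = 0 := fun v => hz0' _ fun h => G'.loopless.irrefl v h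
      rw [← psh_dg H f g (fun e he => (hg e he).2) z0 hz0d (hz z0 hz0') a, hz0, hz'.2]
    have hnone : ∀ v, f v = none → dg z0 v = 0 := by
      intro v hv
      unfold dg
      refine Finset.sum_eq_zero fun u _ => hz0' _ ?_
      rintro ⟨-, ⟨a, h1, -⟩ | ⟨e, h1, h2⟩⟩
      · rw [hv] at h1
        exact absurd h1 (by simp)
      · have h3 := (hg e h1).2
        rw [h2] at h3
        induction e using Sym2.ind with
        | _ a b =>
          rw [Sym2.map_mk, Sym2.map_mk, hv] at h3
          rcases Sym2.eq_iff.1 h3 with ⟨h4, -⟩ | ⟨h4, -⟩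
          · exact absurd h4 (by simp)
          · exact absurd h4 (by simp)
    refine ⟨z0 + ∑ v, dg z0 v • y v, ⟨fun e he => ?_, fun x => ?_⟩, ?_⟩
    · rw [Pi.add_apply, hz0' e he, zero_add, Finset.sum_apply]
      refine Finset.sum_eq_zero fun v _ => ?_
      rw [Pi.smul_apply]
      have h1 : y v e = 0 := by
        by_contra h1
        obtain ⟨p, q, h2, h3, -⟩ := hy1 v e h1
        apply he
        rw [h2]
        exact h3
      rw [h1, smul_zero]
    · rw [dg_add, dg_sum]
      have h1 : ∀ v, dg (dg z0 v • y v) x =
          dg z0 v * (if x = v then 1 else 0) + dg z0 v * (if x = r v then 1 else 0) := by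
        intro v
        have h2 : dg (dg z0 v • y v) x = dg z0 v * dg (y v) x := by
          unfold dg
          rw [Finset.mul_sum]
          rfl
        rw [h2]
        by_cases hv : ∃ a, f v = some a
        · obtain ⟨a, ha⟩ := hv
          rw [hy2 v a ha, mul_add]
        · have h3 : f v = none := by
            rcases hfv : f v with _ | a
            · rfl
            · exact absurd ⟨a, hfv⟩ hv
          rw [hnone v h3, zero_mul, zero_mul, zero_mul, add_zero]
      rw [Finset.sum_congr rfl fun v _ => h1 v, Finset.sum_add_distrib]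
      have h2 : ∑ v, dg z0 v * (if x = v then 1 else 0) = dg z0 x := by
        rw [Finset.sum_eq_single x, if_pos rfl, mul_one]
        · intro v _ hv
          rw [if_neg hv.symm, mul_zero]
        · intro h
          exact absurd (Finset.mem_univ _) h
      have h3 : ∑ v, dg z0 v * (if x = r v then 1 else 0) = 0 := by
        by_cases hx : ∃ a, f x = some a
        · obtain ⟨a, ha⟩ := hx
          by_cases hxr : x = r x
          · refine Eq.trans (Finset.sum_congr rfl fun v _ => ?_) (hfib a)
            by_cases hv : f v = some a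
            · rw [if_pos hv, if_pos (hxr.trans (hr2 x v a ha hv)), mul_comm]
            · rw [if_neg hv, zero_mul]
              by_cases hv2 : ∃ b, f v = some b
              · obtain ⟨b, hb⟩ := hv2
                rw [if_neg, mul_zero]
                intro h
                have h4 := hr1 v b hb
                rw [← h, ha] at h4
                exact hv (hb.trans h4.symm)
              · have h3 : f v = none := by
                  rcases hfv : f v with _ | b
                  · rfl
                  · exact absurd ⟨b, hfv⟩ hv2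
                rw [hnone v h3, zero_mul]
          · refine Finset.sum_eq_zero fun v _ => ?_
            by_cases hv : ∃ b, f v = some b
            · obtain ⟨b, hb⟩ := hv
              rw [if_neg, mul_zero]
              intro h
              have h4 := hr1 v b hb
              apply hxr
              have h5 : f x = some b := by rw [h]; exact h4
              rw [hr2 x v b h5 hb]
              exact h
            · have h3 : f v = none := by
                rcases hfv : f v with _ | b
                · rfl
                · exact absurd ⟨b, hfv⟩ hv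
              rw [hnone v h3, zero_mul]
        · refine Finset.sum_eq_zero fun v _ => ?_
          by_cases hv : ∃ b, f v = some b
          · obtain ⟨b, hb⟩ := hv
            rw [if_neg, mul_zero]
            intro h
            apply hx
            exact ⟨b, by rw [h]; exact hr1 v b hb⟩
          · have h3 : f v = none := by
              rcases hfv : f v with _ | b
              · rfl
              · exact absurd ⟨b, hfv⟩ hv
            rw [hnone v h3, zero_mul]
      rw [h2, h3, add_zero, zmod2_add_self]
    · have h1 : psh H g (z0 + ∑ v, dg z0 v • y v) = psh H g z0 := by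
        funext e
        unfold psh
        by_cases he : e ∈ H.edgeSet
        · rw [if_pos he, if_pos he, Pi.add_apply, Finset.sum_apply]
          rw [Finset.sum_eq_zero, add_zero]
          intro v _
          rw [Pi.smul_apply]
          have h2 : y v (g e) = 0 := by
            by_contra h2
            obtain ⟨p, q, h3, -, h4⟩ := hy1 v (g e) h2
            exact hdiff e he p q h3 h4
          rw [h2, smul_zero]
        · rw [if_neg he, if_neg he]
      rw [h1, hz0]

end

end Pool.Agent.W_fb73a4_t7
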