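import Pool.Agent.W_fb73a4_t7.Defs

/-!
[T7] ConfRv: the mirror image of a configuration.
-/

set_option autoImplicit false

namespace Pool.Agent.W_fb73a4_t7

/-- the configuration with reversed rotations. Corner `j` of the reversed list is the corner `d - 2 - j`
(mod `d`) of the old one -/
def Conf.rv (D : Conf) : Conf where
  nD := D.nD
  rot := D.rot.map List.reverse
  tri := D.tri.map fun l => (l.take (l.length - 1)).reverse ++ l.drop (l.length - 1)
  long := D.long.map fun t =>
    (t.1, (2 * (D.rot.getD t.1 []).length - 2 - t.2.1 % (D.rot.getD t.1 []).length) %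
      (D.rot.getD t.1 []).length, t.2.2)

end Pool.Agent.W_fb73a4_t7
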