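import Pool.Agent.W_fb73a4_t7.Defs

/-!
[T7] DDefs: definitions for the discharging part. Charges in units of 1/3:
`3 (dgr v - 4)` for inner vertices, `3 (dgr v - 4) + 4` for vertices of the outer cycle,
`3 (fl - 4)` for inner faces. A corner at `y` of a big inner face has the weight `wt` (0, 1, 2 or 3) and
gives `wt - 2` to the face, a corner of an inner triangle gives 1. Poor faces `M` (word `wM`) ask 2
through their vertex `V`, poor faces `MM` (words `wL`, `wR`) ask 1 through each of their two `V`.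
-/

set_option autoImplicit false

namespace Pool.Agent.W_fb73a4_t7

open Finset MvPolynomial
open scoped Classical
open Pool.Agent.W_fb73a4_h20

/-- `V=T-T=T-x-T=T-T=` -/
def wM : List Lt := [.V, .T1, .T2, .T1, .A, .T2, .T1, .T2]
/-- `V=T-T=V=T-T=T-T=` -/
def wL : List Lt := [.V, .T1, .T2, .V, .T1, .T2, .T1, .T2]
/-- `V=T-T=T-T=V=T-T=` -/
def wR : List Lt := [.V, .T1, .T2, .T1, .T2, .V, .T1, .T2]

section

variable {V : Type} [Fintype V] {G : SimpleGraph V} {ι : Type} {F : ι → EV V}

/-- the corner opposite to the corner `u, v, s u v` (for degree 4) starts at `op u v` -/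
def OM.op (M : OM G F) (u v : V) : V := M.s (M.s u v) v

/-- what the face on the left of `u → v` asks through its corner at `v` -/
noncomputable def OM.ask (M : OM G F) (C : Finset V) (u v : V) : ℤ :=
  if M.Word C u v wM then 2 else if M.Word C u v wL ∨ M.Word C u v wR then 1 else 0

/-- weight of the corner `p, y, s p y` -/
noncomputable def OM.wt (M : OM G F) (C : Finset V) (p y : V) : ℤ :=
  if y ∈ C then (if dgr G y ≤ 2 then 0 else if dgr G y = 3 then 2 else 3)
  else if dgr G y = 3 then (if M.fl y p = 3 ∨ M.fl (M.s p y) y = 3 then 0 else 1)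
  else if dgr G y = 4 then
    (if M.fl y p = 3 ∧ M.fl (M.s p y) y = 3 then 1
      else if M.fl y p ≠ 3 ∧ M.fl (M.s p y) y ≠ 3 ∧ M.fl (M.op p y) y = 3 then 1 else 2)
  else (if M.fl y p = 3 ∧ M.fl (M.s p y) y = 3 then 3 else 2)

/-- what the corner gives to its face -/
noncomputable def OM.tr (M : OM G F) (C : Finset V) (i0 : ι) (p y : V) : ℤ :=
  if M.lf p y = i0 then 0 else if M.fl p y = 3 then 1 else M.wt C p y - 2

/-- extended letters: `M`, `L`, `R`: a `V` whose opposite face is poor with the word `wM`, `wL`, `wR`;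
`Q`: one of these; `A`: anything -/
inductive Lx
  | T1 | T2 | Z | Y | V | M | L | R | Q | A
  deriving DecidableEq

def OM.hx (M : OM G F) (C : Finset V) (p y : V) : Lx → Prop
  | .T1 => M.holds C p y (M.s p y) .T1
  | .T2 => M.holds C p y (M.s p y) .T2
  | .Z => M.holds C p y (M.s p y) .Z
  | .Y => M.holds C p y (M.s p y) .Y
  | .V => M.holds C p y (M.s p y) .V
  | .M => M.holds C p y (M.s p y) .V ∧ M.Word C (M.op p y) y wM
  | .L => M.holds C p y (M.s p y) .V ∧ M.Word C (M.op p y) y wL
  | .R => M.holds C p y (M.s p y) .V ∧ M.Word C (M.op p y) y wR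
  | .Q => M.holds C p y (M.s p y) .V ∧ (M.Word C (M.op p y) y wM ∨ M.Word C (M.op p y) y wL ∨
      M.Word C (M.op p y) y wR)
  | .A => True

/-- word with extended letters -/
def OM.WordX (M : OM G F) (C : Finset V) (u v : V) (w : List Lx) : Prop :=
  G.Adj u v ∧ M.fl u v = w.length ∧
    ∀ k < w.length, M.hx C (M.fw u v k) (M.fw u v (k + 1)) (w.getD k .A)

/-- the corner is asked -/
def OM.Asked (M : OM G F) (C : Finset V) (p y : V) : Prop :=
  M.hx C p y .M ∨ M.hx C p y .L ∨ M.hx C p y .R

/-- the reducible words (up to rotation and reflection), see row 531 and helper32's shapes -/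
def badWords : List (List Lx) :=
  [[.Q, .V, .T1, .T2, .T1, .A, .T2, .V],     -- X2, A1
   [.M, .V, .T1, .T2, .T1, .T2, .V, .V],     -- X3 with M
   [.M, .V, .T1, .T2, .V, .T1, .T2, .V],     -- X1 with M
   [.M, .V, .T1, .T2, .V, .M, .V, .V],       -- A2, two M
   [.R, .V, .T1, .T2, .T1, .T2, .V, .V],     -- X3 with MM
   [.R, .V, .V, .T1, .T2, .T1, .T2, .V],
   [.R, .V, .T1, .T2, .V, .M, .V, .V],       -- A2, M and MM
   [.R, .V, .V, .M, .V, .T1, .T2, .V],
   [.R, .V, .T1, .T2, .V, .T1, .T2, .V]]     -- X1 with MM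

/-- all reductions, one orientation -/
structure Good (M : OM G F) (C : Finset V) : Prop where
  /-- no tetrad -/
  tet : ∀ u v, G.Adj u v → ¬ (M.hx C u v .T2 ∧ M.hx C (M.fw u v 1) (M.fw u v 2) .T1 ∧
    M.hx C (M.fw u v 2) (M.fw u v 3) .T2 ∧ M.hx C (M.fw u v 3) (M.fw u v 4) .T1)
  /-- an asked face has length 8 -/
  len8 : ∀ u v, G.Adj u v → M.Asked C u v → M.fl u v ≤ 8
  /-- the neighbour before an asked vertex is not a 3-vertex -/
  nb : ∀ u v, G.Adj u v → M.Asked C u v → u ∉ C → dgr G u ≠ 3
  /-- no two adjacent asked vertices -/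
  adj : ∀ u v, G.Adj u v → M.Asked C u v → ¬ M.Asked C v (M.s u v)
  /-- asked by `M`, then `V`, then asked -/
  mvm : ∀ u v, G.Adj u v → M.hx C u v .M → M.hx C (M.fw u v 1) (M.fw u v 2) .V →
    ¬ M.Asked C (M.fw u v 2) (M.fw u v 3)
  bad : ∀ u v, ∀ w ∈ badWords, ¬ M.WordX C u v w

end

/-- letters of the enumeration. `T1 ... W`: inner vertices (`B1`, `B2`: weight 2, triangle at the
previous / next edge, `O`: weight 2, no triangle, `W`: weight 3); the others: vertices of the outer
cycle, by the edges of the cycle: `I`: none, `E1`, `F1`: the previous edge, `E2`, `F2`: the next edge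
(`E`: degree 3, `F`: degree at least 4), `C0`: both. The Boolean says whether the other edges are in
triangles. -/
inductive Lc
  | T1 | T2 | N | O | V | M | L | R | B1 | B2 | W
  | I (a b : Bool) | E1 (a : Bool) | E2 (a : Bool) | F1 (a : Bool) | F2 (a : Bool) | C0
  deriving DecidableEq

/-- type of the previous edge: 0 plain, 1 in a triangle, 2 edge of the outer cycle -/
def Lc.pf : Lc → ℕ
  | .T1 | .V | .M | .L | .R | .B1 | .W => 1
  | .T2 | .N | .O | .B2 => 0
  | .I a _ | .E2 a | .F2 a => a.toNat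
  | .E1 _ | .F1 _ | .C0 => 2

/-- type of the next edge -/
def Lc.nf : Lc → ℕ
  | .T2 | .V | .M | .L | .R | .B2 | .W => 1
  | .T1 | .N | .O | .B1 => 0
  | .I _ b => b.toNat
  | .E1 a | .F1 a => a.toNat
  | .E2 _ | .F2 _ | .C0 => 2

/-- weight minus what is asked -/
def Lc.w : Lc → ℤ
  | .T1 | .T2 | .C0 => 0
  | .N | .V => 1
  | .M => -1
  | .L | .R => 0
  | .O | .B1 | .B2 | .E1 _ | .E2 _ => 2
  | .W | .I _ _ | .F1 _ | .F2 _ => 3

def Lc.asked : Lc → Bool
  | .M | .L | .R => true
  | _ => false

/-- not allowed next to an asked vertex -/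
def Lc.low : Lc → Bool
  | .T1 | .T2 | .E1 _ | .E2 _ => true
  | _ => false

/-- two consecutive letters -/
def okPair (a b : Lc) : Bool :=
  decide (a.nf = b.pf) && !(a.asked && (b.low || b.asked)) && !(b.asked && a.low)

/-- cyclic element -/
def cl (w : List Lc) (k : ℕ) : Lc := w.getD (k % w.length) .C0

/-- local conditions of a cyclic word: consecutive letters, no tetrad, not all edges in the outer
cycle -/
def okWord (w : List Lc) : Bool :=
  (List.range w.length).all (fun k => okPair (cl w k) (cl w (k + 1)) &&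
    !(decide (cl w k = .T2) && decide (cl w (k + 1) = .T1) && decide (cl w (k + 2) = .T2) &&
      decide (cl w (k + 3) = .T1))) &&
  w.any (fun l => decide (l ≠ .C0))

section

variable {V : Type} [Fintype V] {G : SimpleGraph V} {ι : Type} {F : ι → EV V}

/-- type of an edge -/
noncomputable def OM.et (M : OM G F) (i0 : ι) (u v : V) : ℕ :=
  if F i0 s(u, v) ≠ 0 then 2 else if M.fl v u = 3 then 1 else 0

/-- the letter `ℓ` describes the corner `p, y, s p y` -/
def OM.Lh (M : OM G F) (C : Finset V) (i0 : ι) (p y : V) (ℓ : Lc) : Prop :=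
  M.et i0 p y = ℓ.pf ∧ M.et i0 y (M.s p y) = ℓ.nf ∧
    ℓ.w ≤ M.wt C p y - M.ask C (M.op p y) y ∧
    match ℓ with
    | .T1 => M.hx C p y .T1
    | .T2 => M.hx C p y .T2
    | .N => M.hx C p y .Z ∨ M.hx C p y .Y
    | .V => M.hx C p y .V
    | .M => M.hx C p y .M
    | .L => M.hx C p y .L
    | .R => M.hx C p y .R
    | .E1 _ => y ∈ C ∧ dgr G y = 3
    | .E2 _ => y ∈ C ∧ dgr G y = 3
    | _ => True

end

/-- mirror image of a letter -/
def Lx.mir : Lx → Lx
  | .T1 => .T2
  | .T2 => .T1
  | .L => .R
  | .R => .L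
  | l => l

/-- mirror image of a letter -/
def Lc.mir : Lc → Lc
  | .T1 => .T2
  | .T2 => .T1
  | .L => .R
  | .R => .L
  | .B1 => .B2
  | .B2 => .B1
  | .I a b => .I b a
  | .E1 a => .E2 a
  | .E2 a => .E1 a
  | .F1 a => .F2 a
  | .F2 a => .F1 a
  | l => l

/-- patterns in words of the enumeration -/
def Lx.matches : Lx → Lc → Bool
  | .T1, .T1 => true
  | .T2, .T2 => true
  | .Z, .N => true
  | .Y, .N => true
  | .V, .V => true
  | .V, .M => true
  | .V, .L => true
  | .V, .R => true
  | .M, .M => true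
  | .L, .L => true
  | .R, .R => true
  | .Q, .M => true
  | .Q, .L => true
  | .Q, .R => true
  | .A, _ => true
  | _, _ => false

/-- the pattern matches the cyclic word `w` at the position `r` -/
def matchAt (pat : List Lx) (w : List Lc) (r : ℕ) : Bool :=
  (List.range pat.length).all fun j => (pat.getD j .A).matches (cl w (r + j))

/-- a bad pattern in the cyclic word `w` -/
def badOne (w : List Lc) : Bool :=
  (List.range w.length).any fun r => matchAt [.M, .V, .Q] w r || badWords.any fun p => matchAt p w r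

/-- a bad pattern in the cyclic word `w` or in its mirror image -/
def badLc (w : List Lc) : Bool := badOne w || badOne (w.map Lc.mir).reverse

/-- the words of the poor faces -/
def poorLc (w : List Lc) : Bool :=
  (List.range w.length).any fun r =>
    (List.range w.length).map (fun j => cl w (r + j)) ∈
      ([[.V, .T1, .T2, .T1, .N, .T2, .T1, .T2], [.V, .T1, .T2, .T1, .O, .T2, .T1, .T2],
        [.V, .T1, .T2, .V, .T1, .T2, .T1, .T2]] : List (List Lc))

end Pool.Agent.W_fb73a4_t7
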