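import Pool.Agent.W_fb73a4_t7.BBDefs
import Pool.Agent.W_fb73a4_t7.DDefs
import Pool.Agent.W_fb73a4_t7.ConfRv
import Pool.Agent.W_fb73a4_h51.ConfData

/-!
[T7] PB: programs (generated by helper20) which find the reducible configurations in the words.
Cases: adjMM, adjML, adjMR, adjLM, adjLL, adjLR, adjRM, adjRL, adjRR.
-/

set_option autoImplicit false

namespace Pool.Agent.W_fb73a4_t7

open Pool.Agent.W_fb73a4_h51

/-- case `adjMM`: the shape `M-M` -/
def pr_adjMM : Prog where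
  defs := [(0, 1), (1, 2), (2, 1), (3, 2), (1, 0), (1, 6), (6, 7), (7, 8), (8, 9), (9, 10), (8,
    7), (11, 10), (11, 13), (13, 14), (14, 15), (16, 15)]
  init := [.lt 0 1 .V, .lt 1 2 .V, .word 4 1 wM, .word 5 2 wM]
  steps := [.new 0, .new 1, .new 2, .new 3, .letter 0 1 2 .V, .letter 1 2 3 .V, .side 0 1, .close
    [2, 1, 4], .shift 2 1 4 3, .backl 4 2 1 3, .side 1 2, .around 2 [4, 1, 3, 5], .close [3, 2,
    5], .shift 3 2 5 3, .backl 5 3 2 3, .side 4 1, .side 2 4, .side 5 2, .side 3 5, .new 4, .close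
    [1, 0, 6], .shift 1 0 6 3, .backl 6 1 0 3, .around 1 [6, 0, 2, 4], .shiftl 4 1 6 8, .side 6 0,
    .new 5, .shiftl 1 6 7 8, .new 6, .shiftl 6 7 8 8, .new 7, .shiftl 7 8 9 8, .new 8, .shiftl 8 9
    10 8, .new 9, .letters [4, 1, 6, 7, 8, 9, 10, 11] wM, .shiftl 9 10 11 8, .close [4, 1, 6, 7,
    8, 9, 10, 11], .around 6 [0, 1, 7], .around 4 [11, 1, 2], .shiftl 10 11 4 8, .shiftl 2 4 11 8,
    .back 7 6 0 8, .new 10, .around 7 [6, 8, 12], .close [8, 7, 12], .backl 12 8 7 3, .around 8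
    [12, 7, 9], .back 12 7 6 8, .side 8 12, .back 9 8 12 8, .new 11, .around 10 [9, 11, 13],
    .close [11, 10, 13], .shift 11 10 13 3, .backl 13 11 10 3, .around 11 [13, 10, 4], .shiftl 4
    11 13 8, .side 13 10, .new 12, .shiftl 11 13 14 8, .new 13, .shiftl 13 14 15 8, .new 14,
    .letters [5, 2, 4, 11, 13, 14, 15, 16] wM, .shiftl 14 15 16 8, .close [5, 2, 4, 11, 13, 14,
    15, 16], .around 13 [10, 11, 14], .around 5 [16, 2, 3], .shiftl 15 16 5 8, .shiftl 3 5 16 8,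
    .back 14 13 10 8, .new 15, .around 15 [14, 16, 17], .close [16, 15, 17], .shift 16 15 17 3,
    .backl 17 16 15 3, .around 16 [17, 15, 5], .side 17 15]
  ren := [8, 7, 6, 1, 4, 2, 5, 16, 15, 11, 10, 13, 9, 14, 17, 3, 0, 12]

theorem pr_adjMM_ok : pr_adjMM.check cl_MM = true := by decide +kernel

/-- case `adjML`: the shape `P9` -/
def pr_adjML : Prog where
  defs := [(0, 1), (1, 2), (2, 1), (3, 2), (1, 0), (1, 6), (6, 7), (7, 8), (8, 9), (9, 10), (8,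
    7), (11, 10), (11, 13), (13, 14), (14, 15), (14, 13), (16, 15)]
  init := [.lt 0 1 .V, .lt 1 2 .V, .word 4 1 wM, .word 5 2 wL]
  steps := [.new 0, .new 1, .new 2, .new 3, .letter 0 1 2 .V, .letter 1 2 3 .V, .close [2, 1, 4],
    .shift 2 1 4 3, .backl 4 2 1 3, .side 1 2, .around 2 [4, 1, 3, 5], .close [3, 2, 5], .shift 3
    2 5 3, .backl 5 3 2 3, .side 4 1, .side 2 4, .side 5 2, .side 3 5, .new 4, .close [1, 0, 6],
    .around 1 [6, 0, 2, 4], .shiftl 4 1 6 8, .new 5, .shiftl 1 6 7 8, .new 6, .shiftl 6 7 8 8,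
    .new 7, .shiftl 7 8 9 8, .new 8, .shiftl 8 9 10 8, .new 9, .letters [4, 1, 6, 7, 8, 9, 10, 11]
    wM, .shiftl 9 10 11 8, .close [4, 1, 6, 7, 8, 9, 10, 11], .around 4 [11, 1, 2], .shiftl 10 11
    4 8, .shiftl 2 4 11 8, .new 11, .around 10 [9, 11, 13], .close [11, 10, 13], .shift 11 10 13
    3, .backl 13 11 10 3, .around 11 [13, 10, 4], .shiftl 4 11 13 8, .side 13 10, .new 12, .shiftl
    11 13 14 8, .new 13, .shiftl 13 14 15 8, .new 14, .letters [5, 2, 4, 11, 13, 14, 15, 16] wL,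
    .shiftl 14 15 16 8, .close [5, 2, 4, 11, 13, 14, 15, 16], .around 5 [16, 2, 3], .shiftl 15 16
    5 8, .shiftl 3 5 16 8, .new 15, .around 13 [10, 11, 14, 17], .close [14, 13, 17], .backl 17 14
    13 3, .around 14 [17, 13, 15], .back 17 13 10 8, .side 14 17, .back 15 14 17 8, .new 16,
    .around 15 [14, 16, 18], .close [16, 15, 18], .backl 18 16 15 3, .around 16 [18, 15, 5], .back
    18 15 14 8]
  ren := [4, 2, 5, 16, 15, 14, 11, 10, 13, 9, 17, 18, 3, 1]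

theorem pr_adjML_ok : pr_adjML.check cl_P9 = true := by decide +kernel

/-- case `adjMR`: the shape `P10` -/
def pr_adjMR : Prog where
  defs := [(0, 1), (1, 2), (2, 1), (3, 2), (1, 0), (1, 6), (6, 7), (7, 8), (8, 9), (9, 10), (8,
    7), (11, 10), (11, 13), (13, 14), (14, 15), (15, 14), (16, 15)]
  init := [.lt 0 1 .V, .lt 1 2 .V, .word 4 1 wM, .word 5 2 wR]
  steps := [.new 0, .new 1, .new 2, .new 3, .letter 0 1 2 .V, .letter 1 2 3 .V, .side 0 1, .close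
    [2, 1, 4], .shift 2 1 4 3, .backl 4 2 1 3, .side 1 2, .around 2 [4, 1, 3, 5], .close [3, 2,
    5], .shift 3 2 5 3, .backl 5 3 2 3, .side 4 1, .side 2 4, .side 5 2, .side 3 5, .new 4, .close
    [1, 0, 6], .shift 1 0 6 3, .backl 6 1 0 3, .around 1 [6, 0, 2, 4], .shiftl 4 1 6 8, .side 6 0,
    .new 5, .shiftl 1 6 7 8, .new 6, .shiftl 6 7 8 8, .new 7, .shiftl 7 8 9 8, .new 8, .shiftl 8 9
    10 8, .new 9, .letters [4, 1, 6, 7, 8, 9, 10, 11] wM, .shiftl 9 10 11 8, .close [4, 1, 6, 7,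
    8, 9, 10, 11], .around 6 [0, 1, 7], .around 4 [11, 1, 2], .shiftl 10 11 4 8, .shiftl 2 4 11 8,
    .back 7 6 0 8, .new 11, .close [11, 10, 13], .shift 11 10 13 3, .backl 13 11 10 3, .around 11
    [13, 10, 4], .shiftl 4 11 13 8, .side 13 10, .new 12, .shiftl 11 13 14 8, .new 13, .shiftl 13
    14 15 8, .new 14, .letters [5, 2, 4, 11, 13, 14, 15, 16] wR, .shiftl 14 15 16 8, .close [5, 2,
    4, 11, 13, 14, 15, 16], .around 13 [10, 11, 14], .around 5 [16, 2, 3], .shiftl 15 16 5 8,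
    .shiftl 3 5 16 8, .back 14 13 10 8, .new 15, .around 14 [13, 15, 17], .close [15, 14, 17],
    .backl 17 15 14 3, .back 17 14 13 8, .side 15 17, .new 16, .around 15 [17, 14, 16, 18], .close
    [16, 15, 18], .backl 18 16 15 3, .around 16 [18, 15, 5], .back 18 15 17 8]
  ren := [6, 1, 4, 11, 2, 13, 5, 16, 14, 15, 10, 17, 18, 3, 0, 7]

theorem pr_adjMR_ok : pr_adjMR.check cl_P10 = true := by decide +kernel

/-- case `adjLM`: the shape `P10` (reversed) -/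
def pr_adjLM : Prog where
  defs := [(0, 1), (1, 2), (2, 1), (3, 2), (1, 0), (1, 6), (6, 7), (7, 8), (8, 9), (9, 10), (8,
    7), (9, 8), (11, 10), (11, 14), (14, 15), (15, 16)]
  init := [.lt 0 1 .V, .lt 1 2 .V, .word 4 1 wL, .word 5 2 wM]
  steps := [.new 0, .new 1, .new 2, .new 3, .letter 0 1 2 .V, .letter 1 2 3 .V, .side 0 1, .close
    [2, 1, 4], .shift 2 1 4 3, .backl 4 2 1 3, .side 1 2, .around 2 [4, 1, 3, 5], .close [3, 2,
    5], .shift 3 2 5 3, .backl 5 3 2 3, .side 4 1, .side 2 4, .side 5 2, .side 3 5, .new 4, .close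
    [1, 0, 6], .shift 1 0 6 3, .backl 6 1 0 3, .around 1 [6, 0, 2, 4], .shiftl 4 1 6 8, .side 6 0,
    .new 5, .shiftl 1 6 7 8, .new 6, .shiftl 6 7 8 8, .new 7, .shiftl 7 8 9 8, .new 8, .shiftl 8 9
    10 8, .new 9, .letters [4, 1, 6, 7, 8, 9, 10, 11] wL, .shiftl 9 10 11 8, .close [4, 1, 6, 7,
    8, 9, 10, 11], .around 6 [0, 1, 7], .around 4 [11, 1, 2], .shiftl 10 11 4 8, .shiftl 2 4 11 8,
    .back 7 6 0 8, .new 10, .around 7 [6, 8, 12], .close [8, 7, 12], .backl 12 8 7 3, .back 12 7 6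
    8, .side 8 12, .new 11, .around 8 [12, 7, 9, 13], .close [9, 8, 13], .backl 13 9 8 3, .around
    9 [13, 8, 10], .back 13 8 12 8, .side 9 13, .back 10 9 13 8, .new 12, .around 10 [9, 11, 14],
    .close [11, 10, 14], .backl 14 11 10 3, .around 11 [14, 10, 4], .shiftl 4 11 14 8, .back 14 10
    9 8, .new 13, .shiftl 11 14 15 8, .new 14, .shiftl 14 15 16 8, .new 15, .letters [5, 2, 4, 11,
    14, 15, 16, 17] wM, .shiftl 15 16 17 8, .close [5, 2, 4, 11, 14, 15, 16, 17], .around 5 [17,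
    2, 3], .shiftl 16 17 5 8]
  ren := [5, 2, 4, 11, 1, 10, 6, 7, 9, 8, 14, 13, 12, 0, 3, 17]

theorem pr_adjLM_ok : pr_adjLM.check cl_P10.rv = true := by decide +kernel

/-- case `adjLL`: the shape `P10` (reversed) -/
def pr_adjLL : Prog where
  defs := [(0, 1), (1, 2), (2, 1), (3, 2), (1, 0), (1, 6), (6, 7), (7, 8), (8, 9), (9, 10), (8,
    7), (9, 8), (11, 10), (11, 14), (14, 15), (15, 16)]
  init := [.lt 0 1 .V, .lt 1 2 .V, .word 4 1 wL, .word 5 2 wL]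
  steps := [.new 0, .new 1, .new 2, .new 3, .letter 0 1 2 .V, .letter 1 2 3 .V, .side 0 1, .close
    [2, 1, 4], .shift 2 1 4 3, .backl 4 2 1 3, .side 1 2, .around 2 [4, 1, 3, 5], .close [3, 2,
    5], .shift 3 2 5 3, .backl 5 3 2 3, .side 4 1, .side 2 4, .side 5 2, .side 3 5, .new 4, .close
    [1, 0, 6], .shift 1 0 6 3, .backl 6 1 0 3, .around 1 [6, 0, 2, 4], .shiftl 4 1 6 8, .side 6 0,
    .new 5, .shiftl 1 6 7 8, .new 6, .shiftl 6 7 8 8, .new 7, .shiftl 7 8 9 8, .new 8, .shiftl 8 9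
    10 8, .new 9, .letters [4, 1, 6, 7, 8, 9, 10, 11] wL, .shiftl 9 10 11 8, .close [4, 1, 6, 7,
    8, 9, 10, 11], .around 6 [0, 1, 7], .around 4 [11, 1, 2], .shiftl 10 11 4 8, .shiftl 2 4 11 8,
    .back 7 6 0 8, .new 10, .around 7 [6, 8, 12], .close [8, 7, 12], .backl 12 8 7 3, .back 12 7 6
    8, .side 8 12, .new 11, .around 8 [12, 7, 9, 13], .close [9, 8, 13], .backl 13 9 8 3, .around
    9 [13, 8, 10], .back 13 8 12 8, .side 9 13, .back 10 9 13 8, .new 12, .around 10 [9, 11, 14],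
    .close [11, 10, 14], .backl 14 11 10 3, .around 11 [14, 10, 4], .shiftl 4 11 14 8, .back 14 10
    9 8, .new 13, .shiftl 11 14 15 8, .new 14, .shiftl 14 15 16 8, .new 15, .letters [5, 2, 4, 11,
    14, 15, 16, 17] wL, .shiftl 15 16 17 8, .close [5, 2, 4, 11, 14, 15, 16, 17], .around 5 [17,
    2, 3], .shiftl 16 17 5 8]
  ren := [5, 2, 4, 11, 1, 10, 6, 7, 9, 8, 14, 13, 12, 0, 3, 17]

theorem pr_adjLL_ok : pr_adjLL.check cl_P10.rv = true := by decide +kernel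

/-- case `adjLR`: the shape `P10` (reversed) -/
def pr_adjLR : Prog where
  defs := [(0, 1), (1, 2), (2, 1), (3, 2), (1, 0), (1, 6), (6, 7), (7, 8), (8, 9), (9, 10), (8,
    7), (9, 8), (11, 10), (11, 14), (14, 15), (15, 16)]
  init := [.lt 0 1 .V, .lt 1 2 .V, .word 4 1 wL, .word 5 2 wR]
  steps := [.new 0, .new 1, .new 2, .new 3, .letter 0 1 2 .V, .letter 1 2 3 .V, .side 0 1, .close
    [2, 1, 4], .shift 2 1 4 3, .backl 4 2 1 3, .side 1 2, .around 2 [4, 1, 3, 5], .close [3, 2,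
    5], .shift 3 2 5 3, .backl 5 3 2 3, .side 4 1, .side 2 4, .side 5 2, .side 3 5, .new 4, .close
    [1, 0, 6], .shift 1 0 6 3, .backl 6 1 0 3, .around 1 [6, 0, 2, 4], .shiftl 4 1 6 8, .side 6 0,
    .new 5, .shiftl 1 6 7 8, .new 6, .shiftl 6 7 8 8, .new 7, .shiftl 7 8 9 8, .new 8, .shiftl 8 9
    10 8, .new 9, .letters [4, 1, 6, 7, 8, 9, 10, 11] wL, .shiftl 9 10 11 8, .close [4, 1, 6, 7,
    8, 9, 10, 11], .around 6 [0, 1, 7], .around 4 [11, 1, 2], .shiftl 10 11 4 8, .shiftl 2 4 11 8,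
    .back 7 6 0 8, .new 10, .around 7 [6, 8, 12], .close [8, 7, 12], .backl 12 8 7 3, .back 12 7 6
    8, .side 8 12, .new 11, .around 8 [12, 7, 9, 13], .close [9, 8, 13], .backl 13 9 8 3, .around
    9 [13, 8, 10], .back 13 8 12 8, .side 9 13, .back 10 9 13 8, .new 12, .around 10 [9, 11, 14],
    .close [11, 10, 14], .backl 14 11 10 3, .around 11 [14, 10, 4], .shiftl 4 11 14 8, .back 14 10
    9 8, .new 13, .shiftl 11 14 15 8, .new 14, .shiftl 14 15 16 8, .new 15, .letters [5, 2, 4, 11,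
    14, 15, 16, 17] wR, .shiftl 15 16 17 8, .close [5, 2, 4, 11, 14, 15, 16, 17], .around 5 [17,
    2, 3], .shiftl 16 17 5 8]
  ren := [5, 2, 4, 11, 1, 10, 6, 7, 9, 8, 14, 13, 12, 0, 3, 17]

theorem pr_adjLR_ok : pr_adjLR.check cl_P10.rv = true := by decide +kernel

/-- case `adjRM`: the shape `P9` (reversed) -/
def pr_adjRM : Prog where
  defs := [(0, 1), (1, 2), (2, 1), (3, 2), (1, 0), (1, 6), (6, 7), (7, 8), (8, 9), (9, 10), (8,
    7), (10, 9), (11, 10), (11, 14), (14, 15), (15, 16)]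
  init := [.lt 0 1 .V, .lt 1 2 .V, .word 4 1 wR, .word 5 2 wM]
  steps := [.new 0, .new 1, .new 2, .new 3, .letter 0 1 2 .V, .letter 1 2 3 .V, .side 0 1, .close
    [2, 1, 4], .shift 2 1 4 3, .backl 4 2 1 3, .around 2 [4, 1, 3, 5], .side 4 1, .side 2 4, .new
    4, .close [1, 0, 6], .shift 1 0 6 3, .backl 6 1 0 3, .around 1 [6, 0, 2, 4], .shiftl 4 1 6 8,
    .side 6 0, .new 5, .shiftl 1 6 7 8, .new 6, .shiftl 6 7 8 8, .new 7, .shiftl 7 8 9 8, .new 8,
    .shiftl 8 9 10 8, .new 9, .letters [4, 1, 6, 7, 8, 9, 10, 11] wR, .shiftl 9 10 11 8, .close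
    [4, 1, 6, 7, 8, 9, 10, 11], .around 6 [0, 1, 7], .around 4 [11, 1, 2], .shiftl 10 11 4 8,
    .shiftl 2 4 11 8, .back 7 6 0 8, .new 10, .around 7 [6, 8, 12], .close [8, 7, 12], .backl 12 8
    7 3, .around 8 [12, 7, 9], .back 12 7 6 8, .side 8 12, .back 9 8 12 8, .new 11, .around 9 [8,
    10, 13], .close [10, 9, 13], .backl 13 10 9 3, .back 13 9 8 8, .side 10 13, .new 12, .around
    10 [13, 9, 11, 14], .close [11, 10, 14], .shift 11 10 14 3, .backl 14 11 10 3, .around 11 [14,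
    10, 4], .shiftl 4 11 14 8, .back 14 10 13 8, .new 13, .new 14, .new 15, .letters [5, 2, 4, 11,
    14, 15, 16, 17] wM, .around 14 [10, 11, 15], .back 15 14 10 8]
  ren := [4, 1, 6, 7, 8, 9, 11, 14, 10, 15, 13, 12, 0, 2]

theorem pr_adjRM_ok : pr_adjRM.check cl_P9.rv = true := by decide +kernel

/-- case `adjRL`: the shape `MMo-MMo` -/
def pr_adjRL : Prog where
  defs := [(0, 1), (1, 2), (2, 1), (3, 2), (1, 0), (1, 6), (6, 7), (7, 8), (8, 9), (9, 10), (8,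
    7), (10, 9), (11, 10), (11, 14), (14, 15), (15, 16), (15, 14), (17, 16)]
  init := [.lt 0 1 .V, .lt 1 2 .V, .word 4 1 wR, .word 5 2 wL]
  steps := [.new 0, .new 1, .new 2, .new 3, .letter 0 1 2 .V, .letter 1 2 3 .V, .side 0 1, .close
    [2, 1, 4], .shift 2 1 4 3, .backl 4 2 1 3, .side 1 2, .around 2 [4, 1, 3, 5], .close [3, 2,
    5], .shift 3 2 5 3, .backl 5 3 2 3, .side 4 1, .side 2 4, .side 5 2, .side 3 5, .new 4, .close
    [1, 0, 6], .shift 1 0 6 3, .backl 6 1 0 3, .around 1 [6, 0, 2, 4], .shiftl 4 1 6 8, .side 6 0,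
    .new 5, .shiftl 1 6 7 8, .new 6, .shiftl 6 7 8 8, .new 7, .shiftl 7 8 9 8, .new 8, .shiftl 8 9
    10 8, .new 9, .letters [4, 1, 6, 7, 8, 9, 10, 11] wR, .shiftl 9 10 11 8, .close [4, 1, 6, 7,
    8, 9, 10, 11], .around 6 [0, 1, 7], .around 4 [11, 1, 2], .shiftl 10 11 4 8, .shiftl 2 4 11 8,
    .back 7 6 0 8, .new 10, .around 7 [6, 8, 12], .close [8, 7, 12], .backl 12 8 7 3, .around 8
    [12, 7, 9], .back 12 7 6 8, .side 8 12, .back 9 8 12 8, .new 11, .around 9 [8, 10, 13], .close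
    [10, 9, 13], .backl 13 10 9 3, .back 13 9 8 8, .side 10 13, .new 12, .around 10 [13, 9, 11,
    14], .close [11, 10, 14], .shift 11 10 14 3, .backl 14 11 10 3, .around 11 [14, 10, 4],
    .shiftl 4 11 14 8, .back 14 10 13 8, .new 13, .shiftl 11 14 15 8, .new 14, .shiftl 14 15 16 8,
    .new 15, .letters [5, 2, 4, 11, 14, 15, 16, 17] wL, .shiftl 15 16 17 8, .close [5, 2, 4, 11,
    14, 15, 16, 17], .around 5 [17, 2, 3], .shiftl 16 17 5 8, .shiftl 3 5 17 8, .new 16, .around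
    14 [10, 11, 15, 18], .close [15, 14, 18], .backl 18 15 14 3, .around 15 [18, 14, 16], .back 18
    14 10 8, .side 15 18, .back 16 15 18 8, .new 17, .around 16 [15, 17, 19], .close [17, 16, 19],
    .backl 19 17 16 3, .around 17 [19, 16, 5], .back 19 16 15 8]
  ren := [9, 8, 7, 6, 10, 11, 4, 1, 14, 2, 5, 17, 16, 15, 13, 18, 19, 3, 0, 12]

theorem pr_adjRL_ok : pr_adjRL.check cl_MMoMMo = true := by decide +kernel

/-- case `adjRR`: the shape `P9` (reversed) -/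
def pr_adjRR : Prog where
  defs := [(0, 1), (1, 2), (2, 1), (3, 2), (1, 0), (1, 6), (6, 7), (7, 8), (8, 9), (9, 10), (8,
    7), (10, 9), (11, 10), (11, 14), (14, 15), (15, 16)]
  init := [.lt 0 1 .V, .lt 1 2 .V, .word 4 1 wR, .word 5 2 wR]
  steps := [.new 0, .new 1, .new 2, .new 3, .letter 0 1 2 .V, .letter 1 2 3 .V, .side 0 1, .close
    [2, 1, 4], .shift 2 1 4 3, .backl 4 2 1 3, .around 2 [4, 1, 3, 5], .side 4 1, .side 2 4, .new
    4, .close [1, 0, 6], .shift 1 0 6 3, .backl 6 1 0 3, .around 1 [6, 0, 2, 4], .shiftl 4 1 6 8,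
    .side 6 0, .new 5, .shiftl 1 6 7 8, .new 6, .shiftl 6 7 8 8, .new 7, .shiftl 7 8 9 8, .new 8,
    .shiftl 8 9 10 8, .new 9, .letters [4, 1, 6, 7, 8, 9, 10, 11] wR, .shiftl 9 10 11 8, .close
    [4, 1, 6, 7, 8, 9, 10, 11], .around 6 [0, 1, 7], .around 4 [11, 1, 2], .shiftl 10 11 4 8,
    .shiftl 2 4 11 8, .back 7 6 0 8, .new 10, .around 7 [6, 8, 12], .close [8, 7, 12], .backl 12 8
    7 3, .around 8 [12, 7, 9], .back 12 7 6 8, .side 8 12, .back 9 8 12 8, .new 11, .around 9 [8,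
    10, 13], .close [10, 9, 13], .backl 13 10 9 3, .back 13 9 8 8, .side 10 13, .new 12, .around
    10 [13, 9, 11, 14], .close [11, 10, 14], .shift 11 10 14 3, .backl 14 11 10 3, .around 11 [14,
    10, 4], .shiftl 4 11 14 8, .back 14 10 13 8, .new 13, .new 14, .new 15, .letters [5, 2, 4, 11,
    14, 15, 16, 17] wR, .around 14 [10, 11, 15], .back 15 14 10 8]
  ren := [4, 1, 6, 7, 8, 9, 11, 14, 10, 15, 13, 12, 0, 2]

theorem pr_adjRR_ok : pr_adjRR.check cl_P9.rv = true := by decide +kernel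

end Pool.Agent.W_fb73a4_t7
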