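import Pool.Agent.W_fb73a4_t7.BBDefs
import Pool.Agent.W_fb73a4_t7.DDefs
import Pool.Agent.W_fb73a4_t7.ConfRv
import Pool.Agent.W_fb73a4_h51.ConfData

/-!
[T7] PC: programs (generated by helper20) which find the reducible configurations in the words.
Cases: mvmM, mvmL, mvmR, bad0, bad1, bad2.
-/

set_option autoImplicit false

namespace Pool.Agent.W_fb73a4_t7

open Pool.Agent.W_fb73a4_h51

/-- case `mvmM`: the shape `M-V-M` -/
def pr_mvmM : Prog where
  defs := [(0, 1), (1, 2), (2, 3), (2, 1), (4, 3), (1, 0), (3, 2), (1, 7), (7, 9), (9, 10), (10,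
    11), (11, 12), (10, 9), (13, 12), (3, 8), (8, 16), (16, 17), (17, 18), (18, 19), (17, 16),
    (20, 19)]
  init := [.lt 0 1 .V, .lt 1 2 .V, .lt 2 3 .V, .word 5 1 wM, .word 6 3 wM]
  steps := [.new 0, .new 1, .new 2, .new 3, .new 4, .letter 0 1 2 .V, .letter 1 2 3 .V, .letter 2
    3 4 .V, .side 0 1, .close [2, 1, 5], .shift 2 1 5 3, .backl 5 2 1 3, .side 1 2, .side 2 3,
    .close [4, 3, 6], .shift 4 3 6 3, .backl 6 4 3 3, .side 5 1, .side 2 5, .side 6 3, .side 4 6,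
    .new 5, .close [1, 0, 7], .shift 1 0 7 3, .backl 7 1 0 3, .around 1 [7, 0, 2, 5], .shiftl 5 1
    7 8, .side 7 0, .new 6, .around 2 [5, 1, 3, 8], .close [3, 2, 8], .shift 3 2 8 3, .backl 8 3 2
    3, .around 3 [8, 2, 4, 6], .back 8 2 5 8, .shiftl 6 3 8 8, .new 7, .shiftl 1 7 9 8, .new 8,
    .shiftl 7 9 10 8, .new 9, .shiftl 9 10 11 8, .new 10, .shiftl 10 11 12 8, .new 11, .letters
    [5, 1, 7, 9, 10, 11, 12, 13] wM, .shiftl 11 12 13 8, .close [5, 1, 7, 9, 10, 11, 12, 13],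
    .around 7 [0, 1, 9], .around 5 [13, 1, 2], .shiftl 12 13 5 8, .shiftl 2 5 13 8, .back 9 7 0 8,
    .new 12, .around 9 [7, 10, 14], .close [10, 9, 14], .backl 14 10 9 3, .around 10 [14, 9, 11],
    .back 14 9 7 8, .side 10 14, .back 11 10 14 8, .new 13, .around 12 [11, 13, 15], .close [13,
    12, 15], .shift 13 12 15 3, .backl 15 13 12 3, .around 13 [15, 12, 5], .side 15 12, .new 14,
    .shiftl 3 8 16 8, .new 15, .shiftl 8 16 17 8, .new 16, .shiftl 16 17 18 8, .new 17, .shiftl 17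
    18 19 8, .new 18, .letters [6, 3, 8, 16, 17, 18, 19, 20] wM, .shiftl 18 19 20 8, .close [6, 3,
    8, 16, 17, 18, 19, 20], .around 8 [2, 3, 16], .around 6 [20, 3, 4], .shiftl 19 20 6 8, .shiftl
    4 6 20 8, .back 16 8 2 8, .new 19, .around 16 [8, 17, 21], .close [17, 16, 21], .backl 21 17
    16 3, .around 17 [21, 16, 18], .back 21 16 8 8, .side 17 21, .back 18 17 21 8, .new 20,
    .around 19 [18, 20, 22], .close [20, 19, 22], .shift 20 19 22 3, .backl 22 20 19 3, .around 20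
    [22, 19, 6], .side 22 19]
  ren := [19, 20, 6, 3, 8, 16, 17, 2, 5, 1, 7, 13, 12, 9, 10, 0, 14, 11, 15, 21, 18, 22, 4]

theorem pr_mvmM_ok : pr_mvmM.check cl_MVM = true := by decide +kernel

/-- case `mvmL`: the shape `M-V-MMo` (reversed) -/
def pr_mvmL : Prog where
  defs := [(0, 1), (1, 2), (2, 3), (2, 1), (4, 3), (1, 0), (3, 2), (1, 7), (7, 9), (9, 10), (10,
    11), (11, 12), (10, 9), (13, 12), (3, 8), (8, 16), (16, 17), (17, 18), (18, 19), (17, 16),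
    (18, 17), (20, 19)]
  init := [.lt 0 1 .V, .lt 1 2 .V, .lt 2 3 .V, .word 5 1 wM, .word 6 3 wL]
  steps := [.new 0, .new 1, .new 2, .new 3, .new 4, .letter 0 1 2 .V, .letter 1 2 3 .V, .letter 2
    3 4 .V, .side 0 1, .close [2, 1, 5], .shift 2 1 5 3, .backl 5 2 1 3, .side 1 2, .side 2 3,
    .close [4, 3, 6], .shift 4 3 6 3, .backl 6 4 3 3, .side 5 1, .side 2 5, .side 6 3, .side 4 6,
    .new 5, .close [1, 0, 7], .shift 1 0 7 3, .backl 7 1 0 3, .around 1 [7, 0, 2, 5], .shiftl 5 1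
    7 8, .side 7 0, .new 6, .around 2 [5, 1, 3, 8], .close [3, 2, 8], .shift 3 2 8 3, .backl 8 3 2
    3, .around 3 [8, 2, 4, 6], .back 8 2 5 8, .shiftl 6 3 8 8, .new 7, .shiftl 1 7 9 8, .new 8,
    .shiftl 7 9 10 8, .new 9, .shiftl 9 10 11 8, .new 10, .shiftl 10 11 12 8, .new 11, .letters
    [5, 1, 7, 9, 10, 11, 12, 13] wM, .shiftl 11 12 13 8, .close [5, 1, 7, 9, 10, 11, 12, 13],
    .around 7 [0, 1, 9], .around 5 [13, 1, 2], .shiftl 12 13 5 8, .shiftl 2 5 13 8, .back 9 7 0 8,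
    .new 12, .around 9 [7, 10, 14], .close [10, 9, 14], .backl 14 10 9 3, .around 10 [14, 9, 11],
    .back 14 9 7 8, .side 10 14, .back 11 10 14 8, .new 13, .around 12 [11, 13, 15], .close [13,
    12, 15], .shift 13 12 15 3, .backl 15 13 12 3, .around 13 [15, 12, 5], .side 15 12, .new 14,
    .shiftl 3 8 16 8, .new 15, .shiftl 8 16 17 8, .new 16, .shiftl 16 17 18 8, .new 17, .shiftl 17
    18 19 8, .new 18, .letters [6, 3, 8, 16, 17, 18, 19, 20] wL, .shiftl 18 19 20 8, .close [6, 3,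
    8, 16, 17, 18, 19, 20], .around 8 [2, 3, 16], .around 6 [20, 3, 4], .shiftl 19 20 6 8, .shiftl
    4 6 20 8, .back 16 8 2 8, .new 19, .around 16 [8, 17, 21], .close [17, 16, 21], .backl 21 17
    16 3, .back 21 16 8 8, .side 17 21, .new 20, .around 17 [21, 16, 18, 22], .close [18, 17, 22],
    .backl 22 18 17 3, .around 18 [22, 17, 19], .back 22 17 21 8, .side 18 22, .back 19 18 22 8,
    .new 21, .around 19 [18, 20, 23], .close [20, 19, 23], .backl 23 20 19 3, .around 20 [23, 19,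
    6], .back 23 19 18 8]
  ren := [10, 9, 7, 1, 5, 13, 12, 2, 8, 3, 6, 16, 20, 19, 18, 17, 4, 23, 22, 21, 15, 11, 14, 0]

theorem pr_mvmL_ok : pr_mvmL.check cl_MVMMo.rv = true := by decide +kernel

/-- case `mvmR`: the shape `P10` -/
def pr_mvmR : Prog where
  defs := [(0, 1), (1, 2), (2, 3), (2, 1), (4, 3), (1, 0), (3, 2), (1, 7), (7, 9), (9, 10), (10,
    11), (11, 12), (10, 9), (13, 12), (3, 8), (8, 16), (16, 17), (17, 18), (18, 19), (17, 16),
    (19, 18), (20, 19)]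
  init := [.lt 0 1 .V, .lt 1 2 .V, .lt 2 3 .V, .word 5 1 wM, .word 6 3 wR]
  steps := [.new 0, .new 1, .new 2, .new 3, .new 4, .letter 0 1 2 .V, .letter 1 2 3 .V, .letter 2
    3 4 .V, .close [2, 1, 5], .shift 2 1 5 3, .backl 5 2 1 3, .side 1 2, .side 2 3, .close [4, 3,
    6], .shift 4 3 6 3, .backl 6 4 3 3, .side 5 1, .side 2 5, .side 6 3, .side 4 6, .new 5, .close
    [1, 0, 7], .around 1 [7, 0, 2, 5], .shiftl 5 1 7 8, .new 6, .around 2 [5, 1, 3, 8], .close [3,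
    2, 8], .shift 3 2 8 3, .backl 8 3 2 3, .around 3 [8, 2, 4, 6], .back 8 2 5 8, .shiftl 6 3 8 8,
    .new 7, .shiftl 1 7 9 8, .new 8, .shiftl 7 9 10 8, .new 9, .shiftl 9 10 11 8, .new 10, .shiftl
    10 11 12 8, .new 11, .letters [5, 1, 7, 9, 10, 11, 12, 13] wM, .shiftl 11 12 13 8, .close [5,
    1, 7, 9, 10, 11, 12, 13], .around 5 [13, 1, 2], .shiftl 12 13 5 8, .new 14, .shiftl 3 8 16 8,
    .new 15, .shiftl 8 16 17 8, .new 16, .shiftl 16 17 18 8, .new 17, .shiftl 17 18 19 8, .new 18,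
    .letters [6, 3, 8, 16, 17, 18, 19, 20] wR, .shiftl 18 19 20 8, .close [6, 3, 8, 16, 17, 18,
    19, 20], .around 8 [2, 3, 16], .around 6 [20, 3, 4], .shiftl 19 20 6 8, .shiftl 4 6 20 8,
    .back 16 8 2 8, .new 19, .around 16 [8, 17, 21], .close [17, 16, 21], .backl 21 17 16 3,
    .around 17 [21, 16, 18], .back 21 16 8 8, .side 17 21, .back 18 17 21 8, .new 20, .around 18
    [17, 19, 22], .close [19, 18, 22], .backl 22 19 18 3, .back 22 18 17 8, .side 19 22, .new 21,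
    .around 19 [22, 18, 20, 23], .close [20, 19, 23], .backl 23 20 19 3, .around 20 [23, 19, 6],
    .back 23 19 22 8]
  ren := [5, 2, 8, 16, 3, 17, 6, 20, 18, 19, 21, 22, 23, 4, 1, 13]

theorem pr_mvmR_ok : pr_mvmR.check cl_P10 = true := by decide +kernel

/-- case `bad0`: the shape `X2` (reversed) -/
def pr_bad0 : Prog where
  defs := [(0, 1), (1, 2), (2, 3), (3, 4), (4, 5), (5, 6), (2, 1), (8, 1), (3, 2), (5, 4), (0, 7),
    (2, 8), (1, 9)]
  init := [.word 0 1 [.V, .V, .T1, .T2, .T1, .A, .T2, .V], .deg 8 3, .deg 9 3]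
  steps := [.new 0, .new 1, .new 2, .new 3, .new 4, .new 5, .new 6, .new 7, .letters [0, 1, 2, 3,
    4, 5, 6, 7] [.V, .V, .T1, .T2, .T1, .A, .T2, .V], .close [0, 1, 2, 3, 4, 5, 6, 7], .around 1
    [0, 2, 8, 9], .backl 9 1 0 3, .side 0 1, .close [2, 1, 8], .shift 2 1 8 3, .backl 8 2 1 3,
    .side 1 2, .side 2 3, .side 4 5, .side 7 0, .close [9, 1, 0], .backl 0 9 1 3, .side 1 9, .side
    8 1, .side 2 8, .shiftl 2 3 4 8, .back 6 7 0 8, .side 9 0, .new 8, .around 2 [8, 1, 3, 10],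
    .close [3, 2, 10], .backl 10 3 2 3, .around 3 [10, 2, 4], .back 10 2 8 8, .side 3 10, .back 4
    3 10 8, .new 9, .around 4 [3, 5, 11], .close [5, 4, 11], .backl 11 5 4 3, .around 5 [11, 4,
    6], .back 11 4 3 8, .side 5 11, .back 6 5 11 8, .new 10, .around 7 [6, 0, 12], .close [0, 7,
    12], .shift 0 7 12 3, .backl 12 0 7 3, .around 0 [12, 7, 1, 9], .side 12 7, .new 11, .around 8
    [1, 2, 13], .back 13 8 1 8, .new 12, .around 9 [0, 1, 14], .back 14 9 0 8]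
  ren := [7, 0, 9, 1, 8, 2, 3, 4, 5, 6, 11, 10, 13, 14, 12]

theorem pr_bad0_ok : pr_bad0.check cl_X2.rv = true := by decide +kernel

/-- case `bad1`: the shape `X3M` -/
def pr_bad1 : Prog where
  defs := [(0, 1), (1, 2), (2, 3), (3, 4), (4, 5), (5, 6), (2, 1), (1, 0), (3, 2), (5, 4), (7, 6),
    (0, 7), (1, 9), (9, 14), (14, 15), (15, 16), (16, 17), (15, 14), (18, 17)]
  init := [.word 0 1 [.V, .V, .T1, .T2, .T1, .T2, .V, .V], .word 8 1 wM]
  steps := [.new 0, .new 1, .new 2, .new 3, .new 4, .new 5, .new 6, .letters [0, 1, 2, 3, 4, 5, 6,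
    7] [.V, .V, .T1, .T2, .T1, .T2, .V, .V], .side 0 1, .close [2, 1, 8], .shift 2 1 8 3, .backl 8
    2 1 3, .side 1 2, .side 2 3, .side 4 5, .side 8 1, .side 2 8, .shiftl 2 3 4 8, .new 7, .close
    [1, 0, 9], .shift 1 0 9 3, .backl 9 1 0 3, .around 1 [9, 0, 2, 8], .shiftl 8 1 9 8, .side 9 0,
    .new 8, .around 2 [8, 1, 3, 10], .close [3, 2, 10], .backl 10 3 2 3, .around 3 [10, 2, 4],
    .back 10 2 8 8, .side 3 10, .back 4 3 10 8, .new 9, .around 4 [3, 5, 11], .close [5, 4, 11],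
    .backl 11 5 4 3, .around 5 [11, 4, 6], .back 11 4 3 8, .side 5 11, .back 6 5 11 8, .new 12,
    .shiftl 1 9 14 8, .new 13, .shiftl 9 14 15 8, .new 14, .shiftl 14 15 16 8, .new 15, .shiftl 15
    16 17 8, .new 16, .letters [8, 1, 9, 14, 15, 16, 17, 18] wM, .shiftl 16 17 18 8, .close [8, 1,
    9, 14, 15, 16, 17, 18], .around 9 [0, 1, 14], .around 8 [18, 1, 2], .shiftl 17 18 8 8, .shiftl
    2 8 18 8, .back 14 9 0 8, .new 17, .around 14 [9, 15, 19], .close [15, 14, 19], .backl 19 15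
    14 3, .around 15 [19, 14, 16], .back 19 14 9 8, .side 15 19, .back 16 15 19 8, .new 18,
    .around 17 [16, 18, 20], .close [18, 17, 20], .shift 18 17 20 3, .backl 20 18 17 3, .around 18
    [20, 17, 8], .side 20 17]
  ren := [5, 4, 3, 2, 8, 1, 9, 18, 17, 14, 15, 0, 19, 16, 20, 10, 11, 6]

theorem pr_bad1_ok : pr_bad1.check cl_X3M = true := by decide +kernel

/-- case `bad2`: the shape `X1M` -/
def pr_bad2 : Prog where
  defs := [(0, 1), (1, 2), (2, 3), (3, 4), (4, 5), (5, 6), (2, 1), (1, 0), (3, 2), (5, 4), (6, 5),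
    (0, 7), (1, 9), (9, 14), (14, 15), (15, 16), (16, 17), (15, 14), (18, 17)]
  init := [.word 0 1 [.V, .V, .T1, .T2, .V, .T1, .T2, .V], .word 8 1 wM]
  steps := [.new 0, .new 1, .new 2, .new 3, .new 4, .new 5, .new 6, .letters [0, 1, 2, 3, 4, 5, 6,
    7] [.V, .V, .T1, .T2, .V, .T1, .T2, .V], .close [0, 1, 2, 3, 4, 5, 6, 7], .side 0 1, .close
    [2, 1, 8], .shift 2 1 8 3, .backl 8 2 1 3, .side 1 2, .side 2 3, .side 4 5, .side 5 6, .side 7
    0, .side 8 1, .side 2 8, .shiftl 2 3 4 8, .shiftl 5 6 7 8, .new 7, .close [1, 0, 9], .shift 1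
    0 9 3, .backl 9 1 0 3, .around 1 [9, 0, 2, 8], .shiftl 8 1 9 8, .side 9 0, .new 8, .around 2
    [8, 1, 3, 10], .close [3, 2, 10], .backl 10 3 2 3, .around 3 [10, 2, 4], .back 10 2 8 8, .side
    3 10, .back 4 3 10 8, .new 9, .around 4 [3, 5, 11], .close [5, 4, 11], .backl 11 5 4 3, .back
    11 4 3 8, .side 5 11, .new 10, .around 5 [11, 4, 6, 12], .close [6, 5, 12], .backl 12 6 5 3,
    .around 6 [12, 5, 7], .back 12 5 11 8, .side 6 12, .back 7 6 12 8, .new 11, .around 7 [6, 0,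
    13], .close [0, 7, 13], .backl 13 0 7 3, .around 0 [13, 7, 1, 9], .back 13 7 6 8, .new 12,
    .shiftl 1 9 14 8, .new 13, .shiftl 9 14 15 8, .new 14, .shiftl 14 15 16 8, .new 15, .shiftl 15
    16 17 8, .new 16, .letters [8, 1, 9, 14, 15, 16, 17, 18] wM, .shiftl 16 17 18 8, .close [8, 1,
    9, 14, 15, 16, 17, 18], .around 9 [0, 1, 14], .around 8 [18, 1, 2], .shiftl 17 18 8 8, .shiftl
    2 8 18 8, .back 14 9 0 8, .new 17, .around 14 [9, 15, 19], .close [15, 14, 19], .backl 19 15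
    14 3, .around 15 [19, 14, 16], .back 19 14 9 8, .side 15 19, .back 16 15 19 8, .new 18,
    .around 17 [16, 18, 20], .close [18, 17, 20], .shift 18 17 20 3, .backl 20 18 17 3, .around 18
    [20, 17, 8], .side 20 17]
  ren := [17, 18, 8, 2, 3, 4, 5, 6, 7, 1, 0, 9, 14, 15, 10, 11, 12, 13, 19, 16, 20]

theorem pr_bad2_ok : pr_bad2.check cl_X1M = true := by decide +kernel

end Pool.Agent.W_fb73a4_t7
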