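import Pool.Agent.W_fb73a4_t7.BBDefs
import Pool.Agent.W_fb73a4_t7.DDefs
import Pool.Agent.W_fb73a4_t7.ConfRv
import Pool.Agent.W_fb73a4_h51.ConfData

/-!
[T7] PA: programs (generated by helper20) which find the reducible configurations in the words.
Cases: tet, len8M, len8L, len8R, nbM, nbL, nbR.
-/

set_option autoImplicit false

namespace Pool.Agent.W_fb73a4_t7

open Pool.Agent.W_fb73a4_h51

/-- case `tet`: the shape `TET` -/
def pr_tet : Prog where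
  defs := [(0, 1), (1, 2), (2, 3), (3, 4), (2, 1), (4, 3)]
  init := [.lt 0 1 .T2, .lt 1 2 .T1, .lt 2 3 .T2, .lt 3 4 .T1]
  steps := [.new 0, .new 1, .new 2, .new 3, .letter 0 1 2 .T2, .letter 1 2 3 .T1, .letter 2 3 4
    .T2, .letter 3 4 5 .T1, .side 1 2, .side 3 4, .shiftl 1 2 3 8, .back 0 1 2 8, .new 4, .around
    1 [0, 2, 6], .close [2, 1, 6], .shift 2 1 6 3, .backl 6 2 1 3, .around 2 [6, 1, 3], .side 6 1,
    .side 2 6, .back 3 2 6 8, .new 5, .around 3 [2, 4, 7], .close [4, 3, 7], .backl 7 4 3 3,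
    .around 4 [7, 3, 5], .back 7 3 2 8, .side 4 7, .back 5 4 7 8]
  ren := [4, 3, 2, 1, 0, 6, 7, 5]

theorem pr_tet_ok : pr_tet.check cl_TET = true := by decide +kernel

/-- case `len8M`: the shape `M9` -/
def pr_len8M : Prog where
  defs := [(0, 1), (2, 1), (1, 0), (1, 4), (4, 5), (5, 6), (6, 7), (7, 8), (6, 5), (9, 8)]
  init := [.lt 0 1 .V, .word 3 1 wM, .long 0 1 9]
  steps := [.new 0, .new 1, .letter 0 1 2 .V, .side 0 1, .close [2, 1, 3], .shift 2 1 3 3, .backl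
    3 2 1 3, .side 3 1, .side 2 3, .new 2, .close [1, 0, 4], .shift 1 0 4 3, .backl 4 1 0 3,
    .around 1 [4, 0, 2, 3], .shiftl 3 1 4 8, .side 4 0, .new 3, .shiftl 1 4 5 8, .new 4, .shiftl 4
    5 6 8, .new 5, .shiftl 5 6 7 8, .new 6, .shiftl 6 7 8 8, .new 7, .letters [3, 1, 4, 5, 6, 7,
    8, 9] wM, .shiftl 7 8 9 8, .close [3, 1, 4, 5, 6, 7, 8, 9], .around 4 [0, 1, 5], .around 3 [9,
    1, 2], .shiftl 8 9 3 8, .shiftl 2 3 9 8, .back 5 4 0 8, .new 8, .around 5 [4, 6, 10], .close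
    [6, 5, 10], .backl 10 6 5 3, .around 6 [10, 5, 7], .back 10 5 4 8, .side 6 10, .back 7 6 10 8,
    .new 9, .around 8 [7, 9, 11], .close [9, 8, 11], .shift 9 8 11 3, .backl 11 9 8 3, .around 9
    [11, 8, 3], .side 11 8]
  ren := [6, 5, 4, 1, 3, 9, 8, 7, 11, 2, 0, 10]

theorem pr_len8M_ok : pr_len8M.check cl_M9 = true := by decide +kernel

/-- case `len8L`: the shape `MM9` -/
def pr_len8L : Prog where
  defs := [(0, 1), (2, 1), (1, 0), (1, 4), (4, 5), (5, 6), (6, 7), (7, 8), (6, 5), (7, 6), (9, 8)]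
  init := [.lt 0 1 .V, .word 3 1 wL, .long 0 1 9]
  steps := [.new 0, .new 1, .letter 0 1 2 .V, .side 0 1, .close [2, 1, 3], .shift 2 1 3 3, .backl
    3 2 1 3, .side 3 1, .side 2 3, .new 2, .close [1, 0, 4], .shift 1 0 4 3, .backl 4 1 0 3,
    .around 1 [4, 0, 2, 3], .shiftl 3 1 4 8, .side 4 0, .new 3, .shiftl 1 4 5 8, .new 4, .shiftl 4
    5 6 8, .new 5, .shiftl 5 6 7 8, .new 6, .shiftl 6 7 8 8, .new 7, .letters [3, 1, 4, 5, 6, 7,
    8, 9] wL, .shiftl 7 8 9 8, .close [3, 1, 4, 5, 6, 7, 8, 9], .around 4 [0, 1, 5], .around 3 [9,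
    1, 2], .shiftl 8 9 3 8, .shiftl 2 3 9 8, .back 5 4 0 8, .new 8, .around 5 [4, 6, 10], .close
    [6, 5, 10], .backl 10 6 5 3, .back 10 5 4 8, .side 6 10, .new 9, .around 6 [10, 5, 7, 11],
    .close [7, 6, 11], .backl 11 7 6 3, .around 7 [11, 6, 8], .back 11 6 10 8, .side 7 11, .back 8
    7 11 8, .new 10, .around 8 [7, 9, 12], .close [9, 8, 12], .backl 12 9 8 3, .around 9 [12, 8,
    3], .back 12 8 7 8]
  ren := [4, 5, 1, 3, 9, 8, 7, 6, 0, 10, 11, 12, 2]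

theorem pr_len8L_ok : pr_len8L.check cl_MM9 = true := by decide +kernel

/-- case `len8R`: the shape `MM9` (reversed) -/
def pr_len8R : Prog where
  defs := [(0, 1), (2, 1), (1, 0), (1, 4), (4, 5), (5, 6), (6, 7), (7, 8), (6, 5), (8, 7), (9, 8)]
  init := [.lt 0 1 .V, .word 3 1 wR, .long 0 1 9]
  steps := [.new 0, .new 1, .letter 0 1 2 .V, .side 0 1, .close [2, 1, 3], .shift 2 1 3 3, .backl
    3 2 1 3, .side 3 1, .side 2 3, .new 2, .close [1, 0, 4], .shift 1 0 4 3, .backl 4 1 0 3,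
    .around 1 [4, 0, 2, 3], .shiftl 3 1 4 8, .side 4 0, .new 3, .shiftl 1 4 5 8, .new 4, .shiftl 4
    5 6 8, .new 5, .shiftl 5 6 7 8, .new 6, .shiftl 6 7 8 8, .new 7, .letters [3, 1, 4, 5, 6, 7,
    8, 9] wR, .shiftl 7 8 9 8, .close [3, 1, 4, 5, 6, 7, 8, 9], .around 4 [0, 1, 5], .around 3 [9,
    1, 2], .shiftl 8 9 3 8, .shiftl 2 3 9 8, .back 5 4 0 8, .new 8, .around 5 [4, 6, 10], .close
    [6, 5, 10], .backl 10 6 5 3, .around 6 [10, 5, 7], .back 10 5 4 8, .side 6 10, .back 7 6 10 8,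
    .new 9, .around 7 [6, 8, 11], .close [8, 7, 11], .backl 11 8 7 3, .back 11 7 6 8, .side 8 11,
    .new 10, .around 8 [11, 7, 9, 12], .close [9, 8, 12], .backl 12 9 8 3, .around 9 [12, 8, 3],
    .back 12 8 11 8]
  ren := [3, 9, 1, 4, 5, 6, 7, 8, 2, 12, 11, 10, 0]

theorem pr_len8R_ok : pr_len8R.check cl_MM9.rv = true := by decide +kernel

/-- case `nbM`: the shape `B3` -/
def pr_nbM : Prog where
  defs := [(0, 1), (2, 1), (1, 0), (4, 0), (1, 4), (4, 6), (6, 7), (7, 8), (8, 9), (7, 6)]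
  init := [.lt 0 1 .V, .word 3 1 wM, .deg 0 3]
  steps := [.new 0, .new 1, .letter 0 1 2 .V, .side 0 1, .shift 2 1 3 3, .side 3 1, .new 2, .close
    [1, 0, 4], .shift 1 0 4 3, .around 1 [4, 0, 2, 3], .shiftl 3 1 4 8, .side 4 0, .new 3, .around
    0 [1, 4, 5], .back 5 0 1 8, .new 4, .shiftl 1 4 6 8, .new 5, .shiftl 4 6 7 8, .new 6, .new 7,
    .new 8, .letters [3, 1, 4, 6, 7, 8, 9, 10] wM, .around 4 [0, 1, 6], .back 6 4 0 8, .new 9,
    .around 6 [4, 7, 11], .close [7, 6, 11], .backl 11 7 6 3, .around 7 [11, 6, 8], .back 11 6 4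
    8, .side 7 11, .back 8 7 11 8]
  ren := [0, 4, 6, 7, 11, 8, 1, 5]

theorem pr_nbM_ok : pr_nbM.check cl_B3 = true := by decide +kernel

/-- case `nbL`: the shape `P9` (reversed) -/
def pr_nbL : Prog where
  defs := [(0, 1), (2, 1), (1, 0), (4, 0), (1, 4), (4, 6), (6, 7), (7, 8), (8, 9), (7, 6), (8, 7),
    (10, 9)]
  init := [.lt 0 1 .V, .word 3 1 wL, .deg 0 3]
  steps := [.new 0, .new 1, .letter 0 1 2 .V, .side 0 1, .close [2, 1, 3], .shift 2 1 3 3, .backl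
    3 2 1 3, .side 3 1, .side 2 3, .new 2, .close [1, 0, 4], .shift 1 0 4 3, .backl 4 1 0 3,
    .around 1 [4, 0, 2, 3], .shiftl 3 1 4 8, .side 4 0, .new 3, .around 0 [1, 4, 5], .back 5 0 1
    8, .new 4, .shiftl 1 4 6 8, .new 5, .shiftl 4 6 7 8, .new 6, .shiftl 6 7 8 8, .new 7, .shiftl
    7 8 9 8, .new 8, .letters [3, 1, 4, 6, 7, 8, 9, 10] wL, .shiftl 8 9 10 8, .close [3, 1, 4, 6,
    7, 8, 9, 10], .around 4 [0, 1, 6], .around 3 [10, 1, 2], .shiftl 9 10 3 8, .shiftl 2 3 10 8,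
    .back 6 4 0 8, .new 9, .around 6 [4, 7, 11], .close [7, 6, 11], .backl 11 7 6 3, .back 11 6 4
    8, .side 7 11, .new 10, .around 7 [11, 6, 8, 12], .close [8, 7, 12], .backl 12 8 7 3, .around
    8 [12, 7, 9], .back 12 7 11 8, .side 8 12, .back 9 8 12 8, .new 11, .around 9 [8, 10, 13],
    .close [10, 9, 13], .backl 13 10 9 3, .around 10 [13, 9, 3], .back 13 9 8 8]
  ren := [6, 7, 8, 9, 10, 3, 4, 0, 1, 5, 2, 13, 12, 11]

theorem pr_nbL_ok : pr_nbL.check cl_P9.rv = true := by decide +kernel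

/-- case `nbR`: the shape `B3` -/
def pr_nbR : Prog where
  defs := [(0, 1), (2, 1), (1, 0), (4, 0), (1, 4), (4, 6), (6, 7), (7, 8), (8, 9), (7, 6)]
  init := [.lt 0 1 .V, .word 3 1 wR, .deg 0 3]
  steps := [.new 0, .new 1, .letter 0 1 2 .V, .side 0 1, .shift 2 1 3 3, .side 3 1, .new 2, .close
    [1, 0, 4], .shift 1 0 4 3, .around 1 [4, 0, 2, 3], .shiftl 3 1 4 8, .side 4 0, .new 3, .around
    0 [1, 4, 5], .back 5 0 1 8, .new 4, .shiftl 1 4 6 8, .new 5, .shiftl 4 6 7 8, .new 6, .new 7,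
    .new 8, .letters [3, 1, 4, 6, 7, 8, 9, 10] wR, .around 4 [0, 1, 6], .back 6 4 0 8, .new 9,
    .around 6 [4, 7, 11], .close [7, 6, 11], .backl 11 7 6 3, .around 7 [11, 6, 8], .back 11 6 4
    8, .side 7 11, .back 8 7 11 8]
  ren := [0, 4, 6, 7, 11, 8, 1, 5]

theorem pr_nbR_ok : pr_nbR.check cl_B3 = true := by decide +kernel

end Pool.Agent.W_fb73a4_t7
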