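import Pool.Agent.W_fb73a4_t7.OB2

/-!
[T7] OB3: oriented maps in a minimal counterexample: lengths of faces, triangles.
-/

set_option autoImplicit false

namespace Pool.Agent.W_fb73a4_t7

open Finset MvPolynomial
open scoped Classical
open Pool.Agent.W_fb73a4_h20

variable {V : Type} [Fintype V] {G : SimpleGraph V} {ι : Type} [Fintype ι] {F : ι → EV V}
  {i0 : ι} {m : ℕ} {x : ZMod m → V} {C : Finset V} (E : Env G ι F i0 m x C) (M : OM G F)
include E

/-- no face contains all edges: the inner vertex has degree at least 3 -/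
theorem Env.off (i : ι) : ∃ e ∈ G.edgeSet, F i e = 0 := by
  by_contra hcon
  push Not at hcon
  obtain ⟨v, hvC, w, hvw⟩ := E.inner
  have h3 := E.deg3 v hvC ⟨w, hvw⟩
  have h2 := E.fs.two_at E.sep (i := i) (v := v) ⟨w, hcon s(v, w) hvw⟩
  have hd : dgr G v = (univ.filter (fun u => G.Adj v u)).card := by
    unfold dgr
    rw [← Set.ncard_coe_finset]
    congr 1
    ext u
    simp
  have hsub : univ.filter (fun u => G.Adj v u) ⊆ univ.filter (fun u => F i s(v, u) ≠ 0) := by
    intro u hu
    rw [Finset.mem_filter] at hu ⊢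
    exact ⟨Finset.mem_univ _, hcon s(v, u) hu.2⟩
  have hc := Finset.card_le_card hsub
  omega

theorem Env.outer_on (v : V) : On (F i0) v ↔ v ∈ C := by
  rw [E.outer, cvec_on E.hx, E.hC]

theorem Env.edge_two {e : Sym2 V} {i j k : ι} (hij : i ≠ j) (hi : F i e ≠ 0) (hj : F j e ≠ 0)
    (hk : F k e ≠ 0) : k = i ∨ k = j := by
  obtain ⟨j', hj', -, h⟩ := E.fs.exists_other hi
  rcases h j hj with h1 | h1
  · exact absurd h1.symm hij
  · rw [h1]
    exact h k hk

/-- the darts of the outer face join vertices of `C` -/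
theorem Env.lf_outer {u v : V} (h : G.Adj u v) (hl : M.lf u v = i0) : u ∈ C ∧ v ∈ C := by
  have h1 := M.on u v h
  rw [hl] at h1
  refine ⟨(E.outer_on u).1 ⟨v, h1⟩, (E.outer_on v).1 ⟨u, ?_⟩⟩
  rw [Sym2.eq_swap]
  exact h1

theorem Env.fl_cases {u v : V} (h : G.Adj u v) : M.fl u v = 3 ∨ 7 ≤ M.fl u v :=
  E.cls.no _ _ (M.fw_cyc h).1

/-- no 4-cycle -/
theorem Env.no_four {a b c d : V} (h1 : G.Adj a b) (h2 : G.Adj b c) (h3 : G.Adj c d)
    (h4 : G.Adj d a) (hac : a ≠ c) (hbd : b ≠ d) : False := by
  let f : ℕ → V := fun k => if k = 0 then a else if k = 1 then b else if k = 2 then c else d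
  have hcyc : IsCycSeq G (fun j : ZMod 4 => f j.val) := by
    refine cycSeq_of_nat (by omega) f ?_ ?_ ?_
    · intro i j hi hj hij
      have h5 := h1.ne
      have h6 := h2.ne
      have h7 := h3.ne
      have h8 := h4.ne
      rcases (by omega : i = 0 ∨ i = 1 ∨ i = 2 ∨ i = 3) with rfl | rfl | rfl | rfl <;>
        rcases (by omega : j = 0 ∨ j = 1 ∨ j = 2 ∨ j = 3) with rfl | rfl | rfl | rfl <;>
        simp [f] at hij ⊢ <;>
        first
          | exact h5 hij
          | exact h5 hij.symm
          | exact h6 hij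
          | exact h6 hij.symm
          | exact h7 hij
          | exact h7 hij.symm
          | exact h8 hij
          | exact h8 hij.symm
          | exact hac hij
          | exact hac hij.symm
          | exact hbd hij
          | exact hbd hij.symm
    · intro i hi
      rcases (by omega : i = 0 ∨ i = 1 ∨ i = 2) with rfl | rfl | rfl <;> simp [f] <;> assumption
    · simp [f]
      assumption
  have := E.cls.no 4 _ hcyc
  omega

/-- the third vertex of a triangle is unique -/
theorem Env.tri_edge {a b c d : V} (h1 : G.Adj a b) (h2 : G.Adj a c) (h3 : G.Adj b c)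
    (h4 : G.Adj a d) (h5 : G.Adj b d) : c = d := by
  by_contra hcd
  exact E.no_four h2 h3.symm h5 h4.symm h1.ne hcd

/-- two triangular faces have no common edge (one of them may be the outer face) -/
theorem Env.fl_other {u v : V} (h : G.Adj u v) (h3 : M.fl v u = 3) : 8 ≤ M.fl u v := by
  obtain ⟨h4, h5, h6⟩ := M.tri_close h.symm h3
  have h7 : G.Adj u (M.s v u) := M.adj v u h.symm
  rcases E.fl_cases M h with h8 | h8
  · exfalso
    obtain ⟨h9, h10, h11⟩ := M.tri_close h h8
    have h12 : G.Adj v (M.s u v) := M.adj u v h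
    have h13 : M.s u v = M.s v u := E.tri_edge h h11.symm h12 h7 h6.symm
    have hw : ∃ w, w = M.s u v := ⟨_, rfl⟩
    obtain ⟨w, hw⟩ := hw
    apply M.other u v h
    refine E.fs.face_inj E.sep (E.off _) ?_
    have key : ∀ e, F (M.lf u v) e ≠ 0 ↔ F (M.lf v u) e ≠ 0 := by
      intro e
      rw [M.face_edge h, M.face_edge h.symm, h8, h3]
      constructor
      · rintro ⟨k, hk, he⟩
        rcases (by omega : k = 0 ∨ k = 1 ∨ k = 2) with rfl | rfl | rfl
        · refine ⟨0, by omega, ?_⟩
          rw [← he]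
          exact Sym2.eq_swap
        · refine ⟨2, by omega, ?_⟩
          rw [← he]
          simp only [OM.fw]
          rw [h4, ← h13]
          exact Sym2.eq_swap
        · refine ⟨1, by omega, ?_⟩
          rw [← he]
          simp only [OM.fw]
          rw [h9, ← h13]
          exact Sym2.eq_swap
      · rintro ⟨k, hk, he⟩
        rcases (by omega : k = 0 ∨ k = 1 ∨ k = 2) with rfl | rfl | rfl
        · refine ⟨0, by omega, ?_⟩
          rw [← he]
          exact Sym2.eq_swap
        · refine ⟨2, by omega, ?_⟩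
          rw [← he]
          simp only [OM.fw]
          rw [h9, ← h13]
          exact Sym2.eq_swap
        · refine ⟨1, by omega, ?_⟩
          rw [← he]
          simp only [OM.fw]
          rw [h4, ← h13]
          exact Sym2.eq_swap
    funext e
    by_cases he : F (M.lf u v) e = 0
    · rw [he]
      by_contra hne
      exact (key e).2 (fun h' => hne h'.symm) he
    · rw [ev_one he, ev_one ((key e).1 he)]
  · by_contra hlt
    have h9 : M.fl u v = 7 := by omega
    have hcyc := (M.fw_cyc h).1
    rw [h9] at hcyc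
    exact E.cls.no73 _ hcyc 0 (M.s v u) h7 h6.symm

/-- a triangle with an inner vertex is a face -/
theorem Env.tri_face {u v w : V} (hv : v ∉ C) (hu : G.Adj u v) (hw : G.Adj w v)
    (huw : G.Adj u w) : (M.s u v = w ∧ M.fl u v = 3) ∨ (M.s w v = u ∧ M.fl w v = 3) := by
  let f : ℕ → V := fun k => if k = 0 then u else if k = 1 then v else w
  have hcyc : IsCycSeq G (fun j : ZMod 3 => f j.val) := by
    refine cycSeq_of_nat (by omega) f ?_ ?_ ?_
    · intro i j hi hj hij
      have h5 := hu.ne
      have h6 := hw.ne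
      have h7 := huw.ne
      rcases (by omega : i = 0 ∨ i = 1 ∨ i = 2) with rfl | rfl | rfl <;>
        rcases (by omega : j = 0 ∨ j = 1 ∨ j = 2) with rfl | rfl | rfl <;>
        simp [f] at hij ⊢ <;>
        first
          | exact h5 hij
          | exact h5 hij.symm
          | exact h6 hij
          | exact h6 hij.symm
          | exact h7 hij
          | exact h7 hij.symm
    · intro i hi
      rcases (by omega : i = 0 ∨ i = 1) with rfl | rfl <;> simp [f]
      · exact hu
      · exact hw.symm
    · simp [f]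
      exact huw.symm
  have hrange : ∀ t, t ∈ Set.range (fun j : ZMod 3 => f j.val) ↔ t = u ∨ t = v ∨ t = w := by
    intro t
    constructor
    · rintro ⟨j, rfl⟩
      have hj := ZMod.val_lt j
      rcases (by omega : j.val = 0 ∨ j.val = 1 ∨ j.val = 2) with h | h | h <;> simp [f, h]
    · rintro (rfl | rfl | rfl)
      · exact ⟨0, rfl⟩
      · exact ⟨1, rfl⟩
      · exact ⟨2, rfl⟩
  have hedge : ∀ a b, (a = u ∨ a = v ∨ a = w) → (b = u ∨ b = v ∨ b = w) → a ≠ b →
      cvec (fun j : ZMod 3 => f j.val) s(a, b) ≠ 0 := by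
    intro a b ha hb hab
    rw [cvec_of_nat (by omega)]
    have e1 : f 0 = u := rfl
    have e2 : f 1 = v := rfl
    have e3 : f 2 = w := rfl
    have c1 : s(f 0, f (0 + 1)) = s(u, v) := rfl
    have c2 : s(f 1, f (1 + 1)) = s(v, w) := rfl
    have c3 : s(f (3 - 1), f 0) = s(w, u) := rfl
    rcases ha with rfl | rfl | rfl <;> rcases hb with rfl | rfl | rfl
    · exact absurd rfl hab
    · exact Or.inl ⟨0, by omega, c1⟩
    · exact Or.inr (c3.trans Sym2.eq_swap)
    · exact Or.inl ⟨0, by omega, c1.trans Sym2.eq_swap⟩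
    · exact absurd rfl hab
    · exact Or.inl ⟨1, by omega, c2⟩
    · exact Or.inr c3
    · exact Or.inl ⟨1, by omega, c2.trans Sym2.eq_swap⟩
    · exact absurd rfl hab
  obtain ⟨S, hS0, hS⟩ := E.fs.gen' i0 (cvec_isCyc hcyc)
  have hsh := E.short 3 _ (by omega) hcyc ⟨1, hv⟩ S hS0 hS
  have hne : S.Nonempty := by
    by_contra hempty
    rw [Finset.not_nonempty_iff_eq_empty] at hempty
    rw [hempty, Finset.sum_empty] at hS
    exact cvec_ne_zero hcyc hS
  obtain ⟨i, hi⟩ := hne
  have hFi : F i = cvec (fun j : ZMod 3 => f j.val) := by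
    refine sub_cycle hcyc (E.fs.cyc i) (E.fs.ne i) fun e he => ?_
    induction e using Sym2.ind with
    | h a b =>
      have ha : a = u ∨ a = v ∨ a = w := by
        rw [← hrange]
        by_contra hn
        exact hsh a hn i hi ⟨b, he⟩
      have hb : b = u ∨ b = v ∨ b = w := by
        rw [← hrange]
        by_contra hn
        refine hsh b hn i hi ⟨a, ?_⟩
        rw [Sym2.eq_swap]
        exact he
      have hab : a ≠ b := by
        rintro rfl
        apply he
        exact (E.fs.cyc i).1 _ (fun h => G.loopless.irrefl a h)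
      exact hedge a b ha hb hab
  have hlen : len (F i) = 3 := by
    rw [hFi]
    exact cvec_card hcyc
  have huv : F i s(u, v) ≠ 0 := by
    rw [hFi]
    exact hedge u v (Or.inl rfl) (Or.inr (Or.inl rfl)) hu.ne
  have honw : On (F i) w := by
    refine ⟨v, ?_⟩
    rw [hFi]
    exact hedge w v (Or.inr (Or.inr rfl)) (Or.inr (Or.inl rfl)) hw.ne
  rcases M.lf_or hu E.fs huv with h1 | h1
  · left
    rw [h1] at hlen honw
    have hfl : M.fl u v = 3 := hlen
    refine ⟨?_, hfl⟩
    obtain ⟨k, hk, hkw⟩ := (M.face_on hu w).1 honw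
    rw [hfl] at hk
    rcases (by omega : k = 0 ∨ k = 1 ∨ k = 2) with rfl | rfl | rfl
    · exact absurd hkw huw.ne
    · exact absurd hkw hw.ne.symm
    · exact hkw
  · right
    rw [h1] at hlen honw
    have hfl : M.fl v u = 3 := hlen
    have hs : M.s v u = w := by
      obtain ⟨k, hk, hkw⟩ := (M.face_on hu.symm w).1 honw
      rw [hfl] at hk
      rcases (by omega : k = 0 ∨ k = 1 ∨ k = 2) with rfl | rfl | rfl
      · exact absurd hkw hw.ne.symm
      · exact absurd hkw huw.ne
      · exact hkw
    obtain ⟨h4, h5, h6⟩ := M.tri_close hu.symm hfl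
    rw [hs] at h4 h5 h6
    refine ⟨h5, ?_⟩
    have h7 := M.fl_s hu.symm
    rw [hs] at h7
    have h8 := M.fl_s huw
    rw [h4] at h8
    rw [h8, h7, hfl]

end Pool.Agent.W_fb73a4_t7
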