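import Pool.Agent.W_fb73a4_t7.DDefs
import Pool.Agent.W_fb73a4_t7.ConfRv
import Pool.Agent.W_fb73a4_t7.OB3

/-!
[T7] RV: the reversed map and rotations of words. `M'` is the reversed map of `M` (`OM.exists_rev`).
The face on the left of `u → v` (for `M`) is the face on the left of `v → u` for `M'`, read backwards:
`M'.fw (M.fw u v (k + 1)) (M.fw u v k) j = M.fw u v (k + 1 - j)` for `j ≤ k + 1`.
-/

set_option autoImplicit false

namespace Pool.Agent.W_fb73a4_t7

open Finset MvPolynomial
open scoped Classical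
open Pool.Agent.W_fb73a4_h20

variable {V : Type} [Fintype V] {G : SimpleGraph V} {ι : Type} [Fintype ι] {F : ι → EV V}
  {i0 : ι} {m : ℕ} {x : ZMod m → V} {C : Finset V}

/-- `M'` is the reversed map of `M` -/
def RevOf (M M' : OM G F) : Prop := (∀ u v, G.Adj u v → M'.s (M.s u v) v = u) ∧
    (∀ u v, G.Adj u v → M.s (M'.s u v) v = u) ∧ ∀ u v, G.Adj u v → M'.lf v u = M.lf u v

theorem RevOf.symm {M M' : OM G F} (h : RevOf M M') : RevOf M' M :=
  ⟨h.2.1, h.1, fun u v ha => (h.2.2 v u ha.symm).symm⟩

theorem RevOf.fl {M M' : OM G F} (h : RevOf M M') {u v : V} (ha : G.Adj u v) :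
    M'.fl v u = M.fl u v := by
  unfold OM.fl
  rw [h.2.2 u v ha]

/-- mirror image of a letter -/
def Lt.mir : Lt → Lt
  | .T1 => .T2
  | .T2 => .T1
  | l => l

omit [Fintype ι] in
private theorem RV_four {M M' : OM G F} (h : RevOf M M') {p y : V} (ha : G.Adj p y)
    (hd : dgr G y = 4) : M'.s p y = M.s (M.s (M.s p y) y) y := by
  have h4 := (M.four_nbrs ha hd).1
  have ha1 : G.Adj (M.s p y) y := (M.adj p y ha).symm
  have ha2 : G.Adj (M.s (M.s p y) y) y := (M.adj _ y ha1).symm
  have ha3 : G.Adj (M.s (M.s (M.s p y) y) y) y := (M.adj _ y ha2).symm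
  have h5 := h.1 _ y ha3
  rw [h4] at h5
  exact h5

theorem RevOf.holds {M M' : OM G F} (h : RevOf M M') {p y : V} (ha : G.Adj p y) (ℓ : Lt)
    (hh : M.holds C p y (M.s p y) ℓ) : M'.holds C (M.s p y) y p ℓ.mir := by
  have ha1 : G.Adj (M.s p y) y := (M.adj p y ha).symm
  have f1 : M'.fl p y = M.fl y p := h.fl ha.symm
  have f2 : M'.fl y (M.s p y) = M.fl (M.s p y) y := h.fl ha1
  cases ℓ with
  | T1 =>
    obtain ⟨h1, h2, h3⟩ := hh
    exact ⟨h1, h2, f1.trans h3⟩
  | T2 =>
    obtain ⟨h1, h2, h3⟩ := hh
    exact ⟨h1, h2, f2.trans h3⟩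
  | Z =>
    obtain ⟨h1, h2, h3, h4⟩ := hh
    refine ⟨h1, h2, ?_, ?_⟩
    · rw [f2]
      exact h4
    · rw [f1]
      exact h3
  | V =>
    obtain ⟨h1, h2, h3, h4⟩ := hh
    exact ⟨h1, h2, f2.trans h4, f1.trans h3⟩
  | Y =>
    obtain ⟨h1, h2, h3, h4, h5⟩ := hh
    refine ⟨h1, h2, ?_, ?_, ?_⟩
    · rw [f2]
      exact h4
    · rw [f1]
      exact h3
    · have ha2 : G.Adj (M.s (M.s p y) y) y := (M.adj _ y ha1).symm
      have ha3 : G.Adj y (M.s (M.s (M.s p y) y) y) := M.adj _ y ha2
      rw [RV_four h ha h2, h.fl ha3, M.fl_s ha2]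
      exact h5
  | A => trivial

omit [Fintype ι] in
private theorem RV_fw_mul {M : OM G F} {u v : V} (ha : G.Adj u v) (a q : ℕ) :
    M.fw u v (a + M.fl u v * q) = M.fw u v a := by
  induction q with
  | zero => rw [Nat.mul_zero, Nat.add_zero]
  | succ q ih => rw [Nat.mul_succ, ← Nat.add_assoc, M.fw_period ha, ih]

omit [Fintype ι] in
private theorem RV_fw_mod {M : OM G F} {u v : V} (ha : G.Adj u v) (k j : ℕ) :
    M.fw u v (k % M.fl u v + j) = M.fw u v (k + j) := by
  have h1 : k + j = (k % M.fl u v + j) + M.fl u v * (k / M.fl u v) := by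
    have h2 := Nat.mod_add_div k (M.fl u v)
    omega
  rw [h1, RV_fw_mul ha]

omit [Fintype ι] in
/-- the walk of the reversed map -/
private theorem RV_rev_fw {M M' : OM G F} (h : RevOf M M') {u v : V} (ha : G.Adj u v) :
    ∀ j, j ≤ M.fl u v + 1 → M'.fw (M.s u v) v j = M.fw u v (M.fl u v + 2 - j) ∧
      M'.fw (M.s u v) v (j + 1) = M.fw u v (M.fl u v + 1 - j) := by
  intro j
  induction j with
  | zero =>
    intro _
    refine ⟨?_, ?_⟩
    · have h1 := M.fw_period ha 2
      rw [Nat.sub_zero, Nat.add_comm (M.fl u v) 2, h1]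
      rfl
    · have h1 := M.fw_period ha 1
      rw [Nat.sub_zero, Nat.add_comm (M.fl u v) 1, h1]
      rfl
  | succ j ih =>
    intro hj
    obtain ⟨h1, h2⟩ := ih (by omega)
    have e1 : M.fl u v + 2 - (j + 1) = M.fl u v + 1 - j := by omega
    refine ⟨by rw [e1]; exact h2, ?_⟩
    have h3 : M'.fw (M.s u v) v (j + 1 + 1) =
      M'.s (M'.fw (M.s u v) v j) (M'.fw (M.s u v) v (j + 1)) := rfl
    obtain ⟨a, ha'⟩ : ∃ a, a = M.fl u v - j := ⟨_, rfl⟩
    have e2 : M.fl u v + 2 - j = a + 2 := by omega
    have e3 : M.fl u v + 1 - j = a + 1 := by omega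
    have e4 : M.fl u v + 1 - (j + 1) = a := by omega
    rw [h3, h1, h2, e2, e3, e4]
    exact h.1 _ _ (M.fw_adj ha a)

private theorem RV_getD {α β : Type} (f : α → β) (w : List α) (d : α) (d' : β) (j : ℕ)
    (hj : j < w.length) :
    (((w.drop 1) ++ (w.take 1)).map f).reverse.getD j d' =
      f (w.getD ((w.length - j) % w.length) d) := by
  have h1 : w.drop 1 ++ w.take 1 = w.rotate 1 :=
    (List.rotate_eq_drop_append_take (by omega)).symm
  rw [h1]
  have h2 : j < ((w.rotate 1).map f).reverse.length := by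
    simpa using hj
  have h3 : (w.length - j) % w.length < w.length := Nat.mod_lt _ (by omega)
  rw [List.getD_eq_getElem _ _ h2, List.getD_eq_getElem _ _ h3, List.getElem_reverse,
    List.getElem_map, List.getElem_rotate]
  congr 2
  simp only [List.length_map, List.length_rotate]
  congr 1
  omega

private theorem RV_getD_rotate {α : Type} (w : List α) (d : α) (r k : ℕ) (hk : k < w.length) :
    (w.rotate r).getD k d = w.getD ((k + r) % w.length) d := by
  have h2 : k < (w.rotate r).length := by
    simpa using hk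
  have h3 : (k + r) % w.length < w.length := Nat.mod_lt _ (by omega)
  rw [List.getD_eq_getElem _ _ h2, List.getD_eq_getElem _ _ h3, List.getElem_rotate]

omit [Fintype ι] in
private theorem RV_holds_mod {M : OM G F} {u v : V} {w : List Lt} (hw : M.Word C u v w) (k : ℕ) :
    M.holds C (M.fw u v k) (M.fw u v (k + 1)) (M.fw u v (k + 2)) (w.getD (k % w.length) .A) := by
  obtain ⟨ha, hl, hk⟩ := hw
  have h3 := M.three_le ha
  have h1 := hk (k % w.length) (Nat.mod_lt _ (by omega))
  rw [← hl, RV_fw_mod ha k 1, RV_fw_mod ha k 2] at h1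
  have h2 := RV_fw_mod (M := M) ha k 0
  rw [Nat.add_zero, Nat.add_zero] at h2
  rw [h2] at h1
  rw [← hl]
  exact h1

omit [Fintype ι] in
private theorem RV_hx_mod {M : OM G F} {u v : V} {w : List Lx} (hw : M.WordX C u v w) (k : ℕ) :
    M.hx C (M.fw u v k) (M.fw u v (k + 1)) (w.getD (k % w.length) .A) := by
  obtain ⟨ha, hl, hk⟩ := hw
  have h3 := M.three_le ha
  have h1 := hk (k % w.length) (Nat.mod_lt _ (by omega))
  rw [← hl, RV_fw_mod ha k 1] at h1
  have h2 := RV_fw_mod (M := M) ha k 0
  rw [Nat.add_zero, Nat.add_zero] at h2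
  rw [h2] at h1
  rw [← hl]
  exact h1

/-- the reversed word, starting from any corner -/
theorem RevOf.word {M M' : OM G F} (h : RevOf M M') {u v : V} (w : List Lt) (hw : M.Word C u v w) :
    M'.Word C (M.s u v) v (((w.drop 1) ++ (w.take 1)).map Lt.mir).reverse := by
  have ha := hw.1
  have hl := hw.2.1
  have h3 := M.three_le ha
  have hlen : (((w.drop 1) ++ (w.take 1)).map Lt.mir).reverse.length = w.length := by
    simp
    omega
  refine ⟨(M.adj u v ha).symm, ?_, ?_⟩
  · rw [hlen, ← hl, h.fl (M.adj u v ha), M.fl_s ha]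
  · intro j hj
    rw [hlen] at hj
    rw [RV_getD Lt.mir w .A .A j hj]
    have h1 := RV_holds_mod hw (w.length - j)
    have h4 := (RV_rev_fw h ha j (by omega)).1
    have h5 := (RV_rev_fw h ha (j + 1) (by omega))
    have e1 : M.fl u v + 2 - j = w.length - j + 2 := by omega
    have e2 : M.fl u v + 2 - (j + 1) = w.length - j + 1 := by omega
    have e3 : M.fl u v + 1 - (j + 1) = w.length - j := by omega
    rw [e1] at h4
    rw [e2, e3] at h5
    rw [h4, h5.1, h5.2]
    exact h.holds (M.fw_adj ha _) _ h1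

/-- the corner opposite to `s p y, y, p` for `M'` is the reversed corner opposite to `p, y, s p y`
(degree 4) -/
theorem RevOf.hx {M M' : OM G F} (h : RevOf M M') {p y : V} (ha : G.Adj p y) (ℓ : Lx)
    (hh : M.hx C p y ℓ) : M'.hx C (M.s p y) y ℓ.mir := by
  have key : ∀ l : Lt, M.holds C p y (M.s p y) l →
      M'.holds C (M.s p y) y (M'.s (M.s p y) y) l.mir := by
    intro l hl
    rw [h.1 p y ha]
    exact h.holds ha l hl
  have kop : dgr G y = 4 → ∀ w w' : List Lt, M.Word C (M.op p y) y w →
      (((w.drop 1) ++ (w.take 1)).map Lt.mir).reverse = w' →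
      M'.Word C (M'.op (M.s p y) y) y w' := by
    intro hd w w' hw hww
    have h1 := h.word w hw
    rw [hww] at h1
    have h2 : M'.op (M.s p y) y = M.s (M.op p y) y := by
      unfold OM.op
      rw [h.1 p y ha]
      exact RV_four h ha hd
    rw [h2]
    exact h1
  cases ℓ with
  | T1 => exact key .T1 hh
  | T2 => exact key .T2 hh
  | Z => exact key .Z hh
  | Y => exact key .Y hh
  | V => exact key .V hh
  | M => exact ⟨key .V hh.1, kop hh.1.2.1 wM wM hh.2 rfl⟩
  | L => exact ⟨key .V hh.1, kop hh.1.2.1 wL wR hh.2 rfl⟩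
  | R => exact ⟨key .V hh.1, kop hh.1.2.1 wR wL hh.2 rfl⟩
  | Q =>
    refine ⟨key .V hh.1, ?_⟩
    rcases hh.2 with h1 | h1 | h1
    · exact Or.inl (kop hh.1.2.1 wM wM h1 rfl)
    · exact Or.inr (Or.inr (kop hh.1.2.1 wL wR h1 rfl))
    · exact Or.inr (Or.inl (kop hh.1.2.1 wR wL h1 rfl))
  | A => trivial

theorem RevOf.wordX {M M' : OM G F} (h : RevOf M M') {u v : V} (w : List Lx)
    (hw : M.WordX C u v w) :
    M'.WordX C (M.s u v) v (((w.drop 1) ++ (w.take 1)).map Lx.mir).reverse := by
  have ha := hw.1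
  have hl := hw.2.1
  have h3 := M.three_le ha
  have hlen : (((w.drop 1) ++ (w.take 1)).map Lx.mir).reverse.length = w.length := by
    simp
    omega
  refine ⟨(M.adj u v ha).symm, ?_, ?_⟩
  · rw [hlen, ← hl, h.fl (M.adj u v ha), M.fl_s ha]
  · intro j hj
    rw [hlen] at hj
    rw [RV_getD Lx.mir w .A .A j hj]
    have h1 := RV_hx_mod hw (w.length - j)
    have h4 := (RV_rev_fw h ha j (by omega)).1
    have h5 := (RV_rev_fw h ha (j + 1) (by omega)).1
    have e1 : M.fl u v + 2 - j = w.length - j + 2 := by omega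
    have e2 : M.fl u v + 2 - (j + 1) = w.length - j + 1 := by omega
    rw [e1] at h4
    rw [e2] at h5
    rw [h4, h5]
    exact h.hx (M.fw_adj ha _) _ h1

/-- rotation of words -/
theorem OM.Word.rot {M : OM G F} {u v : V} {w : List Lt} (hw : M.Word C u v w) (r : ℕ) :
    M.Word C (M.fw u v r) (M.fw u v (r + 1)) (w.rotate r) := by
  have ha := hw.1
  have hl := hw.2.1
  refine ⟨M.fw_adj ha r, ?_, ?_⟩
  · rw [M.fl_fw ha, List.length_rotate, hl]
  · intro k hk
    rw [List.length_rotate] at hk
    rw [← M.fw_shift, ← M.fw_shift, ← M.fw_shift, RV_getD_rotate w _ r k hk]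
    have h1 := RV_holds_mod hw (k + r)
    rw [show k + 1 + r = k + r + 1 by ring, show k + 2 + r = k + r + 2 by ring]
    exact h1

theorem OM.WordX.rot {M : OM G F} {u v : V} {w : List Lx} (hw : M.WordX C u v w) (r : ℕ) :
    M.WordX C (M.fw u v r) (M.fw u v (r + 1)) (w.rotate r) := by
  have ha := hw.1
  have hl := hw.2.1
  refine ⟨M.fw_adj ha r, ?_, ?_⟩
  · rw [M.fl_fw ha, List.length_rotate, hl]
  · intro k hk
    rw [List.length_rotate] at hk
    rw [← M.fw_shift, ← M.fw_shift, RV_getD_rotate w _ r k hk]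
    have h1 := RV_hx_mod hw (k + r)
    rw [show k + 1 + r = k + r + 1 by ring]
    exact h1

private theorem RV_rvrot (D : Conf) (i : ℕ) (hi : i < D.rot.length) :
    D.rv.rot.getD i [] = (D.rot.getD i []).reverse := by
  have h1 : i < (D.rot.map List.reverse).length := by
    simpa using hi
  change (D.rot.map List.reverse).getD i [] = _
  rw [List.getD_eq_getElem _ _ h1, List.getD_eq_getElem _ _ hi, List.getElem_map]

private theorem RV_nb (D : Conf) (i k : ℕ) (hi : i < D.rot.length)
    (hd : 1 ≤ (D.rot.getD i []).length) :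
    D.rv.nb i k = D.nb i ((D.rot.getD i []).length - 1 - k % (D.rot.getD i []).length) := by
  have hk : k % (D.rot.getD i []).length < (D.rot.getD i []).length := Nat.mod_lt _ (by omega)
  unfold Conf.nb
  rw [RV_rvrot D i hi, List.length_reverse]
  have h2 : (D.rot.getD i []).length - 1 - k % (D.rot.getD i []).length <
    (D.rot.getD i []).length := by omega
  rw [Nat.mod_eq_of_lt h2, List.getD_eq_getElem _ _ h2,
    List.getD_eq_getElem _ _ (by rw [List.length_reverse]; exact hk), List.getElem_reverse]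

private theorem RV_nb_mod (D : Conf) (i a b : ℕ)
    (hab : a % (D.rot.getD i []).length = b % (D.rot.getD i []).length) :
    D.nb i a = D.nb i b := by
  unfold Conf.nb
  rw [hab]

/-- occurrences in the reversed map -/
theorem Occ.rv {M M' : OM G F} (h : RevOf M M') {φ : ℕ → V} {D : Conf} (occ : Occ M C φ D)
    (hl : D.rot.length = D.nD) (ht : D.tri.map List.length = D.rot.map List.length)
    (h1 : ∀ l ∈ D.rot, 1 ≤ l.length) (h2 : ∀ t ∈ D.long, t.1 < D.nD) : Occ M' C φ D.rv := by
  have hpos : ∀ i < D.nD, 1 ≤ (D.rot.getD i []).length := by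
    intro i hi
    rw [← hl] at hi
    rw [List.getD_eq_getElem _ _ hi]
    exact h1 _ (List.getElem_mem hi)
  have hnb : ∀ i < D.nD, ∀ k, D.rv.nb i k =
      D.nb i ((D.rot.getD i []).length - 1 - k % (D.rot.getD i []).length) := by
    intro i hi k
    exact RV_nb D i k (by omega) (hpos i hi)
  -- the face at the corner `a` of the old configuration
  have hfl : ∀ i < D.nD, ∀ a, M'.fl (φ (D.nb i (a + 1))) (φ i) = M.fl (φ (D.nb i a)) (φ i) := by
    intro i hi a
    have h3 := occ.adj i hi a
    have h4 := occ.adj i hi (a + 1)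
    rw [h.fl h4.symm]
    have h5 := M.fl_s h3
    rw [occ.rot i hi a] at h5
    exact h5
  refine ⟨occ.out, ?_, ?_, ?_, ?_, ?_⟩
  · intro i hi
    have hi' : i < D.nD := hi
    rw [RV_rvrot D i (by omega), List.length_reverse]
    exact occ.deg i hi
  · intro i hi k
    rw [hnb i hi k]
    exact occ.adj i hi _
  · intro i hi k
    rw [hnb i hi k, hnb i hi (k + 1)]
    have hd := hpos i hi
    set d := (D.rot.getD i []).length with hdd
    have h3 := occ.rot i hi (d - 1 - (k + 1) % d)
    have h4 : D.nb i (d - 1 - (k + 1) % d + 1) = D.nb i (d - 1 - k % d) := by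
      apply RV_nb_mod
      rw [← hdd]
      have hk : k % d < d := Nat.mod_lt _ (by omega)
      rcases Nat.lt_or_ge (k % d + 1) d with h5 | h5
      · have h6 : (k + 1) % d = k % d + 1 := by
          rw [Nat.add_mod, Nat.mod_eq_of_lt (show 1 < d by omega), Nat.mod_eq_of_lt h5]
        rw [h6]
        congr 1
        omega
      · have h7 : k % d = d - 1 := by omega
        have h6 : (k + 1) % d = 0 := by
          have h8 := Nat.mod_add_div k d
          have h9 : k + 1 = d * (k / d + 1) := by
            rw [Nat.mul_add]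
            omega
          rw [h9, Nat.mul_mod_right]
        rw [h6, h7]
        have h10 : d - 1 - 0 + 1 = d := by omega
        rw [h10, Nat.mod_self, Nat.sub_self, Nat.zero_mod]
    rw [h4] at h3
    rw [← h3]
    exact h.1 _ _ (occ.adj i hi _)
  · intro i hi k hk
    have hi' : i < D.nD := hi
    rw [RV_rvrot D i (by omega), List.length_reverse] at hk
    have hd := hpos i hi
    have hti : i < D.tri.length := by
      have h3 := congrArg List.length ht
      rw [List.length_map, List.length_map] at h3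
      omega
    have hlen : (D.tri.getD i []).length = (D.rot.getD i []).length := by
      have h3 : (D.tri.map List.length).getD i 0 = (D.rot.map List.length).getD i 0 := by rw [ht]
      rw [List.getD_eq_getElem _ _ (by rw [List.length_map]; exact hti),
        List.getD_eq_getElem _ _ (by rw [List.length_map]; omega), List.getElem_map,
        List.getElem_map] at h3
      rw [List.getD_eq_getElem _ _ hti, List.getD_eq_getElem _ _ (by omega)]
      exact h3
    have htr : D.rv.tri.getD i [] = ((D.tri.getD i []).take ((D.tri.getD i []).length - 1)).reverse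
        ++ (D.tri.getD i []).drop ((D.tri.getD i []).length - 1) := by
      change (D.tri.map _).getD i [] = _
      rw [List.getD_eq_getElem _ _ (by rw [List.length_map]; exact hti), List.getElem_map,
        List.getD_eq_getElem _ _ hti]
    set d := (D.rot.getD i []).length with hdd
    rw [htr, hnb i hi k, Nat.mod_eq_of_lt hk]
    rw [← hdd]
    have hkk := occ.tri i hi
    rw [← hdd] at hkk
    set l := D.tri.getD i [] with hll
    rw [hlen]
    rcases Nat.lt_or_ge k (d - 1) with h5 | h5
    · have h6 : ((l.take (d - 1)).reverse ++ l.drop (d - 1)).getD k false =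
          l.getD (d - 2 - k) false := by
        have h7 : k < (l.take (d - 1)).reverse.length := by
          rw [List.length_reverse, List.length_take]
          omega
        rw [List.getD_append _ _ _ _ h7, List.getD_eq_getElem _ _ h7,
          List.getD_eq_getElem _ _ (by omega), List.getElem_reverse, List.getElem_take]
        congr 1
        rw [List.length_take]
        omega
      rw [h6, hkk (d - 2 - k) (by omega)]
      have h8 : d - 1 - k = d - 2 - k + 1 := by omega
      rw [h8, hfl i hi]
    · have h9 : k = d - 1 := by omega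
      have h6 : ((l.take (d - 1)).reverse ++ l.drop (d - 1)).getD k false =
          l.getD (d - 1) false := by
        have h7 : (l.take (d - 1)).reverse.length = d - 1 := by
          rw [List.length_reverse, List.length_take]
          omega
        rw [List.getD_append_right _ _ _ _ (by omega), h7, h9, Nat.sub_self,
          List.getD_eq_getElem _ _ (by rw [List.length_drop]; omega),
          List.getD_eq_getElem _ _ (by omega), List.getElem_drop]
        simp
      rw [h6, hkk (d - 1) (by omega)]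
      have h10 : D.nb i (d - 1 - k) = D.nb i (d - 1 + 1) := by
        apply RV_nb_mod
        rw [← hdd, h9, Nat.sub_self, Nat.zero_mod, Nat.sub_add_cancel hd, Nat.mod_self]
      rw [h10, hfl i hi]
  · intro t ht'
    change t ∈ D.long.map _ at ht'
    obtain ⟨t0, ht0, rfl⟩ := List.mem_map.1 ht'
    have hi := h2 t0 ht0
    have hd := hpos t0.1 hi
    have h3 := occ.long t0 ht0
    change t0.2.2 ≤ M'.fl (φ (D.rv.nb t0.1 _)) (φ t0.1)
    rw [hnb t0.1 hi]
    set d := (D.rot.getD t0.1 []).length with hdd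
    have hk : t0.2.1 % d < d := Nat.mod_lt _ (by omega)
    rw [Nat.mod_mod]
    have h4 : D.nb t0.1 (d - 1 - (2 * d - 2 - t0.2.1 % d) % d) = D.nb t0.1 (t0.2.1 + 1) := by
      apply RV_nb_mod
      rw [← hdd]
      have h5 : (t0.2.1 + 1) % d = (t0.2.1 % d + 1) % d := by
        rw [Nat.mod_add_mod]
      rw [h5]
      rcases Nat.lt_or_ge (t0.2.1 % d + 1) d with h6 | h6
      · have h7 : (2 * d - 2 - t0.2.1 % d) % d = d - 2 - t0.2.1 % d := by
          have h8 : 2 * d - 2 - t0.2.1 % d = (d - 2 - t0.2.1 % d) + d := by omega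
          rw [h8, Nat.add_mod_right, Nat.mod_eq_of_lt (by omega)]
        rw [h7]
        congr 1
        omega
      · have h7 : (2 * d - 2 - t0.2.1 % d) % d = d - 1 := by
          have h8 : 2 * d - 2 - t0.2.1 % d = d - 1 := by omega
          rw [h8, Nat.mod_eq_of_lt (by omega)]
        have h8 : t0.2.1 % d + 1 = d := by omega
        rw [h7, h8, Nat.mod_self, Nat.sub_self, Nat.zero_mod]
    rw [h4, hfl t0.1 hi]
    exact h3

end Pool.Agent.W_fb73a4_t7
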