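import Pool.Agent.W_fb73a4_t7.BB
import Pool.Agent.W_fb73a4_t7.RV
import Pool.Agent.W_fb73a4_t7.PA

/-!
[T7] RGA: using the programs.
-/

set_option autoImplicit false

namespace Pool.Agent.W_fb73a4_t7

open Finset MvPolynomial
open scoped Classical
open Pool.Agent.W_fb73a4_h20
open Pool.Agent.W_fb73a4_h51

variable {V : Type} [Fintype V] {G : SimpleGraph V} {ι : Type} [Fintype ι] {F : ι → EV V}
  {i0 : ι} {m : ℕ} {x : ZMod m → V} {C : Finset V}

/-- a program and a reducible configuration -/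
theorem use (E : Env G ι F i0 m x C) (M : OM G F) {u v : V} (h : G.Adj u v) (P : Prog) (D : Conf)
    (hc : P.check D = true) (hs : ∀ (M : OM G F) (φ : ℕ → V), ¬ Occ M C φ D)
    (hi : ∀ f ∈ P.init, f.Holds M C (P.phi M u v)) : False :=
  hs M _ (build E M h P D hi hc)

/-- side conditions for the reversal -/
def Conf.okRv (D : Conf) : Bool :=
  decide (D.rv.rv.nD = D.nD) && decide (D.rv.rv.rot = D.rot) && decide (D.rv.rv.tri = D.tri) &&
    decide (D.rv.rv.long = D.long) &&
    decide (D.rv.rot.length = D.rv.nD) &&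
    decide (D.rv.tri.map List.length = D.rv.rot.map List.length) &&
    D.rv.rot.all (fun l => decide (1 ≤ l.length)) && D.rv.long.all (fun t => decide (t.1 < D.rv.nD))

/-- the same for the mirror image -/
theorem use_rv (E : Env G ι F i0 m x C) (M : OM G F) {u v : V} (h : G.Adj u v) (P : Prog) (D : Conf)
    (hc : P.check D.rv = true) (hD : D.okRv = true)
    (hs : ∀ (M : OM G F) (φ : ℕ → V), ¬ Occ M C φ D)
    (hi : ∀ f ∈ P.init, f.Holds M C (P.phi M u v)) : False := by
  obtain ⟨M', hr⟩ := M.exists_rev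
  have hr' : RevOf M M' := hr
  have h1 := build E M h P D.rv hi hc
  unfold Conf.okRv at hD
  simp only [Bool.and_eq_true, decide_eq_true_eq, List.all_eq_true] at hD
  obtain ⟨⟨⟨⟨⟨⟨⟨a1, a2⟩, a3⟩, a4⟩, a5⟩, a6⟩, a7⟩, a8⟩ := hD
  have h2 := Occ.rv hr' h1 a5 a6 a7 a8
  have h3 : D.rv.rv = D := by
    cases hD : D.rv.rv with
    | mk n r t l =>
      rw [hD] at a1 a2 a3 a4
      cases D
      simp only at a1 a2 a3 a4
      subst a1 a2 a3 a4
      rfl
  rw [h3] at h2
  exact hs M' _ h2

end Pool.Agent.W_fb73a4_t7
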