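import Pool.Agent.W_fb73a4_t7.BBDefs
import Pool.Agent.W_fb73a4_t7.DDefs
import Pool.Agent.W_fb73a4_t7.ConfRv
import Pool.Agent.W_fb73a4_h51.ConfData

/-!
[T7] PE: programs (generated by helper20) which find the reducible configurations in the words.
Cases: bad6, bad7, bad8.
-/

set_option autoImplicit false

namespace Pool.Agent.W_fb73a4_t7

open Pool.Agent.W_fb73a4_h51

/-- case `bad6`: the shape `A2MMi` (reversed) -/
def pr_bad6 : Prog where
  defs := [(0, 1), (1, 2), (2, 3), (3, 4), (4, 5), (5, 6), (2, 1), (7, 6), (1, 0), (3, 2), (5, 4),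
    (6, 5), (0, 7), (1, 10), (10, 15), (15, 16), (16, 17), (17, 18), (16, 15), (18, 17), (19, 18),
    (6, 13), (13, 23), (23, 24), (24, 25), (25, 26), (24, 23)]
  init := [.word 0 1 [.V, .V, .T1, .T2, .V, .V, .V, .V], .word 8 1 wR, .word 9 6 wM]
  steps := [.new 0, .new 1, .new 2, .new 3, .new 4, .new 5, .new 6, .new 7, .letters [0, 1, 2, 3,
    4, 5, 6, 7] [.V, .V, .T1, .T2, .V, .V, .V, .V], .close [0, 1, 2, 3, 4, 5, 6, 7], .side 0 1,
    .close [2, 1, 8], .shift 2 1 8 3, .backl 8 2 1 3, .side 1 2, .side 2 3, .side 4 5, .side 5 6,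
    .close [7, 6, 9], .shift 7 6 9 3, .backl 9 7 6 3, .side 6 7, .side 7 0, .side 8 1, .side 2 8,
    .shiftl 2 3 4 8, .side 9 6, .side 7 9, .new 8, .close [1, 0, 10], .shift 1 0 10 3, .backl 10 1
    0 3, .around 1 [10, 0, 2, 8], .shiftl 8 1 10 8, .side 10 0, .new 9, .around 2 [8, 1, 3, 11],
    .close [3, 2, 11], .backl 11 3 2 3, .around 3 [11, 2, 4], .back 11 2 8 8, .side 3 11, .back 4
    3 11 8, .new 10, .around 4 [3, 5, 12], .close [5, 4, 12], .backl 12 5 4 3, .back 12 4 3 8,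
    .side 5 12, .new 11, .around 5 [12, 4, 6, 13], .close [6, 5, 13], .shift 6 5 13 3, .backl 13 6
    5 3, .around 6 [13, 5, 7, 9], .shiftl 9 6 13 8, .back 13 5 12 8, .new 12, .around 7 [9, 6, 0,
    14], .close [0, 7, 14], .backl 14 0 7 3, .around 0 [14, 7, 1, 10], .back 14 7 9 8, .new 13,
    .shiftl 1 10 15 8, .new 14, .shiftl 10 15 16 8, .new 15, .shiftl 15 16 17 8, .new 16, .shiftl
    16 17 18 8, .new 17, .letters [8, 1, 10, 15, 16, 17, 18, 19] wR, .shiftl 17 18 19 8, .close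
    [8, 1, 10, 15, 16, 17, 18, 19], .around 10 [0, 1, 15], .around 8 [19, 1, 2], .shiftl 18 19 8
    8, .shiftl 2 8 19 8, .back 15 10 0 8, .new 18, .around 15 [10, 16, 20], .close [16, 15, 20],
    .backl 20 16 15 3, .around 16 [20, 15, 17], .back 20 15 10 8, .side 16 20, .back 17 16 20 8,
    .new 19, .around 17 [16, 18, 21], .close [18, 17, 21], .backl 21 18 17 3, .back 21 17 16 8,
    .side 18 21, .new 20, .around 18 [21, 17, 19, 22], .close [19, 18, 22], .backl 22 19 18 3,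
    .around 19 [22, 18, 8], .back 22 18 21 8, .new 21, .shiftl 6 13 23 8, .new 22, .shiftl 13 23
    24 8, .new 23, .shiftl 23 24 25 8, .new 24, .shiftl 24 25 26 8, .new 25, .letters [9, 6, 13,
    23, 24, 25, 26, 27] wM, .shiftl 25 26 27 8, .close [9, 6, 13, 23, 24, 25, 26, 27], .around 13
    [5, 6, 23], .around 9 [27, 6, 7], .shiftl 26 27 9 8, .back 23 13 5 8, .new 26, .around 23 [13,
    24, 28], .close [24, 23, 28], .backl 28 24 23 3, .around 24 [28, 23, 25], .back 28 23 13 8,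
    .side 24 28, .back 25 24 28 8]
  ren := [24, 23, 13, 5, 4, 3, 6, 9, 7, 0, 10, 1, 2, 8, 15, 16, 17, 19, 18, 14, 27, 25, 28, 12,
    11, 22, 21, 20]

theorem pr_bad6_ok : pr_bad6.check cl_A2MMi.rv = true := by decide +kernel

/-- case `bad7`: the shape `A2MMo` -/
def pr_bad7 : Prog where
  defs := [(0, 1), (1, 2), (2, 3), (3, 4), (4, 5), (5, 6), (2, 1), (5, 4), (1, 0), (3, 2), (4, 3),
    (6, 5), (0, 7), (1, 10), (10, 15), (15, 16), (16, 17), (17, 18), (16, 15), (18, 17), (19, 18),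
    (4, 12), (12, 23), (23, 24), (24, 25), (25, 26)]
  init := [.word 0 1 [.V, .V, .V, .V, .V, .T1, .T2, .V], .word 8 1 wR, .word 9 4 wM]
  steps := [.new 0, .new 1, .new 2, .new 3, .new 4, .new 5, .new 6, .new 7, .letters [0, 1, 2, 3,
    4, 5, 6, 7] [.V, .V, .V, .V, .V, .T1, .T2, .V], .close [0, 1, 2, 3, 4, 5, 6, 7], .side 0 1,
    .close [2, 1, 8], .shift 2 1 8 3, .backl 8 2 1 3, .side 1 2, .side 2 3, .side 3 4, .close [5,
    4, 9], .shift 5 4 9 3, .backl 9 5 4 3, .side 4 5, .side 5 6, .side 7 0, .side 8 1, .side 2 8,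
    .side 9 4, .side 5 9, .shiftl 5 6 7 8, .new 8, .close [1, 0, 10], .shift 1 0 10 3, .backl 10 1
    0 3, .around 1 [10, 0, 2, 8], .shiftl 8 1 10 8, .side 10 0, .new 9, .around 2 [8, 1, 3, 11],
    .close [3, 2, 11], .backl 11 3 2 3, .back 11 2 8 8, .side 3 11, .new 10, .around 3 [11, 2, 4,
    12], .close [4, 3, 12], .shift 4 3 12 3, .backl 12 4 3 3, .around 4 [12, 3, 5, 9], .shiftl 9 4
    12 8, .back 12 3 11 8, .new 11, .around 5 [9, 4, 6, 13], .close [6, 5, 13], .backl 13 6 5 3,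
    .around 6 [13, 5, 7], .back 13 5 9 8, .side 6 13, .back 7 6 13 8, .new 12, .around 7 [6, 0,
    14], .close [0, 7, 14], .backl 14 0 7 3, .around 0 [14, 7, 1, 10], .back 14 7 6 8, .new 13,
    .shiftl 1 10 15 8, .new 14, .shiftl 10 15 16 8, .new 15, .shiftl 15 16 17 8, .new 16, .shiftl
    16 17 18 8, .new 17, .letters [8, 1, 10, 15, 16, 17, 18, 19] wR, .shiftl 17 18 19 8, .close
    [8, 1, 10, 15, 16, 17, 18, 19], .around 10 [0, 1, 15], .around 8 [19, 1, 2], .shiftl 18 19 8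
    8, .shiftl 2 8 19 8, .back 15 10 0 8, .new 18, .around 15 [10, 16, 20], .close [16, 15, 20],
    .backl 20 16 15 3, .around 16 [20, 15, 17], .back 20 15 10 8, .side 16 20, .back 17 16 20 8,
    .new 19, .around 17 [16, 18, 21], .close [18, 17, 21], .backl 21 18 17 3, .back 21 17 16 8,
    .side 18 21, .new 20, .around 18 [21, 17, 19, 22], .close [19, 18, 22], .backl 22 19 18 3,
    .around 19 [22, 18, 8], .back 22 18 21 8, .new 21, .shiftl 4 12 23 8, .new 22, .shiftl 12 23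
    24 8, .new 23, .shiftl 23 24 25 8, .new 24, .shiftl 24 25 26 8, .new 25, .letters [9, 4, 12,
    23, 24, 25, 26, 27] wM, .shiftl 25 26 27 8, .close [9, 4, 12, 23, 24, 25, 26, 27], .around 12
    [3, 4, 23], .around 9 [27, 4, 5], .shiftl 26 27 9 8, .back 23 12 3 8]
  ren := [7, 6, 5, 9, 4, 12, 3, 2, 8, 1, 0, 10, 19, 15, 16, 17, 18, 11, 23, 27, 13, 14, 20, 21, 22]

theorem pr_bad7_ok : pr_bad7.check cl_A2MMo = true := by decide +kernel

/-- case `bad8`: the shape `X1MM` (reversed) -/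
def pr_bad8 : Prog where
  defs := [(0, 1), (1, 2), (2, 3), (3, 4), (4, 5), (5, 6), (2, 1), (1, 0), (3, 2), (5, 4), (6, 5),
    (0, 7), (1, 9), (9, 14), (14, 15), (15, 16), (16, 17), (15, 14), (17, 16), (18, 17)]
  init := [.word 0 1 [.V, .V, .T1, .T2, .V, .T1, .T2, .V], .word 8 1 wR]
  steps := [.new 0, .new 1, .new 2, .new 3, .new 4, .new 5, .new 6, .letters [0, 1, 2, 3, 4, 5, 6,
    7] [.V, .V, .T1, .T2, .V, .T1, .T2, .V], .close [0, 1, 2, 3, 4, 5, 6, 7], .side 0 1, .close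
    [2, 1, 8], .shift 2 1 8 3, .backl 8 2 1 3, .side 1 2, .side 2 3, .side 4 5, .side 5 6, .side 7
    0, .side 8 1, .side 2 8, .shiftl 2 3 4 8, .shiftl 5 6 7 8, .new 7, .close [1, 0, 9], .shift 1
    0 9 3, .backl 9 1 0 3, .around 1 [9, 0, 2, 8], .shiftl 8 1 9 8, .side 9 0, .new 8, .around 2
    [8, 1, 3, 10], .close [3, 2, 10], .backl 10 3 2 3, .around 3 [10, 2, 4], .back 10 2 8 8, .side
    3 10, .back 4 3 10 8, .new 9, .around 4 [3, 5, 11], .close [5, 4, 11], .backl 11 5 4 3, .back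
    11 4 3 8, .side 5 11, .new 10, .around 5 [11, 4, 6, 12], .close [6, 5, 12], .backl 12 6 5 3,
    .around 6 [12, 5, 7], .back 12 5 11 8, .side 6 12, .back 7 6 12 8, .new 11, .around 7 [6, 0,
    13], .close [0, 7, 13], .backl 13 0 7 3, .around 0 [13, 7, 1, 9], .back 13 7 6 8, .new 12,
    .shiftl 1 9 14 8, .new 13, .shiftl 9 14 15 8, .new 14, .shiftl 14 15 16 8, .new 15, .shiftl 15
    16 17 8, .new 16, .letters [8, 1, 9, 14, 15, 16, 17, 18] wR, .shiftl 16 17 18 8, .close [8, 1,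
    9, 14, 15, 16, 17, 18], .around 9 [0, 1, 14], .around 8 [18, 1, 2], .shiftl 17 18 8 8, .shiftl
    2 8 18 8, .back 14 9 0 8, .new 17, .around 14 [9, 15, 19], .close [15, 14, 19], .backl 19 15
    14 3, .around 15 [19, 14, 16], .back 19 14 9 8, .side 15 19, .back 16 15 19 8, .new 18,
    .around 16 [15, 17, 20], .close [17, 16, 20], .backl 20 17 16 3, .back 20 16 15 8, .side 17
    20, .new 19, .around 17 [20, 16, 18, 21], .close [18, 17, 21], .backl 21 18 17 3, .around 18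
    [21, 17, 8], .back 21 17 20 8]
  ren := [7, 6, 5, 4, 3, 0, 9, 1, 2, 8, 14, 15, 16, 18, 17, 13, 12, 11, 10, 21, 20, 19]

theorem pr_bad8_ok : pr_bad8.check cl_X1MM.rv = true := by decide +kernel

end Pool.Agent.W_fb73a4_t7
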