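import Pool.Agent.W_fb73a4_t7.Defs
import Pool.Agent.W_fb73a4_h57.PC
import Pool.Agent.W_fb73a4_h57.KB
import Pool.Agent.W_fb73a4_h57.TG

/-!
[T7] AL: algebra for the minimal counterexample. Tools: `W_fb73a4_h57`: `mem_I3_iff`, `kill_mem`
(if `p ∉ I3` has variables in `S` and `p * B ∈ I3` then `kill S B ∈ I3`), `sh_mem_iff` (the
substitution `X v ↦ X v + X w`), `K_mod`-type theorem for sparse multigraphs, `planar_sparse`.
-/

set_option autoImplicit false

namespace Pool.Agent.W_fb73a4_t7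

open Finset MvPolynomial
open scoped Classical
open Pool.Agent.W_fb73a4_h20
open Pool.Agent.W_fb73a4_h57 (P3 I3 kill)

variable {V : Type} [Fintype V] {G : SimpleGraph V}

omit [Fintype V] in
private theorem lin_eq (e : Sym2 V) : (lin e : P3 V) = Pool.Agent.W_fb73a4_h57.lin e := rfl

omit [Fintype V] in
private theorem prod_lin (S : Finset (Sym2 V)) :
    (∏ e ∈ S, lin e : P3 V) = Pool.Agent.W_fb73a4_h57.gp (S.val.map Quot.out) := by
  rw [← Pool.Agent.W_fb73a4_h57.LP_eq_gp]
  rfl

theorem lin_mk (u v : V) : (lin s(u, v) : P3 V) = X u - X v ∨ (lin s(u, v) : P3 V) = X v - X u := by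
  rcases Pool.Agent.W_fb73a4_h57.lin_mk u v with h | h
  · exact Or.inl h
  · right
    rw [lin_eq, h, neg_sub]

theorem kill_kill (S T : Finset V) (p : P3 V) : kill S (kill T p) = kill (S ∪ T) p :=
  Pool.Agent.W_fb73a4_h57.kill_kill S T p

/-- `kill` only matters on the variables which occur -/
theorem kill_congr (S T : Finset V) (A : Set V) {p : P3 V} (hp : p ∈ supported (ZMod 3) A)
    (h : ∀ v ∈ A, (v ∈ S ↔ v ∈ T)) : kill S p = kill T p :=
  Pool.Agent.W_fb73a4_h57.kill_congr S T A h p hp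

theorem prod_lin_supported (S : Finset (Sym2 V)) (A : Set V) (h : ∀ e ∈ S, ∀ v ∈ e, v ∈ A) :
    (∏ e ∈ S, lin e : P3 V) ∈ supported (ZMod 3) A := by
  refine Subalgebra.prod_mem _ fun e he => ?_
  unfold lin
  refine Subalgebra.sub_mem _ ?_ ?_
  · exact X_mem_supported.2 (h e he _ (Pool.Agent.W_fb73a4_h57.out_fst_mem e))
  · exact X_mem_supported.2 (h e he _ (Pool.Agent.W_fb73a4_h57.out_snd_mem e))

theorem kill_supported (C : Finset V) (A : Set V) {p : P3 V} (hp : p ∈ supported (ZMod 3) A) :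
    kill C p ∈ supported (ZMod 3) A := by
  rw [supported_eq_adjoin_X] at hp
  induction hp using Algebra.adjoin_induction with
  | mem x hx =>
    obtain ⟨v, hv, rfl⟩ := hx
    rw [Pool.Agent.W_fb73a4_h57.kill_X]
    split_ifs
    · exact Subalgebra.zero_mem _
    · exact X_mem_supported.2 hv
  | algebraMap r =>
    rw [AlgHom.commutes]
    exact Subalgebra.algebraMap_mem _ r
  | add x y _ _ hx hy =>
    rw [map_add]
    exact Subalgebra.add_mem _ hx hy
  | mul x y _ _ hx hy =>
    rw [map_mul]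
    exact Subalgebra.mul_mem _ hx hy

/-- two parts of the edges: the first has its vertices in `W` and is not zero, the second is not zero
when the variables of `W` are set to zero -/
theorem nz_glue (C W : Finset V) (S T : Finset (Sym2 V)) (hST : Disjoint S T)
    (hU : eo G C = S ∪ T) (hW : ∀ e ∈ S, ∀ v ∈ e, v ∈ W)
    (h1 : kill C (∏ e ∈ S, lin e) ∉ I3 V) (h2 : kill (W ∪ C) (∏ e ∈ T, lin e) ∉ I3 V) :
    NZ G C := by
  intro h
  apply h2
  unfold QQ at h
  rw [hU, Finset.prod_union hST, map_mul] at h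
  rw [← kill_kill]
  exact Pool.Agent.W_fb73a4_h57.kill_mem W _ _
    (kill_supported C _ (prod_lin_supported S _ fun e he v hv => Finset.mem_coe.2 (hW e he v hv)))
    h1 h

/-- one variable may be set to zero: substitute `X v ↦ X v + X c` for all `v ≠ c` -/
theorem nz_shift (S : Finset (Sym2 V)) (hS : ∀ e ∈ S, ¬ e.IsDiag) (c : V)
    (h : (∏ e ∈ S, lin e : P3 V) ∉ I3 V) : kill {c} (∏ e ∈ S, lin e) ∉ I3 V := by
  intro h1
  apply h
  rw [prod_lin] at h1 ⊢
  exact (Pool.Agent.W_fb73a4_h57.kill_one_iff univ c (Finset.mem_univ c) _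
    fun e _ => ⟨Finset.mem_univ _, Finset.mem_univ _⟩).1 h1

theorem kill_empty (p : P3 V) : kill (∅ : Finset V) p = p :=
  Pool.Agent.W_fb73a4_h57.kill_empty p

/-- an inner vertex of degree at most 2 may be deleted: the coefficient of `X v ^ d` -/
theorem nz_low (C : Finset V) {v : V} (hv : v ∉ C) (hd : dgr G v ≤ 2)
    (h : NZ (del G {v}) C) : NZ G C := by
  rw [Pool.Agent.W_fb73a4_h57.t7_NZ] at h ⊢
  exact Pool.Agent.W_fb73a4_h57.NZ_deg2 G C v hv hd h

theorem nz_of_empty (C : Finset V) (h : eo G C = ∅) : NZ G C := by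
  unfold NZ QQ
  rw [h, Finset.prod_empty, map_one]
  exact Pool.Agent.W_fb73a4_h57.one_not_mem

/-- a loopless product of edges with the sparsity condition is not zero -/
private theorem nz_sparse (hne : Nonempty V) (S : Finset (Sym2 V))
    (h : ∀ W : Finset V, W.Nonempty → 3 * {e | e ∈ S ∧ ∀ v ∈ e, v ∈ W}.ncard + 3 ≤ 5 * W.card) :
    (∏ e ∈ S, lin e : P3 V) ∉ I3 V := by
  obtain ⟨v0⟩ := hne
  rw [prod_lin]
  refine Pool.Agent.W_fb73a4_h57.K_main univ _ ⟨v0, Finset.mem_univ _⟩
    (fun e _ => ⟨Finset.mem_univ _, Finset.mem_univ _⟩) fun W _ hW => ?_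
  have h1 := h W hW
  have h2 : Pool.Agent.W_fb73a4_h57.ec (S.val.map Quot.out) W =
      {e | e ∈ S ∧ ∀ v ∈ e, v ∈ W}.ncard := by
    have h3 : {e | e ∈ S ∧ ∀ v ∈ e, v ∈ W}
        = ((S.filter fun e => ∀ v ∈ e, v ∈ W : Finset (Sym2 V)) : Set (Sym2 V)) := by
      ext e
      simp
    rw [h3, Set.ncard_coe_finset, Pool.Agent.W_fb73a4_h57.ec, Multiset.countP_map, Finset.card_def,
      Finset.filter_val]
    refine congrArg Multiset.card (Multiset.filter_congr fun e _ => ?_)
    have h4 : ∀ v, v ∈ e ↔ v = (Quot.out e).1 ∨ v = (Quot.out e).2 := fun v => by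
      conv_lhs => rw [← Pool.Agent.W_fb73a4_h57.out_mk e]
      exact Sym2.mem_iff
    constructor
    · rintro ⟨ha, hb⟩ v hv
      rcases (h4 v).1 hv with rfl | rfl
      · exact ha
      · exact hb
    · intro hh
      exact ⟨hh _ ((h4 _).2 (Or.inl rfl)), hh _ ((h4 _).2 (Or.inr rfl))⟩
  rw [h2]
  exact h1

/-- graphs of the class without triangles (`planar_sparse 4` and the theorem for sparse graphs) -/
theorem nz_tri_free (hG : C7 G) (h3 : ∀ a b c, G.Adj a b → G.Adj b c → G.Adj a c → False) :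
    NZ G ∅ := by
  by_cases hne : Nonempty V
  · unfold NZ QQ
    rw [kill_empty]
    refine nz_sparse hne _ fun W hW => ?_
    have h1 := Pool.Agent.W_fb73a4_h57.planar_sparse 4 (by norm_num) G hG.pl
      (fun n x hx => by
        rcases hG.no n x hx with h | h
        · exact Or.inl h
        · exact Or.inr (by omega)) (fun W' => ?_) W hW
    · have h2 : {e | e ∈ eo G ∅ ∧ ∀ v ∈ e, v ∈ W} = {e ∈ G.edgeSet | ∀ v ∈ e, v ∈ W} := by
        ext e
        rw [Set.mem_ofPred_eq, Set.mem_ofPred_eq]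
        unfold eo
        rw [Finset.mem_filter]
        constructor
        · rintro ⟨⟨_, h2, _⟩, h3⟩
          exact ⟨h2, h3⟩
        · rintro ⟨h2, h3⟩
          refine ⟨⟨Finset.mem_univ _, h2, fun h4 => ?_⟩, h3⟩
          exact Finset.notMem_empty _ (h4 _ (Pool.Agent.W_fb73a4_h57.out_fst_mem e))
      rw [h2]
      exact h1
    · have h2 : {T : Finset V | G.IsNClique 3 T ∧ T ⊆ W'} = ∅ := by
        rw [Set.eq_empty_iff_forall_notMem]
        rintro T ⟨hT, _⟩
        rw [SimpleGraph.is3Clique_iff] at hT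
        obtain ⟨a, b, c, hab, hac, hbc, _⟩ := hT
        exact h3 a b c hab hbc hac
      rw [h2, Set.ncard_empty]
      omega
  · refine nz_of_empty _ ?_
    rw [Finset.eq_empty_iff_forall_notMem]
    intro e _
    exact hne ⟨(Quot.out e).1⟩

/-- the three edges of a triangle -/
theorem nz_tri {a b c : V} (hab : a ≠ b) (hbc : b ≠ c) (hac : a ≠ c) (S : Finset (Sym2 V))
    (hS : ∀ e, e ∈ S ↔ e = s(a, b) ∨ e = s(b, c) ∨ e = s(a, c)) :
    (∏ e ∈ S, lin e : P3 V) ∉ I3 V := by
  refine nz_sparse ⟨a⟩ S fun W hW => ?_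
  have hW1 : 1 ≤ W.card := hW.card_pos
  have hsub : {e | e ∈ S ∧ ∀ v ∈ e, v ∈ W} ⊆ {s(a, b), s(b, c), s(a, c)} := by
    rintro e ⟨he, _⟩
    rw [hS] at he
    exact he
  have h3 : {e | e ∈ S ∧ ∀ v ∈ e, v ∈ W}.ncard ≤ 3 := by
    refine (Set.ncard_le_ncard hsub (Set.toFinite _)).trans ?_
    refine (Set.ncard_insert_le _ _).trans ?_
    have := Set.ncard_insert_le s(b, c) {s(a, c)}
    rw [Set.ncard_singleton] at this
    omega
  by_cases h4 : 3 ≤ W.card
  · omega
  · -- at most two vertices: at most one edge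
    have h5 : {e | e ∈ S ∧ ∀ v ∈ e, v ∈ W}.ncard ≤ 1 := by
      rw [Set.ncard_le_one (Set.toFinite _)]
      have h6 : ¬ (a ∈ W ∧ b ∈ W ∧ c ∈ W) := by
        rintro ⟨ha, hb, hc⟩
        apply h4
        have h7 : ({a, b, c} : Finset V) ⊆ W := by
          intro v hv
          rw [Finset.mem_insert, Finset.mem_insert, Finset.mem_singleton] at hv
          rcases hv with rfl | rfl | rfl
          · exact ha
          · exact hb
          · exact hc
        have h8 : ({a, b, c} : Finset V).card = 3 := Finset.card_eq_three.2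
          ⟨a, b, c, hab, hac, hbc, rfl⟩
        rw [← h8]
        exact Finset.card_le_card h7
      have hm : ∀ u v, (∀ w ∈ s(u, v), w ∈ W) → u ∈ W ∧ v ∈ W := fun u v h =>
        ⟨h u (Sym2.mem_mk_left u v), h v (Sym2.mem_mk_right u v)⟩
      rintro e ⟨he, he'⟩ f ⟨hf, hf'⟩
      rw [hS] at he hf
      rcases he with rfl | rfl | rfl <;> rcases hf with rfl | rfl | rfl <;>
        first
          | rfl
          | (exfalso
             have k1 := hm _ _ he'
             have k2 := hm _ _ hf'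
             exact h6 (by tauto))
    by_cases h6 : {e | e ∈ S ∧ ∀ v ∈ e, v ∈ W}.ncard = 0
    · rw [h6]
      omega
    · have h7 : {e | e ∈ S ∧ ∀ v ∈ e, v ∈ W}.Nonempty := by
        rw [Set.nonempty_iff_ne_empty]
        intro h8
        apply h6
        rw [h8, Set.ncard_empty]
      obtain ⟨e, he, he'⟩ := h7
      rw [hS] at he
      have h9 : 1 < W.card := by
        rw [Finset.one_lt_card]
        rcases he with rfl | rfl | rfl
        · exact ⟨a, he' _ (Sym2.mem_mk_left _ _), b, he' _ (Sym2.mem_mk_right _ _), hab⟩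
        · exact ⟨b, he' _ (Sym2.mem_mk_left _ _), c, he' _ (Sym2.mem_mk_right _ _), hbc⟩
        · exact ⟨a, he' _ (Sym2.mem_mk_left _ _), c, he' _ (Sym2.mem_mk_right _ _), hac⟩
      omega

end Pool.Agent.W_fb73a4_t7
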