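import Pool.Agent.W_fb73a4_t7.BBDefs
import Pool.Agent.W_fb73a4_t7.OB3

/-!
[T7] BB: soundness of the programs.
`phi_new`: with `defsOk`, `phi (2 + j) = s (phi a) (phi b)` (the list of values is only extended, its
length is 2 plus the number of definitions). `out_sound`: every step only derives facts which hold:
`close`: `fw (φ id₀) (φ id₁) k = φ id_k` by induction, `OM.fw_period`; `around`: `OM.iter_dgr`;
`letters`: `Word` (`fw` as before, the last corners need the two closing relations);
`side`: `Env.fl_other`; `ltFacts` of `Z`, `Y`: `Env.fl_cases`. For `Occ.tri`, a false flag: the face has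
length at least 7, so it is not 3.
-/

set_option autoImplicit false

namespace Pool.Agent.W_fb73a4_t7

open Finset MvPolynomial
open scoped Classical
open Pool.Agent.W_fb73a4_h20

variable {V : Type} [Fintype V] {G : SimpleGraph V} {ι : Type} [Fintype ι] {F : ι → EV V}
  {i0 : ι} {m : ℕ} {x : ZMod m → V} {C : Finset V}

omit [Fintype ι] in
private theorem BB_vals_old (M : OM G F) (u : V) (d : List (ℕ × ℕ)) :
    ∀ (l : List V) (i : ℕ), i < l.length → (valsL M u l d).getD i u = l.getD i u := by
  induction d with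
  | nil => intro l i _; rfl
  | cons p t ih =>
    intro l i hi
    obtain ⟨a, b⟩ := p
    have h1 := ih (l ++ [M.s (l.getD a u) (l.getD b u)]) i
      (by rw [List.length_append]; omega)
    rw [show valsL M u l ((a, b) :: t) = valsL M u (l ++ [M.s (l.getD a u) (l.getD b u)]) t from rfl,
      h1, List.getD_append _ _ _ _ hi]

omit [Fintype ι] in
private theorem BB_vals_new (M : OM G F) (u : V) (d : List (ℕ × ℕ)) :
    ∀ (l : List V) (j : ℕ), defsOk l.length d = true → j < d.length →
      (valsL M u l d).getD (l.length + j) u =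
        M.s ((valsL M u l d).getD (d.getD j (0, 0)).1 u)
          ((valsL M u l d).getD (d.getD j (0, 0)).2 u) := by
  induction d with
  | nil => intro l j _ hj; simp at hj
  | cons p t ih =>
    intro l j hd hj
    obtain ⟨a, b⟩ := p
    have hd' : (a < l.length ∧ b < l.length) ∧ defsOk (l.length + 1) t = true := by
      simpa [defsOk] using hd
    obtain ⟨⟨ha, hb⟩, hd2⟩ := hd'
    have hv : valsL M u l ((a, b) :: t) = valsL M u (l ++ [M.s (l.getD a u) (l.getD b u)]) t := rfl
    have hlen : (l ++ [M.s (l.getD a u) (l.getD b u)]).length = l.length + 1 := by simp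
    rw [hv]
    cases j with
    | zero =>
      rw [List.getD_cons_zero, Nat.add_zero]
      rw [BB_vals_old M u t _ l.length (by rw [hlen]; omega),
        BB_vals_old M u t _ a (by rw [hlen]; omega), BB_vals_old M u t _ b (by rw [hlen]; omega),
        List.getD_append _ _ _ _ ha, List.getD_append _ _ _ _ hb,
        List.getD_append_right _ _ _ _ (le_refl _), Nat.sub_self]
      rfl
    | succ j =>
      have h1 := ih (l ++ [M.s (l.getD a u) (l.getD b u)]) j (by rw [hlen]; exact hd2)
        (by simpa using hj)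
      rw [hlen, show l.length + 1 + j = l.length + (j + 1) by omega] at h1
      rw [List.getD_cons_succ]
      exact h1

omit [Fintype ι] in
theorem phi_zero (P : Prog) (M : OM G F) (u v : V) : P.phi M u v 0 = u := by
  unfold Prog.phi
  rw [BB_vals_old M u P.defs [u, v] 0 (by simp)]
  rfl

omit [Fintype ι] in
theorem phi_one (P : Prog) (M : OM G F) (u v : V) : P.phi M u v 1 = v := by
  unfold Prog.phi
  rw [BB_vals_old M u P.defs [u, v] 1 (by simp)]
  rfl

omit [Fintype ι] in
theorem phi_new (P : Prog) (hd : defsOk 2 P.defs = true) (M : OM G F) (u v : V) (j : ℕ)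
    (hj : j < P.defs.length) : P.phi M u v (j + 2) =
      M.s (P.phi M u v (P.defs.getD j (0, 0)).1) (P.phi M u v (P.defs.getD j (0, 0)).2) := by
  have h := BB_vals_new M u P.defs [u, v] j hd hj
  unfold Prog.phi
  rw [← h]
  congr 1
  simp [add_comm]

omit [Fintype ι] in
/-- a walk which closes -/
private theorem BB_walk (M : OM G F) (φ : ℕ → V) (K : List Fact)
    (hK : ∀ f ∈ K, f.Holds M C φ) (ids : List ℕ) (h3 : 3 ≤ ids.length)
    (hadj : G.Adj (φ (cg ids 0)) (φ (cg ids 1)))
    (hlen : M.fl (φ (cg ids 0)) (φ (cg ids 1)) = ids.length)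
    (hr : (List.range (ids.length - 2)).all (fun k =>
      decide (Fact.rel (cg ids k) (cg ids (k + 1)) (cg ids (k + 2)) ∈ K)) = true) :
    ∀ k, M.fw (φ (cg ids 0)) (φ (cg ids 1)) k = φ (cg ids k) := by
  have hrel : ∀ k < ids.length - 2,
      M.s (φ (cg ids k)) (φ (cg ids (k + 1))) = φ (cg ids (k + 2)) := by
    intro k hk
    have h1 := List.all_eq_true.1 hr k (List.mem_range.2 hk)
    exact (hK _ (of_decide_eq_true h1)).2
  have key : ∀ k, k + 1 < ids.length →
      M.fw (φ (cg ids 0)) (φ (cg ids 1)) k = φ (cg ids k) ∧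
        M.fw (φ (cg ids 0)) (φ (cg ids 1)) (k + 1) = φ (cg ids (k + 1)) := by
    intro k
    induction k with
    | zero => intro _; exact ⟨rfl, rfl⟩
    | succ k ih =>
      intro hk
      obtain ⟨h1, h2⟩ := ih (by omega)
      refine ⟨h2, ?_⟩
      rw [M.fw_two, h1, h2]
      exact hrel k (by omega)
  have small : ∀ k < ids.length, M.fw (φ (cg ids 0)) (φ (cg ids 1)) k = φ (cg ids k) := by
    intro k hk
    rcases Nat.eq_zero_or_pos k with rfl | hpos
    · rfl
    · have h1 := (key (k - 1) (by omega)).2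
      rwa [Nat.sub_add_cancel hpos] at h1
  intro k
  induction k using Nat.strong_induction_on with
  | _ k ih =>
    by_cases hk : k < ids.length
    · exact small k hk
    · have h1 := ih (k - ids.length) (by omega)
      have h2 := M.fw_period hadj (k - ids.length)
      rw [hlen, Nat.sub_add_cancel (by omega)] at h2
      rw [h2, h1]
      have h4 : (k - ids.length) % ids.length = k % ids.length := by
        conv_rhs => rw [← Nat.sub_add_cancel (le_of_not_gt hk), Nat.add_mod_right]
      unfold cg
      rw [h4]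

/-- the facts of a letter hold -/
private theorem BB_lt (E : Env G ι F i0 m x C) (M : OM G F) (φ : ℕ → V) (p y n : ℕ) (ℓ : Lt)
    (hadj : G.Adj (φ p) (φ y)) (hs : M.s (φ p) (φ y) = φ n)
    (h : M.holds C (φ p) (φ y) (φ n) ℓ) : ∀ f ∈ ltFacts p y n ℓ, f.Holds M C φ := by
  have hyn : G.Adj (φ n) (φ y) := by
    rw [← hs]
    exact (M.adj _ _ hadj).symm
  intro f hf
  cases ℓ with
  | T1 =>
    simp only [ltFacts, List.mem_cons, List.not_mem_nil, or_false] at hf
    obtain ⟨h1, h2, h3⟩ := h
    rcases hf with rfl | rfl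
    · exact ⟨h1, h2⟩
    · exact ⟨hadj.symm, h3⟩
  | T2 =>
    simp only [ltFacts, List.mem_cons, List.not_mem_nil, or_false] at hf
    obtain ⟨h1, h2, h3⟩ := h
    rcases hf with rfl | rfl
    · exact ⟨h1, h2⟩
    · exact ⟨hyn, h3⟩
  | Z =>
    simp only [ltFacts, List.mem_cons, List.not_mem_nil, or_false] at hf
    obtain ⟨h1, h2, h3, h4⟩ := h
    rcases hf with rfl | rfl | rfl
    · exact ⟨h1, h2⟩
    · exact ⟨hadj.symm, (E.fl_cases M hadj.symm).resolve_left h3⟩
    · exact ⟨hyn, (E.fl_cases M hyn).resolve_left h4⟩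
  | V =>
    simp only [ltFacts, List.mem_cons, List.not_mem_nil, or_false] at hf
    obtain ⟨h1, h2, h3, h4⟩ := h
    rcases hf with rfl | rfl | rfl
    · exact ⟨h1, h2⟩
    · exact ⟨hadj.symm, h3⟩
    · exact ⟨hyn, h4⟩
  | Y =>
    simp only [ltFacts, List.mem_cons, List.not_mem_nil, or_false] at hf
    obtain ⟨h1, h2, h3, h4, h5⟩ := h
    rcases hf with rfl | rfl | rfl | rfl
    · exact ⟨h1, h2⟩
    · exact ⟨hadj.symm, (E.fl_cases M hadj.symm).resolve_left h3⟩
    · exact ⟨hyn, (E.fl_cases M hyn).resolve_left h4⟩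
    · exact ⟨hyn, h5⟩
  | A => simp [ltFacts] at hf

/-- one step -/
theorem out_sound (E : Env G ι F i0 m x C) (M : OM G F) (φ : ℕ → V) (defs : List (ℕ × ℕ))
    (hφ : ∀ j < defs.length, φ (j + 2) =
      M.s (φ (defs.getD j (0, 0)).1) (φ (defs.getD j (0, 0)).2))
    (K : List Fact) (hK : ∀ f ∈ K, f.Holds M C φ) (s : Step) (K' : List Fact)
    (h : s.out defs K = some K') : ∀ f ∈ K', f.Holds M C φ := by
  cases s with
  | new j =>
    simp only [Step.out] at h
    split_ifs at h with hc
    obtain ⟨hj, hm⟩ := hc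
    obtain rfl := (Option.some.inj h).symm
    have hadj : G.Adj (φ (defs.getD j (0, 0)).1) (φ (defs.getD j (0, 0)).2) := hK _ hm
    have hs := hφ j hj
    have h2 := M.adj _ _ hadj
    rw [← hs] at h2
    intro f hf
    simp only [List.mem_cons, List.not_mem_nil, or_false] at hf
    rcases hf with rfl | rfl | rfl
    · exact ⟨hadj, hs.symm⟩
    · exact h2
    · exact h2.symm
  | close ids =>
    simp only [Step.out] at h
    split_ifs at h with hc
    obtain ⟨h3, hl, hr⟩ := hc
    obtain rfl := (Option.some.inj h).symm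
    obtain ⟨hadj, hlen⟩ := hK _ hl
    have hw := BB_walk M φ K hK ids h3 hadj hlen hr
    have hp0 := M.fw_period hadj 0
    have hp1 := M.fw_period hadj 1
    rw [hlen] at hp0 hp1
    have e1 : M.fw (φ (cg ids 0)) (φ (cg ids 1)) ids.length = φ (cg ids 0) := by
      rw [Nat.zero_add] at hp0
      exact hp0
    have e2 : M.fw (φ (cg ids 0)) (φ (cg ids 1)) (ids.length + 1) = φ (cg ids 1) := by
      rw [Nat.add_comm] at hp1
      exact hp1
    have a1 := M.fw_adj hadj (ids.length - 2)
    have a2 := M.fw_adj hadj (ids.length - 1)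
    have s1 := M.fw_two (φ (cg ids 0)) (φ (cg ids 1)) (ids.length - 2)
    have s2 := M.fw_two (φ (cg ids 0)) (φ (cg ids 1)) (ids.length - 1)
    rw [show ids.length - 2 + 1 = ids.length - 1 by omega, hw, hw] at a1
    rw [show ids.length - 1 + 1 = ids.length by omega, e1, hw] at a2
    rw [show ids.length - 2 + 2 = ids.length by omega,
      show ids.length - 2 + 1 = ids.length - 1 by omega, e1, hw, hw] at s1
    rw [show ids.length - 1 + 2 = ids.length + 1 by omega,
      show ids.length - 1 + 1 = ids.length by omega, e1, e2, hw] at s2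
    intro f hf
    simp only [List.mem_cons, List.not_mem_nil, or_false] at hf
    rcases hf with rfl | rfl | rfl | rfl
    · exact ⟨a1, s1.symm⟩
    · exact ⟨a2, s2.symm⟩
    · exact a2
    · exact a2.symm
  | around y xs =>
    simp only [Step.out] at h
    split_ifs at h with hc
    obtain ⟨h1, hd, ha, hr⟩ := hc
    obtain rfl := (Option.some.inj h).symm
    obtain ⟨-, hdeg⟩ := hK _ hd
    have hadj : G.Adj (φ (cg xs 0)) (φ y) := hK _ ha
    have hrel : ∀ k < xs.length - 1, M.s (φ (cg xs k)) (φ y) = φ (cg xs (k + 1)) := by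
      intro k hk
      have h1 := List.all_eq_true.1 hr k (List.mem_range.2 hk)
      exact (hK _ (of_decide_eq_true h1)).2
    have key : ∀ k < xs.length, (fun a => M.s a (φ y))^[k] (φ (cg xs 0)) = φ (cg xs k) := by
      intro k
      induction k with
      | zero => intro _; rfl
      | succ k ih =>
        intro hk
        rw [Function.iterate_succ_apply', ih (by omega)]
        exact hrel k (by omega)
    have hlast := M.iter_dgr hadj
    rw [hdeg, show xs.length = (xs.length - 1) + 1 by omega, Function.iterate_succ_apply',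
      key _ (by omega)] at hlast
    have hadj2 := M.iter_adj hadj (xs.length - 1)
    rw [key _ (by omega)] at hadj2
    intro f hf
    simp only [List.mem_cons, List.not_mem_nil, or_false] at hf
    subst hf
    exact ⟨hadj2, hlast⟩
  | letters ids w =>
    simp only [Step.out] at h
    split_ifs at h with hc
    obtain ⟨h3, hlw, hword, hr⟩ := hc
    obtain rfl := (Option.some.inj h).symm
    obtain ⟨hadj, hfl, hletters⟩ := hK _ hword
    have hlen : M.fl (φ (cg ids 0)) (φ (cg ids 1)) = ids.length := by rw [hfl, hlw]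
    have hw := BB_walk M φ K hK ids h3 hadj hlen hr
    intro f hf
    rcases List.mem_cons.1 hf with rfl | hf
    · exact ⟨hadj, hlen⟩
    · obtain ⟨k, hk, hkf⟩ := List.mem_flatMap.1 hf
      have hk' := List.mem_range.1 hk
      have h5 := hletters k (by omega)
      have h6 := M.fw_adj hadj k
      have h7 := M.fw_two (φ (cg ids 0)) (φ (cg ids 1)) k
      rw [hw, hw, hw] at h5
      rw [hw, hw] at h6
      rw [hw, hw, hw] at h7
      exact BB_lt E M φ _ _ _ _ h6 h7.symm h5 f hkf
  | shift a b c L =>
    simp only [Step.out] at h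
    split_ifs at h with hc
    obtain ⟨h1, h2⟩ := hc
    obtain rfl := (Option.some.inj h).symm
    obtain ⟨h3, h4⟩ := hK _ h1
    obtain ⟨h5, h6⟩ := hK _ h2
    have h7 := M.adj _ _ h3
    have h8 := M.fl_s h3
    rw [h6] at h7 h8
    intro f hf
    simp only [List.mem_cons, List.not_mem_nil, or_false] at hf
    subst hf
    exact ⟨h7, h8.trans h4⟩
  | shiftl a b c L =>
    simp only [Step.out] at h
    split_ifs at h with hc
    obtain ⟨h1, h2⟩ := hc
    obtain rfl := (Option.some.inj h).symm
    obtain ⟨h3, h4⟩ := hK _ h1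
    obtain ⟨h5, h6⟩ := hK _ h2
    have h7 := M.adj _ _ h3
    have h8 := M.fl_s h3
    rw [h6] at h7 h8
    intro f hf
    simp only [List.mem_cons, List.not_mem_nil, or_false] at hf
    subst hf
    exact ⟨h7, h4.trans h8.symm.le⟩
  | side a b =>
    simp only [Step.out] at h
    split_ifs at h with hc
    obtain rfl := (Option.some.inj h).symm
    obtain ⟨h3, h4⟩ := hK _ hc
    intro f hf
    simp only [List.mem_cons, List.not_mem_nil, or_false] at hf
    subst hf
    exact ⟨h3.symm, E.fl_other M h3.symm h4⟩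
  | letter p y n ℓ =>
    simp only [Step.out] at h
    split_ifs at h with hc
    obtain ⟨h1, h2⟩ := hc
    obtain rfl := (Option.some.inj h).symm
    obtain ⟨h3, h4⟩ := hK _ h1
    obtain ⟨h5, h6⟩ := hK _ h2
    rw [h6] at h4
    exact BB_lt E M φ _ _ _ _ h5 h6 h4
  | back a b c L =>
    simp only [Step.out] at h
    split_ifs at h with hc
    obtain ⟨h1, h2⟩ := hc
    obtain rfl := (Option.some.inj h).symm
    obtain ⟨h3, h4⟩ := hK _ h1
    obtain ⟨h5, h6⟩ := hK _ h2
    have h8 := M.fl_s h5
    rw [h6] at h8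
    intro f hf
    simp only [List.mem_cons, List.not_mem_nil, or_false] at hf
    subst hf
    exact ⟨h5, h4.trans h8.le⟩
  | backl a b c L =>
    simp only [Step.out] at h
    split_ifs at h with hc
    obtain ⟨h1, h2⟩ := hc
    obtain rfl := (Option.some.inj h).symm
    obtain ⟨h3, h4⟩ := hK _ h1
    obtain ⟨h5, h6⟩ := hK _ h2
    have h8 := M.fl_s h5
    rw [h6] at h8
    intro f hf
    simp only [List.mem_cons, List.not_mem_nil, or_false] at hf
    subst hf
    exact ⟨h5, h8.symm.trans h4⟩
  | opp n y q =>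
    simp only [Step.out] at h
    split_ifs at h with hc
    obtain ⟨h1, h2⟩ := hc
    obtain rfl := (Option.some.inj h).symm
    obtain ⟨h3, h4⟩ := hK _ h1
    obtain ⟨h5, h6⟩ := hK _ h2
    have h7 := M.adj _ _ h3
    rw [h6] at h4 h7
    intro f hf
    simp only [List.mem_cons, List.not_mem_nil, or_false] at hf
    subst hf
    exact ⟨h7.symm, h4⟩

theorem run_sound (E : Env G ι F i0 m x C) (M : OM G F) (φ : ℕ → V) (defs : List (ℕ × ℕ))
    (hφ : ∀ j < defs.length, φ (j + 2) =
      M.s (φ (defs.getD j (0, 0)).1) (φ (defs.getD j (0, 0)).2))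
    (l : List Step) (K : List Fact) (hK : ∀ f ∈ K, f.Holds M C φ) (K' : List Fact)
    (h : runSteps defs K l = some K') : ∀ f ∈ K', f.Holds M C φ := by
  induction l generalizing K with
  | nil =>
    obtain rfl := Option.some.inj (show some K = some K' from h)
    exact hK
  | cons s l ih =>
    simp only [runSteps] at h
    cases hs : s.out defs K with
    | none => rw [hs] at h; simp at h
    | some K1 =>
      rw [hs] at h
      refine ih (K1 ++ K) ?_ h
      intro f hf
      rcases List.mem_append.1 hf with hf | hf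
      · exact out_sound E M φ defs hφ K hK s K1 hs f hf
      · exact hK f hf

omit [Fintype ι] in
theorem okFacts_sound (M : OM G F) (φ : ℕ → V) (D : Conf) (r : ℕ → ℕ) (K : List Fact)
    (hK : ∀ f ∈ K, f.Holds M C φ) (h : D.okFacts r K = true) :
    Occ M C (fun j => φ (r j)) D := by
  unfold Conf.okFacts at h
  rw [Bool.and_eq_true, Bool.and_eq_true] at h
  obtain ⟨⟨-, h2⟩, h3⟩ := h
  have hi : ∀ i < D.nD, Fact.deg (r i) (D.rot.getD i []).length ∈ K ∧
      1 ≤ (D.rot.getD i []).length ∧ ∀ k < (D.rot.getD i []).length,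
        Fact.rel (r (D.nb i k)) (r i) (r (D.nb i (k + 1))) ∈ K ∧
        (if (D.tri.getD i []).getD k false = true then Fact.len (r (D.nb i k)) (r i) 3 ∈ K
        else Fact.long (r (D.nb i k)) (r i) 7 ∈ K ∨ Fact.long (r (D.nb i k)) (r i) 8 ∈ K ∨
          Fact.len (r (D.nb i k)) (r i) 8 ∈ K ∨ Fact.long (r (D.nb i k)) (r i) 9 ∈ K) := by
    intro i hi
    have h4 := List.all_eq_true.1 h2 i (List.mem_range.2 hi)
    rw [Bool.and_eq_true, Bool.and_eq_true] at h4
    obtain ⟨⟨h5, h6⟩, h7⟩ := h4
    refine ⟨of_decide_eq_true h5, of_decide_eq_true h6, ?_⟩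
    intro k hk
    have h8 := List.all_eq_true.1 h7 k (List.mem_range.2 hk)
    rw [Bool.and_eq_true] at h8
    obtain ⟨h9, h10⟩ := h8
    refine ⟨of_decide_eq_true h9, ?_⟩
    split_ifs at h10 ⊢ with hc
    · exact of_decide_eq_true h10
    · simp only [Bool.or_eq_true, decide_eq_true_eq] at h10
      rcases h10 with ((h10 | h10) | h10) | h10
      · exact Or.inl h10
      · exact Or.inr (Or.inl h10)
      · exact Or.inr (Or.inr (Or.inl h10))
      · exact Or.inr (Or.inr (Or.inr h10))
  have hmod : ∀ i k, D.nb i (k % (D.rot.getD i []).length) = D.nb i k := by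
    intro i k
    unfold Conf.nb
    rw [Nat.mod_mod]
  have hmod1 : ∀ i k, D.nb i (k % (D.rot.getD i []).length + 1) = D.nb i (k + 1) := by
    intro i k
    unfold Conf.nb
    rw [Nat.mod_add_mod]
  have hrel : ∀ i < D.nD, ∀ k, G.Adj (φ (r (D.nb i k))) (φ (r i)) ∧
      M.s (φ (r (D.nb i k))) (φ (r i)) = φ (r (D.nb i (k + 1))) := by
    intro i hi' k
    obtain ⟨-, h5, h6⟩ := hi i hi'
    have h7 := hK _ (h6 (k % (D.rot.getD i []).length) (Nat.mod_lt _ h5)).1
    rw [hmod, hmod1] at h7
    exact h7
  refine ⟨?_, ?_, ?_, ?_, ?_, ?_⟩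
  · intro i hi'
    exact (hK _ (hi i hi').1).1
  · intro i hi'
    exact (hK _ (hi i hi').1).2
  · intro i hi' k
    exact (hrel i hi' k).1
  · intro i hi' k
    exact (hrel i hi' k).2
  · intro i hi' k hk
    have h5 := ((hi i hi').2.2 k hk).2
    split_ifs at h5 with hc
    · have h6 := (hK _ h5).2
      exact ⟨fun _ => h6, fun _ => hc⟩
    · refine ⟨fun h6 => absurd h6 hc, fun h6 => ?_⟩
      exfalso
      have h6' : M.fl (φ (r (D.nb i k))) (φ (r i)) = 3 := h6
      rcases h5 with h5 | h5 | h5 | h5 <;>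
        · have h7 := (hK _ h5).2
          omega
  · intro t ht
    have h4 := List.all_eq_true.1 h3 t ht
    rw [Bool.and_eq_true, Bool.and_eq_true] at h4
    exact (hK _ (of_decide_eq_true h4.2)).2

/-- the program is sound -/
theorem build (E : Env G ι F i0 m x C) (M : OM G F) {u v : V} (h : G.Adj u v) (P : Prog) (D : Conf)
    (hi : ∀ f ∈ P.init, f.Holds M C (P.phi M u v)) (hc : P.check D = true) :
    Occ M C (fun j => P.phi M u v (P.ren.getD j 0)) D := by
  unfold Prog.check at hc
  rw [Bool.and_eq_true] at hc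
  obtain ⟨hd, hrun⟩ := hc
  cases hr : runSteps P.defs (.adj 0 1 :: .adj 1 0 :: P.init) P.steps with
  | none => rw [hr] at hrun; simp at hrun
  | some K =>
    rw [hr] at hrun
    refine okFacts_sound M (P.phi M u v) D (fun j => P.ren.getD j 0) K ?_ hrun
    refine run_sound E M (P.phi M u v) P.defs (fun j hj => phi_new P hd M u v j hj) P.steps
      (.adj 0 1 :: .adj 1 0 :: P.init) ?_ K hr
    intro f hf
    rcases List.mem_cons.1 hf with rfl | hf
    · show G.Adj (P.phi M u v 0) (P.phi M u v 1)
      rw [phi_zero, phi_one]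
      exact h
    · rcases List.mem_cons.1 hf with rfl | hf
      · show G.Adj (P.phi M u v 1) (P.phi M u v 0)
        rw [phi_zero, phi_one]
        exact h.symm
      · exact hi f hf

end Pool.Agent.W_fb73a4_t7
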