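import Pool.Agent.W_fb73a4_t7.Defs

/-!
[T7] BBDefs: a checked program which derives from words (and other local facts) that a configuration
occurs. The vertices of a program are numbered: `0 → 1` is the root dart, number `2 + j` is defined as
`s a b` for the `j`-th entry `(a, b)` of `defs`.
-/

set_option autoImplicit false

namespace Pool.Agent.W_fb73a4_t7

open Finset MvPolynomial
open scoped Classical
open Pool.Agent.W_fb73a4_h20

inductive Fact
  /-- `a` and `b` are adjacent -/
  | adj (a b : ℕ)
  /-- `a` and `b` are adjacent and `s a b = c` -/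
  | rel (a b c : ℕ)
  /-- `i` is an inner vertex of degree `d` -/
  | deg (i d : ℕ)
  /-- the face on the left of `a → b` has length `L` -/
  | len (a b L : ℕ)
  /-- the face on the left of `a → b` has length at least `L` -/
  | long (a b L : ℕ)
  /-- the face on the left of `s n y → y` is a triangle -/
  | opp (n y : ℕ)
  /-- the word of the face on the left of `a → b` -/
  | word (a b : ℕ) (w : List Lt)
  /-- the letter of the corner `p, y, s p y` -/
  | lt (p y : ℕ) (ℓ : Lt)
  deriving DecidableEq

def Fact.Holds {V : Type} [Fintype V] {G : SimpleGraph V} {ι : Type} {F : ι → EV V} (M : OM G F)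
    (C : Finset V) (φ : ℕ → V) : Fact → Prop
  | .adj a b => G.Adj (φ a) (φ b)
  | .rel a b c => G.Adj (φ a) (φ b) ∧ M.s (φ a) (φ b) = φ c
  | .deg i d => φ i ∉ C ∧ dgr G (φ i) = d
  | .len a b L => G.Adj (φ a) (φ b) ∧ M.fl (φ a) (φ b) = L
  | .long a b L => G.Adj (φ a) (φ b) ∧ L ≤ M.fl (φ a) (φ b)
  | .opp n y => G.Adj (φ n) (φ y) ∧ M.fl (M.s (φ n) (φ y)) (φ y) = 3
  | .word a b w => M.Word C (φ a) (φ b) w
  | .lt p y ℓ => G.Adj (φ p) (φ y) ∧ M.holds C (φ p) (φ y) (M.s (φ p) (φ y)) ℓ

inductive Step
  /-- the defining relation of the vertex `2 + j`, if `a`, `b` are known to be adjacent -/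
  | new (j : ℕ)
  /-- a face of known length which closes -/
  | close (ids : List ℕ)
  /-- a vertex of known degree: the rotation closes -/
  | around (y : ℕ) (xs : List ℕ)
  /-- the letters of a word, `ids` is the whole face -/
  | letters (ids : List ℕ) (w : List Lt)
  /-- `len a b L`, `rel a b c` give `len b c L` -/
  | shift (a b c L : ℕ)
  /-- `long a b L`, `rel a b c` give `long b c L` -/
  | shiftl (a b c L : ℕ)
  /-- `len b a 3` gives `long a b 8` -/
  | side (a b : ℕ)
  /-- `opp n y`, `rel n y q` give `len q y 3` -/
  | opp (n y q : ℕ)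
  /-- one letter: `lt p y ℓ`, `rel p y n` -/
  | letter (p y n : ℕ) (ℓ : Lt)
  /-- `long b c L`, `rel a b c` give `long a b L` -/
  | back (a b c L : ℕ)
  /-- `len b c L`, `rel a b c` give `len a b L` -/
  | backl (a b c L : ℕ)

/-- facts given by a letter at the corner `p, y, n` -/
def ltFacts (p y n : ℕ) : Lt → List Fact
  | .T1 => [.deg y 3, .len y p 3]
  | .T2 => [.deg y 3, .len n y 3]
  | .Z => [.deg y 3, .long y p 7, .long n y 7]
  | .V => [.deg y 4, .len y p 3, .len n y 3]
  | .Y => [.deg y 4, .long y p 7, .long n y 7, .opp n y]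
  | .A => []

/-- element number `k` of a cyclic list -/
def cg (l : List ℕ) (k : ℕ) : ℕ := l.getD (k % l.length) 0

/-- the facts derived by a step, `none` if a premise is missing -/
def Step.out (defs : List (ℕ × ℕ)) (K : List Fact) : Step → Option (List Fact)
  | .new j =>
    if j < defs.length ∧ Fact.adj (defs.getD j (0, 0)).1 (defs.getD j (0, 0)).2 ∈ K then
      some [.rel (defs.getD j (0, 0)).1 (defs.getD j (0, 0)).2 (j + 2),
        .adj (defs.getD j (0, 0)).2 (j + 2), .adj (j + 2) (defs.getD j (0, 0)).2]
    else none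
  | .close ids =>
    if 3 ≤ ids.length ∧ Fact.len (cg ids 0) (cg ids 1) ids.length ∈ K ∧
        (List.range (ids.length - 2)).all (fun k =>
          decide (Fact.rel (cg ids k) (cg ids (k + 1)) (cg ids (k + 2)) ∈ K)) = true then
      some [.rel (cg ids (ids.length - 2)) (cg ids (ids.length - 1)) (cg ids 0),
        .rel (cg ids (ids.length - 1)) (cg ids 0) (cg ids 1),
        .adj (cg ids (ids.length - 1)) (cg ids 0), .adj (cg ids 0) (cg ids (ids.length - 1))]
    else none
  | .around y xs =>
    if 1 ≤ xs.length ∧ Fact.deg y xs.length ∈ K ∧ Fact.adj (cg xs 0) y ∈ K ∧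
        (List.range (xs.length - 1)).all (fun k =>
          decide (Fact.rel (cg xs k) y (cg xs (k + 1)) ∈ K)) = true then
      some [.rel (cg xs (xs.length - 1)) y (cg xs 0)]
    else none
  | .letters ids w =>
    if 3 ≤ ids.length ∧ ids.length = w.length ∧ Fact.word (cg ids 0) (cg ids 1) w ∈ K ∧
        (List.range (ids.length - 2)).all (fun k =>
          decide (Fact.rel (cg ids k) (cg ids (k + 1)) (cg ids (k + 2)) ∈ K)) = true then
      some (Fact.len (cg ids 0) (cg ids 1) ids.length ::
        (List.range ids.length).flatMap fun k =>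
          ltFacts (cg ids k) (cg ids (k + 1)) (cg ids (k + 2)) (w.getD k .A))
    else none
  | .shift a b c L =>
    if Fact.len a b L ∈ K ∧ Fact.rel a b c ∈ K then some [.len b c L] else none
  | .shiftl a b c L =>
    if Fact.long a b L ∈ K ∧ Fact.rel a b c ∈ K then some [.long b c L] else none
  | .side a b => if Fact.len b a 3 ∈ K then some [.long a b 8] else none
  | .opp n y q => if Fact.opp n y ∈ K ∧ Fact.rel n y q ∈ K then some [.len q y 3] else none
  | .letter p y n ℓ =>
    if Fact.lt p y ℓ ∈ K ∧ Fact.rel p y n ∈ K then some (ltFacts p y n ℓ) else none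
  | .back a b c L =>
    if Fact.long b c L ∈ K ∧ Fact.rel a b c ∈ K then some [.long a b L] else none
  | .backl a b c L =>
    if Fact.len b c L ∈ K ∧ Fact.rel a b c ∈ K then some [.len a b L] else none

/-- all facts after a list of steps -/
def runSteps (defs : List (ℕ × ℕ)) : List Fact → List Step → Option (List Fact)
  | K, [] => some K
  | K, s :: l =>
    match s.out defs K with
    | some K' => runSteps defs (K' ++ K) l
    | none => none

/-- a program: definitions, given facts, steps, and the renaming of the vertices of the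
configuration -/
structure Prog where
  defs : List (ℕ × ℕ)
  init : List Fact
  steps : List Step
  ren : List ℕ

/-- the vertices of a program -/
noncomputable def valsL {V : Type} [Fintype V] {G : SimpleGraph V} {ι : Type} {F : ι → EV V}
    (M : OM G F) (u : V) : List V → List (ℕ × ℕ) → List V
  | l, [] => l
  | l, (a, b) :: t => valsL M u (l ++ [M.s (l.getD a u) (l.getD b u)]) t

/-- the vertex number `i` of a program with root dart `u → v` -/
noncomputable def Prog.phi {V : Type} [Fintype V] {G : SimpleGraph V} {ι : Type} {F : ι → EV V}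
    (P : Prog) (M : OM G F) (u v : V) (i : ℕ) : V := (valsL M u [u, v] P.defs).getD i u

/-- the entries of `defs` only use earlier vertices -/
def defsOk : ℕ → List (ℕ × ℕ) → Bool
  | _, [] => true
  | n, (a, b) :: t => decide (a < n) && decide (b < n) && defsOk (n + 1) t

/-- the facts `K` say that `D` occurs (with the names `r i`) -/
def Conf.okFacts (D : Conf) (r : ℕ → ℕ) (K : List Fact) : Bool :=
  decide (D.rot.length = D.nD) && (List.range D.nD).all (fun i =>
    decide (Fact.deg (r i) (D.rot.getD i []).length ∈ K) &&
    decide (1 ≤ (D.rot.getD i []).length) &&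
    (List.range (D.rot.getD i []).length).all (fun k =>
      decide (Fact.rel (r (D.nb i k)) (r i) (r (D.nb i (k + 1))) ∈ K) &&
      (if (D.tri.getD i []).getD k false then decide (Fact.len (r (D.nb i k)) (r i) 3 ∈ K)
        else decide (Fact.long (r (D.nb i k)) (r i) 7 ∈ K) ||
          decide (Fact.long (r (D.nb i k)) (r i) 8 ∈ K) ||
          decide (Fact.len (r (D.nb i k)) (r i) 8 ∈ K) ||
          decide (Fact.long (r (D.nb i k)) (r i) 9 ∈ K)))) &&
  D.long.all (fun t => decide (t.1 < D.nD) && decide (t.2.1 < (D.rot.getD t.1 []).length) &&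
    decide (Fact.long (r (D.nb t.1 t.2.1)) (r t.1) t.2.2 ∈ K))

/-- the program proves that `D` occurs -/
def Prog.check (P : Prog) (D : Conf) : Bool :=
  defsOk 2 P.defs &&
  match runSteps P.defs (.adj 0 1 :: .adj 1 0 :: P.init) P.steps with
  | some K => D.okFacts (fun j => P.ren.getD j 0) K
  | none => false

end Pool.Agent.W_fb73a4_t7
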