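import Pool.Agent.W_fb73a4_t7.DDefs
import Pool.Agent.W_fb73a4_t7.OB3

/-!
[T7] DB: the vertices. Sum over the corners at `y` of `tr` is at most `3 (dgr y - 4)` (inner vertex)
resp. `3 (dgr y - 4) + 4` (vertex of the outer cycle). The terms `ask` cancel at every vertex.
-/

set_option autoImplicit false

namespace Pool.Agent.W_fb73a4_t7

open Finset MvPolynomial
open scoped Classical
open Pool.Agent.W_fb73a4_h20

variable {V : Type} [Fintype V] {G : SimpleGraph V} {ι : Type} [Fintype ι] {F : ι → EV V}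
  {i0 : ι} {m : ℕ} {x : ZMod m → V} {C : Finset V} (E : Env G ι F i0 m x C) (M : OM G F)

/-- `a ↦ s a y` is a bijection of the neighbours of `y` -/
theorem OM.sum_rot (M : OM G F) (y : V) (f : V → ℤ) :
    ∑ p ∈ univ.filter (fun p => G.Adj p y), f (M.s p y) =
      ∑ p ∈ univ.filter (fun p => G.Adj p y), f p := by
  refine Finset.sum_bij (fun a _ => M.s a y) ?_ ?_ ?_ ?_
  · intro a ha
    rw [Finset.mem_filter] at ha ⊢
    exact ⟨Finset.mem_univ _, (M.adj a y ha.2).symm⟩
  · intro a ha b hb hab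
    rw [Finset.mem_filter] at ha hb
    exact M.inj a b y ha.2 hb.2 hab
  · intro w hw
    rw [Finset.mem_filter] at hw
    obtain ⟨u, hu, hs⟩ := M.surj hw.2.symm
    exact ⟨u, Finset.mem_filter.2 ⟨Finset.mem_univ _, hu⟩, hs⟩
  · intro a _
    rfl

/-- `ask` cancels -/
theorem OM.sum_ask (M : OM G F) (y : V) (f : V → ℤ) :
    ∑ p ∈ univ.filter (fun p => G.Adj p y), (f p - f (M.op p y)) = 0 := by
  have h1 := M.sum_rot y (fun a => f (M.s a y))
  have h2 := M.sum_rot y f
  have h3 : ∑ p ∈ univ.filter (fun p => G.Adj p y), f (M.op p y) =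
      ∑ p ∈ univ.filter (fun p => G.Adj p y), f p := by
    rw [← h2, ← h1]
    rfl
  rw [Finset.sum_sub_distrib, h3, sub_self]

private theorem DB_sum (M : OM G F) {u y : V} (h : G.Adj u y) (f : V → ℤ) :
    ∑ p ∈ univ.filter (fun p => G.Adj p y), f p =
      ∑ k ∈ range (dgr G y), f ((fun a => M.s a y)^[k] u) := by
  symm
  refine Finset.sum_bij (fun k _ => (fun a => M.s a y)^[k] u) ?_ ?_ ?_ ?_
  · intro k _
    exact Finset.mem_filter.2 ⟨Finset.mem_univ _, M.iter_adj h k⟩
  · intro j hj k hk hjk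
    exact M.iter_inj h (Finset.mem_range.1 hj) (Finset.mem_range.1 hk) hjk
  · intro w hw
    rw [Finset.mem_filter] at hw
    obtain ⟨k, hk, hkw⟩ := M.iter_surj h hw.2
    exact ⟨k, Finset.mem_range.2 hk, hkw⟩
  · intro k _
    rfl

private theorem DB_tr_le (M : OM G F) (p y : V) : M.tr C i0 p y ≤ 1 := by
  unfold OM.tr OM.wt
  split_ifs <;> norm_num

private theorem DB_le (M : OM G F) {u y : V} (h : G.Adj u y) :
    ∑ p ∈ univ.filter (fun p => G.Adj p y), M.tr C i0 p y ≤ (dgr G y : ℤ) := by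
  rw [DB_sum M h (fun p => M.tr C i0 p y)]
  calc ∑ k ∈ range (dgr G y), M.tr C i0 ((fun a => M.s a y)^[k] u) y
      ≤ ∑ _k ∈ range (dgr G y), (1 : ℤ) := Finset.sum_le_sum fun k _ => DB_tr_le M _ _
    _ = (dgr G y : ℤ) := by simp

private theorem DB_four (t0 t1 t2 t3 : ℕ) (n0 : t0 = 3 → t1 ≠ 3) (n1 : t1 = 3 → t2 ≠ 3)
    (n2 : t2 = 3 → t3 ≠ 3) (n3 : t3 = 3 → t0 ≠ 3) :
    (if t0 = 3 then (1 : ℤ) else (if t3 = 3 ∧ t1 = 3 then 1
      else if t3 ≠ 3 ∧ t1 ≠ 3 ∧ t2 = 3 then 1 else 2) - 2) +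
    (if t1 = 3 then (1 : ℤ) else (if t0 = 3 ∧ t2 = 3 then 1
      else if t0 ≠ 3 ∧ t2 ≠ 3 ∧ t3 = 3 then 1 else 2) - 2) +
    (if t2 = 3 then (1 : ℤ) else (if t1 = 3 ∧ t3 = 3 then 1
      else if t1 ≠ 3 ∧ t3 ≠ 3 ∧ t0 = 3 then 1 else 2) - 2) +
    (if t3 = 3 then (1 : ℤ) else (if t2 = 3 ∧ t0 = 3 then 1
      else if t2 ≠ 3 ∧ t0 ≠ 3 ∧ t1 = 3 then 1 else 2) - 2) ≤ 0 := by
  by_cases h0 : t0 = 3 <;> by_cases h1 : t1 = 3 <;> by_cases h2 : t2 = 3 <;>
    by_cases h3 : t3 = 3 <;> simp [h0, h1, h2, h3] at n0 n1 n2 n3 ⊢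

private theorem DB_five (t0 t1 t2 t3 t4 : ℕ) (n0 : t0 = 3 → t1 ≠ 3) (n1 : t1 = 3 → t2 ≠ 3)
    (n2 : t2 = 3 → t3 ≠ 3) (n3 : t3 = 3 → t4 ≠ 3) (n4 : t4 = 3 → t0 ≠ 3) :
    (if t0 = 3 then (1 : ℤ) else (if t4 = 3 ∧ t1 = 3 then 3 else 2) - 2) +
    (if t1 = 3 then (1 : ℤ) else (if t0 = 3 ∧ t2 = 3 then 3 else 2) - 2) +
    (if t2 = 3 then (1 : ℤ) else (if t1 = 3 ∧ t3 = 3 then 3 else 2) - 2) +
    (if t3 = 3 then (1 : ℤ) else (if t2 = 3 ∧ t4 = 3 then 3 else 2) - 2) +
    (if t4 = 3 then (1 : ℤ) else (if t3 = 3 ∧ t0 = 3 then 3 else 2) - 2) ≤ 3 := by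
  by_cases h0 : t0 = 3 <;> by_cases h1 : t1 = 3 <;> by_cases h2 : t2 = 3 <;>
    by_cases h3 : t3 = 3 <;> by_cases h4 : t4 = 3 <;>
    simp [h0, h1, h2, h3, h4] at n0 n1 n2 n3 n4 ⊢

include E

/-- consecutive corners are not both triangles -/
private theorem DB_next {p y : V} (h : G.Adj p y) (h3 : M.fl p y = 3) :
    M.fl (M.s p y) y ≠ 3 := by
  have h1 : G.Adj (M.s p y) y := (M.adj p y h).symm
  have h2 := M.fl_s h
  have h4 := E.fl_other M h1 (h2.trans h3)
  omega

/-- inner vertex. Degree 3: two triangles would have a common edge (`Env.fl_other`), so there is at most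
one triangle: `1 - 2 - 2` or `-1 - 1 - 1`. Degree 4: two triangles are opposite: `1 - 1 + 1 - 1`, one
triangle: `1 + 0 - 1 + 0`, none: `0`. Degree 5: at most 3 (there are no two consecutive triangles, the
corners of weight 3 lie between two triangles). Degree at least 6: every corner gives at most 1. -/
theorem Env.vertex_inner (y : V) (hy : y ∉ C) (hn : ∃ w, G.Adj y w) :
    ∑ p ∈ univ.filter (fun p => G.Adj p y), M.tr C i0 p y ≤ 3 * ((dgr G y : ℤ) - 4) := by
  obtain ⟨u0, hu0⟩ := hn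
  have h0 : G.Adj u0 y := hu0.symm
  have hd3 := E.deg3 y hy ⟨u0, hu0⟩
  have hlf : ∀ p, G.Adj p y → M.lf p y ≠ i0 := fun p hp hl => hy (E.lf_outer M hp hl).2
  by_cases hd6 : 6 ≤ dgr G y
  · have h1 := DB_le (C := C) (i0 := i0) M h0
    have h2 : (6 : ℤ) ≤ (dgr G y : ℤ) := by exact_mod_cast hd6
    linarith
  have h1 : G.Adj (M.s u0 y) y := (M.adj _ _ h0).symm
  have h2 : G.Adj (M.s (M.s u0 y) y) y := (M.adj _ _ h1).symm
  have h3 : G.Adj (M.s (M.s (M.s u0 y) y) y) y := (M.adj _ _ h2).symm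
  have h4 : G.Adj (M.s (M.s (M.s (M.s u0 y) y) y) y) y := (M.adj _ _ h3).symm
  have f1 := M.fl_s h0
  have f2 := M.fl_s h1
  have f3 := M.fl_s h2
  have f4 := M.fl_s h3
  have f5 := M.fl_s h4
  have hit := M.iter_dgr h0
  rw [DB_sum M h0 (fun p => M.tr C i0 p y)]
  rcases (by omega : dgr G y = 3 ∨ dgr G y = 4 ∨ dgr G y = 5) with hd | hd | hd
  · rw [hd] at hit ⊢
    have hit' : M.s (M.s (M.s u0 y) y) y = u0 := hit
    have e : ∀ p, G.Adj p y → M.tr C i0 p y = if M.fl p y = 3 then 1 else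
        (if M.fl y p = 3 ∨ M.fl (M.s p y) y = 3 then 0 else 1) - 2 := by
      intro p hp
      unfold OM.tr OM.wt
      rw [if_neg (hlf p hp), if_neg hy, if_pos hd]
    rw [hit'] at f3
    have n0 := DB_next E M h0
    have n1 := DB_next E M h1
    have n2 := DB_next E M h2
    rw [hit'] at n2
    simp only [Finset.sum_range_succ, Finset.sum_range_zero, Function.iterate_zero, id,
      Function.iterate_succ, Function.comp]
    rw [e _ h0, e _ h1, e _ h2, f1, f2, f3, hit']
    generalize M.fl u0 y = t0 at *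
    generalize M.fl (M.s u0 y) y = t1 at *
    generalize M.fl (M.s (M.s u0 y) y) y = t2 at *
    clear hit e f1 f2 f3 f4 f5
    by_cases k0 : t0 = 3 <;> by_cases k1 : t1 = 3 <;> by_cases k2 : t2 = 3 <;>
      simp [k0, k1, k2] at n0 n1 n2 ⊢
  · rw [hd] at hit ⊢
    have hit' : M.s (M.s (M.s (M.s u0 y) y) y) y = u0 := hit
    have e : ∀ p, G.Adj p y → M.tr C i0 p y = if M.fl p y = 3 then 1 else
        (if M.fl y p = 3 ∧ M.fl (M.s p y) y = 3 then 1
      else if M.fl y p ≠ 3 ∧ M.fl (M.s p y) y ≠ 3 ∧ M.fl (M.s (M.s p y) y) y = 3 then 1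
        else 2) - 2 := by
      intro p hp
      unfold OM.tr OM.wt OM.op
      rw [if_neg (hlf p hp), if_neg hy, if_neg (by omega : ¬ dgr G y = 3), if_pos hd]
    rw [hit'] at f4
    have n0 := DB_next E M h0
    have n1 := DB_next E M h1
    have n2 := DB_next E M h2
    have n3 := DB_next E M h3
    rw [hit'] at n3
    simp only [Finset.sum_range_succ, Finset.sum_range_zero, Function.iterate_zero, id,
      Function.iterate_succ, Function.comp]
    rw [e _ h0, e _ h1, e _ h2, e _ h3, f1, f2, f3, f4, hit']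
    have key := DB_four _ _ _ _ n0 n1 n2 n3
    push_cast
    linarith
  · rw [hd] at hit ⊢
    have hit' : M.s (M.s (M.s (M.s (M.s u0 y) y) y) y) y = u0 := hit
    have e : ∀ p, G.Adj p y → M.tr C i0 p y = if M.fl p y = 3 then 1 else
        (if M.fl y p = 3 ∧ M.fl (M.s p y) y = 3 then 3 else 2) - 2 := by
      intro p hp
      unfold OM.tr OM.wt
      rw [if_neg (hlf p hp), if_neg hy, if_neg (by omega : ¬ dgr G y = 3),
        if_neg (by omega : ¬ dgr G y = 4)]
    rw [hit'] at f5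
    have n0 := DB_next E M h0
    have n1 := DB_next E M h1
    have n2 := DB_next E M h2
    have n3 := DB_next E M h3
    have n4 := DB_next E M h4
    rw [hit'] at n4
    simp only [Finset.sum_range_succ, Finset.sum_range_zero, Function.iterate_zero, id,
      Function.iterate_succ, Function.comp]
    rw [e _ h0, e _ h1, e _ h2, e _ h3, e _ h4, f1, f2, f3, f4, f5, hit']
    have key := DB_five _ _ _ _ _ n0 n1 n2 n3 n4
    push_cast
    linarith

/-- vertex of the outer cycle. One corner belongs to the outer face (0). Degree 2: the other corner gives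
`0 - 2`; it is not a triangle, since then its third edge would be an edge of the outer cycle (`Env.chord`),
so the outer cycle would be this triangle and the two faces equal. Degree 3: the other two corners are
consecutive, so at most one is a triangle: at most 1. Degree at least 4: every inner corner gives at most
1, `dgr y - 1 ≤ 3 (dgr y - 4) + 4`. -/
theorem Env.vertex_outer (y : V) (hy : y ∈ C) :
    ∑ p ∈ univ.filter (fun p => G.Adj p y), M.tr C i0 p y ≤ 3 * ((dgr G y : ℤ) - 4) + 4 := by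
  obtain ⟨w, hw⟩ := (E.outer_on y).2 hy
  have hyw : G.Adj y w := by
    by_contra h3
    exact hw ((E.fs.cyc i0).1 s(y, w) h3)
  have hd2 := M.two_le hyw.symm
  by_cases hd4 : 4 ≤ dgr G y
  · have h1 := DB_le (C := C) (i0 := i0) M hyw.symm
    have h2 : (4 : ℤ) ≤ (dgr G y : ℤ) := by exact_mod_cast hd4
    linarith
  -- an outer corner
  obtain ⟨p, hp, hl⟩ : ∃ p, G.Adj p y ∧ M.lf p y = i0 := by
    rcases M.lf_or hyw E.fs hw with h1 | h1
    · obtain ⟨u, hu, hs⟩ := M.surj hyw
      refine ⟨u, hu, ?_⟩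
      rw [← M.lf_s u y hu, hs, h1]
    · exact ⟨w, hyw.symm, h1.symm⟩
  have h1 : G.Adj (M.s p y) y := (M.adj _ _ hp).symm
  have h2 : G.Adj (M.s (M.s p y) y) y := (M.adj _ _ h1).symm
  have hit := M.iter_dgr hp
  rw [DB_sum M hp (fun p => M.tr C i0 p y)]
  have t0 : M.tr C i0 p y = 0 := by
    unfold OM.tr
    rw [if_pos hl]
  rcases (by omega : dgr G y = 2 ∨ dgr G y = 3) with hd | hd
  · rw [hd] at hit ⊢
    have hit' : M.s (M.s p y) y = p := hit
    have hq : M.lf (M.s p y) y ≠ i0 := by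
      intro h3
      exact M.ne p y hp (M.corner _ _ y h1 hp (h3.trans hl.symm))
    have hfl : M.fl (M.s p y) y ≠ 3 := by
      intro h3
      obtain ⟨h4, h5, h6⟩ := M.tri_close h1 h3
      rw [hit'] at h6
      -- `h6 : G.Adj p (s p y)`
      have hpC := (E.lf_outer M hp hl).1
      have hqC : M.s p y ∈ C := by
        refine (E.lf_outer M (M.adj p y hp) ?_).2
        rw [M.lf_s p y hp, hl]
      have h7 := E.chord _ _ hpC hqC h6
      have h8 := E.fl_other M h1.symm h3
      rw [M.fl_s hp] at h8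
      rw [← hl, M.face_edge hp] at h7
      obtain ⟨k, hk, hke⟩ := h7
      rw [Sym2.eq_iff] at hke
      rcases hke with ⟨h9, h10⟩ | ⟨h9, h10⟩
      · have h11 : k = 0 := M.fw_inj hp hk (by omega) h9
        subst h11
        exact h1.ne h10.symm
      · have h11 : k = 2 := M.fw_inj hp hk (by omega) h9
        subst h11
        have h12 : (3 : ℕ) = 0 := M.fw_inj hp (by omega) (by omega) h10
        omega
    have t1 : M.tr C i0 (M.s p y) y = -2 := by
      unfold OM.tr OM.wt
      rw [if_neg hq, if_neg hfl, if_pos hy, if_pos (by omega : dgr G y ≤ 2)]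
      norm_num
    simp only [Finset.sum_range_succ, Finset.sum_range_zero, Function.iterate_zero, id,
      Function.iterate_succ, Function.comp]
    rw [t0, t1]
    norm_num
  · rw [hd] at hit ⊢
    have hit' : M.s (M.s (M.s p y) y) y = p := hit
    have e : ∀ p, M.tr C i0 p y ≤ if M.fl p y = 3 then 1 else 0 := by
      intro p
      unfold OM.tr OM.wt
      rw [if_pos hy, if_neg (by omega : ¬ dgr G y ≤ 2), if_pos hd]
      split_ifs <;> norm_num
    have n1 := DB_next E M h1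
    simp only [Finset.sum_range_succ, Finset.sum_range_zero, Function.iterate_zero, id,
      Function.iterate_succ, Function.comp]
    rw [t0]
    have e1 := e (M.s p y)
    have e2 := e (M.s (M.s p y) y)
    by_cases k1 : M.fl (M.s p y) y = 3
    · have k2 := n1 k1
      rw [if_pos k1] at e1
      rw [if_neg k2] at e2
      push_cast
      linarith
    · rw [if_neg k1] at e1
      have e3 := DB_tr_le (C := C) (i0 := i0) M (M.s (M.s p y) y) y
      push_cast
      linarith

end Pool.Agent.W_fb73a4_t7
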