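import Pool.Agent.W_fb73a4_t7.DB

/-!
[T7] DC: the sum of all charges.
Sum over all darts `(p, y)` of `tr + ask p y - ask (op p y) y`: by vertices (`DB`) at most
`∑ 3 (dgr y - 4) + 4 |C|` (over the vertices with a neighbour), by faces: outer face 0 (`tr = 0`;
`ask = 0` on the outer face and behind it: a vertex with `ask p y ≠ 0` or `ask (op p y) y ≠ 0` is inner),
triangles: 1 for each of the three corners (`ask = 0`: `Word` with a word of length 8; `ask (op p y) y ≠ 0`
means that `y` is a `V` and then the corner `p, y` is no triangle), other faces: at least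
`12 - fl + ... - 2 fl`, see `hface`. Together with `∑ dgr = ∑ len = 2 |E|` and
`FaceSys.count` (`|E| + 2 ≤ |ι| + |V*|`) this is a contradiction:
`∑_y (3 (d - 4)) + 4 |C| ≥ ∑_{inner faces} 3 (4 - len)` would give
`0 ≥ 12 |E| - 12 |V*| - 12 |ι| + 24 ≥ (3 (|C| + 4) - 4 |C|) > 0`.
-/

set_option autoImplicit false

namespace Pool.Agent.W_fb73a4_t7

open Finset MvPolynomial
open scoped Classical
open Pool.Agent.W_fb73a4_h20

variable {V : Type} [Fintype V] {G : SimpleGraph V} {ι : Type} [Fintype ι] {F : ι → EV V}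
  {i0 : ι} {m : ℕ} {x : ZMod m → V} {C : Finset V} (E : Env G ι F i0 m x C) (M : OM G F)

private theorem DC_darts (f : V → V → ℤ) :
    ∑ d ∈ (univ : Finset (V × V)).filter (fun d => G.Adj d.1 d.2), f d.1 d.2 =
      ∑ y, ∑ p ∈ univ.filter (fun p => G.Adj p y), f p y := by
  rw [Finset.sum_filter, Fintype.sum_prod_type_right]
  refine Finset.sum_congr rfl fun y _ => ?_
  rw [Finset.sum_filter]

private theorem DC_vs (G : SimpleGraph V) : ∑ v, (dgr G v : ℤ) = 2 * (G.edgeSet.ncard : ℤ) := by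
  have h1 : ∀ v, dgr G v = G.degree v := by
    intro v
    rw [dgr, ← SimpleGraph.card_neighborSet_eq_degree, ← Nat.card_coe_set_eq,
      Nat.card_eq_fintype_card]
  have h2 : ∑ v, dgr G v = 2 * G.edgeSet.ncard := by
    rw [Finset.sum_congr rfl fun v _ => h1 v, SimpleGraph.sum_degrees_eq_twice_card_edges]
    congr 1
    rw [← Nat.card_coe_set_eq, Nat.card_eq_fintype_card, ← SimpleGraph.edgeFinset_card]
  exact_mod_cast h2

private theorem DC_len (fs : FaceSys G ι F) :
    ∑ i, (len (F i) : ℤ) = 2 * (G.edgeSet.ncard : ℤ) := by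
  have h1 : ∀ i, len (F i) = ∑ e ∈ G.edgeFinset, if F i e ≠ 0 then 1 else 0 := by
    intro i
    rw [len, ← Finset.card_filter]
    congr 1
    ext e
    simp only [mem_filter, mem_univ, true_and, SimpleGraph.mem_edgeFinset]
    constructor
    · intro h
      refine ⟨?_, h⟩
      by_contra he
      exact h ((fs.cyc i).1 e he)
    · exact fun h => h.2
  have h3 : ∑ i, len (F i) = 2 * G.edgeSet.ncard := by
    rw [Finset.sum_congr rfl fun i _ => h1 i, Finset.sum_comm]
    have h2 : ∀ e ∈ G.edgeFinset, ∑ i, (if F i e ≠ 0 then 1 else 0) = 2 := by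
      intro e he
      rw [← Finset.card_filter]
      exact fs.two e (SimpleGraph.mem_edgeFinset.1 he)
    rw [Finset.sum_congr rfl h2, Finset.sum_const, smul_eq_mul, mul_comm]
    congr 1
    rw [← Nat.card_coe_set_eq, Nat.card_eq_fintype_card, ← SimpleGraph.edgeFinset_card]
  exact_mod_cast h3

/-- sum over the darts of a face -/
theorem OM.sum_face (M : OM G F) {u v : V} (h : G.Adj u v) (f : V → V → ℤ) :
    ∑ d ∈ (univ : Finset (V × V)).filter (fun d => G.Adj d.1 d.2 ∧ M.lf d.1 d.2 = M.lf u v),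
      f d.1 d.2 = ∑ k ∈ range (M.fl u v), f (M.fw u v k) (M.fw u v (k + 1)) := by
  symm
  refine Finset.sum_bij (fun k _ => (M.fw u v k, M.fw u v (k + 1))) ?_ ?_ ?_ ?_
  · intro k _
    exact Finset.mem_filter.2 ⟨Finset.mem_univ _, M.fw_adj h k, M.lf_fw h k⟩
  · intro j hj k hk hjk
    exact M.fw_inj h (Finset.mem_range.1 hj) (Finset.mem_range.1 hk) (Prod.mk.inj hjk).1
  · rintro ⟨a, b⟩ hab
    rw [Finset.mem_filter] at hab
    obtain ⟨k, hk, h1, h2⟩ := M.dart_of_lf h hab.2.1 hab.2.2
    exact ⟨k, Finset.mem_range.2 hk, Prod.ext h1 h2⟩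
  · intro k _
    rfl

private theorem DC_word (M : OM G F) {a y : V} {w : List Lt} (hw : M.Word C a y (.V :: w)) :
    y ∉ C ∧ dgr G y = 4 ∧ M.fl y a = 3 ∧ M.fl (M.s a y) y = 3 := by
  have h1 := hw.2.2 0 (by simp)
  exact h1

private theorem DC_ask (M : OM G F) {a y : V} (ha : M.ask C a y ≠ 0) :
    G.Adj a y ∧ M.fl a y = 8 ∧ y ∉ C ∧ dgr G y = 4 ∧ M.fl y a = 3 ∧ M.fl (M.s a y) y = 3 := by
  unfold OM.ask at ha
  by_cases h1 : M.Word C a y wM
  · exact ⟨h1.1, h1.2.1, DC_word M h1⟩
  · rw [if_neg h1] at ha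
    by_cases h2 : M.Word C a y wL
    · exact ⟨h2.1, h2.2.1, DC_word M h2⟩
    · by_cases h3 : M.Word C a y wR
      · exact ⟨h3.1, h3.2.1, DC_word M h3⟩
      · exfalso
        apply ha
        rw [if_neg]
        rintro (h4 | h4)
        · exact h2 h4
        · exact h3 h4

/-- the first letter of a poor word is `V`: then the opposite corner is also a `V` -/
theorem OM.ask_ne (M : OM G F) (C : Finset V) {p y : V} (h : G.Adj p y)
    (ha : M.ask C (M.op p y) y ≠ 0) : M.hx C p y .V := by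
  obtain ⟨-, -, h1, h2, h3, h4⟩ := DC_ask M ha
  have h5 : G.Adj (M.s p y) y := (M.adj _ _ h).symm
  have h6 : G.Adj (M.s (M.s p y) y) y := (M.adj _ _ h5).symm
  have h7 : G.Adj (M.s (M.s (M.s p y) y) y) y := (M.adj _ _ h6).symm
  obtain ⟨h8, -⟩ := M.four_nbrs h h2
  refine ⟨h1, h2, ?_, ?_⟩
  · have h9 := M.fl_s h7
    rw [h8] at h9
    rw [h9]
    exact h4
  · have h9 := M.fl_s h5
    rw [← h9]
    exact h3

include E

private theorem DC_face (hface : ∀ u v, G.Adj u v → M.lf u v ≠ i0 → M.fl u v ≠ 3 →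
      12 - (M.fl u v : ℤ) ≤
      ∑ k ∈ range (M.fl u v), (M.wt C (M.fw u v k) (M.fw u v (k + 1)) +
        M.ask C (M.fw u v k) (M.fw u v (k + 1)) -
        M.ask C (M.op (M.fw u v k) (M.fw u v (k + 1))) (M.fw u v (k + 1)))) (i : ι) :
    (if i = i0 then (0 : ℤ) else 12 - 3 * (len (F i) : ℤ)) ≤
      ∑ d ∈ ((univ : Finset (V × V)).filter (fun d => G.Adj d.1 d.2)).filter
        (fun d => M.lf d.1 d.2 = i),
        (M.tr C i0 d.1 d.2 + (M.ask C d.1 d.2 - M.ask C (M.op d.1 d.2) d.2)) := by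
  rw [Finset.filter_filter]
  obtain ⟨e, he⟩ : ∃ e, F i e ≠ 0 := by
    by_contra hcon
    push Not at hcon
    exact E.fs.ne i (funext hcon)
  have heG : e ∈ G.edgeSet := by
    by_contra h1
    exact he ((E.fs.cyc i).1 e h1)
  obtain ⟨u, v, huv, hl⟩ : ∃ u v, G.Adj u v ∧ i = M.lf u v := by
    induction e using Sym2.ind with
    | _ a b =>
      have hab : G.Adj a b := heG
      rcases M.lf_or hab E.fs he with h1 | h1
      · exact ⟨a, b, hab, h1⟩
      · exact ⟨b, a, hab.symm, h1⟩
  subst hl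
  rw [M.sum_face huv (fun a b => M.tr C i0 a b + (M.ask C a b - M.ask C (M.op a b) b))]
  by_cases hi : M.lf u v = i0
  · rw [if_pos hi]
    refine Finset.sum_nonneg fun k _ => ?_
    have hk := M.fw_adj huv k
    have hk1 : M.lf (M.fw u v k) (M.fw u v (k + 1)) = i0 := (M.lf_fw huv k).trans hi
    have hC := (E.lf_outer M hk hk1).2
    have h1 : M.tr C i0 (M.fw u v k) (M.fw u v (k + 1)) = 0 := by
      unfold OM.tr
      rw [if_pos hk1]
    have h2 : M.ask C (M.fw u v k) (M.fw u v (k + 1)) = 0 := by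
      by_contra h3
      exact (DC_ask M h3).2.2.1 hC
    have h3 : M.ask C (M.op (M.fw u v k) (M.fw u v (k + 1))) (M.fw u v (k + 1)) = 0 := by
      by_contra h4
      exact (DC_ask M h4).2.2.1 hC
    rw [h1, h2, h3]
    norm_num
  · rw [if_neg hi]
    have hlen : (len (F (M.lf u v)) : ℤ) = (M.fl u v : ℤ) := rfl
    rw [hlen]
    by_cases h3 : M.fl u v = 3
    · have h1 : ∀ k ∈ range (M.fl u v), (1 : ℤ) ≤ M.tr C i0 (M.fw u v k) (M.fw u v (k + 1)) +
          (M.ask C (M.fw u v k) (M.fw u v (k + 1)) -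
            M.ask C (M.op (M.fw u v k) (M.fw u v (k + 1))) (M.fw u v (k + 1))) := by
        intro k _
        have hk := M.fw_adj huv k
        have hk1 : M.lf (M.fw u v k) (M.fw u v (k + 1)) ≠ i0 := by
          rw [M.lf_fw huv k]
          exact hi
        have hk2 : M.fl (M.fw u v k) (M.fw u v (k + 1)) = 3 := (M.fl_fw huv k).trans h3
        have h4 : M.tr C i0 (M.fw u v k) (M.fw u v (k + 1)) = 1 := by
          unfold OM.tr
          rw [if_neg hk1, if_pos hk2]
        have h5 : M.ask C (M.fw u v k) (M.fw u v (k + 1)) = 0 := by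
          by_contra h6
          have := (DC_ask M h6).2.1
          omega
        have h6 : M.ask C (M.op (M.fw u v k) (M.fw u v (k + 1))) (M.fw u v (k + 1)) = 0 := by
          by_contra h7
          have h8 : M.fl (M.fw u v (k + 1)) (M.fw u v k) = 3 := (M.ask_ne C hk h7).2.2.1
          have h9 := E.fl_other M hk h8
          omega
        rw [h4, h5, h6]
        norm_num
      have h2 := Finset.sum_le_sum h1
      rw [Finset.sum_const, Finset.card_range, h3] at h2
      rw [h3]
      refine le_trans ?_ h2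
      norm_num
    · have h1 := hface u v huv hi h3
      have h2 : ∀ k, M.tr C i0 (M.fw u v k) (M.fw u v (k + 1)) =
          M.wt C (M.fw u v k) (M.fw u v (k + 1)) - 2 := by
        intro k
        have hk1 : M.lf (M.fw u v k) (M.fw u v (k + 1)) ≠ i0 := by
          rw [M.lf_fw huv k]
          exact hi
        have hk2 : M.fl (M.fw u v k) (M.fw u v (k + 1)) ≠ 3 := by
          rw [M.fl_fw huv k]
          exact h3
        unfold OM.tr
        rw [if_neg hk1, if_neg hk2]
      have h4 : ∑ k ∈ range (M.fl u v), (M.tr C i0 (M.fw u v k) (M.fw u v (k + 1)) +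
          (M.ask C (M.fw u v k) (M.fw u v (k + 1)) -
            M.ask C (M.op (M.fw u v k) (M.fw u v (k + 1))) (M.fw u v (k + 1)))) =
          ∑ k ∈ range (M.fl u v), (M.wt C (M.fw u v k) (M.fw u v (k + 1)) +
        M.ask C (M.fw u v k) (M.fw u v (k + 1)) -
        M.ask C (M.op (M.fw u v k) (M.fw u v (k + 1))) (M.fw u v (k + 1))) -
          2 * (M.fl u v : ℤ) := by
        have h5 : (2 : ℤ) * (M.fl u v : ℤ) = ∑ _k ∈ range (M.fl u v), (2 : ℤ) := by
          rw [Finset.sum_const, Finset.card_range, nsmul_eq_mul, mul_comm]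
        rw [h5, ← Finset.sum_sub_distrib]
        refine Finset.sum_congr rfl fun k _ => ?_
        rw [h2]
        ring
      rw [h4]
      linarith

theorem Env.discharge
    (hface : ∀ u v, G.Adj u v → M.lf u v ≠ i0 → M.fl u v ≠ 3 → 12 - (M.fl u v : ℤ) ≤
      ∑ k ∈ range (M.fl u v), (M.wt C (M.fw u v k) (M.fw u v (k + 1)) +
        M.ask C (M.fw u v k) (M.fw u v (k + 1)) -
        M.ask C (M.op (M.fw u v k) (M.fw u v (k + 1))) (M.fw u v (k + 1)))) : False := by
  -- faces
  have hF := Finset.sum_le_sum (fun i (_ : i ∈ (univ : Finset ι)) => DC_face E M hface i)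
  rw [Finset.sum_fiberwise (univ.filter (fun d : V × V => G.Adj d.1 d.2))
    (fun d : V × V => M.lf d.1 d.2) (fun d : V × V =>
      (M.tr C i0 d.1 d.2 + (M.ask C d.1 d.2 - M.ask C (M.op d.1 d.2) d.2))),
    DC_darts (G := G) (fun p y => M.tr C i0 p y + (M.ask C p y - M.ask C (M.op p y) y))] at hF
  -- vertices
  have hV : ∀ y ∈ (univ : Finset V), ∑ p ∈ univ.filter (fun p => G.Adj p y),
      (M.tr C i0 p y + (M.ask C p y - M.ask C (M.op p y) y)) ≤
      3 * (dgr G y : ℤ) - (if ∃ u, G.Adj y u then 12 else 0) + (if y ∈ C then 4 else 0) := by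
    intro y _
    rw [Finset.sum_add_distrib, M.sum_ask y (fun p => M.ask C p y), add_zero]
    by_cases hn : ∃ u, G.Adj y u
    · rw [if_pos hn]
      by_cases hC : y ∈ C
      · rw [if_pos hC]
        have := E.vertex_outer M y hC
        linarith
      · rw [if_neg hC]
        have := E.vertex_inner M y hC hn
        linarith
    · rw [if_neg hn]
      have h1 : univ.filter (fun p => G.Adj p y) = ∅ := by
        rw [Finset.filter_eq_empty_iff]
        intro p _ hp
        exact hn ⟨p, hp.symm⟩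
      rw [h1, Finset.sum_empty]
      have h2 : (0 : ℤ) ≤ (dgr G y : ℤ) := Int.natCast_nonneg _
      split_ifs <;> linarith
  have hV2 := Finset.sum_le_sum hV
  have hall := hF.trans hV2
  -- evaluate the sums
  have s1 : ∑ y : V, (3 * (dgr G y : ℤ) - (if ∃ u, G.Adj y u then 12 else 0) +
      (if y ∈ C then 4 else 0)) = 6 * (G.edgeSet.ncard : ℤ) -
        12 * ({v : V | ∃ u, G.Adj v u}.ncard : ℤ) + 4 * (C.card : ℤ) := by
    rw [Finset.sum_add_distrib, Finset.sum_sub_distrib, ← Finset.mul_sum, DC_vs,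
      ← Finset.sum_filter, ← Finset.sum_filter, Finset.sum_const, Finset.sum_const,
      Finset.filter_mem_eq_inter, Finset.univ_inter]
    have h4 : {v : V | ∃ u, G.Adj v u}.ncard = (univ.filter (fun v => ∃ u, G.Adj v u)).card := by
      rw [← Set.ncard_coe_finset]
      congr 1
      ext v
      simp
    rw [h4, nsmul_eq_mul, nsmul_eq_mul]
    ring
  have s2 : ∑ i : ι, (if i = i0 then (0 : ℤ) else 12 - 3 * (len (F i) : ℤ)) =
      12 * (Fintype.card ι : ℤ) - 12 - 6 * (G.edgeSet.ncard : ℤ) + 3 * (len (F i0) : ℤ) := by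
    have h1 : ∀ i : ι, (if i = i0 then (0 : ℤ) else 12 - 3 * (len (F i) : ℤ)) =
        (12 - 3 * (len (F i) : ℤ)) - (if i = i0 then 12 - 3 * (len (F i0) : ℤ) else 0) := by
      intro i
      by_cases h2 : i = i0
      · rw [if_pos h2, if_pos h2, h2, sub_self]
      · rw [if_neg h2, if_neg h2, sub_zero]
    rw [Finset.sum_congr rfl fun i _ => h1 i, Finset.sum_sub_distrib, Finset.sum_sub_distrib,
      ← Finset.mul_sum, DC_len E.fs, Finset.sum_const, Finset.card_univ, nsmul_eq_mul,
      Finset.sum_ite_eq' univ i0, if_pos (Finset.mem_univ i0)]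
    ring
  rw [s1, s2] at hall
  -- the outer face
  have h5 : len (F i0) = m := by
    unfold len
    rw [E.outer]
    exact cvec_card E.hx
  have h3m := E.hx.three
  have : NeZero m := ⟨by omega⟩
  have h6 : C.card ≤ m := by
    have h7 : C ⊆ univ.image x := by
      intro v hv
      obtain ⟨j, hj⟩ := (E.hC v).1 hv
      exact Finset.mem_image.2 ⟨j, Finset.mem_univ _, hj⟩
    refine (Finset.card_le_card h7).trans (Finset.card_image_le.trans ?_)
    rw [Finset.card_univ, ZMod.card]
  obtain ⟨v0, -, w0, hvw⟩ := E.inner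
  have h8 := E.fs.count ⟨s(v0, w0), hvw⟩
  have h9 := E.hm
  rw [h5] at hall
  have h10 : (G.edgeSet.ncard : ℤ) + 2 ≤ (Fintype.card ι : ℤ) +
    ({v : V | ∃ u, G.Adj v u}.ncard : ℤ) := by exact_mod_cast h8
  have h11 : (C.card : ℤ) ≤ (m : ℤ) := by exact_mod_cast h6
  have h12 : (m : ℤ) ≤ 11 := by exact_mod_cast h9
  linarith

end Pool.Agent.W_fb73a4_t7
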