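import Pool.Agent.W_fb73a4_t7.DC

/-!
[T7] DD: the letters of the corners of a big inner face.
-/

set_option autoImplicit false

namespace Pool.Agent.W_fb73a4_t7

open Finset MvPolynomial
open scoped Classical
open Pool.Agent.W_fb73a4_h20

variable {V : Type} [Fintype V] {G : SimpleGraph V} {ι : Type} [Fintype ι] {F : ι → EV V}
  {i0 : ι} {m : ℕ} {x : ZMod m → V} {C : Finset V} (E : Env G ι F i0 m x C) (M : OM G F)
include E

/-- two edges of the outer cycle at every vertex of `C` -/
theorem Env.two_outer {y : V} (hy : y ∈ C) :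
    (univ.filter (fun u => F i0 s(y, u) ≠ 0)).card = 2 :=
  E.fs.two_at E.sep ((E.outer_on y).2 hy)

private theorem DD_adj {u v : V} (h : F i0 s(u, v) ≠ 0) : G.Adj u v := by
  by_contra hn
  exact h ((E.fs.cyc i0).1 _ hn)

private theorem DD_in {u v : V} (h : F i0 s(u, v) ≠ 0) : u ∈ C ∧ v ∈ C := by
  refine ⟨(E.outer_on u).1 ⟨v, h⟩, (E.outer_on v).1 ⟨u, ?_⟩⟩
  rw [Sym2.eq_swap]
  exact h

omit E [Fintype ι] in
private theorem DD_dgr (y : V) : dgr G y = (univ.filter (fun u => G.Adj y u)).card := by
  unfold dgr
  rw [← Set.ncard_coe_finset]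
  congr 1
  ext u
  simp

/-- at least `2 + card S` neighbours -/
private theorem DD_deg {y : V} (hy : y ∈ C) (S : Finset V)
    (hS : ∀ u ∈ S, G.Adj y u ∧ F i0 s(y, u) = 0) : 2 + S.card ≤ dgr G y := by
  rw [DD_dgr, ← E.two_outer hy, ← Finset.card_union_of_disjoint]
  · refine Finset.card_le_card fun u hu => ?_
    rw [Finset.mem_union, Finset.mem_filter] at hu
    rw [Finset.mem_filter]
    refine ⟨Finset.mem_univ _, ?_⟩
    rcases hu with hu | hu
    · exact DD_adj E hu.2
    · exact (hS u hu).1
  · rw [Finset.disjoint_left]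
    intro u hu hu'
    rw [Finset.mem_filter] at hu
    exact hu.2 (hS u hu').2

omit E in
private theorem DD_ask0 (M : OM G F) {p y : V} (h : G.Adj p y)
    (hV : ¬ (y ∉ C ∧ dgr G y = 4 ∧ M.fl y p = 3 ∧ M.fl (M.s p y) y = 3)) :
    M.ask C (M.op p y) y = 0 := by
  by_contra ha
  exact hV (M.ask_ne C h ha)

/-- every corner of an inner face which is not a triangle has a letter. Inner vertex: degree 3: exactly
one edge of the corner in a triangle (`T1`, `T2`) or none (`N` = `Z`), both impossible (`Env.fl_other`);
degree 4: both: `V`, `M`, `L`, `R` (by the opposite face), one: `B1`, `B2`, none: `N` (= `Y`) or `O`;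
degree at least 5: `W`, `B1`, `B2`, `O`. Vertex of `C`: by the number of edges of the corner in the outer
cycle (two: `C0`; one: degree at least 3; none: degree at least 4). Edges at inner vertices have `et` 0
or 1; `fl y p = 3` for an edge of the outer cycle is possible, but then `et` is 2. `ask (op p y) y` is 0
unless `y` is a `V` (`OM.ask_ne`). -/
theorem Env.classify {p y : V} (h : G.Adj p y) (h0 : M.lf p y ≠ i0) (h3 : M.fl p y ≠ 3) :
    ∃ ℓ : Lc, M.Lh C i0 p y ℓ := by
  have hn : G.Adj y (M.s p y) := M.adj p y h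
  have hpn : M.s p y ≠ p := M.ne p y h
  by_cases hy : y ∈ C
  · -- vertex of the outer cycle
    have hask : M.ask C (M.op p y) y = 0 := DD_ask0 M h (fun hh => hh.1 hy)
    have hwt : M.wt C p y = (if dgr G y ≤ 2 then 0 else if dgr G y = 3 then 2 else 3) := by
      unfold OM.wt
      rw [if_pos hy]
    by_cases ha : F i0 s(p, y) ≠ 0
    · have hea : M.et i0 p y = 2 := if_pos ha
      by_cases hb : F i0 s(y, M.s p y) ≠ 0
      · have heb : M.et i0 y (M.s p y) = 2 := if_pos hb
        refine ⟨.C0, hea, heb, ?_, trivial⟩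
        rw [hask, hwt]
        simp only [Lc.w]
        split_ifs <;> norm_num
      · push Not at hb
        have hd : 2 + ({M.s p y} : Finset V).card ≤ dgr G y := by
          refine DD_deg E hy _ fun u hu => ?_
          rw [Finset.mem_singleton] at hu
          subst hu
          exact ⟨hn, hb⟩
        rw [Finset.card_singleton] at hd
        have heb : M.et i0 y (M.s p y) = (decide (M.fl (M.s p y) y = 3)).toNat := by
          unfold OM.et
          rw [if_neg (by rw [hb]; exact fun h => h rfl)]
          by_cases hf : M.fl (M.s p y) y = 3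
          · rw [if_pos hf, decide_eq_true hf]; rfl
          · rw [if_neg hf, decide_eq_false hf]; rfl
        by_cases hd3 : dgr G y = 3
        · refine ⟨.E1 (decide (M.fl (M.s p y) y = 3)), hea, heb, ?_, hy, hd3⟩
          rw [hask, hwt, if_neg (by omega), if_pos hd3]
          simp [Lc.w]
        · refine ⟨.F1 (decide (M.fl (M.s p y) y = 3)), hea, heb, ?_, trivial⟩
          rw [hask, hwt, if_neg (by omega), if_neg hd3]
          simp [Lc.w]
    · push Not at ha
      have ha' : F i0 s(y, p) = 0 := by rw [Sym2.eq_swap]; exact ha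
      have hea : M.et i0 p y = (decide (M.fl y p = 3)).toNat := by
        unfold OM.et
        rw [if_neg (by rw [ha]; exact fun h => h rfl)]
        by_cases hf : M.fl y p = 3
        · rw [if_pos hf, decide_eq_true hf]; rfl
        · rw [if_neg hf, decide_eq_false hf]; rfl
      by_cases hb : F i0 s(y, M.s p y) ≠ 0
      · have heb : M.et i0 y (M.s p y) = 2 := if_pos hb
        have hd : 2 + ({p} : Finset V).card ≤ dgr G y := by
          refine DD_deg E hy _ fun u hu => ?_
          rw [Finset.mem_singleton] at hu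
          subst hu
          exact ⟨h.symm, ha'⟩
        rw [Finset.card_singleton] at hd
        by_cases hd3 : dgr G y = 3
        · refine ⟨.E2 (decide (M.fl y p = 3)), hea, heb, ?_, hy, hd3⟩
          rw [hask, hwt, if_neg (by omega), if_pos hd3]
          simp [Lc.w]
        · refine ⟨.F2 (decide (M.fl y p = 3)), hea, heb, ?_, trivial⟩
          rw [hask, hwt, if_neg (by omega), if_neg hd3]
          simp [Lc.w]
      · push Not at hb
        have heb : M.et i0 y (M.s p y) = (decide (M.fl (M.s p y) y = 3)).toNat := by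
          unfold OM.et
          rw [if_neg (by rw [hb]; exact fun h => h rfl)]
          by_cases hf : M.fl (M.s p y) y = 3
          · rw [if_pos hf, decide_eq_true hf]; rfl
          · rw [if_neg hf, decide_eq_false hf]; rfl
        have hd : 2 + ({p, M.s p y} : Finset V).card ≤ dgr G y := by
          refine DD_deg E hy _ fun u hu => ?_
          rw [Finset.mem_insert, Finset.mem_singleton] at hu
          rcases hu with rfl | rfl
          · exact ⟨h.symm, ha'⟩
          · exact ⟨hn, hb⟩
        rw [Finset.card_pair hpn.symm] at hd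
        refine ⟨.I (decide (M.fl y p = 3)) (decide (M.fl (M.s p y) y = 3)), hea, heb, ?_,
          trivial⟩
        rw [hask, hwt, if_neg (by omega), if_neg (by omega)]
        simp [Lc.w]
  · -- inner vertex
    have hd := E.deg3 y hy ⟨p, h.symm⟩
    have hea : M.et i0 p y = if M.fl y p = 3 then 1 else 0 := by
      unfold OM.et
      rw [if_neg]
      intro hh
      exact hy (DD_in E hh).2
    have heb : M.et i0 y (M.s p y) = if M.fl (M.s p y) y = 3 then 1 else 0 := by
      unfold OM.et
      rw [if_neg]
      intro hh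
      exact hy (DD_in E hh).1
    have hwt : M.wt C p y = (if dgr G y = 3 then
          (if M.fl y p = 3 ∨ M.fl (M.s p y) y = 3 then 0 else 1)
        else if dgr G y = 4 then
          (if M.fl y p = 3 ∧ M.fl (M.s p y) y = 3 then 1
            else if M.fl y p ≠ 3 ∧ M.fl (M.s p y) y ≠ 3 ∧ M.fl (M.op p y) y = 3 then 1 else 2)
        else (if M.fl y p = 3 ∧ M.fl (M.s p y) y = 3 then 3 else 2)) := by
      unfold OM.wt
      rw [if_neg hy]
    by_cases hp3 : M.fl y p = 3
    · rw [if_pos hp3] at hea
      by_cases hn3 : M.fl (M.s p y) y = 3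
      · rw [if_pos hn3] at heb
        by_cases h3' : dgr G y = 3
        · -- impossible
          exfalso
          obtain ⟨t1, -, -, -, -⟩ := M.three_nbrs h h3'
          have hq : G.Adj (M.s (M.s p y) y) y := (M.adj (M.s p y) y hn.symm).symm
          have h5 := M.fl_s hq
          rw [t1, hp3] at h5
          have h6 := M.fl_s hn.symm
          rw [hn3] at h6
          have h7 := E.fl_other M hq h6
          omega
        · by_cases h4 : dgr G y = 4
          · have hV : M.hx C p y .V := ⟨hy, h4, hp3, hn3⟩
            rw [if_neg h3', if_pos h4, if_pos ⟨hp3, hn3⟩] at hwt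
            by_cases hM : M.Word C (M.op p y) y wM
            · refine ⟨.M, hea, heb, ?_, hV, hM⟩
              rw [hwt]
              unfold OM.ask
              rw [if_pos hM]
              simp [Lc.w]
            · by_cases hL : M.Word C (M.op p y) y wL
              · refine ⟨.L, hea, heb, ?_, hV, hL⟩
                rw [hwt]
                unfold OM.ask
                rw [if_neg hM, if_pos (Or.inl hL)]
                simp [Lc.w]
              · by_cases hR : M.Word C (M.op p y) y wR
                · refine ⟨.R, hea, heb, ?_, hV, hR⟩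
                  rw [hwt]
                  unfold OM.ask
                  rw [if_neg hM, if_pos (Or.inr hR)]
                  simp [Lc.w]
                · refine ⟨.V, hea, heb, ?_, hV⟩
                  rw [hwt]
                  unfold OM.ask
                  rw [if_neg hM, if_neg (by rintro (hh | hh); exacts [hL hh, hR hh])]
                  simp [Lc.w]
          · have hask : M.ask C (M.op p y) y = 0 := DD_ask0 M h (fun hh => h4 hh.2.1)
            refine ⟨.W, hea, heb, ?_, trivial⟩
            rw [hask, hwt, if_neg h3', if_neg h4, if_pos ⟨hp3, hn3⟩]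
            simp [Lc.w]
      · rw [if_neg hn3] at heb
        have hask : M.ask C (M.op p y) y = 0 := DD_ask0 M h (fun hh => hn3 hh.2.2.2)
        by_cases h3' : dgr G y = 3
        · refine ⟨.T1, hea, heb, ?_, hy, h3', hp3⟩
          rw [hask, hwt, if_pos h3', if_pos (Or.inl hp3)]
          simp [Lc.w]
        · refine ⟨.B1, hea, heb, ?_, trivial⟩
          rw [hask, hwt, if_neg h3']
          have c1 : ¬ (M.fl y p = 3 ∧ M.fl (M.s p y) y = 3) := fun hh => hn3 hh.2
          have c2 : ¬ (M.fl y p ≠ 3 ∧ M.fl (M.s p y) y ≠ 3 ∧ M.fl (M.op p y) y = 3) :=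
            fun hh => hh.1 hp3
          rw [if_neg c1, if_neg c2, if_neg c1]
          simp [Lc.w]
    · rw [if_neg hp3] at hea
      have hask : M.ask C (M.op p y) y = 0 := DD_ask0 M h (fun hh => hp3 hh.2.2.1)
      have c1 : ¬ (M.fl y p = 3 ∧ M.fl (M.s p y) y = 3) := fun hh => hp3 hh.1
      by_cases hn3 : M.fl (M.s p y) y = 3
      · rw [if_pos hn3] at heb
        by_cases h3' : dgr G y = 3
        · refine ⟨.T2, hea, heb, ?_, hy, h3', hn3⟩
          rw [hask, hwt, if_pos h3', if_pos (Or.inr hn3)]
          simp [Lc.w]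
        · refine ⟨.B2, hea, heb, ?_, trivial⟩
          rw [hask, hwt, if_neg h3']
          have c2 : ¬ (M.fl y p ≠ 3 ∧ M.fl (M.s p y) y ≠ 3 ∧ M.fl (M.op p y) y = 3) :=
            fun hh => hh.2.1 hn3
          rw [if_neg c1, if_neg c2, if_neg c1]
          simp [Lc.w]
      · rw [if_neg hn3] at heb
        by_cases h3' : dgr G y = 3
        · refine ⟨.N, hea, heb, ?_, Or.inl ⟨hy, h3', hp3, hn3⟩⟩
          rw [hask, hwt, if_pos h3', if_neg (by rintro (hh | hh); exacts [hp3 hh, hn3 hh])]
          simp [Lc.w]
        · by_cases h4 : dgr G y = 4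
          · by_cases ho : M.fl (M.op p y) y = 3
            · refine ⟨.N, hea, heb, ?_, Or.inr ⟨hy, h4, hp3, hn3, ho⟩⟩
              rw [hask, hwt, if_neg h3', if_pos h4, if_neg c1, if_pos ⟨hp3, hn3, ho⟩]
              simp [Lc.w]
            · refine ⟨.O, hea, heb, ?_, trivial⟩
              rw [hask, hwt, if_neg h3', if_pos h4, if_neg c1, if_neg (fun hh => ho hh.2.2)]
              simp [Lc.w]
          · refine ⟨.O, hea, heb, ?_, trivial⟩
            rw [hask, hwt, if_neg h3', if_neg h4, if_neg c1]
            simp [Lc.w]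

omit E [Fintype ι] in
/-- the data of an asked vertex: `y` is an inner 4-vertex with triangles at both edges of the corner,
the opposite neighbours are 3-vertices -/
private theorem DD_asked (M : OM G F) {p y : V} (ha : M.Asked C p y) :
    (y ∉ C ∧ dgr G y = 4 ∧ M.fl y p = 3 ∧ M.fl (M.s p y) y = 3) ∧
      M.op p y ∉ C ∧ M.s (M.op p y) y ∉ C ∧ M.fl (M.s (M.op p y) y) y = 3 := by
  have key : ∀ w : List Lt, w = wM ∨ w = wL ∨ w = wR → M.Word C (M.op p y) y w →
      M.op p y ∉ C ∧ M.s (M.op p y) y ∉ C ∧ M.fl (M.s (M.op p y) y) y = 3 := by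
    intro w hw hW
    have hlen : w.length = 8 := by
      rcases hw with rfl | rfl | rfl <;> rfl
    have h1 : w.getD 1 .A = .T1 := by
      rcases hw with rfl | rfl | rfl <;> rfl
    have h7 : w.getD 7 .A = .T2 := by
      rcases hw with rfl | rfl | rfl <;> rfl
    obtain ⟨hadj, hfl, hk⟩ := hW
    rw [hlen] at hfl hk
    have e1 := hk 1 (by omega)
    have e7 := hk 7 (by omega)
    rw [h1] at e1
    rw [h7] at e7
    have h8 : M.fw (M.op p y) y 8 = M.op p y := by
      have := M.fw_period hadj 0
      rw [hfl] at this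
      exact this
    refine ⟨?_, e1.1, e1.2.2⟩
    have h9 := e7.1
    rw [h8] at h9
    exact h9
  rcases ha with ha | ha | ha
  · exact ⟨ha.1, key _ (Or.inl rfl) ha.2⟩
  · exact ⟨ha.1, key _ (Or.inr (Or.inl rfl)) ha.2⟩
  · exact ⟨ha.1, key _ (Or.inr (Or.inr rfl)) ha.2⟩

/-- an asked vertex `y` and the next vertex `n` of the face: if `n ∈ C` then `n` has degree at least 4
(two edges of the outer cycle, `y`, and the last vertex of the poor word, a 3-vertex adjacent to `n`) -/
theorem Env.asked_next {p y : V} (h : G.Adj p y) (ha : M.Asked C p y) (hn : M.s p y ∈ C) :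
    4 ≤ dgr G (M.s p y) := by
  obtain ⟨⟨hy, h4, hp3, hn3⟩, hop, hr, hr3⟩ := DD_asked M ha
  have hadj : G.Adj y (M.s p y) := M.adj p y h
  obtain ⟨t1, t2, t3⟩ := M.tri_close hadj.symm hn3
  have hyq : G.Adj y (M.op p y) := M.adj (M.s p y) y hadj.symm
  have hd : 2 + ({y, M.op p y} : Finset V).card ≤ dgr G (M.s p y) := by
    refine DD_deg E hn _ fun u hu => ?_
    rw [Finset.mem_insert, Finset.mem_singleton] at hu
    rcases hu with rfl | rfl
    · refine ⟨hadj.symm, ?_⟩
      by_contra hh
      exact hy (DD_in E hh).2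
    · refine ⟨t3.symm, ?_⟩
      by_contra hh
      exact hop (DD_in E hh).2
  rw [Finset.card_pair hyq.ne] at hd
  omega

/-- an asked vertex `y` and the previous vertex `p` of the face (the first vertex after `V` in the poor
word is a 3-vertex adjacent to `p`) -/
theorem Env.asked_prev {p y : V} (h : G.Adj p y) (ha : M.Asked C p y) (hp : p ∈ C) :
    4 ≤ dgr G p := by
  obtain ⟨⟨hy, h4, hp3, hn3⟩, hop, hr, hr3⟩ := DD_asked M ha
  obtain ⟨f1, -⟩ := M.four_nbrs h h4
  have hadj : G.Adj y (M.s p y) := M.adj p y h
  have hyq : G.Adj y (M.op p y) := M.adj (M.s p y) y hadj.symm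
  have hyr : G.Adj y (M.s (M.op p y) y) := M.adj (M.op p y) y hyq.symm
  obtain ⟨t1, t2, t3⟩ := M.tri_close hyr.symm hr3
  have f2 : M.s (M.s (M.op p y) y) y = p := f1
  rw [f2] at t1 t2 t3
  have hd : 2 + ({y, M.s (M.op p y) y} : Finset V).card ≤ dgr G p := by
    refine DD_deg E hp _ fun u hu => ?_
    rw [Finset.mem_insert, Finset.mem_singleton] at hu
    rcases hu with rfl | rfl
    · refine ⟨h, ?_⟩
      by_contra hh
      exact hy (DD_in E hh).2
    · refine ⟨t3, ?_⟩
      by_contra hh
      exact hr (DD_in E hh).2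
  rw [Finset.card_pair hyr.ne] at hd
  omega

end Pool.Agent.W_fb73a4_t7
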