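import Pool.Agent.W_fb73a4_t7.WN0

/-!
[T7] WN8B: the check of the words of length 8, by first letter, part B.
-/

set_option autoImplicit false

namespace Pool.Agent.W_fb73a4_t7

theorem WN8_4 : WN_srch (fun _ => true) WN_leaf8 7 [.V] 3 = true := by decide +kernel
theorem WN8_5 : WN_srch (fun _ => true) WN_leaf8 7 [.M] 5 = true := by decide +kernel

end Pool.Agent.W_fb73a4_t7
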