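import Pool.Agent.W_fb73a4_t7.WN0

/-!
[T7] WN8C: the check of the words of length 8, by first letter, part C.
-/

set_option autoImplicit false

namespace Pool.Agent.W_fb73a4_t7

theorem WN8_6 : WN_srch (fun _ => true) WN_leaf8 7 [.L] 4 = true := by decide +kernel
theorem WN8_7 : WN_srch (fun _ => true) WN_leaf8 7 [.R] 4 = true := by decide +kernel
theorem WN8_8 : WN_srch (fun _ => true) WN_leaf8 7 [.B1] 2 = true := by decide +kernel
theorem WN8_9 : WN_srch (fun _ => true) WN_leaf8 7 [.B2] 2 = true := by decide +kernel
theorem WN8_10 : WN_srch (fun _ => true) WN_leaf8 7 [.W] 1 = true := by decide +kernel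
theorem WN8_11 : WN_srch (fun _ => true) WN_leaf8 7 [.I false false] 1 = true := by decide +kernel
theorem WN8_12 : WN_srch (fun _ => true) WN_leaf8 7 [.I false true] 1 = true := by decide +kernel
theorem WN8_13 : WN_srch (fun _ => true) WN_leaf8 7 [.I true false] 1 = true := by decide +kernel
theorem WN8_14 : WN_srch (fun _ => true) WN_leaf8 7 [.I true true] 1 = true := by decide +kernel
theorem WN8_15 : WN_srch (fun _ => true) WN_leaf8 7 [.E1 false] 2 = true := by decide +kernel
theorem WN8_16 : WN_srch (fun _ => true) WN_leaf8 7 [.E1 true] 2 = true := by decide +kernel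
theorem WN8_17 : WN_srch (fun _ => true) WN_leaf8 7 [.E2 false] 2 = true := by decide +kernel
theorem WN8_18 : WN_srch (fun _ => true) WN_leaf8 7 [.E2 true] 2 = true := by decide +kernel
theorem WN8_19 : WN_srch (fun _ => true) WN_leaf8 7 [.F1 false] 1 = true := by decide +kernel
theorem WN8_20 : WN_srch (fun _ => true) WN_leaf8 7 [.F1 true] 1 = true := by decide +kernel
theorem WN8_21 : WN_srch (fun _ => true) WN_leaf8 7 [.F2 false] 1 = true := by decide +kernel
theorem WN8_22 : WN_srch (fun _ => true) WN_leaf8 7 [.F2 true] 1 = true := by decide +kernel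
theorem WN8_23 : WN_srch (fun _ => true) WN_leaf8 7 [.C0] 4 = true := by decide +kernel

end Pool.Agent.W_fb73a4_t7
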