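import Pool.Agent.W_fb73a4_t7.WN8A
import Pool.Agent.W_fb73a4_t7.WN8B
import Pool.Agent.W_fb73a4_t7.WN8C

/-!
[T7] WN: enumeration of the words (finite check by a search with pruning, `decide +kernel`), see `WN0`.
The check for length 8 is split by the first letter (`WN8A`, `WN8B`, `WN8C`).
-/

set_option autoImplicit false

namespace Pool.Agent.W_fb73a4_t7

theorem WN_check8 : WN_srch (fun _ => true) WN_leaf8 8 [] 4 = true := by
  have h : ∀ b ∈ WN_all, WN_srch (fun _ => true) WN_leaf8 7 [b] (4 + 1 - WN_w b) = true := by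
    intro b hb
    simp only [WN_all, List.mem_cons, List.not_mem_nil, or_false] at hb
    rcases hb with rfl | rfl | rfl | rfl | rfl | rfl | rfl | rfl | rfl | rfl | rfl | rfl | rfl | rfl | rfl | rfl | rfl | rfl | rfl | rfl | rfl | rfl | rfl | rfl
    · exact WN8_0
    · exact WN8_1
    · exact WN8_2
    · exact WN8_3
    · exact WN8_4
    · exact WN8_5
    · exact WN8_6
    · exact WN8_7
    · exact WN8_8
    · exact WN8_9
    · exact WN8_10
    · exact WN8_11
    · exact WN8_12
    · exact WN8_13
    · exact WN8_14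
    · exact WN8_15
    · exact WN8_16
    · exact WN8_17
    · exact WN8_18
    · exact WN8_19
    · exact WN8_20
    · exact WN8_21
    · exact WN8_22
    · exact WN8_23
  unfold WN_srch
  rw [List.all_eq_true]
  intro b hb
  rw [h b hb]
  simp

theorem WN_check9 : WN_srch (fun l => !l.asked) WN_leaf 9 [] 2 = true := by decide +kernel

theorem WN_check10 : WN_srch (fun l => !l.asked) WN_leaf 10 [] 1 = true := by decide +kernel

theorem WN_check11 : WN_srch (fun l => !l.asked) WN_leaf 11 [] 0 = true := by decide +kernel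

theorem enum8 (w : List Lc) (hl : w.length = 8) (h : okWord w = true)
    (hs : (w.map Lc.w).sum < 4) : badLc w = true ∨ poorLc w = true := by
  obtain ⟨r, hr, hf⟩ := WN_sound (fun _ => true) WN_leaf8 (-1)
    (fun q p _ hV => (WN_suffix q p hV).1) w [] 4 (fun _ _ => rfl) (WN_Vc_of h)
    (by push_cast; linarith) (by rw [hl]; exact WN_check8)
  have hr0 : r ≠ 0 := by
    intro e
    rw [e] at hr
    push_cast at hr
    linarith
  match w, hl with
  | [x0, x1, x2, x3, x4, x5, x6, x7], _ =>
    have hf' : (Nat.beq r 0 || (!(okPair x7 x0) || (!(okWord [x0, x1, x2, x3, x4, x5, x6, x7]) ||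
      (badLc [x0, x1, x2, x3, x4, x5, x6, x7] || poorLc [x0, x1, x2, x3, x4, x5, x6, x7])))) =
      true := hf
    have h7 : okPair x7 x0 = true := by
      unfold okWord at h
      rw [Bool.and_eq_true, List.all_eq_true] at h
      have h1 := h.1 7 (List.mem_range.2 (by show 7 < 8; omega))
      rw [Bool.and_eq_true] at h1
      have e7 : cl [x0, x1, x2, x3, x4, x5, x6, x7] 7 = x7 := by simp [cl]
      have e8 : cl [x0, x1, x2, x3, x4, x5, x6, x7] (7 + 1) = x0 := by simp [cl]
      rw [e7, e8] at h1
      exact h1.1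
    have hb : Nat.beq r 0 = false := by
      rw [← Bool.not_eq_true, Nat.beq_eq]
      exact hr0
    rw [hb, h7, h] at hf'
    simpa using hf'

theorem WN_noask (n : ℕ) (thr : ℕ) (hc : WN_srch (fun l => !l.asked) WN_leaf n [] thr = true)
    (w : List Lc) (hl : w.length = n) (h : okWord w = true) (ha : ∀ l ∈ w, l.asked = false) :
    (thr : ℤ) + 1 ≤ (w.map Lc.w).sum := by
  by_contra hcon
  obtain ⟨r, _, hf⟩ := WN_sound (fun l => !l.asked) WN_leaf 0
    (fun q p hq _ => WN_suffix0 q fun l hl => by simpa using hq l hl) w [] thr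
    (fun l hl => by simpa using ha l hl) (WN_Vc_of h) (by linarith [Int.not_le.1 hcon])
    (by rw [hl]; exact hc)
  unfold WN_leaf at hf
  rw [List.append_nil, List.reverse_reverse, h] at hf
  exact absurd hf (by decide)

/-- no asked letters -/
theorem enum9 (w : List Lc) (hl : w.length = 9) (h : okWord w = true)
    (ha : ∀ l ∈ w, l.asked = false) : 3 ≤ (w.map Lc.w).sum :=
  WN_noask 9 2 WN_check9 w hl h ha

theorem enum10 (w : List Lc) (hl : w.length = 10) (h : okWord w = true)
    (ha : ∀ l ∈ w, l.asked = false) : 2 ≤ (w.map Lc.w).sum :=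
  WN_noask 10 1 WN_check10 w hl h ha

theorem enum11 (w : List Lc) (hl : w.length = 11) (h : okWord w = true)
    (ha : ∀ l ∈ w, l.asked = false) : 1 ≤ (w.map Lc.w).sum :=
  WN_noask 11 0 WN_check11 w hl h ha

/-- the check at the leaves for length 7: only two letters are not `C0` -/
def WN_leaf7 (p : List Lc) (_ : ℕ) : Bool :=
  !(okWord p.reverse) || Nat.blt (p.reverse.filter fun l => decide (l ≠ .C0)).length 3

theorem WN_check7 : WN_srch (fun l => decide (l.pf ≠ 1) && decide (l.nf ≠ 1)) WN_leaf7 7 [] 4 = true := by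
  decide +kernel

/-- 7-faces have no edge in a triangle; at least three of the letters are not `C0` (otherwise the seventh edge
is a chord of the outer cycle, and the sum can be 4) -/
theorem enum7 (w : List Lc) (hl : w.length = 7) (h : okWord w = true)
    (ha : ∀ l ∈ w, l.pf ≠ 1 ∧ l.nf ≠ 1)
    (hc : 3 ≤ (w.filter fun l => decide (l ≠ .C0)).length) : 5 ≤ (w.map Lc.w).sum := by
  by_contra hcon
  obtain ⟨r, _, hf⟩ := WN_sound (fun l => decide (l.pf ≠ 1) && decide (l.nf ≠ 1)) WN_leaf7 0
    (fun q p hq _ => WN_suffix0 q fun l hl => by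
      have h1 := hq l hl
      cases l <;> first | rfl | exact absurd h1 (by decide)) w [] 4
    (fun l hl => by simpa using ha l hl) (WN_Vc_of h)
    (by push_cast; linarith [Int.not_le.1 hcon]) (by rw [hl]; exact WN_check7)
  unfold WN_leaf7 at hf
  rw [List.append_nil, List.reverse_reverse, h, Bool.not_true, Bool.false_or, Nat.blt_eq] at hf
  omega

theorem sum_nonneg (w : List Lc) (ha : ∀ l ∈ w, l.asked = false) : 0 ≤ (w.map Lc.w).sum :=
  WN_suffix0 w ha

end Pool.Agent.W_fb73a4_t7
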