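import Pool.Agent.W_fb73a4_t7.DD
import Pool.Agent.W_fb73a4_t7.WN
import Pool.Agent.W_fb73a4_t7.RV

/-!
[T7] DE: every big inner face has enough weight, if all reductions hold (`Good` for the map and the
reversed map).
-/

set_option autoImplicit false

namespace Pool.Agent.W_fb73a4_t7

open Finset MvPolynomial
open scoped Classical
open Pool.Agent.W_fb73a4_h20

variable {V : Type} [Fintype V] {G : SimpleGraph V} {ι : Type} [Fintype ι] {F : ι → EV V}
  {i0 : ι} {m : ℕ} {x : ZMod m → V} {C : Finset V} (E : Env G ι F i0 m x C) (M : OM G F)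

/-- the letters `w` describe the face on the left of `u → v` -/
def OM.Desc (M : OM G F) (C : Finset V) (i0 : ι) (u v : V) (w : List Lc) : Prop :=
  G.Adj u v ∧ M.fl u v = w.length ∧
    ∀ k, M.Lh C i0 (M.fw u v k) (M.fw u v (k + 1)) (cl w k)

omit [Fintype ι] in
private theorem DE_four {M M' : OM G F} (h : RevOf M M') {p y : V} (ha : G.Adj p y)
    (hd : dgr G y = 4) : M'.s p y = M.s (M.s (M.s p y) y) y := by
  have h4 := (M.four_nbrs ha hd).1
  have ha1 : G.Adj (M.s p y) y := (M.adj p y ha).symm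
  have ha2 : G.Adj (M.s (M.s p y) y) y := (M.adj _ y ha1).symm
  have ha3 : G.Adj (M.s (M.s (M.s p y) y) y) y := (M.adj _ y ha2).symm
  have h5 := h.1 _ y ha3
  rw [h4] at h5
  exact h5

private theorem DE_word_iff {M M' : OM G F} (h : RevOf M M') {a y : V} (ha : G.Adj a y)
    {w w' : List Lt} (h1 : (((w.drop 1) ++ (w.take 1)).map Lt.mir).reverse = w')
    (h2 : (((w'.drop 1) ++ (w'.take 1)).map Lt.mir).reverse = w) :
    M'.Word C (M.s a y) y w' ↔ M.Word C a y w := by
  constructor
  · intro hw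
    have h3 := h.symm.word w' hw
    rw [h2, h.1 a y ha] at h3
    exact h3
  · intro hw
    have h3 := h.word w hw
    rw [h1] at h3
    exact h3

private theorem DE_ask {M M' : OM G F} (h : RevOf M M') {a y : V} (ha : G.Adj a y) :
    M'.ask C (M.s a y) y = M.ask C a y := by
  have hM := DE_word_iff (C := C) h ha (w := wM) (w' := wM) rfl rfl
  have hL := DE_word_iff (C := C) h ha (w := wL) (w' := wR) rfl rfl
  have hR := DE_word_iff (C := C) h ha (w := wR) (w' := wL) rfl rfl
  unfold OM.ask
  rw [hM, hL, hR]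
  by_cases h1 : M.Word C a y wM
  · rw [if_pos h1, if_pos h1]
  · rw [if_neg h1, if_neg h1]
    by_cases h2 : M.Word C a y wL ∨ M.Word C a y wR
    · rw [if_pos h2, if_pos h2.symm]
    · rw [if_neg h2, if_neg (fun hh => h2 hh.symm)]

/-- the mirror image of a letter (`C`-letters are exchanged, the weights are the same): for the reversed
map. `wt` is symmetric: `M'.wt C (M.s p y) y = M.wt C p y`; `ask` at the reversed opposite corner is the
same (`RevOf.word` for `wM`, `wL`, `wR` and `OM.Word.rot`). -/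
theorem RevOf.Lh {M M' : OM G F} (h : RevOf M M') {p y : V} (ha : G.Adj p y) {ℓ : Lc}
    (hh : M.Lh C i0 p y ℓ) : M'.Lh C i0 (M.s p y) y ℓ.mir := by
  obtain ⟨h1, h2, h3, h4⟩ := hh
  have ha1 : G.Adj (M.s p y) y := (M.adj p y ha).symm
  have ha2 : G.Adj (M.s (M.s p y) y) y := (M.adj _ y ha1).symm
  have ha3 : G.Adj (M.s (M.s (M.s p y) y) y) y := (M.adj _ y ha2).symm
  have f1 : M'.fl p y = M.fl y p := h.fl ha.symm
  have f2 : M'.fl y (M.s p y) = M.fl (M.s p y) y := h.fl ha1
  have e1 : M'.et i0 (M.s p y) y = M.et i0 y (M.s p y) := by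
    unfold OM.et
    rw [f2, Sym2.eq_swap]
  have e2 : M'.et i0 y p = M.et i0 p y := by
    unfold OM.et
    rw [f1, Sym2.eq_swap]
  have e3 : ℓ.mir.pf = ℓ.nf := by cases ℓ <;> rfl
  have e4 : ℓ.mir.nf = ℓ.pf := by cases ℓ <;> rfl
  have e5 : ℓ.mir.w = ℓ.w := by cases ℓ <;> rfl
  have hs : M'.s (M.s p y) y = p := h.1 p y ha
  have hop : dgr G y = 4 → M'.op (M.s p y) y = M.s (M.op p y) y := by
    intro hd
    unfold OM.op
    rw [hs]
    exact DE_four h ha hd
  have e6 : M'.wt C (M.s p y) y = M.wt C p y := by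
    unfold OM.wt
    rw [hs, f1, f2]
    by_cases hd : dgr G y = 4
    · have h5 : M'.fl (M'.op (M.s p y) y) y = M.fl (M.op p y) y := by
        rw [hop hd]
        have h6 : M'.fl (M.s (M.op p y) y) y = M.fl y (M.s (M.op p y) y) :=
          h.fl (M.adj _ y ha2)
        rw [h6]
        exact M.fl_s ha2
      rw [h5]
      by_cases a1 : M.fl y p = 3 <;> by_cases a2 : M.fl (M.s p y) y = 3 <;>
        by_cases a3 : M.fl (M.op p y) y = 3 <;> simp [a1, a2, a3]
    · simp only [hd, if_false]
      simp only [and_comm, or_comm]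
  have e7 : M'.ask C (M'.op (M.s p y) y) y = M.ask C (M.op p y) y := by
    by_cases hd : dgr G y = 4
    · rw [hop hd]
      exact DE_ask h ha2
    · have h5 : M.ask C (M.op p y) y = 0 := by
        by_contra hn
        exact hd (M.ask_ne C ha hn).2.1
      have h6 : M'.ask C (M'.op (M.s p y) y) y = 0 := by
        by_contra hn
        exact hd (M'.ask_ne C ha1 hn).2.1
      rw [h5, h6]
  refine ⟨?_, ?_, ?_, ?_⟩
  · rw [e1, e3]
    exact h2
  · rw [hs, e2, e4]
    exact h1
  · rw [e5, e6, e7]
    exact h3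
  · cases ℓ with
    | T1 => exact h.hx ha .T1 h4
    | T2 => exact h.hx ha .T2 h4
    | N =>
      rcases h4 with h4 | h4
      · exact Or.inl (h.hx ha .Z h4)
      · exact Or.inr (h.hx ha .Y h4)
    | V => exact h.hx ha .V h4
    | M => exact h.hx ha .M h4
    | L => exact h.hx ha .L h4
    | R => exact h.hx ha .R h4
    | E1 a => exact h4
    | E2 a => exact h4
    | _ => trivial

omit [Fintype ι] in
private theorem DE_match {M : OM G F} {p y : V} {lx : Lx} {ℓ : Lc} (hh : M.Lh C i0 p y ℓ)
    (hz : lx ≠ .Z) (hy : lx ≠ .Y) (hm : lx.matches ℓ = true) : M.hx C p y lx := by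
  obtain ⟨-, -, -, h4⟩ := hh
  cases lx <;> cases ℓ <;> first | exact absurd rfl hz | exact absurd rfl hy | trivial | skip
  all_goals first
    | exact h4
    | exact h4.1
    | exact ⟨h4.1, Or.inl h4.2⟩
    | exact ⟨h4.1, Or.inr (Or.inl h4.2)⟩
    | exact ⟨h4.1, Or.inr (Or.inr h4.2)⟩

/-- a matching pattern (without the letters `Z`, `Y`) gives the word -/
theorem OM.Desc.wordX {M : OM G F} {u v : V} {w : List Lc} (hd : M.Desc C i0 u v w) (pat : List Lx)
    (hzy : ∀ l ∈ pat, l ≠ .Z ∧ l ≠ .Y)
    (hl : pat.length = w.length) (r : ℕ) (hm : matchAt pat w r = true) :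
    M.WordX C (M.fw u v r) (M.fw u v (r + 1)) pat := by
  obtain ⟨ha, hf, hk⟩ := hd
  refine ⟨M.fw_adj ha r, ?_, ?_⟩
  · rw [M.fl_fw ha, hf, hl]
  · intro k hkl
    rw [← M.fw_shift, ← M.fw_shift]
    unfold matchAt at hm
    rw [List.all_eq_true] at hm
    have h1 := hm k (List.mem_range.2 hkl)
    have h2 := hk (r + k)
    have h3 : pat.getD k .A ∈ pat := by
      rw [List.getD_eq_getElem _ _ hkl]
      exact List.getElem_mem hkl
    have h4 := DE_match h2 (hzy _ h3).1 (hzy _ h3).2 h1
    rw [show k + r = r + k by ring, show k + 1 + r = r + k + 1 by ring]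
    exact h4

/-- no bad pattern -/
theorem not_badOne {M : OM G F} (good : Good M C) {u v : V} {w : List Lc} (h8 : w.length = 8)
    (hd : M.Desc C i0 u v w) : badOne w = false := by
  by_contra hn
  rw [Bool.not_eq_false] at hn
  unfold badOne at hn
  rw [List.any_eq_true] at hn
  obtain ⟨r, -, hr⟩ := hn
  rw [Bool.or_eq_true] at hr
  rcases hr with hr | hr
  · unfold matchAt at hr
    rw [List.all_eq_true] at hr
    have h0 := hr 0 (by simp)
    have h1 := hr 1 (by simp)
    have h2 := hr 2 (by simp)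
    have e0 := DE_match (hd.2.2 (r + 0)) (by decide) (by decide) h0
    have e1 := DE_match (hd.2.2 (r + 1)) (by decide) (by decide) h1
    have e2 := DE_match (hd.2.2 (r + 2)) (by decide) (by decide) h2
    refine good.mvm (M.fw u v r) (M.fw u v (r + 1)) (M.fw_adj hd.1 r) e0 ?_ ?_
    · rw [← M.fw_shift, ← M.fw_shift, show 1 + r = r + 1 by ring, show 2 + r = r + 2 by ring]
      exact e1
    · rw [← M.fw_shift, ← M.fw_shift, show 2 + r = r + 2 by ring, show 3 + r = r + 3 by ring]
      have e3 : M.hx C (M.fw u v (r + 2)) (M.fw u v (r + 3)) .Q := e2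
      rcases e3.2 with h3 | h3 | h3
      · exact Or.inl ⟨e3.1, h3⟩
      · exact Or.inr (Or.inl ⟨e3.1, h3⟩)
      · exact Or.inr (Or.inr ⟨e3.1, h3⟩)
  · rw [List.any_eq_true] at hr
    obtain ⟨p, hp, hm⟩ := hr
    have h1 : ∀ q ∈ badWords, q.length = 8 ∧ ∀ l ∈ q, l ≠ .Z ∧ l ≠ .Y := by decide
    exact good.bad _ _ p hp (hd.wordX p (h1 p hp).2 (by rw [(h1 p hp).1, h8]) r hm)

omit [Fintype ι] in
private theorem DE_fw_mul {M : OM G F} {u v : V} (ha : G.Adj u v) (a q : ℕ) :
    M.fw u v (a + M.fl u v * q) = M.fw u v a := by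
  induction q with
  | zero => rw [Nat.mul_zero, Nat.add_zero]
  | succ q ih => rw [Nat.mul_succ, ← Nat.add_assoc, M.fw_period ha, ih]

omit [Fintype ι] in
private theorem DE_fw_mod {M : OM G F} {u v : V} (ha : G.Adj u v) (k j : ℕ) :
    M.fw u v (k % M.fl u v + j) = M.fw u v (k + j) := by
  have h1 : k + j = (k % M.fl u v + j) + M.fl u v * (k / M.fl u v) := by
    have h2 := Nat.mod_add_div k (M.fl u v)
    omega
  rw [h1, DE_fw_mul ha]

omit [Fintype ι] in
private theorem DE_rev_fw {M M' : OM G F} (h : RevOf M M') {u v : V} (ha : G.Adj u v) :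
    ∀ j, j ≤ M.fl u v → M'.fw v u j = M.fw u v (M.fl u v + 1 - j) ∧
      M'.fw v u (j + 1) = M.fw u v (M.fl u v - j) := by
  intro j
  induction j with
  | zero =>
    intro _
    refine ⟨?_, ?_⟩
    · have h1 := M.fw_period ha 1
      rw [Nat.sub_zero, Nat.add_comm (M.fl u v) 1, h1]
      rfl
    · have h1 := M.fw_period ha 0
      rw [Nat.zero_add] at h1
      rw [Nat.sub_zero, h1]
      rfl
  | succ j ih =>
    intro hj
    obtain ⟨h1, h2⟩ := ih (by omega)
    have e1 : M.fl u v + 1 - (j + 1) = M.fl u v - j := by omega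
    refine ⟨by rw [e1]; exact h2, ?_⟩
    have h3 : M'.fw v u (j + 1 + 1) = M'.s (M'.fw v u j) (M'.fw v u (j + 1)) := rfl
    obtain ⟨a, ha'⟩ : ∃ a, a = M.fl u v - (j + 1) := ⟨_, rfl⟩
    have e2 : M.fl u v + 1 - j = a + 2 := by omega
    have e3 : M.fl u v - j = a + 1 := by omega
    rw [h3, h1, h2, e2, e3, ← ha']
    exact h.1 _ _ (M.fw_adj ha a)

/-- the description of the reversed face -/
private theorem DE_desc_rev {M M' : OM G F} (h : RevOf M M') {u v : V} {w : List Lc}
    (hd : M.Desc C i0 u v w) : M'.Desc C i0 v u (w.map Lc.mir).reverse := by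
  obtain ⟨ha, hf, hk⟩ := hd
  have h3 := M.three_le ha
  have hlen : (w.map Lc.mir).reverse.length = w.length := by simp
  have hfl : M'.fl v u = M.fl u v := h.fl ha
  refine ⟨ha.symm, by rw [hfl, hf, hlen], ?_⟩
  have key : ∀ j, j < w.length → M'.Lh C i0 (M'.fw v u j) (M'.fw v u (j + 1))
      (cl (w.map Lc.mir).reverse j) := by
    intro j hj
    obtain ⟨h1, h2⟩ := DE_rev_fw h ha j (by omega)
    rw [hf] at h1 h2
    obtain ⟨b, hb⟩ : ∃ b, b = w.length - 1 - j := ⟨_, rfl⟩
    have e1 : w.length + 1 - j = b + 2 := by omega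
    have e2 : w.length - j = b + 1 := by omega
    rw [h1, h2, e1, e2]
    have h4 : cl (w.map Lc.mir).reverse j = (cl w b).mir := by
      unfold cl
      have hj' : j < (w.map Lc.mir).reverse.length := by rw [hlen]; exact hj
      have hb' : b < w.length := by omega
      rw [hlen, Nat.mod_eq_of_lt hj, Nat.mod_eq_of_lt hb', List.getD_eq_getElem _ _ hj',
        List.getD_eq_getElem _ _ hb', List.getElem_reverse, List.getElem_map]
      congr 2
      simp only [List.length_map]
      omega
    rw [h4]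
    exact h.Lh (M.fw_adj ha b) (hk b)
  intro k
  have h4 : k % w.length < w.length := Nat.mod_lt _ (by omega)
  have h5 := key (k % w.length) h4
  have e0 := DE_fw_mod (M := M') ha.symm k 0
  have e1 := DE_fw_mod (M := M') ha.symm k 1
  rw [hfl, hf] at e0 e1
  rw [Nat.add_zero, Nat.add_zero] at e0
  rw [e0, e1] at h5
  have h6 : cl (w.map Lc.mir).reverse (k % w.length) = cl (w.map Lc.mir).reverse k := by
    unfold cl
    rw [hlen, Nat.mod_mod]
  rw [h6] at h5
  exact h5

/-- no bad pattern in both orientations -/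
theorem not_badLc {M M' : OM G F} (h : RevOf M M') (good : Good M C) (good' : Good M' C) {u v : V}
    {w : List Lc} (h8 : w.length = 8) (hd : M.Desc C i0 u v w) : badLc w = false := by
  unfold badLc
  rw [not_badOne good h8 hd, not_badOne good' (by simpa using h8) (DE_desc_rev h hd)]
  rfl

private theorem DE_ask_nonneg (M : OM G F) (p y : V) : 0 ≤ M.ask C p y := by
  unfold OM.ask
  split_ifs <;> norm_num

/-- the poor words -/
private theorem DE_poor_word {M : OM G F} {u v : V} {w : List Lc} (h8 : w.length = 8)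
    (hd : M.Desc C i0 u v w) (r : ℕ) (pat : List Lt) (pl : pat.length = 8)
    (hp : ∀ k < 8, M.holds C (M.fw u v (r + k)) (M.fw u v (r + k + 1)) (M.fw u v (r + k + 2))
      (pat.getD k .A)) : M.Word C (M.fw u v r) (M.fw u v (r + 1)) pat := by
  refine ⟨M.fw_adj hd.1 r, ?_, ?_⟩
  · rw [M.fl_fw hd.1, hd.2.1, h8, pl]
  · intro k hk
    rw [pl] at hk
    rw [← M.fw_shift, ← M.fw_shift, ← M.fw_shift, show k + r = r + k by ring,
      show k + 1 + r = r + k + 1 by ring, show k + 2 + r = r + k + 2 by ring]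
    exact hp k hk

private theorem DE_holds {M : OM G F} {u v : V} {w : List Lc} (hd : M.Desc C i0 u v w) (j : ℕ)
    {ℓ : Lc} (hl : cl w j = ℓ) :
    (ℓ = .T1 → M.holds C (M.fw u v j) (M.fw u v (j + 1)) (M.fw u v (j + 2)) .T1) ∧
    (ℓ = .T2 → M.holds C (M.fw u v j) (M.fw u v (j + 1)) (M.fw u v (j + 2)) .T2) ∧
    (ℓ = .V → M.holds C (M.fw u v j) (M.fw u v (j + 1)) (M.fw u v (j + 2)) .V) := by
  have h1 := hd.2.2 j
  rw [hl] at h1
  obtain ⟨-, -, -, h4⟩ := h1
  refine ⟨?_, ?_, ?_⟩
  · rintro rfl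
    exact h4
  · rintro rfl
    exact h4
  · rintro rfl
    exact h4

/-- a poor face asks 2: sum of `ask` over its corners -/
theorem poor_ask {M : OM G F} {u v : V} {w : List Lc} (h8 : w.length = 8)
    (hd : M.Desc C i0 u v w) (hp : poorLc w = true) :
    4 ≤ (w.map Lc.w).sum + ∑ k ∈ range 8, M.ask C (M.fw u v k) (M.fw u v (k + 1)) := by
  unfold poorLc at hp
  rw [List.any_eq_true] at hp
  obtain ⟨r, hr, hp⟩ := hp
  rw [List.mem_range, h8] at hr
  rw [decide_eq_true_eq, h8] at hp
  have hf : M.fl u v = 8 := by rw [hd.2.1, h8]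
  have hrot : ((List.range 8).map (fun j => cl w (r + j))) = w.rotate r := by
    apply List.ext_getElem
    · simp [h8]
    · intro j h1 h2
      rw [List.getElem_map, List.getElem_range, List.getElem_rotate]
      unfold cl
      rw [List.getD_eq_getElem _ _ (Nat.mod_lt _ (by omega))]
      congr 2
      omega
  have hsum : (((List.range 8).map (fun j => cl w (r + j))).map Lc.w).sum = (w.map Lc.w).sum := by
    rw [hrot]
    exact ((List.rotate_perm w r).map Lc.w).sum_eq
  have hcl : ∀ (L : List Lc), (List.range 8).map (fun j => cl w (r + j)) = L → ∀ j < 8,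
      cl w (r + j) = L.getD j .C0 := by
    rintro _ rfl j hj
    rw [List.getD_eq_getElem _ _ (by simpa using hj), List.getElem_map, List.getElem_range]
  have hge : ∀ s, 0 ≤ ∑ k ∈ s, M.ask C (M.fw u v k) (M.fw u v (k + 1)) := fun s =>
    Finset.sum_nonneg fun k _ => DE_ask_nonneg M _ _
  have hask : ∀ (a : ℕ), M.ask C (M.fw u v (a % 8)) (M.fw u v (a % 8 + 1)) =
      M.ask C (M.fw u v a) (M.fw u v (a + 1)) := by
    intro a
    have e0 := DE_fw_mod (M := M) hd.1 a 0
    have e1 := DE_fw_mod (M := M) hd.1 a 1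
    rw [hf, Nat.add_zero, Nat.add_zero] at e0
    rw [hf] at e1
    rw [e0, e1]
  have hone : ∀ a < 8, M.ask C (M.fw u v a) (M.fw u v (a + 1)) ≤
      ∑ k ∈ range 8, M.ask C (M.fw u v k) (M.fw u v (k + 1)) := fun a ha =>
    Finset.single_le_sum (f := fun k => M.ask C (M.fw u v k) (M.fw u v (k + 1)))
      (fun k _ => DE_ask_nonneg M _ _) (Finset.mem_range.2 ha)
  have hM : (∀ k < 8, M.holds C (M.fw u v (r + k)) (M.fw u v (r + k + 1)) (M.fw u v (r + k + 2))
      (wM.getD k .A)) → 2 ≤ ∑ k ∈ range 8, M.ask C (M.fw u v k) (M.fw u v (k + 1)) := by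
    intro h1
    have h2 := DE_poor_word h8 hd r wM rfl h1
    refine le_trans (le_of_eq ?_) (hone r hr)
    unfold OM.ask
    rw [if_pos h2]
  simp only [List.mem_cons, List.not_mem_nil, or_false] at hp
  rcases hp with hp | hp | hp
  · have h1 := hcl _ hp
    have h2 := hM (by
      intro k hk
      interval_cases k
      · exact (DE_holds hd _ (h1 0 hk)).2.2 rfl
      · exact (DE_holds hd _ (h1 1 hk)).1 rfl
      · exact (DE_holds hd _ (h1 2 hk)).2.1 rfl
      · exact (DE_holds hd _ (h1 3 hk)).1 rfl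
      · trivial
      · exact (DE_holds hd _ (h1 5 hk)).2.1 rfl
      · exact (DE_holds hd _ (h1 6 hk)).1 rfl
      · exact (DE_holds hd _ (h1 7 hk)).2.1 rfl)
    rw [hp] at hsum
    have h3 : (w.map Lc.w).sum = 2 := by rw [← hsum]; rfl
    linarith
  · have h1 := hcl _ hp
    have h2 := hM (by
      intro k hk
      interval_cases k
      · exact (DE_holds hd _ (h1 0 hk)).2.2 rfl
      · exact (DE_holds hd _ (h1 1 hk)).1 rfl
      · exact (DE_holds hd _ (h1 2 hk)).2.1 rfl
      · exact (DE_holds hd _ (h1 3 hk)).1 rfl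
      · trivial
      · exact (DE_holds hd _ (h1 5 hk)).2.1 rfl
      · exact (DE_holds hd _ (h1 6 hk)).1 rfl
      · exact (DE_holds hd _ (h1 7 hk)).2.1 rfl)
    rw [hp] at hsum
    have h3 : (w.map Lc.w).sum = 3 := by rw [← hsum]; rfl
    linarith
  · have h1 := hcl _ hp
    have hcm : ∀ j, cl w (j + 8) = cl w j := by
      intro j
      unfold cl
      rw [h8, Nat.add_mod_right]
    have hL : M.Word C (M.fw u v r) (M.fw u v (r + 1)) wL := by
      refine DE_poor_word h8 hd r wL rfl ?_
      intro k hk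
      interval_cases k
      · exact (DE_holds hd _ (h1 0 hk)).2.2 rfl
      · exact (DE_holds hd _ (h1 1 hk)).1 rfl
      · exact (DE_holds hd _ (h1 2 hk)).2.1 rfl
      · exact (DE_holds hd _ (h1 3 hk)).2.2 rfl
      · exact (DE_holds hd _ (h1 4 hk)).1 rfl
      · exact (DE_holds hd _ (h1 5 hk)).2.1 rfl
      · exact (DE_holds hd _ (h1 6 hk)).1 rfl
      · exact (DE_holds hd _ (h1 7 hk)).2.1 rfl
    have hR : M.Word C (M.fw u v (r + 3)) (M.fw u v (r + 3 + 1)) wR := by
      refine DE_poor_word h8 hd (r + 3) wR rfl ?_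
      intro k hk
      have h5 : ∀ j < 3, cl w (r + 3 + (j + 5)) = cl w (r + j) := by
        intro j _
        rw [show r + 3 + (j + 5) = r + j + 8 by ring, hcm]
      interval_cases k
      · exact (DE_holds hd _ (h1 3 (by norm_num))).2.2 rfl
      · exact (DE_holds hd _ (h1 4 (by norm_num))).1 rfl
      · exact (DE_holds hd _ (h1 5 (by norm_num))).2.1 rfl
      · exact (DE_holds hd _ (h1 6 (by norm_num))).1 rfl
      · exact (DE_holds hd _ (h1 7 (by norm_num))).2.1 rfl
      · exact (DE_holds hd _ ((h5 0 (by norm_num)).trans (h1 0 (by norm_num)))).2.2 rfl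
      · exact (DE_holds hd _ ((h5 1 (by norm_num)).trans (h1 1 (by norm_num)))).1 rfl
      · exact (DE_holds hd _ ((h5 2 (by norm_num)).trans (h1 2 (by norm_num)))).2.1 rfl
    have a1 : 1 ≤ M.ask C (M.fw u v r) (M.fw u v (r + 1)) := by
      unfold OM.ask
      by_cases h2 : M.Word C (M.fw u v r) (M.fw u v (r + 1)) wM
      · rw [if_pos h2]
        norm_num
      · rw [if_neg h2, if_pos (Or.inl hL)]
    have a2 : 1 ≤ M.ask C (M.fw u v ((r + 3) % 8)) (M.fw u v ((r + 3) % 8 + 1)) := by
      rw [hask]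
      unfold OM.ask
      by_cases h2 : M.Word C (M.fw u v (r + 3)) (M.fw u v (r + 3 + 1)) wM
      · rw [if_pos h2]
        norm_num
      · rw [if_neg h2, if_pos (Or.inr hR)]
    have hne : r ≠ (r + 3) % 8 := by omega
    have h6 : M.ask C (M.fw u v r) (M.fw u v (r + 1)) +
        M.ask C (M.fw u v ((r + 3) % 8)) (M.fw u v ((r + 3) % 8 + 1)) ≤
        ∑ k ∈ range 8, M.ask C (M.fw u v k) (M.fw u v (k + 1)) := by
      rw [← Finset.sum_pair (f := fun k => M.ask C (M.fw u v k) (M.fw u v (k + 1))) hne]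
      apply Finset.sum_le_sum_of_subset_of_nonneg
      · intro k hk
        rw [Finset.mem_insert, Finset.mem_singleton] at hk
        rw [Finset.mem_range]
        omega
      · intro k _ _
        exact DE_ask_nonneg M _ _
    rw [hp] at hsum
    have h3 : (w.map Lc.w).sum = 2 := by rw [← hsum]; rfl
    linarith

omit [Fintype ι] in
private theorem DE_asked {M : OM G F} {p y : V} {ℓ : Lc} (hh : M.Lh C i0 p y ℓ)
    (ha : ℓ.asked = true) : M.Asked C p y := by
  obtain ⟨-, -, -, h4⟩ := hh
  cases ℓ with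
  | M => exact Or.inl h4
  | L => exact Or.inr (Or.inl h4)
  | R => exact Or.inr (Or.inr h4)
  | _ => simp [Lc.asked] at ha

omit [Fintype ι] in
private theorem DE_low {M : OM G F} {p y : V} {ℓ : Lc} (hh : M.Lh C i0 p y ℓ)
    (ha : ℓ.low = true) : dgr G y = 3 := by
  obtain ⟨-, -, -, h4⟩ := hh
  cases ℓ with
  | T1 => exact h4.2.1
  | T2 => exact h4.2.1
  | E1 a => exact h4.2
  | E2 a => exact h4.2
  | _ => simp [Lc.low] at ha

private theorem DE_asked_rev {M M' : OM G F} (h : RevOf M M') {p y : V} (ha : G.Adj p y)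
    (hk : M.Asked C p y) : M'.Asked C (M.s p y) y := by
  rcases hk with hk | hk | hk
  · exact Or.inl (h.hx ha .M hk)
  · exact Or.inr (Or.inr (h.hx ha .L hk))
  · exact Or.inr (Or.inl (h.hx ha .R hk))

include E

/-- the face has a description which satisfies the local conditions. Letters from `Env.classify`;
consecutive letters: `nf` and `pf` are the types of the same edge; an asked letter and `T1`/`T2`:
`Good.nb` (for the map and the reversed map); `E1`/`E2`: `Env.asked_next`, `Env.asked_prev`; two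
adjacent asked letters: `Good.adj`; tetrad: `Good.tet`; not all letters `C0`: then all edges of the
face are edges of the outer cycle, the face vector is contained in `cvec x`, equal (`sub_cycle`), so the
face is the outer face (`FaceSys.face_inj`, `Env.off`). -/
theorem Env.desc {M' : OM G F} (h : RevOf M M') (good : Good M C) (good' : Good M' C) {u v : V}
    (ha : G.Adj u v) (h0 : M.lf u v ≠ i0) (h3 : M.fl u v ≠ 3) :
    ∃ w : List Lc, okWord w = true ∧ M.Desc C i0 u v w := by
  have hcls : ∀ k, ∃ ℓ : Lc, M.Lh C i0 (M.fw u v k) (M.fw u v (k + 1)) ℓ := by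
    intro k
    refine E.classify M (M.fw_adj ha k) ?_ ?_
    · rw [M.lf_fw ha]
      exact h0
    · rw [M.fl_fw ha]
      exact h3
  choose f hf using hcls
  obtain ⟨n, hn⟩ : ∃ n, n = M.fl u v := ⟨_, rfl⟩
  have hn3 : 3 ≤ n := by rw [hn]; exact M.three_le ha
  have hlen : ((List.range n).map f).length = n := by simp
  have hcl : ∀ k, cl ((List.range n).map f) k = f (k % n) := by
    intro k
    unfold cl
    have h1 : k % n < n := Nat.mod_lt _ (by omega)
    rw [hlen, List.getD_eq_getElem _ _ (by rw [hlen]; exact h1), List.getElem_map,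
      List.getElem_range]
  have hLh : ∀ k, M.Lh C i0 (M.fw u v k) (M.fw u v (k + 1)) (cl ((List.range n).map f) k) := by
    intro k
    have h1 := hf (k % n)
    have e0 := DE_fw_mod (M := M) ha k 0
    have e1 := DE_fw_mod (M := M) ha k 1
    rw [← hn, Nat.add_zero, Nat.add_zero] at e0
    rw [← hn] at e1
    rw [e0, e1] at h1
    rw [hcl]
    exact h1
  refine ⟨(List.range n).map f, ?_, ha, by rw [hlen, hn], hLh⟩
  obtain ⟨w, hw⟩ : ∃ w, w = (List.range n).map f := ⟨_, rfl⟩
  rw [← hw] at hLh hlen ⊢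
  unfold okWord
  rw [Bool.and_eq_true]
  refine ⟨?_, ?_⟩
  · rw [List.all_eq_true]
    intro k _
    have hk0 := hLh k
    have hk1 := hLh (k + 1)
    have hadj0 := M.fw_adj ha k
    have hadj1 := M.fw_adj ha (k + 1)
    have hs : M.s (M.fw u v k) (M.fw u v (k + 1)) = M.fw u v (k + 2) := rfl
    have hp1 : (cl w k).nf = (cl w (k + 1)).pf := by
      rw [← hk0.2.1, ← hk1.1]
      rfl
    have hp2 : (cl w k).asked = true → (cl w (k + 1)).low = false ∧
        (cl w (k + 1)).asked = false := by
      intro hask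
      have hA := DE_asked hk0 hask
      refine ⟨?_, ?_⟩
      · by_contra hc
        rw [Bool.not_eq_false] at hc
        have hd := DE_low hk1 hc
        by_cases hC : M.fw u v (k + 2) ∈ C
        · have h4 := E.asked_next M hadj0 hA hC
          have h5 : dgr G (M.s (M.fw u v k) (M.fw u v (k + 1))) = 3 := hd
          omega
        · exact good'.nb _ _ (M.adj _ _ hadj0).symm (DE_asked_rev h hadj0 hA) hC hd
      · by_contra hc
        rw [Bool.not_eq_false] at hc
        exact good.adj _ _ hadj0 hA (DE_asked hk1 hc)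
    have hp3 : (cl w (k + 1)).asked = true → (cl w k).low = false := by
      intro hask
      have hA := DE_asked hk1 hask
      by_contra hc
      rw [Bool.not_eq_false] at hc
      have hd := DE_low hk0 hc
      by_cases hC : M.fw u v (k + 1) ∈ C
      · have h4 := E.asked_prev M hadj1 hA hC
        omega
      · exact good.nb _ _ hadj1 hA hC hd
    have hp4 : ¬ (cl w k = .T2 ∧ cl w (k + 1) = .T1 ∧ cl w (k + 2) = .T2 ∧
        cl w (k + 3) = .T1) := by
      rintro ⟨c0, c1, c2, c3⟩
      have hd : M.Desc C i0 u v w := ⟨ha, by rw [hlen, hn], hLh⟩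
      have t0 := (DE_holds hd _ c0).2.1 rfl
      have t1 := (DE_holds hd _ c1).1 rfl
      have t2 := (DE_holds hd _ c2).2.1 rfl
      have t3 := (DE_holds hd _ c3).1 rfl
      refine good.tet _ _ hadj0 ⟨t0, ?_, ?_, ?_⟩
      · rw [← M.fw_shift, ← M.fw_shift, show 1 + k = k + 1 by ring, show 2 + k = k + 1 + 1 by ring]
        exact t1
      · rw [← M.fw_shift, ← M.fw_shift, show 2 + k = k + 2 by ring, show 3 + k = k + 2 + 1 by ring]
        exact t2
      · rw [← M.fw_shift, ← M.fw_shift, show 3 + k = k + 3 by ring, show 4 + k = k + 3 + 1 by ring]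
        exact t3
    rw [Bool.and_eq_true]
    refine ⟨?_, ?_⟩
    · unfold okPair
      rw [Bool.and_eq_true, Bool.and_eq_true, decide_eq_true_eq]
      refine ⟨⟨hp1, ?_⟩, ?_⟩
      · cases h5 : (cl w k).asked with
        | false => rfl
        | true =>
          rw [(hp2 h5).1, (hp2 h5).2]
          rfl
      · cases h5 : (cl w (k + 1)).asked with
        | false => rfl
        | true =>
          rw [hp3 h5]
          rfl
    · rw [Bool.not_eq_true', ← Bool.not_eq_true]
      intro hc
      apply hp4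
      simpa [and_assoc] using hc
  · by_contra hc
    rw [Bool.not_eq_true, List.any_eq_false] at hc
    have hall : ∀ k, cl w k = .C0 := by
      intro k
      have h1 : k % w.length < w.length := Nat.mod_lt _ (by omega)
      have h2 : cl w k ∈ w := by
        unfold cl
        rw [List.getD_eq_getElem _ _ h1]
        exact List.getElem_mem h1
      have h4 := hc _ h2
      simpa using h4
    have hF : ∀ k, F i0 s(M.fw u v k, M.fw u v (k + 1)) ≠ 0 := by
      intro k
      have h1 := (hLh k).1
      rw [hall k] at h1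
      by_contra hz
      unfold OM.et at h1
      rw [if_neg (fun hh => hh hz)] at h1
      split_ifs at h1 <;> simp [Lc.pf] at h1
    have hsub : ∀ e, F (M.lf u v) e ≠ 0 → cvec x e ≠ 0 := by
      intro e he
      obtain ⟨k, -, rfl⟩ := (M.face_edge ha e).1 he
      rw [← E.outer]
      exact hF k
    have h1 := sub_cycle E.hx (E.fs.cyc (M.lf u v)) (E.fs.ne _) hsub
    rw [← E.outer] at h1
    exact h0 (E.fs.face_inj E.sep (E.off _) h1)

omit [Fintype ι] in
omit E in
private theorem DE_c0 (w : List Lc) (hl : w.length = 7)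
    (hc : ¬ 3 ≤ (w.filter fun l => decide (l ≠ .C0)).length) (k : ℕ) :
    cl w k = .C0 ∨ cl w (k + 1) = .C0 ∨ cl w (k + 2) = .C0 := by
  have key : ∀ j < 7, cl w j = .C0 ∨ cl w (j + 1) = .C0 ∨ cl w (j + 2) = .C0 := by
    match w, hl with
    | [a, b, c, d, e, f, g], _ =>
      intro j hj
      by_contra hn
      push Not at hn
      apply hc
      obtain ⟨h1, h2, h3⟩ := hn
      interval_cases j <;> simp only [cl] at h1 h2 h3 <;> norm_num at h1 h2 h3 <;>
        simp only [List.filter_cons, List.filter_nil, h1, h2, h3, ne_eq, not_false_eq_true, decide_true,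
          if_true] <;> split_ifs <;> simp
  have h1 := key (k % 7) (Nat.mod_lt _ (by norm_num))
  have h2 : ∀ j, cl w (k % 7 + j) = cl w (k + j) := by
    intro j
    unfold cl
    rw [hl]
    congr 1
    omega
  have h3 := h2 0
  rw [Nat.add_zero, Nat.add_zero] at h3
  rw [h3, h2, h2] at h1
  exact h1

/-- at least three letters are not `C0`: otherwise every vertex of the 7-face is on the outer cycle,
and the face is the outer face by `Env.chord` -/
private theorem Env.DE_three {u v : V} (ha : G.Adj u v) (h0 : M.lf u v ≠ i0)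
    (h7 : M.fl u v = 7) {w : List Lc} (hd : M.Desc C i0 u v w) :
    3 ≤ (w.filter fun l => decide (l ≠ .C0)).length := by
  by_contra hc
  have hl : w.length = 7 := by rw [← hd.2.1, h7]
  have het : ∀ a b, M.et i0 a b = 2 → a ∈ C ∧ b ∈ C := by
    intro a b hab
    have h1 : F i0 s(a, b) ≠ 0 := by
      intro hz
      unfold OM.et at hab
      rw [if_neg (fun hh => hh hz)] at hab
      split_ifs at hab <;> omega
    refine ⟨(E.outer_on a).1 ⟨b, h1⟩, (E.outer_on b).1 ⟨a, ?_⟩⟩
    rw [Sym2.eq_swap]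
    exact h1
  have hV : ∀ k, M.fw u v (k + 2) ∈ C := by
    intro k
    rcases DE_c0 w hl hc k with h1 | h1 | h1
    · have h2 := (hd.2.2 k).2.1
      rw [h1] at h2
      exact (het _ _ h2).2
    · have h2 := (hd.2.2 (k + 1)).1
      rw [h1] at h2
      exact (het _ _ h2).2
    · have h2 := (hd.2.2 (k + 2)).1
      rw [h1] at h2
      exact (het _ _ h2).1
  have hV' : ∀ k, M.fw u v k ∈ C := by
    intro k
    have h1 := hV (k + 5)
    have h2 := M.fw_period ha k
    rw [h7] at h2
    rw [← h2]
    exact h1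
  have hsub : ∀ e, F (M.lf u v) e ≠ 0 → cvec x e ≠ 0 := by
    intro e he
    obtain ⟨k, -, rfl⟩ := (M.face_edge ha e).1 he
    rw [← E.outer]
    exact E.chord _ _ (hV' k) (hV' (k + 1)) (M.fw_adj ha k)
  have h1 := sub_cycle E.hx (E.fs.cyc (M.lf u v)) (E.fs.ne _) hsub
  rw [← E.outer] at h1
  exact h0 (E.fs.face_inj E.sep (E.off _) h1)

/-- the inequality of the face. Length 7: no edge in a triangle (`Env.fl_other`), `enum7`. Length 8:
`enum8`, `not_badLc`, `poor_ask` (and `ask ≥ 0`). Length 9, 10, 11: no asked letters (`Good.len8`),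
`enum9`, `enum10`, `enum11`. Length at least 12: `sum_nonneg`. -/
theorem Env.face_ineq {M' : OM G F} (h : RevOf M M') (good : Good M C) (good' : Good M' C) {u v : V}
    (ha : G.Adj u v) (h0 : M.lf u v ≠ i0) (h3 : M.fl u v ≠ 3) : 12 - (M.fl u v : ℤ) ≤
      ∑ k ∈ range (M.fl u v), (M.wt C (M.fw u v k) (M.fw u v (k + 1)) +
        M.ask C (M.fw u v k) (M.fw u v (k + 1)) -
        M.ask C (M.op (M.fw u v k) (M.fw u v (k + 1))) (M.fw u v (k + 1))) := by
  obtain ⟨w, hok, hd⟩ := E.desc M h good good' ha h0 h3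
  have hfl := hd.2.1
  have hsum : (w.map Lc.w).sum = ∑ k ∈ range (M.fl u v), (cl w k).w := by
    rw [hfl, Finset.sum_range, ← List.sum_ofFn]
    congr 1
    apply List.ext_getElem
    · simp
    · intro j h1 h2
      rw [List.getElem_map, List.getElem_ofFn]
      unfold cl
      have h4 : j < w.length := by simpa using h1
      show _ = (w.getD (j % w.length) .C0).w
      rw [Nat.mod_eq_of_lt h4, List.getD_eq_getElem _ _ h4]
  have hge : (w.map Lc.w).sum + ∑ k ∈ range (M.fl u v), M.ask C (M.fw u v k) (M.fw u v (k + 1)) ≤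
      ∑ k ∈ range (M.fl u v), (M.wt C (M.fw u v k) (M.fw u v (k + 1)) +
        M.ask C (M.fw u v k) (M.fw u v (k + 1)) -
        M.ask C (M.op (M.fw u v k) (M.fw u v (k + 1))) (M.fw u v (k + 1))) := by
    rw [hsum, ← Finset.sum_add_distrib]
    apply Finset.sum_le_sum
    intro k _
    have h1 := (hd.2.2 k).2.2.1
    linarith
  refine le_trans ?_ hge
  have hask : 0 ≤ ∑ k ∈ range (M.fl u v), M.ask C (M.fw u v k) (M.fw u v (k + 1)) :=
    Finset.sum_nonneg fun k _ => DE_ask_nonneg M _ _
  have hmem : ∀ l ∈ w, ∃ k, cl w k = l := by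
    intro l hl
    obtain ⟨k, hk, rfl⟩ := List.getElem_of_mem hl
    refine ⟨k, ?_⟩
    unfold cl
    rw [Nat.mod_eq_of_lt hk, List.getD_eq_getElem _ _ hk]
  have hnoask : 8 < M.fl u v → ∀ l ∈ w, l.asked = false := by
    intro h8 l hl
    obtain ⟨k, rfl⟩ := hmem l hl
    by_contra hc
    rw [Bool.not_eq_false] at hc
    have h1 := good.len8 _ _ (M.fw_adj ha k) (DE_asked (hd.2.2 k) hc)
    rw [M.fl_fw ha] at h1
    omega
  rcases E.fl_cases M ha with h7 | h7
  · exact absurd h7 h3
  · rcases (by omega : M.fl u v = 7 ∨ M.fl u v = 8 ∨ M.fl u v = 9 ∨ M.fl u v = 10 ∨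
      M.fl u v = 11 ∨ 12 ≤ M.fl u v) with e | e | e | e | e | e
    · have hno : ∀ k, M.et i0 (M.fw u v k) (M.fw u v (k + 1)) ≠ 1 := by
        intro k hk
        unfold OM.et at hk
        have c2 : M.fl (M.fw u v (k + 1)) (M.fw u v k) = 3 := by
          by_contra c2
          rw [if_neg c2] at hk
          split_ifs at hk <;> omega
        have h8 := E.fl_other M (M.fw_adj ha k) c2
        rw [M.fl_fw ha] at h8
        omega
      have h5 := enum7 w (by rw [← hfl, e]) hok (by
        intro l hl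
        obtain ⟨k, rfl⟩ := hmem l hl
        refine ⟨?_, ?_⟩
        · rw [← (hd.2.2 k).1]
          exact hno k
        · rw [← (hd.2.2 k).2.1]
          exact hno (k + 1)) (E.DE_three M ha h0 e hd)
      rw [e] at hask ⊢
      push_cast
      linarith
    · have h8 : w.length = 8 := by rw [← hfl, e]
      by_cases h4 : (w.map Lc.w).sum < 4
      · rcases enum8 w h8 hok h4 with h5 | h5
        · rw [not_badLc h good good' h8 hd] at h5
          exact absurd h5 (by simp)
        · have h6 := poor_ask h8 hd h5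
          rw [e]
          push_cast
          linarith
      · push Not at h4
        rw [e] at hask ⊢
        push_cast
        linarith
    · have h5 := enum9 w (by rw [← hfl, e]) hok (hnoask (by omega))
      rw [e] at hask ⊢
      push_cast
      linarith
    · have h5 := enum10 w (by rw [← hfl, e]) hok (hnoask (by omega))
      rw [e] at hask ⊢
      push_cast
      linarith
    · have h5 := enum11 w (by rw [← hfl, e]) hok (hnoask (by omega))
      rw [e] at hask ⊢
      push_cast
      linarith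
    · have h5 := sum_nonneg w (hnoask (by omega))
      have h6 : (12 : ℤ) ≤ (M.fl u v : ℤ) := by exact_mod_cast e
      linarith

end Pool.Agent.W_fb73a4_t7
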