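import Pool.Agent.W_fb73a4_t7.AL
import Pool.Agent.W_fb73a4_h20.MD

/-!
[T7] EA: the minimal counterexample, first part. Compare `W_fb73a4_h20.ME` (colouring version).
`H ≤ G` stays in the class.
-/

set_option autoImplicit false

namespace Pool.Agent.W_fb73a4_t7

open Finset MvPolynomial
open scoped Classical
open Pool.Agent.W_fb73a4_h20
open Pool.Agent.W_fb73a4_h57 (P3 I3 kill)

variable {V : Type} [Fintype V] {G : SimpleGraph V}

/-- a counterexample of the smallest size -/
structure Cex (G : SimpleGraph V) (n m : ℕ) (x : ZMod m → V) (C : Finset V) : Prop where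
  ih : Thm (V := V) n
  cls : C7 G
  hn : G.edgeSet.ncard ≤ n + 1
  hx : IsCycSeq G x
  hm : m ≤ 11
  hC : ∀ v, v ∈ C ↔ v ∈ Set.range x
  zero : QQ G C ∈ I3 V

/-- the graph with the edges of `E1` only -/
def sub (G : SimpleGraph V) (E1 : Set (Sym2 V)) : SimpleGraph V where
  Adj u v := G.Adj u v ∧ s(u, v) ∈ E1
  symm := ⟨fun u v h => ⟨h.1.symm, by rw [Sym2.eq_swap]; exact h.2⟩⟩
  loopless := ⟨fun v h => G.loopless.irrefl v h.1⟩

theorem sub_le (E1 : Set (Sym2 V)) : sub G E1 ≤ G := fun _ _ h => h.1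

theorem C7.mono {H : SimpleGraph V} (hG : C7 G) (h : H ≤ G) : C7 H where
  pl := maclane_mono hG.pl h
  no := fun n x hx => hG.no n x (hx.mono h)
  no73 := fun x hx j t h1 h2 => hG.no73 x (hx.mono h) j t (h h1) (h h2)

/-- edges of `G` not inside `C` which are in `E1` -/
theorem eo_sub (C : Finset V) (E1 : Set (Sym2 V)) :
    eo (sub G E1) C = (eo G C).filter (fun e => e ∈ E1) := by
  ext e
  induction e using Sym2.ind with
  | _ a b =>
    simp only [eo, Finset.mem_filter, Finset.mem_univ, true_and, SimpleGraph.mem_edgeSet, sub]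
    tauto

theorem ncard_sub_lt (E1 : Set (Sym2 V)) (h : ∃ e ∈ G.edgeSet, e ∉ E1) :
    (sub G E1).edgeSet.ncard < G.edgeSet.ncard := by
  obtain ⟨e, he, he1⟩ := h
  refine ncard_lt_of_missing (sub_le E1) ⟨e, he, ?_⟩
  induction e using Sym2.ind with
  | _ a b =>
    intro hh
    exact he1 hh.2

variable {n m : ℕ} {x : ZMod m → V} {C : Finset V}

/-- no chord: otherwise delete it, the product stays the same -/
theorem Cex.chord (c : Cex G n m x C) (u v : V) (hu : u ∈ C) (hv : v ∈ C) (h : G.Adj u v) :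
    cvec x s(u, v) ≠ 0 := by
  intro h0
  have hlt : (sub G {e | e ≠ s(u, v)}).edgeSet.ncard < G.edgeSet.ncard :=
    ncard_sub_lt _ ⟨s(u, v), h, fun hh => hh rfl⟩
  have hcyc : IsCycSeq (sub G {e | e ≠ s(u, v)}) x :=
    ⟨c.hx.three, c.hx.inj, fun j => ⟨c.hx.adj j, by
      intro he
      have h1 := cvec_edge c.hx j
      rw [he, h0] at h1
      exact zero_ne_one h1⟩⟩
  have hn := c.hn
  have h1 := (c.ih _ (c.cls.mono (sub_le {e | e ≠ s(u, v)})) (by omega)).1 m x C c.hm hcyc c.hC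
  refine h1 ?_
  have h2 : ∀ E : Set (Sym2 V), E = {e | e ≠ s(u, v)} → eo (sub G E) C = eo G C := by
    intro E hE
    rw [eo_sub]
    refine Finset.filter_true_of_mem fun e he => ?_
    rw [hE, Set.mem_setOf_eq]
    intro he'
    rw [he'] at he
    rw [eo, Finset.mem_filter] at he
    refine he.2.2 fun w hw => ?_
    rw [Sym2.mem_iff] at hw
    rcases hw with rfl | rfl
    · exact hu
    · exact hv
  show QQ (sub G {e | e ≠ s(u, v)}) C ∈ I3 V
  rw [QQ, h2 _ rfl]
  exact c.zero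

/-- there is an edge which is not inside `C` -/
theorem Cex.inner (c : Cex G n m x C) : ∃ v, v ∉ C ∧ ∃ w, G.Adj v w := by
  by_contra hcon
  push Not at hcon
  refine nz_of_empty (G := G) C ?_ c.zero
  rw [Finset.eq_empty_iff_forall_notMem]
  intro e he
  rw [eo, Finset.mem_filter] at he
  obtain ⟨-, he, hne⟩ := he
  refine hne fun v hv => ?_
  by_contra hvC
  obtain ⟨w, rfl⟩ := hv
  exact hcon v hvC w he

/-- `nz_low`; the cycle `x` stays a cycle in `del G {v}` -/
theorem Cex.deg3 (c : Cex G n m x C) (v : V) (hv : v ∉ C) (h : ∃ w, G.Adj v w) :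
    3 ≤ dgr G v := by
  by_contra hlt
  obtain ⟨w, hw⟩ := h
  have hv' : v ∉ Set.range x := fun hh => hv ((c.hC v).2 hh)
  have h1 : (del G {v}).edgeSet.ncard < G.edgeSet.ncard :=
    ncard_lt_of_missing (del_le G {v}) ⟨s(v, w), hw, fun hh => hh.2.1 rfl⟩
  have hcyc : IsCycSeq (del G {v}) x :=
    ⟨c.hx.three, c.hx.inj, fun j => ⟨c.hx.adj j, fun hh => hv' ⟨j, hh⟩,
      fun hh => hv' ⟨j + 1, hh⟩⟩⟩
  have hn := c.hn
  have h2 := (c.ih _ (c.cls.mono (del_le G {v})) (by omega)).1 m x C c.hm hcyc c.hC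
  exact nz_low C hv (by omega) h2 c.zero

end Pool.Agent.W_fb73a4_t7
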