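import Pool.Agent.W_fb73a4_t7.EA

/-!
[T7] ES: the minimal counterexample has no cut vertex
-/

set_option autoImplicit false

namespace Pool.Agent.W_fb73a4_t7

open Finset MvPolynomial
open scoped Classical
open Pool.Agent.W_fb73a4_h20
open Pool.Agent.W_fb73a4_h57 (P3 I3 kill)

variable {V : Type} [Fintype V] {G : SimpleGraph V}
variable {n m : ℕ} {x : ZMod m → V} {C : Finset V}

theorem mem_eo_sub (C : Finset V) (E1 : Set (Sym2 V)) (e : Sym2 V) :
    e ∈ eo (sub G E1) C ↔ e ∈ eo G C ∧ e ∈ E1 := by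
  rw [eo_sub, mem_filter]

/-- separation, all edges of the cycle are in `E1` -/
theorem Cex.sep_aux (c : Cex G n m x C) (E1 : Set (Sym2 V))
    (hx : ∀ j, s(x j, x (j + 1)) ∈ E1) (hin : ∃ e ∈ G.edgeSet, e ∈ E1)
    (hout : ∃ e ∈ G.edgeSet, e ∉ E1)
    (honly : ∀ v w, (∃ u, G.Adj v u ∧ s(v, u) ∈ E1) → (∃ u, G.Adj v u ∧ s(v, u) ∉ E1) →
      (∃ u, G.Adj w u ∧ s(w, u) ∈ E1) → (∃ u, G.Adj w u ∧ s(w, u) ∉ E1) → v = w) : False := by
  -- the two parts
  have hlt1 : (sub G E1).edgeSet.ncard < G.edgeSet.ncard := ncard_sub_lt E1 hout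
  have hlt2 : (sub G E1ᶜ).edgeSet.ncard < G.edgeSet.ncard := by
    refine ncard_sub_lt E1ᶜ ?_
    obtain ⟨e, he, he'⟩ := hin
    exact ⟨e, he, fun hh => hh he'⟩
  have hn := c.hn
  have hx1 : IsCycSeq (sub G E1) x := ⟨c.hx.three, c.hx.inj, fun j => ⟨c.hx.adj j, hx j⟩⟩
  have nz1 : NZ (sub G E1) C :=
    (c.ih (sub G E1) (c.cls.mono (sub_le E1)) (by omega)).1 m x C c.hm hx1 c.hC
  have nz2 : NZ (sub G E1ᶜ) ∅ := (c.ih (sub G E1ᶜ) (c.cls.mono (sub_le E1ᶜ)) (by omega)).2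
  -- vertices of the cycle have an edge in `E1`
  have hCE : ∀ v ∈ C, ∃ u, G.Adj v u ∧ s(v, u) ∈ E1 := by
    intro v hv
    obtain ⟨j, rfl⟩ := (c.hC v).1 hv
    exact ⟨x (j + 1), c.hx.adj j, hx j⟩
  -- edges outside `E1` are not inside `C`
  have hT : (eo G C).filter (fun e => e ∉ E1) = eo (sub G E1ᶜ) ∅ := by
    ext e
    rw [mem_eo_sub]
    induction e using Sym2.ind with
    | _ a b =>
      simp only [eo, mem_filter, mem_univ, true_and, Set.mem_compl_iff]
      constructor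
      · rintro ⟨⟨h1, -⟩, h3⟩
        refine ⟨⟨h1, fun h => ?_⟩, h3⟩
        exact absurd (h a (Sym2.mem_mk_left a b)) (notMem_empty a)
      · rintro ⟨⟨h1, -⟩, h3⟩
        refine ⟨⟨h1, fun h => ?_⟩, h3⟩
        have h1' : G.Adj a b := h1
        have ha := h a (Sym2.mem_mk_left a b)
        have hb := h b (Sym2.mem_mk_right a b)
        exact h1'.ne (honly a b (hCE a ha) ⟨b, h1', h3⟩ (hCE b hb)
          ⟨a, h1'.symm, by rw [Sym2.eq_swap]; exact h3⟩)
  obtain ⟨W, hW⟩ : ∃ W : Finset V, W = univ.filter (fun v => ∃ u, G.Adj v u ∧ s(v, u) ∈ E1) :=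
    ⟨_, rfl⟩
  have mW : ∀ v, v ∈ W ↔ ∃ u, G.Adj v u ∧ s(v, u) ∈ E1 := by
    intro v
    rw [hW, mem_filter]
    exact ⟨fun h => h.2, fun h => ⟨mem_univ _, h⟩⟩
  refine nz_glue C W ((eo G C).filter (fun e => e ∈ E1)) ((eo G C).filter (fun e => e ∉ E1))
    (disjoint_filter_filter_not _ _ _) (filter_union_filter_not_eq _ _).symm ?_ ?_ ?_ c.zero
  · intro e he v hv
    rw [mem_filter, eo, mem_filter] at he
    induction e using Sym2.ind with
    | _ a b =>
      have h1 : G.Adj a b := he.1.2.1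
      rw [mW]
      rcases Sym2.mem_iff.1 hv with rfl | rfl
      · exact ⟨b, h1, he.2⟩
      · exact ⟨a, h1.symm, by rw [Sym2.eq_swap]; exact he.2⟩
  · rw [← eo_sub]
    exact nz1
  · rw [hT]
    have h0 : (∏ e ∈ eo (sub G E1ᶜ) ∅, lin e : P3 V) ∉ I3 V := by
      have := nz2
      rw [NZ, QQ, kill_empty] at this
      exact this
    obtain ⟨A, hA⟩ : ∃ A : Set V, A = {v | ∃ u, G.Adj v u ∧ s(v, u) ∉ E1} := ⟨_, rfl⟩
    have mA : ∀ v, v ∈ A ↔ ∃ u, G.Adj v u ∧ s(v, u) ∉ E1 := by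
      intro v; rw [hA]; exact Iff.rfl
    have hedge : ∀ e ∈ eo (sub G E1ᶜ) ∅, e ∈ G.edgeSet ∧ e ∉ E1 := by
      intro e he
      rw [mem_eo_sub, eo, mem_filter] at he
      exact ⟨he.1.2.1, he.2⟩
    have hsupp : (∏ e ∈ eo (sub G E1ᶜ) ∅, lin e : P3 V) ∈ supported (ZMod 3) A := by
      refine prod_lin_supported _ A ?_
      intro e he v hv
      obtain ⟨h1, h2⟩ := hedge e he
      induction e using Sym2.ind with
      | _ a b =>
        have h1' : G.Adj a b := h1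
        rw [mA]
        rcases Sym2.mem_iff.1 hv with rfl | rfl
        · exact ⟨b, h1', h2⟩
        · exact ⟨a, h1'.symm, by rw [Sym2.eq_swap]; exact h2⟩
    by_cases hex : ∃ c0, (∃ u, G.Adj c0 u ∧ s(c0, u) ∈ E1) ∧ (∃ u, G.Adj c0 u ∧ s(c0, u) ∉ E1)
    · obtain ⟨c0, h1, h2⟩ := hex
      rw [kill_congr (W ∪ C) {c0} A hsupp (by
        intro v hv
        rw [mem_union, mem_singleton, mW]
        constructor
        · rintro (h | h)
          · exact honly v c0 h ((mA v).1 hv) h1 h2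
          · exact honly v c0 (hCE v h) ((mA v).1 hv) h1 h2
        · rintro rfl
          exact Or.inl h1)]
      refine nz_shift _ ?_ c0 h0
      intro e he hd
      exact G.not_isDiag_of_mem_edgeSet (hedge e he).1 hd
    · rw [kill_congr (W ∪ C) ∅ A hsupp (by
        intro v hv
        rw [mem_union, mW]
        constructor
        · rintro (h | h)
          · exact absurd ⟨v, h, (mA v).1 hv⟩ hex
          · exact absurd ⟨v, hCE v h, (mA v).1 hv⟩ hex
        · intro h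
          exact absurd h (notMem_empty v)), kill_empty]
      exact h0

/-- Let `E1` be a partition with at most one common vertex (negation of `SepFree`). The edges of the
cycle `x` are in one part (`cycle_two_changes`), call it `E1` (otherwise take the complement).
`nz_glue` with `S` = edges of `eo G C` in `E1`, `T` = the others, `W` = vertices of `sub G E1`:
`h1` is the induction hypothesis for `sub G E1` and `x`; for `h2`: `eo G C`-edges outside `E1` are all
edges of `sub G E1ᶜ` (an edge outside `E1` inside `C` is a chord of `x`, or use that two vertices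
of it would be common vertices), `W ∪ C` and its vertices have at most one common vertex `c`,
so `kill` is `kill {c}` or `kill ∅` (`kill_congr`), and `nz_shift` with `NZ (sub G E1ᶜ) ∅`. -/
theorem Cex.sep (c : Cex G n m x C) : SepFree G := by
  intro E1 h1 h2
  by_contra hn
  have honly : ∀ v w, (∃ u, G.Adj v u ∧ s(v, u) ∈ E1) → (∃ u, G.Adj v u ∧ s(v, u) ∉ E1) →
      (∃ u, G.Adj w u ∧ s(w, u) ∈ E1) → (∃ u, G.Adj w u ∧ s(w, u) ∉ E1) → v = w := by
    intro v w a1 a2 a3 a4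
    by_contra hvw
    exact hn ⟨v, w, hvw, a1, a2, a3, a4⟩
  have hadj' : ∀ j, G.Adj (x j) (x (j - 1)) := by
    intro j
    have := c.hx.adj (j - 1)
    rw [sub_add_cancel] at this
    exact this.symm
  by_cases c1 : ∃ j, s(x j, x (j + 1)) ∈ E1
  · by_cases c2 : ∃ j, s(x j, x (j + 1)) ∉ E1
    · obtain ⟨j, l, hjl, hj, hl⟩ := cycle_two_changes c.hx E1 c1 c2
      have key : ∀ j, ((s(x j, x (j + 1)) ∈ E1 ∧ s(x j, x (j - 1)) ∉ E1) ∨
        (s(x j, x (j + 1)) ∉ E1 ∧ s(x j, x (j - 1)) ∈ E1)) →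
          (∃ u, G.Adj (x j) u ∧ s(x j, u) ∈ E1) ∧ (∃ u, G.Adj (x j) u ∧ s(x j, u) ∉ E1) := by
        rintro j (⟨a, b⟩ | ⟨a, b⟩)
        · exact ⟨⟨_, c.hx.adj j, a⟩, ⟨_, hadj' j, b⟩⟩
        · exact ⟨⟨_, hadj' j, b⟩, ⟨_, c.hx.adj j, a⟩⟩
      obtain ⟨a1, a2⟩ := key j hj
      obtain ⟨a3, a4⟩ := key l hl
      exact hjl (honly _ _ a1 a2 a3 a4)
    · push Not at c2
      exact c.sep_aux E1 c2 h1 h2 honly
  · push Not at c1
    refine c.sep_aux E1ᶜ c1 h2 ?_ ?_
    · obtain ⟨e, he, he'⟩ := h1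
      exact ⟨e, he, fun hh => hh he'⟩
    · intro v w a1 a2 a3 a4
      refine honly v w ?_ a1 ?_ a3
      · obtain ⟨u, hu, hu'⟩ := a2
        exact ⟨u, hu, not_not.1 hu'⟩
      · obtain ⟨u, hu, hu'⟩ := a4
        exact ⟨u, hu, not_not.1 hu'⟩

end Pool.Agent.W_fb73a4_t7
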