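import Pool.Agent.W_fb73a4_t7.Defs

/-!
[T7] OB1: the walk along a face.
Everything follows from the field `face` of `OM`: with `n` and `x` from `M.face u v h`:
`fw u v k = x (k : ZMod n)` (induction on `k`), `n = len (F (lf u v)) = fl u v` (`cvec_card` of
`W_fb73a4_h20.MA`), and `x` is injective.
-/

set_option autoImplicit false

namespace Pool.Agent.W_fb73a4_t7

open Finset MvPolynomial
open scoped Classical
open Pool.Agent.W_fb73a4_h20

variable {V : Type} [Fintype V] {G : SimpleGraph V} {ι : Type} {F : ι → EV V} (M : OM G F)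
include M

omit [Fintype V] M in
private theorem OB1_cvec_ne {n : ℕ} (x : ZMod n → V) (e : Sym2 V) :
    cvec x e ≠ 0 ↔ ∃ j, s(x j, x (j + 1)) = e := by
  unfold cvec
  by_cases h : ∃ j, s(x j, x (j + 1)) = e
  · simp [h]
  · simp [h]

/-- the face as a cycle, with all values of the walk -/
private theorem OB1_rep {u v : V} (h : G.Adj u v) :
    ∃ x : ZMod (M.fl u v) → V, IsCycSeq G x ∧ F (M.lf u v) = cvec x ∧
      ∀ k : ℕ, M.fw u v k = x (k : ZMod (M.fl u v)) := by
  obtain ⟨n, x, hx, hF, h0, h1, hs⟩ := M.face u v h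
  have hn : n = M.fl u v := by
    have h2 := cvec_card hx
    rw [← h2]
    unfold OM.fl len
    rw [hF]
  subst hn
  refine ⟨x, hx, hF, ?_⟩
  have key : ∀ k : ℕ, M.fw u v k = x (k : ZMod (M.fl u v)) ∧
      M.fw u v (k + 1) = x ((k + 1 : ℕ) : ZMod (M.fl u v)) := by
    intro k
    induction k with
    | zero =>
      refine ⟨?_, ?_⟩
      · rw [Nat.cast_zero, h0]
        rfl
      · rw [zero_add, Nat.cast_one, h1]
        rfl
    | succ k ih =>
      refine ⟨ih.2, ?_⟩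
      have h3 : M.fw u v (k + 1 + 1) = M.s (M.fw u v k) (M.fw u v (k + 1)) := rfl
      rw [h3, ih.1, ih.2]
      have h4 := hs (k : ZMod (M.fl u v))
      push_cast
      rw [← h4]
      congr 1
      ring
  exact fun k => (key k).1

theorem OM.fw_zero (u v : V) : M.fw u v 0 = u := rfl

theorem OM.fw_one (u v : V) : M.fw u v 1 = v := rfl

theorem OM.fw_two (u v : V) (k : ℕ) :
    M.fw u v (k + 2) = M.s (M.fw u v k) (M.fw u v (k + 1)) := rfl

theorem OM.fw_adj {u v : V} (h : G.Adj u v) (k : ℕ) :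
    G.Adj (M.fw u v k) (M.fw u v (k + 1)) := by
  obtain ⟨x, hx, hF, hk⟩ := OB1_rep M h
  rw [hk, hk]
  push_cast
  exact hx.adj _

theorem OM.fw_shift (u v : V) (j k : ℕ) :
    M.fw u v (k + j) = M.fw (M.fw u v j) (M.fw u v (j + 1)) k := by
  have key : ∀ k : ℕ, M.fw u v (k + j) = M.fw (M.fw u v j) (M.fw u v (j + 1)) k ∧
      M.fw u v (k + 1 + j) = M.fw (M.fw u v j) (M.fw u v (j + 1)) (k + 1) := by
    intro k
    induction k with
    | zero =>
      refine ⟨?_, ?_⟩
      · rw [zero_add]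
        rfl
      · rw [zero_add, add_comm 1 j]
        rfl
    | succ k ih =>
      refine ⟨ih.2, ?_⟩
      have h3 : M.fw (M.fw u v j) (M.fw u v (j + 1)) (k + 1 + 1) =
        M.s (M.fw (M.fw u v j) (M.fw u v (j + 1)) k)
          (M.fw (M.fw u v j) (M.fw u v (j + 1)) (k + 1)) := rfl
      rw [h3, ← ih.1, ← ih.2]
      rw [show k + 1 + 1 + j = (k + j) + 2 by ring, show k + 1 + j = (k + j) + 1 by ring]
      rfl
  exact (key k).1

theorem OM.lf_fw {u v : V} (h : G.Adj u v) (k : ℕ) :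
    M.lf (M.fw u v k) (M.fw u v (k + 1)) = M.lf u v := by
  induction k with
  | zero => rfl
  | succ k ih =>
    rw [← ih]
    exact M.lf_s _ _ (M.fw_adj h k)

theorem OM.fl_fw {u v : V} (h : G.Adj u v) (k : ℕ) :
    M.fl (M.fw u v k) (M.fw u v (k + 1)) = M.fl u v := by
  unfold OM.fl
  rw [M.lf_fw h k]

theorem OM.fl_s {u v : V} (h : G.Adj u v) : M.fl v (M.s u v) = M.fl u v := by
  unfold OM.fl
  rw [M.lf_s u v h]

theorem OM.three_le {u v : V} (h : G.Adj u v) : 3 ≤ M.fl u v := by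
  obtain ⟨x, hx, -, -⟩ := OB1_rep M h
  exact hx.three

theorem OM.fw_period {u v : V} (h : G.Adj u v) (k : ℕ) :
    M.fw u v (k + M.fl u v) = M.fw u v k := by
  obtain ⟨x, hx, hF, hk⟩ := OB1_rep M h
  rw [hk, hk]
  push_cast
  rw [ZMod.natCast_self, add_zero]

theorem OM.fw_inj {u v : V} (h : G.Adj u v) {j k : ℕ} (hj : j < M.fl u v) (hk : k < M.fl u v)
    (hjk : M.fw u v j = M.fw u v k) : j = k := by
  obtain ⟨x, hx, hF, hk'⟩ := OB1_rep M h
  rw [hk', hk'] at hjk
  have h1 := hx.inj hjk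
  rw [ZMod.natCast_eq_natCast_iff, Nat.ModEq, Nat.mod_eq_of_lt hj, Nat.mod_eq_of_lt hk] at h1
  exact h1

/-- the face as a cycle -/
theorem OM.fw_cyc {u v : V} (h : G.Adj u v) :
    IsCycSeq G (fun j : ZMod (M.fl u v) => M.fw u v j.val) ∧
      F (M.lf u v) = cvec (fun j : ZMod (M.fl u v) => M.fw u v j.val) := by
  obtain ⟨x, hx, hF, hk⟩ := OB1_rep M h
  have hn := hx.three
  have : NeZero (M.fl u v) := ⟨by omega⟩
  have hxe : (fun j : ZMod (M.fl u v) => M.fw u v j.val) = x := by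
    funext j
    rw [hk, ZMod.natCast_zmod_val]
  rw [hxe]
  exact ⟨hx, hF⟩

/-- the edges of the face -/
theorem OM.face_edge {u v : V} (h : G.Adj u v) (e : Sym2 V) :
    F (M.lf u v) e ≠ 0 ↔ ∃ k < M.fl u v, s(M.fw u v k, M.fw u v (k + 1)) = e := by
  obtain ⟨x, hx, hF, hk⟩ := OB1_rep M h
  have hn := hx.three
  have : NeZero (M.fl u v) := ⟨by omega⟩
  rw [hF, OB1_cvec_ne]
  constructor
  · rintro ⟨j, hj⟩
    refine ⟨j.val, ZMod.val_lt j, ?_⟩
    rw [hk, hk]
    push_cast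
    rw [ZMod.natCast_zmod_val]
    exact hj
  · rintro ⟨k, -, hke⟩
    refine ⟨(k : ZMod (M.fl u v)), ?_⟩
    rw [hk, hk] at hke
    push_cast at hke
    exact hke

/-- the vertices of the face -/
theorem OM.face_on {u v : V} (h : G.Adj u v) (w : V) :
    On (F (M.lf u v)) w ↔ ∃ k < M.fl u v, M.fw u v k = w := by
  obtain ⟨x, hx, hF, hk⟩ := OB1_rep M h
  have hn := hx.three
  have : NeZero (M.fl u v) := ⟨by omega⟩
  rw [hF, cvec_on hx]
  constructor
  · rintro ⟨j, rfl⟩
    refine ⟨j.val, ZMod.val_lt j, ?_⟩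
    rw [hk, ZMod.natCast_zmod_val]
  · rintro ⟨k, -, rfl⟩
    exact ⟨(k : ZMod (M.fl u v)), (hk k).symm⟩

/-- all darts of the same face are on the walk -/
theorem OM.dart_of_lf {u v u' v' : V} (h : G.Adj u v) (h' : G.Adj u' v')
    (hl : M.lf u' v' = M.lf u v) : ∃ k < M.fl u v, M.fw u v k = u' ∧ M.fw u v (k + 1) = v' := by
  have h1 := M.on u' v' h'
  rw [hl, M.face_edge h] at h1
  obtain ⟨k, hk, hke⟩ := h1
  refine ⟨k, hk, ?_⟩
  rw [Sym2.eq_iff] at hke
  rcases hke with hke | ⟨h2, h3⟩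
  · exact hke
  · exfalso
    have h4 := M.lf_fw h k
    rw [h2, h3, ← hl] at h4
    exact M.other u' v' h' h4.symm

/-- the two faces of an edge -/
theorem OM.lf_or {u v : V} (h : G.Adj u v) [Fintype ι] (fs : FaceSys G ι F) {i : ι}
    (hi : F i s(u, v) ≠ 0) : i = M.lf u v ∨ i = M.lf v u := by
  have h2 := fs.two s(u, v) h
  obtain ⟨a, b, -, hab⟩ := Finset.card_eq_two.1 h2
  have h3 : ∀ i, F i s(u, v) ≠ 0 → i = a ∨ i = b := by
    intro i hi
    have h4 : i ∈ univ.filter (fun i => F i s(u, v) ≠ 0) :=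
      Finset.mem_filter.2 ⟨Finset.mem_univ _, hi⟩
    rw [hab, Finset.mem_insert, Finset.mem_singleton] at h4
    exact h4
  have h5 := M.on u v h
  have h6 := M.on v u h.symm
  rw [Sym2.eq_swap] at h6
  have h7 := M.other u v h
  rcases h3 _ h5 with h8 | h8 <;> rcases h3 _ h6 with h9 | h9 <;> rcases h3 _ hi with h10 | h10
  · exact Or.inl (h10.trans h8.symm)
  · exact absurd (h8.trans h9.symm) h7
  · exact Or.inl (h10.trans h8.symm)
  · exact Or.inr (h10.trans h9.symm)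
  · exact Or.inr (h10.trans h9.symm)
  · exact Or.inl (h10.trans h8.symm)
  · exact absurd (h8.trans h9.symm) h7
  · exact absurd (h8.trans h9.symm) h7

/-- every face has a dart -/
theorem OM.exists_dart [Fintype ι] (fs : FaceSys G ι F) (i : ι) :
    ∃ u v, G.Adj u v ∧ M.lf u v = i := by
  have h1 : ∃ e, F i e ≠ 0 := by
    by_contra hcon
    push Not at hcon
    exact fs.ne i (funext hcon)
  obtain ⟨e, he⟩ := h1
  have h2 : e ∈ G.edgeSet := by
    by_contra h3
    exact he ((fs.cyc i).1 e h3)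
  induction e using Sym2.ind with
  | _ u v =>
    have h3 : G.Adj u v := h2
    rcases M.lf_or h3 fs he with h4 | h4
    · exact ⟨u, v, h3, h4.symm⟩
    · exact ⟨v, u, h3.symm, h4.symm⟩

/-- triangles -/
theorem OM.tri_close {u v : V} (h : G.Adj u v) (h3 : M.fl u v = 3) :
    M.s v (M.s u v) = u ∧ M.s (M.s u v) u = v ∧ G.Adj (M.s u v) u := by
  have h4 := M.fw_period h 0
  have h5 := M.fw_period h 1
  have h6 := M.fw_adj h 2
  rw [h3] at h4 h5
  have h7 : M.s v (M.s u v) = u := h4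
  have h8 : M.s (M.s u v) (M.s v (M.s u v)) = v := h5
  have h9 : G.Adj (M.s u v) (M.s v (M.s u v)) := h6
  rw [h7] at h8 h9
  exact ⟨h7, h8, h9⟩

end Pool.Agent.W_fb73a4_t7
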