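import Pool.Agent.W_fb73a4_t7.OB1

/-!
[T7] OB2: rotation at a vertex, the reversed map.
`r a = s a v` is injective on the neighbours of `v` and one cycle (field `rot`), so its period at every
neighbour is `dgr G v`.
-/

set_option autoImplicit false

namespace Pool.Agent.W_fb73a4_t7

open Finset MvPolynomial
open scoped Classical
open Pool.Agent.W_fb73a4_h20

variable {V : Type} [Fintype V] {G : SimpleGraph V} {ι : Type} {F : ι → EV V} (M : OM G F)
include M

theorem OM.iter_adj {u v : V} (h : G.Adj u v) (k : ℕ) : G.Adj ((fun a => M.s a v)^[k] u) v := by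
  induction k with
  | zero => exact h
  | succ k ih =>
    rw [Function.iterate_succ_apply']
    exact (M.adj _ _ ih).symm

theorem OM.surj {v w : V} (h : G.Adj v w) : ∃ u, G.Adj u v ∧ M.s u v = w := by
  obtain ⟨k, hk⟩ := M.rot (M.s w v) w v (M.adj w v h.symm).symm h.symm
  have h1 : (fun a => M.s a v)^[k + 1] w = w := by
    rw [Function.iterate_succ_apply]
    exact hk
  rw [Function.iterate_succ_apply'] at h1
  exact ⟨(fun a => M.s a v)^[k] w, M.iter_adj h.symm k, h1⟩

private theorem OB2_pos {u v : V} (h : G.Adj u v) :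
    0 < Function.minimalPeriod (fun a => M.s a v) u := by
  obtain ⟨k, hk⟩ := M.rot (M.s u v) u v (M.adj u v h).symm h
  have h1 : (fun a => M.s a v)^[k + 1] u = u := by
    rw [Function.iterate_succ_apply]
    exact hk
  exact Function.IsPeriodicPt.minimalPeriod_pos (Nat.succ_pos k) h1

private theorem OB2_period {u v : V} (h : G.Adj u v) :
    Function.minimalPeriod (fun a => M.s a v) u = dgr G v := by
  have hp := OB2_pos M h
  set p := Function.minimalPeriod (fun a => M.s a v) u with hpdef
  have hset : G.neighborSet v =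
      (((Finset.range p).image (fun k => (fun a => M.s a v)^[k] u) : Finset V) : Set V) := by
    ext w
    rw [SimpleGraph.mem_neighborSet, Finset.mem_coe, Finset.mem_image]
    constructor
    · intro hw
      obtain ⟨k, hk⟩ := M.rot u w v h hw.symm
      refine ⟨k % p, Finset.mem_range.2 (Nat.mod_lt _ hp), ?_⟩
      rw [← hk]
      exact Function.iterate_mod_minimalPeriod_eq
    · rintro ⟨k, -, rfl⟩
      exact (M.iter_adj h k).symm
  unfold dgr
  rw [hset, Set.ncard_coe_finset, Finset.card_image_of_injOn, Finset.card_range]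
  intro a ha b hb hab
  rw [Finset.coe_range, Set.mem_Iio] at ha hb
  exact Function.iterate_injOn_Iio_minimalPeriod (Set.mem_Iio.2 ha) (Set.mem_Iio.2 hb) hab

theorem OM.iter_dgr {u v : V} (h : G.Adj u v) : (fun a => M.s a v)^[dgr G v] u = u := by
  rw [← OB2_period M h]
  exact Function.iterate_minimalPeriod

theorem OM.iter_inj {u v : V} (h : G.Adj u v) {j k : ℕ} (hj : j < dgr G v) (hk : k < dgr G v)
    (hjk : (fun a => M.s a v)^[j] u = (fun a => M.s a v)^[k] u) : j = k := by
  rw [← OB2_period M h] at hj hk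
  exact Function.iterate_injOn_Iio_minimalPeriod (Set.mem_Iio.2 hj) (Set.mem_Iio.2 hk) hjk

theorem OM.iter_surj {u v w : V} (h : G.Adj u v) (hw : G.Adj w v) :
    ∃ k < dgr G v, (fun a => M.s a v)^[k] u = w := by
  obtain ⟨k, hk⟩ := M.rot u w v h hw
  have hp := OB2_pos M h
  refine ⟨k % dgr G v, ?_, ?_⟩
  · rw [← OB2_period M h]
    exact Nat.mod_lt _ hp
  · rw [← OB2_period M h, ← hk]
    exact Function.iterate_mod_minimalPeriod_eq

theorem OM.two_le {u v : V} (h : G.Adj u v) : 2 ≤ dgr G v := by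
  have h0 := OB2_pos M h
  rw [OB2_period M h] at h0
  by_contra hcon
  have h1 : dgr G v = 1 := by omega
  have h2 := M.iter_dgr h
  rw [h1] at h2
  exact M.ne u v h h2

/-- degree 3: the neighbours of `v` are `u`, `s u v`, `s (s u v) v` -/
theorem OM.three_nbrs {u v : V} (h : G.Adj u v) (hd : dgr G v = 3) :
    M.s (M.s (M.s u v) v) v = u ∧ u ≠ M.s u v ∧ u ≠ M.s (M.s u v) v ∧
      M.s u v ≠ M.s (M.s u v) v ∧ ∀ w, G.Adj v w → w = u ∨ w = M.s u v ∨ w = M.s (M.s u v) v := by
  have h3 := M.iter_dgr h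
  rw [hd] at h3
  have hne : ∀ j k : ℕ, j < 3 → k < 3 → j ≠ k →
      (fun a => M.s a v)^[j] u ≠ (fun a => M.s a v)^[k] u := by
    intro j k hj hk hjk he
    exact hjk (M.iter_inj h (by omega) (by omega) he)
  refine ⟨h3, hne 0 1 (by norm_num) (by norm_num) (by norm_num),
    hne 0 2 (by norm_num) (by norm_num) (by norm_num),
    hne 1 2 (by norm_num) (by norm_num) (by norm_num), ?_⟩
  intro w hw
  obtain ⟨k, hk, hkw⟩ := M.iter_surj h hw.symm
  rw [hd] at hk
  interval_cases k
  · exact Or.inl hkw.symm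
  · exact Or.inr (Or.inl hkw.symm)
  · exact Or.inr (Or.inr hkw.symm)

/-- degree 4 -/
theorem OM.four_nbrs {u v : V} (h : G.Adj u v) (hd : dgr G v = 4) :
    M.s (M.s (M.s (M.s u v) v) v) v = u ∧ u ≠ M.s u v ∧ u ≠ M.s (M.s u v) v ∧
      u ≠ M.s (M.s (M.s u v) v) v ∧ M.s u v ≠ M.s (M.s u v) v ∧
      M.s u v ≠ M.s (M.s (M.s u v) v) v ∧ M.s (M.s u v) v ≠ M.s (M.s (M.s u v) v) v ∧
      ∀ w, G.Adj v w → w = u ∨ w = M.s u v ∨ w = M.s (M.s u v) v ∨
        w = M.s (M.s (M.s u v) v) v := by
  have h4 := M.iter_dgr h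
  rw [hd] at h4
  have hne : ∀ j k : ℕ, j < 4 → k < 4 → j ≠ k →
      (fun a => M.s a v)^[j] u ≠ (fun a => M.s a v)^[k] u := by
    intro j k hj hk hjk he
    exact hjk (M.iter_inj h (by omega) (by omega) he)
  refine ⟨h4, hne 0 1 (by norm_num) (by norm_num) (by norm_num),
    hne 0 2 (by norm_num) (by norm_num) (by norm_num),
    hne 0 3 (by norm_num) (by norm_num) (by norm_num),
    hne 1 2 (by norm_num) (by norm_num) (by norm_num),
    hne 1 3 (by norm_num) (by norm_num) (by norm_num),
    hne 2 3 (by norm_num) (by norm_num) (by norm_num), ?_⟩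
  intro w hw
  obtain ⟨k, hk, hkw⟩ := M.iter_surj h hw.symm
  rw [hd] at hk
  interval_cases k
  · exact Or.inl hkw.symm
  · exact Or.inr (Or.inl hkw.symm)
  · exact Or.inr (Or.inr (Or.inl hkw.symm))
  · exact Or.inr (Or.inr (Or.inr hkw.symm))

/-- the reversed map -/
theorem OM.exists_rev : ∃ M' : OM G F, (∀ u v, G.Adj u v → M'.s (M.s u v) v = u) ∧
    (∀ u v, G.Adj u v → M.s (M'.s u v) v = u) ∧ ∀ u v, G.Adj u v → M'.lf v u = M.lf u v := by
  have hex : ∀ w v : V, ∃ u, G.Adj w v → G.Adj u v ∧ M.s u v = w := by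
    intro w v
    by_cases h : G.Adj w v
    · obtain ⟨u, hu⟩ := M.surj h.symm
      exact ⟨u, fun _ => hu⟩
    · exact ⟨w, fun h' => absurd h' h⟩
  choose q hq using hex
  have hq1 : ∀ w v, G.Adj w v → G.Adj (q w v) v := fun w v h => (hq w v h).1
  have hq2 : ∀ w v, G.Adj w v → M.s (q w v) v = w := fun w v h => (hq w v h).2
  have hq3 : ∀ u v, G.Adj u v → q (M.s u v) v = u := by
    intro u v h
    have h1 : G.Adj (M.s u v) v := (M.adj u v h).symm
    exact M.inj _ _ v (hq1 _ _ h1) h (hq2 _ _ h1)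
  have hlf : ∀ u v, G.Adj u v → M.lf (q u v) v = M.lf v u := by
    intro u v h
    have h1 := M.lf_s (q u v) v (hq1 u v h)
    rw [hq2 u v h] at h1
    exact h1.symm
  refine ⟨{ s := q, lf := fun a b => M.lf b a, adj := ?_, ne := ?_, lf_s := ?_, on := ?_,
            other := ?_, inj := ?_, corner := ?_, face := ?_, rot := ?_ }, hq3, hq2,
            fun u v _ => rfl⟩
  · intro u v h
    exact (hq1 u v h).symm
  · intro u v h he
    have h1 := hq2 u v h
    rw [he] at h1
    exact M.ne u v h h1
  · intro u v h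
    exact hlf u v h
  · intro u v h
    have h1 := M.on v u h.symm
    rw [Sym2.eq_swap] at h1
    exact h1
  · intro u v h
    exact M.other v u h.symm
  · intro u u' v h h' he
    have h1 := hq2 u v h
    rw [he, hq2 u' v h'] at h1
    exact h1.symm
  · intro u u' v h h' he
    have h1 : M.lf (q u v) v = M.lf (q u' v) v := by
      rw [hlf u v h, hlf u' v h']
      exact he
    have h2 := M.corner _ _ v (hq1 u v h) (hq1 u' v h') h1
    have h3 := hq2 u v h
    rw [h2, hq2 u' v h'] at h3
    exact h3.symm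
  · intro u v h
    obtain ⟨n, y, hy, hF, h0, h1, hs⟩ := M.face v u h.symm
    have hadj : ∀ j, G.Adj (y (-1 - j)) (y (-j)) := by
      intro j
      have h2 := hy.adj (-1 - j)
      rw [show (-1 - j + 1 : ZMod n) = -j by ring] at h2
      exact h2
    refine ⟨n, fun j => y (1 - j), ⟨hy.three, ?_, ?_⟩, ?_, ?_, ?_, ?_⟩
    · intro a b hab
      have h2 := hy.inj hab
      exact sub_right_injective h2
    · intro j
      have h2 := hy.adj (-j)
      rw [show (-j + 1 : ZMod n) = 1 - j by ring] at h2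
      change G.Adj (y (1 - j)) (y (1 - (j + 1)))
      rw [show (1 - (j + 1) : ZMod n) = -j by ring]
      exact h2.symm
    · rw [hF]
      funext e
      unfold cvec
      have h2 : (∃ j, s(y j, y (j + 1)) = e) ↔ ∃ j, s(y (1 - j), y (1 - (j + 1))) = e := by
        constructor
        · rintro ⟨j, hj⟩
          refine ⟨-j, ?_⟩
          rw [show (1 - -j : ZMod n) = j + 1 by ring, show (1 - (-j + 1) : ZMod n) = j by ring,
            Sym2.eq_swap]
          exact hj
        · rintro ⟨j, hj⟩
          refine ⟨-j, ?_⟩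
          rw [show (-j + 1 : ZMod n) = 1 - j by ring, Sym2.eq_swap]
          rw [show (1 - (j + 1) : ZMod n) = -j by ring] at hj
          exact hj
      by_cases h3 : ∃ j, s(y j, y (j + 1)) = e
      · rw [if_pos h3, if_pos (h2.1 h3)]
      · rw [if_neg h3, if_neg (fun h4 => h3 (h2.2 h4))]
    · change y (1 - 0) = u
      rw [sub_zero]
      exact h1
    · change y (1 - 1) = v
      rw [sub_self]
      exact h0
    · intro j
      change y (1 - (j + 2)) = q (y (1 - j)) (y (1 - (j + 1)))
      rw [show (1 - (j + 2) : ZMod n) = -1 - j by ring, show (1 - (j + 1) : ZMod n) = -j by ring]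
      have h2 := hs (-1 - j)
      rw [show (-1 - j + 2 : ZMod n) = 1 - j by ring, show (-1 - j + 1 : ZMod n) = -j by ring] at h2
      rw [h2]
      exact (hq3 _ _ (hadj j)).symm
  · intro u u' v h h'
    obtain ⟨k, hk⟩ := M.rot u' u v h' h
    refine ⟨k, ?_⟩
    rw [← hk]
    clear hk
    induction k with
    | zero => rfl
    | succ k ih =>
      rw [Function.iterate_succ_apply, Function.iterate_succ_apply']
      have h3 : q (M.s ((fun a => M.s a v)^[k] u') v) v = (fun a => M.s a v)^[k] u' :=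
        hq3 _ _ (M.iter_adj h' k)
      change (fun a => q a v)^[k] (q (M.s ((fun a => M.s a v)^[k] u') v) v) = u'
      rw [h3]
      exact ih

end Pool.Agent.W_fb73a4_t7
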