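import Pool.Agent.W_fb73a4_t7.DDefs

/-!
[T7] WN: enumeration of the words (finite check by a search with pruning, `decide +kernel`).
`WN_srch` extends a prefix (kept in reverse order) letter by letter; `r` is the remaining budget of
weight. Every suffix has sum at least -1 (at least 0 if there are no asked letters), so a prefix whose
weight exceeds the budget can be dropped. 30400 nodes for length 8.
-/

set_option autoImplicit false

namespace Pool.Agent.W_fb73a4_t7

/-- all letters -/
def WN_all : List Lc :=
  [.T1, .T2, .N, .O, .V, .M, .L, .R, .B1, .B2, .W, .I false false, .I false true, .I true false,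
    .I true true, .E1 false, .E1 true, .E2 false, .E2 true, .F1 false, .F1 true, .F2 false, .F2 true,
    .C0]

/-- the possible next letters -/
def WN_nx : Lc → List Lc
  | .T1 | .N | .O | .B1 | .I false false | .I true false | .E1 false | .F1 false =>
    [.T2, .N, .O, .B2, .I false false, .I false true, .E2 false, .F2 false]
  | .T2 | .E1 true => [.T1, .V, .B1, .W, .I true false, .I true true, .E2 true, .F2 true]
  | .V | .B2 | .W | .I false true | .I true true | .F1 true =>
    [.T1, .V, .M, .L, .R, .B1, .W, .I true false, .I true true, .E2 true, .F2 true]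
  | .M | .L | .R => [.V, .B1, .W, .I true false, .I true true, .F2 true]
  | .E2 false | .E2 true | .F2 false | .F2 true | .C0 => [.E1 false, .E1 true, .F1 false, .F1 true, .C0]

/-- weight plus one -/
def WN_w : Lc → ℕ
  | .M => 0
  | .T1 | .T2 | .C0 | .L | .R => 1
  | .N | .V => 2
  | .O | .B1 | .B2 | .E1 _ | .E2 _ => 3
  | .W | .I _ _ | .F1 _ | .F2 _ => 4

/-- the last four letters form a tetrad -/
def WN_tet : List Lc → Lc → Bool
  | .T2 :: .T1 :: .T2 :: _, .T1 => true
  | _, _ => false

/-- the letter `b` may follow the reversed prefix -/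
def WN_ok : List Lc → Lc → Bool
  | [], _ => true
  | a :: r, b => okPair a b && !WN_tet (a :: r) b

/-- the word may follow the reversed prefix -/
def WN_Vc : List Lc → List Lc → Prop
  | _, [] => True
  | p, b :: q => WN_ok p b = true ∧ WN_Vc (b :: p) q

/-- candidates for the next letter -/
def WN_cand : List Lc → List Lc
  | [] => WN_all
  | a :: _ => WN_nx a

/-- the search -/
def WN_srch (al : Lc → Bool) (leaf : List Lc → ℕ → Bool) : ℕ → List Lc → ℕ → Bool
  | 0, p, r => leaf p r
  | n + 1, p, r => (WN_cand p).all fun b =>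
      !(al b) || (!(Nat.ble (WN_w b) (r + 1)) || (WN_tet p b ||
        WN_srch al leaf n (b :: p) (r + 1 - WN_w b)))

theorem WN_mem : ∀ l : Lc, l ∈ WN_all
  | .T1 | .T2 | .N | .O | .V | .M | .L | .R | .B1 | .B2 | .W | .C0 => by decide
  | .I a b => by cases a <;> cases b <;> decide
  | .E1 a => by cases a <;> decide
  | .E2 a => by cases a <;> decide
  | .F1 a => by cases a <;> decide
  | .F2 a => by cases a <;> decide

theorem WN_forall {P : Lc → Prop} (h : ∀ l ∈ WN_all, P l) (l : Lc) : P l := h l (WN_mem l)

theorem WN_nx_mem (a b : Lc) (h : okPair a b = true) : b ∈ WN_nx a := by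
  have h1 : ∀ a ∈ WN_all, ∀ b ∈ WN_all, okPair a b = true → b ∈ WN_nx a := by decide +kernel
  exact h1 a (WN_mem a) b (WN_mem b) h

theorem WN_w_eq (a : Lc) : (WN_w a : ℤ) = a.w + 1 := by
  have h1 : ∀ a ∈ WN_all, (WN_w a : ℤ) = a.w + 1 := by decide +kernel
  exact h1 a (WN_mem a)

theorem WN_ge (a : Lc) : -1 ≤ a.w := by
  have h1 : ∀ a ∈ WN_all, -1 ≤ a.w := by decide +kernel
  exact h1 a (WN_mem a)

theorem WN_ge0 (a : Lc) (h : a ≠ .M) : 0 ≤ a.w := by
  have h1 : ∀ a ∈ WN_all, a ≠ .M → 0 ≤ a.w := by decide +kernel
  exact h1 a (WN_mem a) h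

theorem WN_next (a b : Lc) (h : okPair a b = true) (ha : a.w < 1) : b ≠ .M := by
  have h1 : ∀ a ∈ WN_all, ∀ b ∈ WN_all, okPair a b = true → a.w < 1 → b ≠ .M := by decide +kernel
  exact h1 a (WN_mem a) b (WN_mem b) h ha

theorem WN_suffix (q : List Lc) : ∀ p, WN_Vc p q → -1 ≤ (q.map Lc.w).sum ∧
    (q.head? ≠ some .M → 0 ≤ (q.map Lc.w).sum) := by
  induction q with
  | nil => intro p _; simp
  | cons a q ih =>
    intro p h
    obtain ⟨h1, h2⟩ := ih (a :: p) h.2
    rw [List.map_cons, List.sum_cons]
    cases q with
    | nil =>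
      constructor
      · simpa using WN_ge a
      · intro ha
        simpa using WN_ge0 a (fun e => ha (by rw [e]; rfl))
    | cons b q =>
      have hab : okPair a b = true := by
        have h3 := h.2.1
        unfold WN_ok at h3
        rw [Bool.and_eq_true] at h3
        exact h3.1
      by_cases ha : a.w < 1
      · have hb := WN_next a b hab ha
        have h3 := h2 (fun e => hb (Option.some.inj e))
        constructor
        · have := WN_ge a
          linarith
        · intro hM
          have := WN_ge0 a (fun e => hM (by rw [e]; rfl))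
          linarith
      · have h4 : 1 ≤ a.w := not_lt.1 ha
        constructor
        · linarith
        · intro _
          linarith

theorem WN_suffix0 (q : List Lc) (h : ∀ l ∈ q, l.asked = false) : 0 ≤ (q.map Lc.w).sum := by
  refine List.sum_nonneg fun x hx => ?_
  obtain ⟨l, hl, rfl⟩ := List.mem_map.1 hx
  refine WN_ge0 l fun e => ?_
  have := h l hl
  rw [e] at this
  exact absurd this (by decide)

theorem WN_sound (al : Lc → Bool) (leaf : List Lc → ℕ → Bool) (lo : ℤ)
    (hlo : ∀ q p, (∀ l ∈ q, al l = true) → WN_Vc p q → lo ≤ (q.map Lc.w).sum) (q : List Lc) :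
    ∀ (p : List Lc) (r : ℕ), (∀ l ∈ q, al l = true) → WN_Vc p q → (q.map Lc.w).sum ≤ r + lo →
      WN_srch al leaf q.length p r = true →
      ∃ r' : ℕ, (r' : ℤ) = r - (q.map Lc.w).sum ∧ leaf (q.reverse ++ p) r' = true := by
  induction q with
  | nil =>
    intro p r _ _ _ h
    exact ⟨r, by simp, h⟩
  | cons b q ih =>
    intro p r hal hV hs h
    have hb : b ∈ WN_cand p := by
      cases p with
      | nil => exact WN_mem b
      | cons a p =>
        have h3 := hV.1
        unfold WN_ok at h3
        rw [Bool.and_eq_true] at h3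
        exact WN_nx_mem a b h3.1
    have h1 := List.all_eq_true.1 h b hb
    rw [List.map_cons, List.sum_cons] at hs
    have h2 := hlo q (b :: p) (fun l hl => hal l (List.mem_cons_of_mem _ hl)) hV.2
    have h3 : Nat.ble (WN_w b) (r + 1) = true := by
      rw [Nat.ble_eq]
      have h4 := WN_w_eq b
      zify
      linarith
    have h5 : WN_tet p b = false := by
      cases p with
      | nil => cases b <;> rfl
      | cons a p =>
        have h3 := hV.1
        unfold WN_ok at h3
        rw [Bool.and_eq_true] at h3
        simpa using h3.2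
    rw [hal b List.mem_cons_self, h3, h5] at h1
    simp only [Bool.not_true, Bool.false_or] at h1
    have h6 : ((r + 1 - WN_w b : ℕ) : ℤ) = r - b.w := by
      rw [Nat.ble_eq] at h3
      rw [Nat.cast_sub h3, WN_w_eq b]
      push_cast
      ring
    obtain ⟨r', hr, hl⟩ := ih (b :: p) (r + 1 - WN_w b)
      (fun l hl => hal l (List.mem_cons_of_mem _ hl)) hV.2 (by rw [h6]; linarith) h1
    refine ⟨r', ?_, ?_⟩
    · rw [hr, h6, List.map_cons, List.sum_cons]
      ring
    · rw [List.reverse_cons, List.append_assoc]
      exact hl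

theorem WN_tet_iff {p : List Lc} {b : Lc} (h : WN_tet p b = true) :
    ∃ r, p = .T2 :: .T1 :: .T2 :: r ∧ b = .T1 := by
  unfold WN_tet at h
  split at h
  · exact ⟨_, rfl, rfl⟩
  · exact absurd h (by decide)

theorem WN_Vc_aux (q : List Lc) : ∀ p : List Lc,
    (∀ k, k + 1 < (p.reverse ++ q).length →
      okPair ((p.reverse ++ q).getD k .C0) ((p.reverse ++ q).getD (k + 1) .C0) = true) →
    (∀ k, k + 3 < (p.reverse ++ q).length → ¬ ((p.reverse ++ q).getD k .C0 = .T2 ∧
      (p.reverse ++ q).getD (k + 1) .C0 = .T1 ∧ (p.reverse ++ q).getD (k + 2) .C0 = .T2 ∧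
      (p.reverse ++ q).getD (k + 3) .C0 = .T1)) → WN_Vc p q := by
  induction q with
  | nil => intro p _ _; trivial
  | cons b q ih =>
    intro p h1 h2
    have e : (b :: p).reverse ++ q = p.reverse ++ b :: q := by simp
    refine ⟨?_, ih (b :: p) (by rw [e]; exact h1) (by rw [e]; exact h2)⟩
    have key : ∀ (r m : List Lc) (j : ℕ), (r.reverse ++ m).getD (r.length + j) .C0 = m.getD j .C0 := by
      intro r m j
      rw [List.getD_append_right _ _ _ _ (by simp)]
      congr 1
      simp
    cases p with
    | nil => rfl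
    | cons a r =>
      unfold WN_ok
      rw [Bool.and_eq_true]
      have e1 : (a :: r).reverse ++ b :: q = r.reverse ++ a :: b :: q := by simp
      constructor
      · have h3 := h1 r.length (by simp)
        rw [e1] at h3
        have h4 := key r (a :: b :: q) 0
        have h5 := key r (a :: b :: q) 1
        rw [Nat.add_zero] at h4
        rw [h4, h5] at h3
        exact h3
      · rw [Bool.not_eq_true']
        by_contra hc
        obtain ⟨s, hs, hb⟩ := WN_tet_iff (Bool.not_eq_false _ ▸ hc)
        have e2 : (a :: r).reverse ++ b :: q = s.reverse ++ .T2 :: .T1 :: .T2 :: .T1 :: q := by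
          rw [hs, hb]; simp
        refine h2 s.length (by rw [e2]; simp) ?_
        rw [e2]
        have h4 := key s (.T2 :: .T1 :: .T2 :: .T1 :: q) 0
        rw [Nat.add_zero] at h4
        exact ⟨h4, key s _ 1, key s _ 2, key s _ 3⟩

theorem WN_cl {w : List Lc} {k : ℕ} (h : k < w.length) : cl w k = w.getD k .C0 := by
  unfold cl
  rw [Nat.mod_eq_of_lt h]

theorem WN_Vc_of {w : List Lc} (h : okWord w = true) : WN_Vc [] w := by
  unfold okWord at h
  rw [Bool.and_eq_true, List.all_eq_true] at h
  have h1 := fun k hk => h.1 k (List.mem_range.2 hk)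
  refine WN_Vc_aux w [] (fun k hk => ?_) (fun k hk hc => ?_)
  · simp only [List.reverse_nil, List.nil_append] at hk ⊢
    have h2 := h1 k (by omega)
    rw [Bool.and_eq_true] at h2
    rw [← WN_cl (by omega), ← WN_cl hk]
    exact h2.1
  · simp only [List.reverse_nil, List.nil_append] at hk hc
    have h2 := h1 k (by omega)
    rw [Bool.and_eq_true] at h2
    have h3 := h2.2
    rw [WN_cl (w := w) (k := k) (by omega), WN_cl (w := w) (k := k + 1) (by omega),
      WN_cl (w := w) (k := k + 2) (by omega), WN_cl (w := w) (k := k + 3) (by omega), hc.1, hc.2.1,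
      hc.2.2.1, hc.2.2.2] at h3
    exact absurd h3 (by decide)

/-- the check at the leaves for length 8 -/
def WN_leaf8 : List Lc → ℕ → Bool
  | [x7, x6, x5, x4, x3, x2, x1, x0], r =>
    Nat.beq r 0 || (!(okPair x7 x0) || (!(okWord [x0, x1, x2, x3, x4, x5, x6, x7]) ||
      (badLc [x0, x1, x2, x3, x4, x5, x6, x7] || poorLc [x0, x1, x2, x3, x4, x5, x6, x7])))
  | _, _ => true

/-- the check at the leaves: there is no cyclic word -/
def WN_leaf (p : List Lc) (_ : ℕ) : Bool := !(okWord p.reverse)

end Pool.Agent.W_fb73a4_t7
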