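import Pool.Agent.W_fb73a4_t7.WN0

/-!
[T7] WN8A: the check of the words of length 8, by first letter, part A.
-/

set_option autoImplicit false

namespace Pool.Agent.W_fb73a4_t7

theorem WN8_0 : WN_srch (fun _ => true) WN_leaf8 7 [.T1] 4 = true := by decide +kernel
theorem WN8_1 : WN_srch (fun _ => true) WN_leaf8 7 [.T2] 4 = true := by decide +kernel
theorem WN8_2 : WN_srch (fun _ => true) WN_leaf8 7 [.N] 3 = true := by decide +kernel
theorem WN8_3 : WN_srch (fun _ => true) WN_leaf8 7 [.O] 2 = true := by decide +kernel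

end Pool.Agent.W_fb73a4_t7
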